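import Pool.Agent.Lib.MP_0430e4_lc.All.Defs

/-!
# Module WIN: the window function
-/

set_option autoImplicit false

namespace Pool.Agent.Lib.MP_0430e4_lc.All

open Finset Polynomial

/-- The sine of the window. -/
noncomputable def wS (t J : ℕ) (a : ℤ) : ℝ :=
  Real.sin (Real.pi / ((J : ℝ) + 2) * ((a : ℝ) - (t : ℝ) + (J : ℝ) + 1))

theorem wS_rec (t J : ℕ) (a : ℤ) :
    wS t J (a - 1) + wS t J (a + 1) = 2 * Real.cos (Real.pi / ((J : ℝ) + 2)) * wS t J a := by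
  unfold wS
  set θ := Real.pi / ((J : ℝ) + 2) with hθ
  have e1 : θ * (((a - 1 : ℤ) : ℝ) - (t : ℝ) + (J : ℝ) + 1)
      = θ * ((a : ℝ) - (t : ℝ) + (J : ℝ) + 1) - θ := by
    push_cast; ring
  have e2 : θ * (((a + 1 : ℤ) : ℝ) - (t : ℝ) + (J : ℝ) + 1)
      = θ * ((a : ℝ) - (t : ℝ) + (J : ℝ) + 1) + θ := by
    push_cast; ring
  rw [e1, e2, Real.sin_add, Real.sin_sub]
  ring

theorem wS_top (t J : ℕ) : wS t J ((t : ℤ) + 1) = 0 := by
  unfold wS
  have hJ : ((J : ℝ) + 2) ≠ 0 := by positivity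
  have e : Real.pi / ((J : ℝ) + 2) * ((((t : ℤ) + 1 : ℤ) : ℝ) - (t : ℝ) + (J : ℝ) + 1)
      = Real.pi := by
    push_cast
    field_simp
    ring
  rw [e, Real.sin_pi]

theorem wS_bot (t J : ℕ) : wS t J ((t : ℤ) - J - 1) = 0 := by
  unfold wS
  have e : Real.pi / ((J : ℝ) + 2) * ((((t : ℤ) - J - 1 : ℤ) : ℝ) - (t : ℝ) + (J : ℝ) + 1)
      = 0 := by
    push_cast
    ring
  rw [e, Real.sin_zero]

theorem wS_pos (t J : ℕ) {a : ℤ} (h1 : (t : ℤ) - J ≤ a) (h2 : a ≤ t) : 0 < wS t J a := by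
  unfold wS
  have hJ : (0 : ℝ) < (J : ℝ) + 2 := by positivity
  have h1' : (t : ℝ) - J ≤ (a : ℝ) := by exact_mod_cast h1
  have h2' : (a : ℝ) ≤ t := by exact_mod_cast h2
  apply Real.sin_pos_of_pos_of_lt_pi
  · have : (0 : ℝ) < (a : ℝ) - (t : ℝ) + (J : ℝ) + 1 := by linarith
    have := Real.pi_pos
    positivity
  · rw [div_mul_eq_mul_div, div_lt_iff₀ hJ]
    have := Real.pi_pos
    nlinarith

theorem wv_in {n t J : ℕ} {a : ℤ} (h1 : (t : ℤ) - J ≤ a) (h2 : a ≤ t) :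
    wv n t J a = wS t J a / Real.sqrt ((n.choose a.toNat : ℕ) : ℝ) := by
  unfold wv wS
  rw [if_pos ⟨h1, h2⟩]

theorem wv_out {n t J : ℕ} {a : ℤ} (h : a < (t : ℤ) - J ∨ (t : ℤ) < a) :
    wv n t J a = 0 := by
  unfold wv
  rw [if_neg]
  rintro ⟨h1, h2⟩
  omega

theorem wv_nonneg (n t J : ℕ) (a : ℤ) : 0 ≤ wv n t J a := by
  by_cases h : (t : ℤ) - J ≤ a ∧ a ≤ t
  · rw [wv_in h.1 h.2]
    exact div_nonneg (wS_pos t J h.1 h.2).le (Real.sqrt_nonneg _)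
  · rw [wv_out (by omega)]

theorem wv_supp {n t J : ℕ} {a : ℤ} (h : wv n t J a ≠ 0) : (t : ℤ) - J ≤ a ∧ a ≤ t := by
  by_contra hcon
  exact h (wv_out (by omega))

theorem wv_pos {n t J : ℕ} (hJ : J + 1 ≤ t) (ht : 2 * t ≤ n) {a : ℤ} (h1 : (t : ℤ) - J ≤ a)
    (h2 : a ≤ t) : 0 < wv n t J a := by
  rw [wv_in h1 h2]
  apply div_pos (wS_pos t J h1 h2)
  apply Real.sqrt_pos.2
  exact_mod_cast Nat.choose_pos (by omega)

/-- one step of the binomial ratio, with square roots -/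
theorem win_coef {n a : ℕ} (ha : a + 1 ≤ n) :
    Real.sqrt ((n.choose (a + 1) : ℕ) : ℝ) * ((a : ℝ) + 1)
      = Real.sqrt (((a : ℝ) + 1) * ((n : ℝ) - a)) * Real.sqrt ((n.choose a : ℕ) : ℝ) ∧
    Real.sqrt ((n.choose a : ℕ) : ℝ) * ((n : ℝ) - a)
      = Real.sqrt (((a : ℝ) + 1) * ((n : ℝ) - a)) * Real.sqrt ((n.choose (a + 1) : ℕ) : ℝ) := by
  have hc : ((n.choose (a + 1) : ℕ) : ℝ) * ((a : ℝ) + 1) = ((n.choose a : ℕ) : ℝ) * ((n : ℝ) - a) := by
    have h := Nat.choose_succ_right_eq n a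
    have h' : ((n.choose (a + 1) * (a + 1) : ℕ) : ℝ) = ((n.choose a * (n - a) : ℕ) : ℝ) := by
      rw [h]
    push_cast [Nat.cast_sub (by omega : a ≤ n)] at h'
    exact h'
  have hn : (0 : ℝ) ≤ (n : ℝ) - a := by
    have : ((a + 1 : ℕ) : ℝ) ≤ (n : ℝ) := by exact_mod_cast ha
    push_cast at this
    linarith
  have ha0 : (0 : ℝ) ≤ (a : ℝ) + 1 := by positivity
  constructor
  · rw [← Real.sqrt_mul (by positivity)]
    rw [show ((a : ℝ) + 1) * ((n : ℝ) - a) * ((n.choose a : ℕ) : ℝ)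
        = ((n.choose (a + 1) : ℕ) : ℝ) * ((a : ℝ) + 1) ^ 2 by
      rw [show ((n.choose (a + 1) : ℕ) : ℝ) * ((a : ℝ) + 1) ^ 2
        = ((n.choose (a + 1) : ℕ) : ℝ) * ((a : ℝ) + 1) * ((a : ℝ) + 1) by ring, hc]
      ring]
    rw [Real.sqrt_mul (by positivity), Real.sqrt_sq ha0]
  · rw [← Real.sqrt_mul (by positivity)]
    rw [show ((a : ℝ) + 1) * ((n : ℝ) - a) * ((n.choose (a + 1) : ℕ) : ℝ)
        = ((n.choose a : ℕ) : ℝ) * ((n : ℝ) - a) ^ 2 by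
      rw [show ((n.choose a : ℕ) : ℝ) * ((n : ℝ) - a) ^ 2
        = ((n.choose a : ℕ) : ℝ) * ((n : ℝ) - a) * ((n : ℝ) - a) by ring, ← hc]
      ring]
    rw [Real.sqrt_mul (by positivity), Real.sqrt_sq hn]

theorem win_left {n t J a : ℕ} (htn : t ≤ n) (h1 : (t : ℤ) - J ≤ (a : ℤ)) (h2 : a + 1 ≤ t) :
    ((a : ℝ) + 1) * wv n t J (a : ℤ)
      = Real.sqrt (((a : ℝ) + 1) * ((n : ℝ) - a)) * wS t J (a : ℤ)
        / Real.sqrt ((n.choose (a + 1) : ℕ) : ℝ) := by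
  rw [wv_in h1 (by omega)]
  have p1 : 0 < Real.sqrt ((n.choose a : ℕ) : ℝ) := by
    apply Real.sqrt_pos.mpr; exact_mod_cast Nat.choose_pos (by omega)
  have p2 : 0 < Real.sqrt ((n.choose (a + 1) : ℕ) : ℝ) := by
    apply Real.sqrt_pos.mpr; exact_mod_cast Nat.choose_pos (by omega)
  have hc := (win_coef (n := n) (a := a) (by omega)).1
  simp only [Int.toNat_natCast]
  rw [← mul_div_assoc, div_eq_div_iff p1.ne' p2.ne']
  calc ((a : ℝ) + 1) * wS t J (a : ℤ) * Real.sqrt ((n.choose (a + 1) : ℕ) : ℝ)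
      = (Real.sqrt ((n.choose (a + 1) : ℕ) : ℝ) * ((a : ℝ) + 1)) * wS t J (a : ℤ) := by ring
    _ = _ := by rw [hc]; ring

theorem win_right {n t J a : ℕ} (htn : t ≤ n) (h1 : (t : ℤ) - J ≤ (a : ℤ) + 1) (h2 : a + 1 ≤ t) :
    ((n : ℝ) - a) * wv n t J ((a : ℤ) + 1)
      = Real.sqrt (((a : ℝ) + 1) * ((n : ℝ) - a)) * wS t J ((a : ℤ) + 1)
        / Real.sqrt ((n.choose a : ℕ) : ℝ) := by
  rw [wv_in h1 (by omega)]
  have p1 : 0 < Real.sqrt ((n.choose a : ℕ) : ℝ) := by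
    apply Real.sqrt_pos.mpr; exact_mod_cast Nat.choose_pos (by omega)
  have p2 : 0 < Real.sqrt ((n.choose (a + 1) : ℕ) : ℝ) := by
    apply Real.sqrt_pos.mpr; exact_mod_cast Nat.choose_pos (by omega)
  have hc := (win_coef (n := n) (a := a) (by omega)).2
  have e : ((a : ℤ) + 1).toNat = a + 1 := by omega
  rw [e]
  rw [← mul_div_assoc, div_eq_div_iff p2.ne' p1.ne']
  calc ((n : ℝ) - a) * wS t J ((a : ℤ) + 1) * Real.sqrt ((n.choose a : ℕ) : ℝ)
      = (Real.sqrt ((n.choose a : ℕ) : ℝ) * ((n : ℝ) - a)) * wS t J ((a : ℤ) + 1) := by ring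
    _ = _ := by rw [hc]; ring

/-- `W_{t-J} ≤ W_{a+1}` for `t - J ≤ a + 1 ≤ t`. -/
theorem win_W {n t J a : ℕ} (htn : 2 * t ≤ n) (hJ : J ≤ t) (h1 : (t : ℤ) - J ≤ (a : ℤ) + 1)
    (h2 : a + 1 ≤ t) :
    Real.sqrt (((t : ℝ) - (J : ℝ)) * ((n : ℝ) - (t : ℝ) + (J : ℝ) + 1))
      ≤ Real.sqrt (((a : ℝ) + 1) * ((n : ℝ) - a)) := by
  apply Real.sqrt_le_sqrt
  have h1' : (t : ℝ) - J ≤ (a : ℝ) + 1 := by exact_mod_cast h1
  have h2' : (a : ℝ) + 1 ≤ t := by exact_mod_cast h2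
  have h3 : 2 * (t : ℝ) ≤ n := by exact_mod_cast htn
  nlinarith

/-- The left neighbour. -/
theorem win_lower_left {n t J a : ℕ} (htn : 2 * t ≤ n) (hJ : J ≤ t)
    (h1 : (t : ℤ) - J ≤ (a : ℤ) + 1) (h2 : a + 1 ≤ t) :
    Real.sqrt (((t : ℝ) - (J : ℝ)) * ((n : ℝ) - (t : ℝ) + (J : ℝ) + 1)) * wS t J (a : ℤ)
        / Real.sqrt ((n.choose (a + 1) : ℕ) : ℝ)
      ≤ ((a : ℝ) + 1) * wv n t J (a : ℤ) := by
  rcases eq_or_lt_of_le h1 with h | h
  · have e : (a : ℤ) = (t : ℤ) - J - 1 := by omega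
    have hS : wS t J (a : ℤ) = 0 := by rw [e]; exact wS_bot t J
    rw [hS, mul_zero, zero_div]
    exact mul_nonneg (by positivity) (wv_nonneg _ _ _ _)
  · rw [win_left (by omega) (by omega) h2]
    apply div_le_div_of_nonneg_right _ (Real.sqrt_nonneg _)
    apply mul_le_mul_of_nonneg_right (win_W htn hJ (by omega) h2)
    exact (wS_pos t J (by omega) (by omega)).le

/-- The right neighbour. -/
theorem win_lower_right {n t J a : ℕ} (htn : 2 * t ≤ n) (hJ : J ≤ t)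
    (h1 : (t : ℤ) - J ≤ (a : ℤ)) (h2 : a ≤ t) :
    Real.sqrt (((t : ℝ) - (J : ℝ)) * ((n : ℝ) - (t : ℝ) + (J : ℝ) + 1)) * wS t J ((a : ℤ) + 1)
        / Real.sqrt ((n.choose a : ℕ) : ℝ)
      ≤ ((n : ℝ) - a) * wv n t J ((a : ℤ) + 1) := by
  rcases eq_or_lt_of_le h2 with h | h
  · have hS : wS t J ((a : ℤ) + 1) = 0 := by rw [h]; exact wS_top t J
    rw [hS, mul_zero, zero_div]
    have : (a : ℝ) ≤ n := by
      have : a ≤ n := by omega
      exact_mod_cast this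
    exact mul_nonneg (by linarith) (wv_nonneg _ _ _ _)
  · rw [win_right (by omega) (by omega) h]
    apply div_le_div_of_nonneg_right _ (Real.sqrt_nonneg _)
    apply mul_le_mul_of_nonneg_right (win_W htn hJ (by omega) h)
    exact (wS_pos t J (by omega) (by omega)).le

theorem we_nonneg {n t J : ℕ} (hJ : J + 1 ≤ t) (ht : 2 * t ≤ n) {a : ℤ} (ha : 0 ≤ a)
    (han : a ≤ n) : 0 ≤ we n t J a := by
  have ha' : (0 : ℝ) ≤ (a : ℝ) := by exact_mod_cast ha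
  have han' : (a : ℝ) ≤ (n : ℝ) := by exact_mod_cast han
  unfold we
  by_cases h : (t : ℤ) - J ≤ a ∧ a ≤ t
  · obtain ⟨h1, h2⟩ := h
    obtain ⟨b, rfl⟩ : ∃ b : ℕ, a = (b : ℤ) + 1 := ⟨(a - 1).toNat, by omega⟩
    have hL := win_lower_left (n := n) (t := t) (J := J) (a := b) ht (by omega) h1 (by omega)
    have hR := win_lower_right (n := n) (t := t) (J := J) (a := b + 1) ht (by omega)
      (by push_cast; omega) (by omega)
    have hrec := wS_rec t J ((b : ℤ) + 1)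
    have hin : wv n t J ((b : ℤ) + 1)
        = wS t J ((b : ℤ) + 1) / Real.sqrt ((n.choose (b + 1) : ℕ) : ℝ) := by
      rw [wv_in h1 h2]
      have e : ((b : ℤ) + 1).toNat = b + 1 := by omega
      rw [e]
    unfold Impr.adjP lv
    have e1 : (b : ℤ) + 1 - 1 = (b : ℤ) := by ring
    have e2 : ((b + 1 : ℕ) : ℤ) = (b : ℤ) + 1 := by push_cast; ring
    rw [e2] at hR
    rw [e1] at hrec ⊢
    rw [hin]
    have hc : (((b : ℤ) + 1 : ℤ) : ℝ) = (b : ℝ) + 1 := by push_cast; ring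
    rw [hc]
    have hc2 : (((b + 1 : ℕ)) : ℝ) = (b : ℝ) + 1 := by push_cast; ring
    rw [hc2] at hR
    set W := Real.sqrt (((t : ℝ) - (J : ℝ)) * ((n : ℝ) - (t : ℝ) + (J : ℝ) + 1)) with hW
    have key : W * wS t J (b : ℤ) / Real.sqrt ((n.choose (b + 1) : ℕ) : ℝ)
        + W * wS t J ((b : ℤ) + 1 + 1) / Real.sqrt ((n.choose (b + 1) : ℕ) : ℝ)
        = 2 * Real.cos (Real.pi / ((J : ℝ) + 2)) * W
          * (wS t J ((b : ℤ) + 1) / Real.sqrt ((n.choose (b + 1) : ℕ) : ℝ)) := by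
      rw [← add_div, ← mul_add, hrec]
      ring
    linarith
  · rw [wv_out (a := a) (by omega), mul_zero, sub_zero]
    unfold Impr.adjP
    have := wv_nonneg n t J (a - 1)
    have := wv_nonneg n t J (a + 1)
    apply add_nonneg
    · exact mul_nonneg ha' (wv_nonneg _ _ _ _)
    · exact mul_nonneg (by linarith) (wv_nonneg _ _ _ _)

theorem we_supp {n t J : ℕ} (hJ : J + 1 ≤ t) {a : ℤ} (h : we n t J a ≠ 0) :
    (t : ℤ) - J - 1 ≤ a ∧ a ≤ t + 1 := by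
  by_contra hcon
  apply h
  unfold we Impr.adjP
  rw [wv_out (a := a - 1) (by omega), wv_out (a := a + 1) (by omega), wv_out (a := a) (by omega)]
  ring

theorem win_choose_mono {n a t : ℕ} (h : a ≤ t) (ht : 2 * t ≤ n) : n.choose a ≤ n.choose t := by
  induction t, h using Nat.le_induction with
  | base => exact le_rfl
  | succ m hm ih =>
    exact (ih (by omega)).trans (Nat.choose_le_succ_of_lt_half_left (by omega))

/-- the value of the window: Cauchy-Schwarz -/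
theorem wv_cs {n t J : ℕ} (hJ : J + 1 ≤ t) (ht : 2 * t ≤ n) :
    (∑ a ∈ range (n + 1), ((n.choose a : ℕ) : ℝ) * wv n t J a) ^ 2
      ≤ (J + 1) * ((n.choose t : ℕ) : ℝ)
        * ∑ a ∈ range (n + 1), ((n.choose a : ℕ) : ℝ) * wv n t J a ^ 2 := by
  classical
  set F : ℕ → ℝ := fun a => if t - J ≤ a ∧ a ≤ t then Real.sqrt ((n.choose a : ℕ) : ℝ) else 0
    with hF
  set G : ℕ → ℝ := fun a => Real.sqrt ((n.choose a : ℕ) : ℝ) * wv n t J a with hG
  have h1 := sum_mul_sq_le_sq_mul_sq (range (n + 1)) F G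
  have e1 : ∀ a ∈ range (n + 1), F a * G a = ((n.choose a : ℕ) : ℝ) * wv n t J a := by
    intro a _
    simp only [hF, hG]
    split_ifs with h
    · rw [← mul_assoc, Real.mul_self_sqrt (Nat.cast_nonneg _)]
    · rw [wv_out (a := (a : ℤ)) (by omega)]
      ring
  have e2 : ∀ a ∈ range (n + 1), G a ^ 2 = ((n.choose a : ℕ) : ℝ) * wv n t J a ^ 2 := by
    intro a _
    simp only [hG]
    rw [mul_pow, Real.sq_sqrt (Nat.cast_nonneg _)]
  rw [sum_congr rfl e1, sum_congr rfl e2] at h1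
  refine h1.trans ?_
  apply mul_le_mul_of_nonneg_right _
    (sum_nonneg fun a _ => mul_nonneg (Nat.cast_nonneg _) (sq_nonneg _))
  have e3 : ∀ a ∈ range (n + 1), F a ^ 2 = if t - J ≤ a ∧ a ≤ t then ((n.choose a : ℕ) : ℝ) else 0 := by
    intro a _
    simp only [hF]
    split_ifs
    · rw [Real.sq_sqrt (Nat.cast_nonneg _)]
    · norm_num
  rw [sum_congr rfl e3, ← sum_filter]
  have hcard : (((range (n + 1)).filter fun a => t - J ≤ a ∧ a ≤ t)).card ≤ J + 1 := by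
    have hsub : ((range (n + 1)).filter fun a => t - J ≤ a ∧ a ≤ t) ⊆ Icc (t - J) t := by
      intro x hx
      rw [mem_filter] at hx
      rw [mem_Icc]
      exact hx.2
    refine (card_le_card hsub).trans ?_
    rw [Nat.card_Icc]
    omega
  calc ∑ a ∈ (range (n + 1)).filter (fun a => t - J ≤ a ∧ a ≤ t), ((n.choose a : ℕ) : ℝ)
      ≤ ∑ a ∈ (range (n + 1)).filter (fun a => t - J ≤ a ∧ a ≤ t), ((n.choose t : ℕ) : ℝ) := by
        apply sum_le_sum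
        intro a ha
        rw [mem_filter] at ha
        exact_mod_cast win_choose_mono ha.2.2 ht
    _ = (((range (n + 1)).filter fun a => t - J ≤ a ∧ a ≤ t).card : ℝ) * ((n.choose t : ℕ) : ℝ) := by
        rw [sum_const, nsmul_eq_mul]
    _ ≤ (J + 1) * ((n.choose t : ℕ) : ℝ) := by
        apply mul_le_mul_of_nonneg_right _ (Nat.cast_nonneg _)
        exact_mod_cast hcard

end Pool.Agent.Lib.MP_0430e4_lc.All
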