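import Pool.Agent.Lib.MP_0430e4_lc.All.PAIR
import Pool.Agent.Lib.MP_0430e4_lc.All.WIN

/-!
# The mass polynomial of the window certificate
-/

set_option autoImplicit false

namespace Pool.Agent.Lib.MP_0430e4_lc.All

open Finset Polynomial

theorem base_eq (n t J : ℕ) :
    base n t J = ∑ a ∈ range (n + 1), ∑ b ∈ range (n + 1),
      C (wv n t J a * wv n t J b) * pp n a b := by
  unfold base
  exact mp_cv_radial n (wv n t J) (wv n t J)

theorem lop_base_eq (n t J : ℕ) :
    lop n (lv n t J) (base n t J) = ∑ a ∈ range (n + 1), ∑ b ∈ range (n + 1),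
      C (we n t J a * wv n t J b) * pp n a b := by
  unfold base
  rw [lop_mp]
  have h1 : (fun y : Fin n → Bool => (∑ i, Impr.cv (wf n t J) (wf n t J) (Tensor.flp y i))
      - lv n t J * Impr.cv (wf n t J) (wf n t J) y)
      = Impr.cv (fun y : Fin n → Bool => we n t J (Impr.wt y)) (fun y => wv n t J (Impr.wt y)) := by
    funext y
    rw [Impr.cv_flp]
    unfold Impr.cv
    rw [Finset.mul_sum, ← Finset.sum_sub_distrib]
    apply Finset.sum_congr rfl
    intro z _
    have h2 : ∑ i, wf n t J (Tensor.flp z i) = Impr.adjP n (wv n t J) (Impr.wt z) :=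
      Impr.sum_flp_radial (wv n t J) z
    simp only []
    rw [h2]
    unfold we wf
    ring
  rw [h1]
  exact mp_cv_radial n (we n t J) (wv n t J)

theorem base_coeff_nonneg (n t J : ℕ) (k : ℕ) : 0 ≤ (base n t J).coeff k := by
  rw [base_eq, finsetSum_coeff]
  apply Finset.sum_nonneg
  intro a _
  rw [finsetSum_coeff]
  apply Finset.sum_nonneg
  intro b _
  rw [coeff_C_mul]
  exact mul_nonneg (mul_nonneg (wv_nonneg _ _ _ _) (wv_nonneg _ _ _ _)) (pp_coeff_nonneg _ _ _ _)

theorem lop_base_coeff_nonneg {n t J : ℕ} (hJ : J + 1 ≤ t) (ht : 2 * t ≤ n) (k : ℕ) :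
    0 ≤ (lop n (lv n t J) (base n t J)).coeff k := by
  rw [lop_base_eq, finsetSum_coeff]
  apply Finset.sum_nonneg
  intro a ha
  rw [finsetSum_coeff]
  apply Finset.sum_nonneg
  intro b _
  rw [coeff_C_mul]
  rw [Finset.mem_range] at ha
  exact mul_nonneg (mul_nonneg (we_nonneg hJ ht (by positivity) (by omega)) (wv_nonneg _ _ _ _))
    (pp_coeff_nonneg _ _ _ _)

theorem mac_base_coeff_nonneg (n t J : ℕ) (j : ℕ) : 0 ≤ (mac n (base n t J)).coeff j := by
  unfold base
  rw [mac_mp_coeff]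
  apply Finset.sum_nonneg
  intro x _
  split_ifs
  · rw [Impr.cv_fourier]
    exact mul_self_nonneg _
  · exact le_rfl

theorem base_natDegree {n t J : ℕ} : (base n t J).natDegree ≤ 2 * t := by
  rw [base_eq]
  refine natDegree_sum_le_of_forall_le _ _ (fun a _ => ?_)
  refine natDegree_sum_le_of_forall_le _ _ (fun b _ => ?_)
  by_cases ha : wv n t J a = 0
  · rw [ha]
    simp
  by_cases hb : wv n t J b = 0
  · rw [hb]
    simp
  have h1 := (wv_supp ha).2
  have h2 := (wv_supp hb).2
  refine (natDegree_C_mul_le _ _).trans ((pp_natDegree_le n a b).trans ?_)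
  omega

theorem base_sum_wt {n : ℕ} (F : ℕ → ℝ) : ∑ y : Fin n → Bool, F (Impr.wt y)
    = ∑ b ∈ range (n + 1), ((n.choose b : ℕ) : ℝ) * F b := by
  have := Impr.sum_wt (α := Fin n) F
  rw [Fintype.card_fin] at this
  exact this

theorem base_coeff_zero (n t J : ℕ) : (base n t J).coeff 0
    = ∑ a ∈ range (n + 1), ((n.choose a : ℕ) : ℝ) * wv n t J a ^ 2 := by
  unfold base
  rw [mp_coeff_zero, ← base_sum_wt (fun a => wv n t J a ^ 2)]
  unfold Impr.cv
  apply Finset.sum_congr rfl
  intro y _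
  have h1 : (fun i => xor false (y i)) = y := by
    funext i
    simp
  rw [h1]
  unfold wf
  ring

theorem base_eval_one (n t J : ℕ) : (base n t J).eval 1
    = (∑ a ∈ range (n + 1), ((n.choose a : ℕ) : ℝ) * wv n t J a) ^ 2 := by
  unfold base
  rw [mp_eval_one, Impr.cv_sum, ← base_sum_wt (fun a => wv n t J a), sq]
  rfl

theorem base_val {n t J : ℕ} (hJ : J + 1 ≤ t) (ht : 2 * t ≤ n) :
    0 < (base n t J).coeff 0 ∧
    (base n t J).eval 1 ≤ (J + 1) * ((n.choose t : ℕ) : ℝ) * (base n t J).coeff 0 := by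
  rw [base_coeff_zero, base_eval_one]
  refine ⟨?_, wv_cs hJ ht⟩
  apply Finset.sum_pos'
  · intro a _
    positivity
  · refine ⟨t, Finset.mem_range.2 (by omega), ?_⟩
    have h1 : 0 < wv n t J (t : ℤ) := wv_pos hJ ht (by omega) le_rfl
    have h2 : (0 : ℝ) < ((n.choose t : ℕ) : ℝ) := by
      exact_mod_cast Nat.choose_pos (by omega)
    positivity

theorem base_eval_one_pos {n t J : ℕ} (hJ : J + 1 ≤ t) (ht : 2 * t ≤ n) :
    0 < (base n t J).eval 1 := by
  rw [base_eval_one]
  apply pow_pos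
  apply Finset.sum_pos'
  · intro a _
    exact mul_nonneg (by positivity) (wv_nonneg _ _ _ _)
  · refine ⟨t, Finset.mem_range.2 (by omega), ?_⟩
    have h1 : 0 < wv n t J (t : ℤ) := wv_pos hJ ht (by omega) le_rfl
    have h2 : (0 : ℝ) < ((n.choose t : ℕ) : ℝ) := by
      exact_mod_cast Nat.choose_pos (by omega)
    positivity

end Pool.Agent.Lib.MP_0430e4_lc.All
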