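import Pool.Agent.Lib.MP_0430e4_lc.All.Defs

/-!
MODULE MODE: every `i` is the mode of a hypergeometric distribution.
-/

set_option autoImplicit false

namespace Pool.Agent.Lib.MP_0430e4_lc.All

open Finset Polynomial

namespace Mode

theorem step (n a D j : ℕ) :
    (a.choose (j + 1) * (n - a).choose (D + (j + 1))) * ((j + 1) * (D + j + 1)) =
      (a.choose j * (n - a).choose (D + j)) * ((a - j) * (n - a - (D + j))) := by
  have h1 := Nat.choose_succ_right_eq a j
  have h2 := Nat.choose_succ_right_eq (n - a) (D + j)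
  have e : D + (j + 1) = D + j + 1 := by omega
  rw [e]
  calc (a.choose (j + 1) * (n - a).choose (D + j + 1)) * ((j + 1) * (D + j + 1))
      = (a.choose (j + 1) * (j + 1)) * ((n - a).choose (D + j + 1) * (D + j + 1)) := by ring
    _ = (a.choose j * (a - j)) * ((n - a).choose (D + j) * (n - a - (D + j))) := by rw [h1, h2]
    _ = _ := by ring

theorem down {n a D i : ℕ} (h : (a - i) * (n - a - (D + i)) ≤ (i + 1) * (D + i + 1)) (d : ℕ) :
    a.choose (i + d) * (n - a).choose (D + (i + d)) ≤ a.choose i * (n - a).choose (D + i) := by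
  induction d with
  | zero => simp
  | succ d ih =>
    refine le_trans ?_ ih
    have h1 := step n a D (i + d)
    have h2 : (a - (i + d)) * (n - a - (D + (i + d))) ≤ (i + d + 1) * (D + (i + d) + 1) := by
      calc (a - (i + d)) * (n - a - (D + (i + d))) ≤ (a - i) * (n - a - (D + i)) :=
            Nat.mul_le_mul (by omega) (by omega)
        _ ≤ (i + 1) * (D + i + 1) := h
        _ ≤ _ := Nat.mul_le_mul (by omega) (by omega)
    have h3 : (a.choose (i + d + 1) * (n - a).choose (D + (i + d + 1))) *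
        ((i + d + 1) * (D + (i + d) + 1)) ≤
        (a.choose (i + d) * (n - a).choose (D + (i + d))) *
          ((i + d + 1) * (D + (i + d) + 1)) := by
      rw [h1]
      exact Nat.mul_le_mul_left _ h2
    exact Nat.le_of_mul_le_mul_right h3 (by positivity)

theorem up {n a D i : ℕ} (hi : 1 ≤ i)
    (h : i * (D + i) ≤ (a - (i - 1)) * (n - a - (D + (i - 1)))) (d : ℕ) (hd : d ≤ i) :
    a.choose (i - d) * (n - a).choose (D + (i - d)) ≤ a.choose i * (n - a).choose (D + i) := by
  induction d with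
  | zero => simp
  | succ d ih =>
    refine le_trans ?_ (ih (by omega))
    have h1 := step n a D (i - (d + 1))
    have e : i - (d + 1) + 1 = i - d := by omega
    rw [e] at h1
    have e2 : D + (i - (d + 1)) + 1 = D + (i - d) := by omega
    rw [e2] at h1
    have h2 : (i - d) * (D + (i - d)) ≤
        (a - (i - (d + 1))) * (n - a - (D + (i - (d + 1)))) := by
      calc (i - d) * (D + (i - d)) ≤ i * (D + i) := Nat.mul_le_mul (by omega) (by omega)
        _ ≤ (a - (i - 1)) * (n - a - (D + (i - 1))) := h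
        _ ≤ _ := Nat.mul_le_mul (by omega) (by omega)
    have h3 : (a.choose (i - (d + 1)) * (n - a).choose (D + (i - (d + 1)))) *
        ((i - d) * (D + (i - d))) ≤
        (a.choose (i - d) * (n - a).choose (D + (i - d))) * ((i - d) * (D + (i - d))) := by
      rw [h1]
      exact Nat.mul_le_mul_left _ h2
    have hpos : 0 < (i - d) * (D + (i - d)) := by
      have : 0 < i - d := by omega
      positivity
    exact Nat.le_of_mul_le_mul_right h3 hpos

end Mode

open Mode

theorem exists_mode {n i D : ℕ} (hD : D ≤ 1) (hi : 1 ≤ i) (hn : 4 * i + 8 ≤ n) :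
    ∃ a : ℕ, 2 * (a + D) ≤ n ∧ i ≤ a ∧
      (gp n a D).eval 1 ≤ (n + 1) * (gp n a D).coeff i ∧
      ((i : ℝ) - 1) * n ≤ ((a : ℝ) + D) * (n - (a + D)) := by
  classical
  have hex : ∃ a : ℕ, (i - 1) * n + 2 * i - 1 + D ≤ a * (n - a - D) := by
    refine ⟨n / 2 - D, ?_⟩
    obtain ⟨m, hm⟩ : ∃ m, m = n / 2 := ⟨_, rfl⟩
    obtain ⟨e, rfl⟩ : ∃ e, i = e + 1 := ⟨i - 1, by omega⟩
    rw [← hm]
    have h1 : 2 * m ≤ n := by omega
    have h2 : n ≤ 2 * m + 1 := by omega
    have h3 : m ≤ n - (m - D) - D := by omega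
    have h4 : 2 * e + 6 ≤ m := by omega
    calc (e + 1 - 1) * n + 2 * (e + 1) - 1 + D ≤ e * (2 * m + 1) + 2 * (e + 1) - 1 + 1 := by
          have : (e + 1 - 1) * n ≤ e * (2 * m + 1) := Nat.mul_le_mul (by omega) h2
          omega
      _ ≤ (m - 1) * m := by
          obtain ⟨p, rfl⟩ : ∃ p, m = 2 * e + 6 + p := ⟨m - (2 * e + 6), by omega⟩
          have e1 : 2 * e + 6 + p - 1 = 2 * e + 5 + p := by omega
          rw [e1]
          have e2 : e * (2 * (2 * e + 6 + p) + 1) + 2 * (e + 1) - 1 + 1 =
            e * (2 * (2 * e + 6 + p) + 1) + 2 * (e + 1) := by omega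
          rw [e2]
          nlinarith [Nat.zero_le (e * p), Nat.zero_le (p * p), Nat.zero_le e, Nat.zero_le p]
      _ ≤ (m - D) * (n - (m - D) - D) := Nat.mul_le_mul (by omega) h3
  obtain ⟨a, ha⟩ : ∃ a, a = Nat.find hex := ⟨_, rfl⟩
  have hspec := Nat.find_spec hex
  rw [← ha] at hspec
  have hle : a ≤ n / 2 - D := by
    rw [ha]
    apply Nat.find_min'
    -- repeat of the computation above
    obtain ⟨m, hm⟩ : ∃ m, m = n / 2 := ⟨_, rfl⟩
    obtain ⟨e, rfl⟩ : ∃ e, i = e + 1 := ⟨i - 1, by omega⟩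
    rw [← hm]
    have h1 : 2 * m ≤ n := by omega
    have h2 : n ≤ 2 * m + 1 := by omega
    have h3 : m ≤ n - (m - D) - D := by omega
    have h4 : 2 * e + 6 ≤ m := by omega
    calc (e + 1 - 1) * n + 2 * (e + 1) - 1 + D ≤ e * (2 * m + 1) + 2 * (e + 1) - 1 + 1 := by
          have : (e + 1 - 1) * n ≤ e * (2 * m + 1) := Nat.mul_le_mul (by omega) h2
          omega
      _ ≤ (m - 1) * m := by
          obtain ⟨p, rfl⟩ : ∃ p, m = 2 * e + 6 + p := ⟨m - (2 * e + 6), by omega⟩
          have e1 : 2 * e + 6 + p - 1 = 2 * e + 5 + p := by omega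
          rw [e1]
          have e2 : e * (2 * (2 * e + 6 + p) + 1) + 2 * (e + 1) - 1 + 1 =
            e * (2 * (2 * e + 6 + p) + 1) + 2 * (e + 1) := by omega
          rw [e2]
          nlinarith [Nat.zero_le (e * p), Nat.zero_le (p * p), Nat.zero_le e, Nat.zero_le p]
      _ ≤ (m - D) * (n - (m - D) - D) := Nat.mul_le_mul (by omega) h3
  have h2a : 2 * (a + D) ≤ n := by omega
  have hia : i ≤ a := by
    by_contra hcon
    have h1 : a ≤ i - 1 := by omega
    have h2 : a * (n - a - D) ≤ (i - 1) * n := Nat.mul_le_mul h1 (by omega)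
    omega
  -- minimality
  have hmin : (a - 1) * (n - (a - 1) - D) < (i - 1) * n + 2 * i - 1 + D := by
    have := Nat.find_min hex (m := a - 1) (by omega)
    exact not_le.1 this
  -- substitution
  obtain ⟨p, hp⟩ : ∃ p, a = i + p := ⟨a - i, by omega⟩
  obtain ⟨r, hr⟩ : ∃ r, n = 2 * i + p + D + r := ⟨n - (2 * i + p + D), by omega⟩
  obtain ⟨e, he⟩ : ∃ e, i = e + 1 := ⟨i - 1, by omega⟩
  have hup : (a - i) * (n - a - (D + i)) ≤ (i + 1) * (D + i + 1) := by
    subst hp
    subst hr
    subst he
    have e1 : e + 1 + p - (e + 1) = p := by omega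
    have e2 : 2 * (e + 1) + p + D + r - (e + 1 + p) - (D + (e + 1)) = r := by omega
    have e3 : e + 1 + p - 1 = e + p := by omega
    have e4 : 2 * (e + 1) + p + D + r - (e + p) - D = e + 2 + r := by omega
    have e5 : e + 1 - 1 = e := by omega
    have e6 : e * (2 * (e + 1) + p + D + r) + 2 * (e + 1) - 1 + D =
      e * (2 * (e + 1) + p + D + r) + 2 * e + 1 + D := by omega
    rw [e3, e4, e5, e6] at hmin
    rw [e1, e2]
    nlinarith [hmin]
  have hlo : i * (D + i) ≤ (a - (i - 1)) * (n - a - (D + (i - 1))) := by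
    subst hp
    subst hr
    subst he
    have e1 : e + 1 + p - (e + 1 - 1) = p + 1 := by omega
    have e2 : 2 * (e + 1) + p + D + r - (e + 1 + p) - (D + (e + 1 - 1)) = r + 1 := by omega
    have e3 : 2 * (e + 1) + p + D + r - (e + 1 + p) - D = e + 1 + r := by omega
    have e5 : e + 1 - 1 = e := by omega
    have e6 : e * (2 * (e + 1) + p + D + r) + 2 * (e + 1) - 1 + D =
      e * (2 * (e + 1) + p + D + r) + 2 * e + 1 + D := by omega
    rw [e3, e5, e6] at hspec
    rw [e1, e2]
    nlinarith [hspec]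
  have hmode : ∀ j, j ≤ a →
      a.choose j * (n - a).choose (D + j) ≤ a.choose i * (n - a).choose (D + i) := by
    intro j _
    rcases le_total i j with hij | hij
    · have := down hup (j - i)
      have e1 : i + (j - i) = j := by omega
      rwa [e1] at this
    · have := up hi hlo (i - j) (by omega)
      have e1 : i - (i - j) = j := by omega
      rwa [e1] at this
  refine ⟨a, h2a, hia, ?_, ?_⟩
  · have hc : (gp n a D).coeff i =
        ((a.choose i : ℕ) : ℝ) * (((n - a).choose (D + i) : ℕ) : ℝ) := by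
      unfold gp
      rw [finsetSum_coeff, Finset.sum_eq_single i]
      · rw [coeff_C_mul, coeff_X_pow_self, mul_one]
      · intro b _ hb
        rw [coeff_C_mul, coeff_X_pow, if_neg (fun h => hb h.symm), mul_zero]
      · intro h
        exact absurd (Finset.mem_range.2 (by omega)) h
    have he1 : (gp n a D).eval 1 = ∑ j ∈ range (a + 1),
        ((a.choose j : ℕ) : ℝ) * (((n - a).choose (D + j) : ℕ) : ℝ) := by
      unfold gp
      rw [eval_finsetSum]
      apply Finset.sum_congr rfl
      intro j _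
      rw [eval_mul, eval_C, eval_pow, eval_X, one_pow, mul_one]
    rw [hc, he1]
    calc ∑ j ∈ range (a + 1), ((a.choose j : ℕ) : ℝ) * (((n - a).choose (D + j) : ℕ) : ℝ)
        ≤ ∑ _j ∈ range (a + 1), ((a.choose i : ℕ) : ℝ) * (((n - a).choose (D + i) : ℕ) : ℝ) := by
          apply Finset.sum_le_sum
          intro j hj
          exact_mod_cast hmode j (by rw [Finset.mem_range] at hj; omega)
      _ = ((a : ℝ) + 1) * (((a.choose i : ℕ) : ℝ) * (((n - a).choose (D + i) : ℕ) : ℝ)) := by
          rw [Finset.sum_const, Finset.card_range, nsmul_eq_mul]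
          push_cast
          ring
      _ ≤ ((n : ℝ) + 1) * (((a.choose i : ℕ) : ℝ) * (((n - a).choose (D + i) : ℕ) : ℝ)) := by
          have : (a : ℝ) ≤ n := by
            have : a ≤ n := by omega
            exact_mod_cast this
          gcongr
  · have h1 : (i - 1) * n ≤ (a + D) * (n - (a + D)) := by
      have e1 : n - (a + D) = n - a - D := by omega
      rw [e1]
      calc (i - 1) * n ≤ (i - 1) * n + 2 * i - 1 + D := by omega
        _ ≤ a * (n - a - D) := hspec
        _ ≤ _ := Nat.mul_le_mul (by omega) le_rfl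
    have h2 : (((i - 1) * n : ℕ) : ℝ) ≤ (((a + D) * (n - (a + D)) : ℕ) : ℝ) := by exact_mod_cast h1
    rw [Nat.cast_mul, Nat.cast_mul, Nat.cast_sub hi, Nat.cast_sub (by omega : a + D ≤ n)] at h2
    push_cast at h2
    exact h2

end Pool.Agent.Lib.MP_0430e4_lc.All
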