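import Pool.Agent.Lib.MP_0430e4_lc.All.Defs

/-!
# Module MOM: the first two moments of the hypergeometric distribution through the roots
-/

set_option autoImplicit false

namespace Pool.Agent.Lib.MP_0430e4_lc.All

open Finset Polynomial

/-- Vandermonde -/
theorem mom_vandermonde (a m D : ℕ) :
    ∑ i ∈ range (a + 1), a.choose i * m.choose (D + i) = (a + m).choose (a + D) := by
  rw [Nat.add_choose_eq, Finset.Nat.sum_antidiagonal_eq_sum_range_succ_mk]
  have h1 : ∑ k ∈ range ((a + D).succ), (a.choose k * m.choose (a + D - k))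
      = ∑ k ∈ range (a + 1), (a.choose k * m.choose (a + D - k)) := by
    symm
    apply sum_subset
    · intro x hx
      rw [mem_range] at hx ⊢
      omega
    · intro x _ hx
      rw [mem_range] at hx
      rw [Nat.choose_eq_zero_of_lt (by omega), zero_mul]
  rw [h1, ← sum_range_reflect]
  apply sum_congr rfl
  intro i hi
  rw [mem_range] at hi
  have e1 : a + 1 - 1 - i = a - i := by omega
  have e2 : D + (a - i) = a + D - i := by omega
  rw [e1, e2, Nat.choose_symm (by omega)]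

theorem gp_eval_one {n a D : ℕ} (h : a + D ≤ n) :
    (gp n a D).eval 1 = ((n.choose (a + D) : ℕ) : ℝ) := by
  unfold gp
  rw [eval_finsetSum]
  have h1 := mom_vandermonde a (n - a) D
  have e : a + (n - a) = n := by omega
  rw [e] at h1
  rw [← h1]
  push_cast
  apply sum_congr rfl
  intro i _
  rw [eval_mul, eval_C, eval_pow, eval_X, one_pow, mul_one]

/-- first derivative -/
theorem gp_derivative_eval {n a D : ℕ} (h : a + D ≤ n) :
    (derivative (gp n a D)).eval 1 = (a : ℝ) * (((n - 1).choose (a + D) : ℕ) : ℝ) := by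
  rcases a with _ | b
  · unfold gp
    simp
  unfold gp
  rw [derivative_sum, eval_finsetSum, sum_range_succ']
  have h1 := mom_vandermonde b (n - (b + 1)) (D + 1)
  have e : b + (n - (b + 1)) = n - 1 := by omega
  have e' : b + (D + 1) = b + 1 + D := by omega
  rw [e, e'] at h1
  rw [← h1]
  push_cast
  rw [mul_sum]
  simp only [derivative_C_mul, derivative_X_pow, eval_mul, eval_C, eval_pow, eval_X, one_pow,
    mul_one, Nat.cast_zero, mul_zero, add_zero]
  apply sum_congr rfl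
  intro i _
  have h2 := Nat.add_one_mul_choose_eq b i
  have h3 : ((b : ℝ) + 1) * ((b.choose i : ℕ) : ℝ) = (((b + 1).choose (i + 1) : ℕ) : ℝ) * ((i : ℝ) + 1) := by
    exact_mod_cast h2
  have e2 : D + (i + 1) = D + 1 + i := by omega
  rw [e2, ← mul_assoc, h3]
  push_cast
  ring

theorem mom_d2 (c : ℝ) (i : ℕ) :
    (derivative (derivative (C c * X ^ i : ℝ[X]))).eval 1 = c * ((i : ℝ) * ((i : ℝ) - 1)) := by
  rw [derivative_C_mul, derivative_C_mul, derivative_X_pow, derivative_C_mul, derivative_X_pow]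
  simp only [eval_mul, eval_C, eval_pow, eval_X, one_pow, mul_one]
  rcases i with _ | j
  · simp
  · push_cast
    ring

/-- second derivative -/
theorem gp_derivative2_eval {n a D : ℕ} (h : a + D ≤ n) :
    (derivative (derivative (gp n a D))).eval 1
      = (a : ℝ) * ((a : ℝ) - 1) * (((n - 2).choose (a + D) : ℕ) : ℝ) := by
  unfold gp
  rw [derivative_sum, derivative_sum, eval_finsetSum]
  simp only [mom_d2]
  rcases a with _ | a
  · simp
  rcases a with _ | b
  · simp [sum_range_succ]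
  rw [sum_range_succ', sum_range_succ']
  have h1 := mom_vandermonde b (n - (b + 2)) (D + 2)
  have e : b + (n - (b + 2)) = n - 2 := by omega
  have e' : b + (D + 2) = b + 2 + D := by omega
  rw [e, e'] at h1
  have e3 : b + 1 + 1 + D = b + 2 + D := by omega
  rw [e3, ← h1]
  push_cast
  rw [mul_sum]
  simp only [zero_mul, mul_zero, add_zero, sub_self]
  apply sum_congr rfl
  intro i _
  have h2 := Nat.add_one_mul_choose_eq b i
  have h3 : ((b : ℝ) + 1) * ((b.choose i : ℕ) : ℝ) = (((b + 1).choose (i + 1) : ℕ) : ℝ) * ((i : ℝ) + 1) := by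
    exact_mod_cast h2
  have h4 := Nat.add_one_mul_choose_eq (b + 1) (i + 1)
  have h5 : ((b : ℝ) + 1 + 1) * (((b + 1).choose (i + 1) : ℕ) : ℝ)
      = (((b + 1 + 1).choose (i + 1 + 1) : ℕ) : ℝ) * ((i : ℝ) + 1 + 1) := by
    exact_mod_cast h4
  have e2 : D + (i + 1 + 1) = D + 2 + i := by omega
  have e4 : n - (b + 1 + 1) = n - (b + 2) := by omega
  rw [e2, e4]
  calc (((b + 1 + 1).choose (i + 1 + 1) : ℕ) : ℝ) * (((n - (b + 2)).choose (D + 2 + i) : ℕ) : ℝ)
        * (((i : ℝ) + 1 + 1) * ((i : ℝ) + 1 + 1 - 1))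
      = ((((b + 1 + 1).choose (i + 1 + 1) : ℕ) : ℝ) * ((i : ℝ) + 1 + 1)) * ((i : ℝ) + 1)
        * (((n - (b + 2)).choose (D + 2 + i) : ℕ) : ℝ) := by ring
    _ = ((b : ℝ) + 1 + 1) * ((((b + 1).choose (i + 1) : ℕ) : ℝ) * ((i : ℝ) + 1))
        * (((n - (b + 2)).choose (D + 2 + i) : ℕ) : ℝ) := by rw [← h5]; ring
    _ = _ := by rw [← h3]; ring

/-- sums over the roots -/
theorem rp_facts {ι : Type*} [DecidableEq ι] (s : Finset ι) (y : ι → ℝ) (hy : ∀ j ∈ s, 0 < y j) :
    0 < (∏ j ∈ s, (1 + C (y j) * X) : ℝ[X]).eval 1 ∧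
    (derivative (∏ j ∈ s, (1 + C (y j) * X) : ℝ[X])).eval 1
      = (∏ j ∈ s, (1 + C (y j) * X) : ℝ[X]).eval 1 * ∑ j ∈ s, y j / (1 + y j) ∧
    (derivative (derivative (∏ j ∈ s, (1 + C (y j) * X) : ℝ[X]))).eval 1
      = (∏ j ∈ s, (1 + C (y j) * X) : ℝ[X]).eval 1
        * ((∑ j ∈ s, y j / (1 + y j)) ^ 2 - ∑ j ∈ s, (y j / (1 + y j)) ^ 2) := by
  induction s using Finset.induction_on with
  | empty => simp
  | insert j s hj ih =>
    obtain ⟨h1, h2, h3⟩ := ih (fun i hi => hy i (mem_insert_of_mem hi))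
    have hyj := hy j (mem_insert_self j s)
    rw [prod_insert hj, sum_insert hj, sum_insert hj]
    set P : ℝ[X] := ∏ j ∈ s, (1 + C (y j) * X) with hP
    have d0 : derivative (1 + C (y j) * X : ℝ[X]) = C (y j) := by
      rw [derivative_add, derivative_one, derivative_C_mul_X, zero_add]
    have e1 : (1 + C (y j) * X : ℝ[X]).eval 1 = 1 + y j := by simp
    have hpos : 0 < 1 + y j := by linarith
    refine ⟨?_, ?_, ?_⟩
    · rw [eval_mul, e1]
      positivity
    · rw [derivative_mul, d0, eval_add, eval_mul, eval_mul, eval_C, eval_mul, e1, h2]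
      field_simp
    · rw [derivative_mul, d0, derivative_add, derivative_C_mul, derivative_mul, d0]
      simp only [eval_add, eval_mul, eval_C, eval_one, eval_X, mul_one]
      rw [h2, h3]
      field_simp
      ring

theorem choose_cast_step (m k : ℕ) :
    ((m.choose k : ℕ) : ℝ) * ((m : ℝ) + 1) = (((m + 1).choose k : ℕ) : ℝ) * ((m : ℝ) + 1 - k) := by
  rcases le_or_gt k (m + 1) with h | h
  · have h1 := Nat.choose_mul_succ_eq m k
    have h2 : ((m.choose k * (m + 1) : ℕ) : ℝ) = (((m + 1).choose k * (m + 1 - k) : ℕ) : ℝ) := by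
      rw [h1]
    rw [Nat.cast_mul, Nat.cast_mul, Nat.cast_sub h] at h2
    push_cast at h2
    exact h2
  · rw [Nat.choose_eq_zero_of_lt (by omega), Nat.choose_eq_zero_of_lt (by omega)]
    simp

theorem S1_one_eq {a : ℕ} (y : Fin a → ℝ) : S1 y 1 = ∑ j, y j / (1 + y j) := by
  unfold S1
  apply sum_congr rfl
  intro j _
  rw [one_mul]

theorem gp_S1 {n a D : ℕ} (h : 2 * a + D ≤ n) (hn : 2 ≤ n) {y : Fin a → ℝ} (hy : ∀ j, 0 < y j)
    (hg : gp n a D = C ((((n - a).choose D : ℕ) : ℝ)) * rp y) :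
    S1 y 1 = (a : ℝ) * (n - a - D) / n := by
  obtain ⟨m, rfl⟩ : ∃ m, n = m + 1 := ⟨n - 1, by omega⟩
  have hd := gp_derivative_eval (n := m + 1) (a := a) (D := D) (by omega)
  have he := gp_eval_one (n := m + 1) (a := a) (D := D) (by omega)
  obtain ⟨h1, h2, h3⟩ := rp_facts univ y (fun j _ => hy j)
  rw [hg, derivative_C_mul, eval_mul, eval_C] at hd
  rw [hg, eval_mul, eval_C] at he
  unfold rp at hd he
  rw [h2] at hd
  rw [S1_one_eq, Nat.add_sub_cancel] at *
  set S := ∑ j, y j / (1 + y j) with hS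
  have h4 : ((((m + 1).choose (a + D) : ℕ)) : ℝ) * S = (a : ℝ) * ((m.choose (a + D) : ℕ) : ℝ) := by
    rw [← he, ← hd]
    ring
  have hc : (0 : ℝ) < (((m + 1).choose (a + D) : ℕ) : ℝ) := by
    exact_mod_cast Nat.choose_pos (by omega)
  have hs := choose_cast_step m (a + D)
  have hm : (0 : ℝ) < ((m + 1 : ℕ) : ℝ) := by positivity
  rw [eq_div_iff hm.ne']
  apply mul_left_cancel₀ hc.ne'
  push_cast at hs ⊢
  calc (((m + 1).choose (a + D) : ℕ) : ℝ) * (S * ((m : ℝ) + 1))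
      = ((((m + 1).choose (a + D) : ℕ)) : ℝ) * S * ((m : ℝ) + 1) := by ring
    _ = (a : ℝ) * (((m.choose (a + D) : ℕ) : ℝ) * ((m : ℝ) + 1)) := by rw [h4]; ring
    _ = _ := by rw [hs]; ring

theorem gp_S2 {n a D : ℕ} (h : 2 * a + D ≤ n) (hn : 2 ≤ n) {y : Fin a → ℝ} (hy : ∀ j, 0 < y j)
    (hg : gp n a D = C ((((n - a).choose D : ℕ) : ℝ)) * rp y) :
    S2 y 1 = (a : ℝ) * (n - a - D) * (a + D) * (n - a) / ((n : ℝ) ^ 2 * (n - 1)) := by
  have hS1 := gp_S1 h hn hy hg
  rw [S1_one_eq] at hS1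
  obtain ⟨m, rfl⟩ : ∃ m, n = m + 2 := ⟨n - 2, by omega⟩
  have hd := gp_derivative2_eval (n := m + 2) (a := a) (D := D) (by omega)
  have he := gp_eval_one (n := m + 2) (a := a) (D := D) (by omega)
  obtain ⟨h1, h2, h3⟩ := rp_facts univ y (fun j _ => hy j)
  rw [hg, derivative_C_mul, derivative_C_mul, eval_mul, eval_C] at hd
  rw [hg, eval_mul, eval_C] at he
  unfold rp at hd he
  rw [h3, Nat.add_sub_cancel] at hd
  have hS2 : S2 y 1 = ∑ j, y j / (1 + y j) - ∑ j, (y j / (1 + y j)) ^ 2 := by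
    unfold S2
    rw [← sum_sub_distrib]
    apply sum_congr rfl
    intro j _
    have := hy j
    rw [one_mul]
    field_simp
    ring
  rw [hS2]
  set S := ∑ j, y j / (1 + y j) with hS
  set E := ∑ j, (y j / (1 + y j)) ^ 2 with hE
  have h4 : ((((m + 2).choose (a + D) : ℕ)) : ℝ) * (S ^ 2 - E)
      = (a : ℝ) * ((a : ℝ) - 1) * ((m.choose (a + D) : ℕ) : ℝ) := by
    rw [← he, ← hd]
    ring
  have hc : (0 : ℝ) < (((m + 2).choose (a + D) : ℕ) : ℝ) := by
    exact_mod_cast Nat.choose_pos (by omega)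
  have hs := choose_cast_step m (a + D)
  have hs' := choose_cast_step (m + 1) (a + D)
  push_cast at hs hs' hS1 ⊢
  have hm1 : (0 : ℝ) < (m : ℝ) + 1 := by positivity
  have hm2 : (0 : ℝ) < (m : ℝ) + 2 := by positivity
  have e11 : (m : ℝ) + 1 + 1 = (m : ℝ) + 2 := by ring
  have e12 : m + 1 + 1 = m + 2 := rfl
  rw [e11, e12] at hs'
  have h5 : (S ^ 2 - E) * (((m : ℝ) + 2) * ((m : ℝ) + 1))
      = (a : ℝ) * ((a : ℝ) - 1) * (((m : ℝ) + 1 - (a + D)) * ((m : ℝ) + 2 - (a + D))) := by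
    apply mul_left_cancel₀ hc.ne'
    calc (((m + 2).choose (a + D) : ℕ) : ℝ) * ((S ^ 2 - E) * (((m : ℝ) + 2) * ((m : ℝ) + 1)))
        = ((((m + 2).choose (a + D) : ℕ)) : ℝ) * (S ^ 2 - E) * (((m : ℝ) + 2) * ((m : ℝ) + 1)) := by ring
      _ = (a : ℝ) * ((a : ℝ) - 1) * (((m.choose (a + D) : ℕ) : ℝ) * ((m : ℝ) + 1)) * ((m : ℝ) + 2) := by
          rw [h4]; ring
      _ = (a : ℝ) * ((a : ℝ) - 1) * ((m : ℝ) + 1 - (a + D))
          * ((((m + 1).choose (a + D) : ℕ) : ℝ) * ((m : ℝ) + 2)) := by rw [hs]; ring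
      _ = _ := by rw [hs']; ring
  have h6 : S ^ 2 - E = (a : ℝ) * ((a : ℝ) - 1) * (((m : ℝ) + 1 - (a + D)) * ((m : ℝ) + 2 - (a + D)))
      / (((m : ℝ) + 2) * ((m : ℝ) + 1)) := by
    rw [eq_div_iff (by positivity)]
    exact h5
  have h7 : S - E = S - S ^ 2 + (S ^ 2 - E) := by ring
  rw [h7, h6, hS1]
  have e13 : (m : ℝ) + 2 - 1 = (m : ℝ) + 1 := by ring
  rw [e13]
  field_simp
  ring

end Pool.Agent.Lib.MP_0430e4_lc.All
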