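import Pool.Agent.Lib.MP_0430e4_lc.All.Defs

/-!
# Products of distance enumerators with powers of the negative block
-/

set_option autoImplicit false

namespace Pool.Agent.Lib.MP_0430e4_lc.All

open Finset Polynomial

theorem ppnb_comp_coeff (c : ℝ) (D : ℕ) (Q : ℝ[X]) (k : ℕ) :
    (C c * X ^ D * Q.comp (X ^ 2)).coeff k
      = if D ≤ k ∧ (k - D) % 2 = 0 then c * Q.coeff ((k - D) / 2) else 0 := by
  have h1 : Q.comp (X ^ 2) = expand ℝ 2 Q := by
    rw [expand_eq_comp_X_pow]
  rw [h1, mul_assoc, coeff_C_mul, mul_comm (X ^ D), coeff_mul_X_pow']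
  by_cases h2 : D ≤ k
  · rw [if_pos h2, coeff_expand (by norm_num)]
    by_cases h3 : (k - D) % 2 = 0
    · rw [if_pos (Nat.dvd_of_mod_eq_zero h3), if_pos ⟨h2, h3⟩]
    · rw [if_neg (fun h => h3 (Nat.mod_eq_zero_of_dvd h)), if_neg (fun h => h3 h.2), mul_zero]
  · rw [if_neg h2, if_neg (fun h => h2 h.1), mul_zero]

theorem ppnb_nb (q : ℝ) : nb q = (1 - C q * X : ℝ[X]).comp (X ^ 2) := by
  unfold nb
  simp

theorem pp_nb_coeff (n a b M : ℕ) (q : ℝ) (k : ℕ) :
    (pp n a b * nb q ^ M).coeff k
      = if max a b - min a b ≤ k ∧ (k - (max a b - min a b)) % 2 = 0 then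
          ((n.choose (min a b) : ℕ) : ℝ)
            * (gp n (min a b) (max a b - min a b) * (1 - C q * X) ^ M).coeff
                ((k - (max a b - min a b)) / 2)
        else 0 := by
  rw [← ppnb_comp_coeff]
  congr 1
  unfold pp
  rw [ppnb_nb, mul_comp, pow_comp]
  ring

theorem pp_coeff (n a b : ℕ) (k : ℕ) :
    (pp n a b).coeff k
      = if max a b - min a b ≤ k ∧ (k - (max a b - min a b)) % 2 = 0 then
          ((n.choose (min a b) : ℕ) : ℝ)
            * (gp n (min a b) (max a b - min a b)).coeff ((k - (max a b - min a b)) / 2)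
        else 0 := by
  have := pp_nb_coeff n a b 0 0 k
  simpa using this

theorem pp_eval_one' (n a b : ℕ) :
    (pp n a b).eval 1
      = ((n.choose (min a b) : ℕ) : ℝ) * (gp n (min a b) (max a b - min a b)).eval 1 := by
  unfold pp
  simp [eval_comp]

theorem gp_coeff (n a D i : ℕ) :
    (gp n a D).coeff i = ((a.choose i : ℕ) : ℝ) * (((n - a).choose (D + i) : ℕ) : ℝ) := by
  unfold gp
  rw [finsetSum_coeff]
  simp only [coeff_C_mul_X_pow]
  rw [Finset.sum_ite_eq]
  split_ifs with h
  · rfl
  · rw [Nat.choose_eq_zero_of_lt (by simpa using h)]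
    simp

theorem gp_coeff_nonneg (n a D i : ℕ) : 0 ≤ (gp n a D).coeff i := by
  rw [gp_coeff]
  positivity

theorem pp_coeff_nonneg (n a b k : ℕ) : 0 ≤ (pp n a b).coeff k := by
  rw [pp_coeff]
  split_ifs
  · exact mul_nonneg (by positivity) (gp_coeff_nonneg _ _ _ _)
  · exact le_rfl

/-- Vandermonde -/
theorem ppnb_gp_eval_one {n a D : ℕ} (h : a + D ≤ n) :
    (gp n a D).eval 1 = ((n.choose (a + D) : ℕ) : ℝ) := by
  have h1 : (n.choose (a + D) : ℕ) = ∑ i ∈ range (a + 1), a.choose i * (n - a).choose (D + i) := by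
    have h2 := Nat.add_choose_eq a (n - a) (a + D)
    have h3 : a + (n - a) = n := by omega
    rw [h3, Finset.Nat.sum_antidiagonal_eq_sum_range_succ
      (fun i j => a.choose i * (n - a).choose j)] at h2
    rw [h2]
    have h4 : ∑ k ∈ range (a + D).succ, a.choose k * (n - a).choose (a + D - k)
        = ∑ k ∈ range (a + 1), a.choose k * (n - a).choose (a + D - k) := by
      symm
      apply Finset.sum_subset
      · intro x hx
        simp only [Finset.mem_range] at hx ⊢
        omega
      · intro x _ hx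
        rw [Nat.choose_eq_zero_of_lt (by simpa using hx), zero_mul]
    rw [h4, ← Finset.sum_range_reflect]
    apply Finset.sum_congr rfl
    intro i hi
    have hi' : i ≤ a := by
      have := Finset.mem_range.1 hi
      omega
    have e1 : a + 1 - 1 - i = a - i := by omega
    have e2 : a + D - (a - i) = D + i := by omega
    rw [e1, e2, Nat.choose_symm hi']
  rw [h1]
  unfold gp
  rw [eval_finsetSum]
  push_cast
  apply Finset.sum_congr rfl
  intro i _
  simp

theorem pp_eval_one {n a b : ℕ} (ha : a ≤ n) (hb : b ≤ n) :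
    (pp n a b).eval 1 = ((n.choose a : ℕ) : ℝ) * ((n.choose b : ℕ) : ℝ) := by
  rw [pp_eval_one', ppnb_gp_eval_one (by omega)]
  rcases le_total a b with h | h
  · have e : min a b + (max a b - min a b) = b := by omega
    rw [e, min_eq_left h]
  · have e : min a b + (max a b - min a b) = a := by omega
    rw [e, min_eq_right h, mul_comm]

theorem pp_natDegree_le (n a b : ℕ) : (pp n a b).natDegree ≤ a + b := by
  unfold pp
  refine natDegree_mul_le.trans ?_
  have h1 : (C ((n.choose (min a b) : ℕ) : ℝ) * X ^ (max a b - min a b) : ℝ[X]).natDegree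
      ≤ max a b - min a b := natDegree_C_mul_X_pow_le _ _
  have h2 : (gp n (min a b) (max a b - min a b)).natDegree ≤ min a b := by
    unfold gp
    refine natDegree_sum_le_of_forall_le _ _ (fun i hi => ?_)
    refine (natDegree_C_mul_X_pow_le _ _).trans ?_
    have := Finset.mem_range.1 hi
    omega
  have h3 : ((gp n (min a b) (max a b - min a b)).comp (X ^ 2)).natDegree ≤ min a b * 2 := by
    refine natDegree_comp_le.trans ?_
    rw [natDegree_X_pow]
    exact Nat.mul_le_mul_right _ h2
  omega

end Pool.Agent.Lib.MP_0430e4_lc.All
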