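import Pool.Agent.Lib.MP_0430e4_lc.All.MP
import Pool.Agent.Lib.MP_0430e4_lc.All.PPNB
import Pool.Agent.Lib.MP_0430e4_lc.Impr.PAIR
import Pool.Agent.Lib.MP_0430e4_lc.Impr.PK

/-!
# Mass polynomials of radial convolutions
-/

set_option autoImplicit false

namespace Pool.Agent.Lib.MP_0430e4_lc.All

open Finset Polynomial

theorem pair_swap (m p l : ℕ) :
    m.choose p * (m - p).choose l = m.choose l * (m - l).choose p := by
  have h1 := Nat.choose_mul (n := m) (k := p + l) (s := p) (Nat.le_add_right _ _)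
  have h2 := Nat.choose_mul (n := m) (k := p + l) (s := l) (Nat.le_add_left _ _)
  rw [Nat.add_sub_cancel_left] at h1
  rw [Nat.add_sub_cancel] at h2
  rw [← h1, ← h2, Nat.choose_symm_add]

/-- two ways of choosing three disjoint sets -/
theorem pair_multinom {n k i : ℕ} (l : ℕ) (hi : i ≤ k) :
    n.choose k * k.choose i * (n - k).choose l
      = n.choose (i + l) * (i + l).choose i * (n - (i + l)).choose (k - i) := by
  rw [Nat.choose_mul hi, Nat.choose_mul (Nat.le_add_right i l), Nat.add_sub_cancel_left]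
  have h1 := pair_swap (n - i) (k - i) l
  have e1 : n - i - (k - i) = n - k := by omega
  have e2 : n - i - l = n - (i + l) := by omega
  rw [e1, e2] at h1
  rw [mul_assoc, h1, mul_assoc]

theorem pair_bz_nat (N m : ℕ) : Impr.bz N (m : ℤ) = ((N.choose m : ℕ) : ℝ) := by
  unfold Impr.bz
  rw [if_pos (by positivity), Int.toNat_natCast]

theorem pair_bz_neg (N : ℕ) {m : ℤ} (hm : m < 0) : Impr.bz N m = 0 := by
  unfold Impr.bz
  rw [if_neg (by omega)]

/-- the case `a ≤ b` -/
theorem pair_pk_le {n k a D : ℕ} (hk : k ≤ n) :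
    ((n.choose k : ℕ) : ℝ) * Impr.pk n k a (a + D)
      = if D ≤ k ∧ (k - D) % 2 = 0 then
          ((n.choose a : ℕ) : ℝ) * (gp n a D).coeff ((k - D) / 2)
        else 0 := by
  by_cases h1 : (k + a + (a + D)) % 2 = 1
  · rw [Impr.pk_odd h1, mul_zero, if_neg]
    rintro ⟨h2, h3⟩
    omega
  by_cases h2 : D ≤ k
  · obtain ⟨j, hj⟩ : ∃ j, k = D + 2 * j := ⟨(k - D) / 2, by omega⟩
    have h3 : (k - D) % 2 = 0 := by omega
    have h4 : (k - D) / 2 = j := by omega
    rw [if_pos ⟨h2, h3⟩, h4, gp_coeff]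
    rw [Impr.pk_eq hk (m := (j : ℤ)) (L := (a : ℤ) - j) (by push_cast; omega)
      (by push_cast; omega), pair_bz_nat]
    by_cases h5 : j ≤ a
    · have e1 : (a : ℤ) - j = ((a - j : ℕ) : ℤ) := by omega
      rw [e1, pair_bz_nat]
      have h6 := pair_multinom (n := n) (k := k) (i := j) (a - j) (by omega)
      have e2 : j + (a - j) = a := by omega
      have e3 : k - j = D + j := by omega
      rw [e2, e3] at h6
      have h7 : ((n.choose k : ℕ) : ℝ) * ((k.choose j : ℕ) : ℝ) * (((n - k).choose (a - j) : ℕ) : ℝ)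
        = ((n.choose a : ℕ) : ℝ) * ((a.choose j : ℕ) : ℝ)
          * (((n - a).choose (D + j) : ℕ) : ℝ) := by exact_mod_cast h6
      linarith
    · rw [pair_bz_neg _ (by omega), Nat.choose_eq_zero_of_lt (show a < j by omega)]
      simp
  · rw [if_neg (fun h => h2 h.1)]
    obtain ⟨m, hm⟩ : ∃ m : ℤ, 2 * m = (k : ℤ) - D := ⟨((k : ℤ) - D) / 2, by omega⟩
    rw [Impr.pk_eq hk (m := m) (L := (a : ℤ) - m) (by push_cast; omega) (by push_cast; omega),
      pair_bz_neg _ (by omega)]
    simp

/-- the case `b ≤ a` -/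
theorem pair_pk_ge {n k b D : ℕ} (hk : k ≤ n) :
    ((n.choose k : ℕ) : ℝ) * Impr.pk n k (b + D) b
      = if D ≤ k ∧ (k - D) % 2 = 0 then
          ((n.choose b : ℕ) : ℝ) * (gp n b D).coeff ((k - D) / 2)
        else 0 := by
  by_cases h1 : (k + (b + D) + b) % 2 = 1
  · rw [Impr.pk_odd h1, mul_zero, if_neg]
    rintro ⟨h2, h3⟩
    omega
  by_cases h2 : D ≤ k
  · obtain ⟨j, hj⟩ : ∃ j, k = D + 2 * j := ⟨(k - D) / 2, by omega⟩
    have h3 : (k - D) % 2 = 0 := by omega
    have h4 : (k - D) / 2 = j := by omega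
    rw [if_pos ⟨h2, h3⟩, h4, gp_coeff]
    rw [Impr.pk_eq hk (m := ((D + j : ℕ) : ℤ)) (L := (b : ℤ) - j) (by push_cast; omega)
      (by push_cast; omega), pair_bz_nat]
    by_cases h5 : j ≤ b
    · have e1 : (b : ℤ) - j = ((b - j : ℕ) : ℤ) := by omega
      rw [e1, pair_bz_nat]
      have h6 := pair_multinom (n := n) (k := k) (i := j) (b - j) (by omega)
      have e2 : j + (b - j) = b := by omega
      have e3 : k - j = D + j := by omega
      rw [e2, e3] at h6
      have e4 : k.choose (D + j) = k.choose j := by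
        rw [← e3]
        exact Nat.choose_symm (by omega)
      rw [e4]
      have h7 : ((n.choose k : ℕ) : ℝ) * ((k.choose j : ℕ) : ℝ) * (((n - k).choose (b - j) : ℕ) : ℝ)
        = ((n.choose b : ℕ) : ℝ) * ((b.choose j : ℕ) : ℝ)
          * (((n - b).choose (D + j) : ℕ) : ℝ) := by exact_mod_cast h6
      linarith
    · rw [pair_bz_neg (n - k) (show (b : ℤ) - j < 0 by omega),
        Nat.choose_eq_zero_of_lt (show b < j by omega)]
      simp
  · rw [if_neg (fun h => h2 h.1)]
    obtain ⟨m, hm⟩ : ∃ m : ℤ, 2 * m = (k : ℤ) + D := ⟨((k : ℤ) + D) / 2, by omega⟩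
    have h8 : (k : ℤ) < m := by omega
    obtain ⟨m', rfl⟩ := Int.eq_ofNat_of_zero_le (show 0 ≤ m by omega)
    rw [Impr.pk_eq hk (m := (m' : ℤ)) (L := (b : ℤ) + D - m') (by push_cast; omega)
      (by push_cast; omega), pair_bz_nat, Nat.choose_eq_zero_of_lt (show k < m' by omega)]
    simp

theorem pair_pk {n k a b : ℕ} (hk : k ≤ n) :
    ((n.choose k : ℕ) : ℝ) * Impr.pk n k a b = (pp n a b).coeff k := by
  rw [pp_coeff]
  rcases le_total a b with h | h
  · obtain ⟨D, rfl⟩ := Nat.exists_eq_add_of_le h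
    rw [pair_pk_le hk]
    have e1 : min a (a + D) = a := by omega
    have e2 : max a (a + D) - a = D := by omega
    rw [e1, e2]
  · obtain ⟨D, rfl⟩ := Nat.exists_eq_add_of_le h
    rw [pair_pk_ge hk]
    have e1 : min (b + D) b = b := by omega
    have e2 : max (b + D) b - b = D := by omega
    rw [e1, e2]

theorem pp_coeff_big {n k a b : ℕ} (ha : a ≤ n) (hb : b ≤ n) (hk : n < k) :
    (pp n a b).coeff k = 0 := by
  rw [pp_coeff]
  split_ifs with h
  · rw [gp_coeff]
    by_cases h1 : min a b < (k - (max a b - min a b)) / 2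
    · rw [Nat.choose_eq_zero_of_lt h1]
      simp
    · rw [Nat.choose_eq_zero_of_lt
        (show n - min a b < max a b - min a b + (k - (max a b - min a b)) / 2 by omega)]
      simp
  · rfl

/-- restriction of a profile to the weights -/
noncomputable def pair_res (n : ℕ) (F : ℤ → ℝ) (z : ℤ) : ℝ :=
  if 0 ≤ z ∧ z ≤ n then F z else 0

theorem pair_res_supp (n : ℕ) (F : ℤ → ℝ) :
    ∀ z : ℤ, pair_res n F z ≠ 0 → ∃ a ∈ range (n + 1), (a : ℤ) = z := by
  intro z hz
  unfold pair_res at hz
  by_cases h : 0 ≤ z ∧ z ≤ n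
  · refine ⟨z.toNat, ?_, by omega⟩
    rw [Finset.mem_range]
    omega
  · rw [if_neg h] at hz
    exact absurd rfl hz

theorem pair_conv_res {n k : ℕ} (hk : k ≤ n) (F G : ℤ → ℝ) :
    Impr.conv n k F G = Impr.conv n k (pair_res n F) (pair_res n G) := by
  unfold Impr.conv
  apply Finset.sum_congr rfl
  intro i hi
  apply Finset.sum_congr rfl
  intro l hl
  rw [Finset.mem_range] at hi hl
  unfold pair_res
  rw [if_pos (by omega), if_pos (by omega)]

theorem mp_cv_radial (n : ℕ) (F G : ℤ → ℝ) :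
    mp (Impr.cv (fun y : Fin n → Bool => F (Impr.wt y)) (fun y => G (Impr.wt y)))
      = ∑ a ∈ range (n + 1), ∑ b ∈ range (n + 1), C (F a * G b) * pp n a b := by
  ext k
  rw [mp_coeff]
  simp only [finsetSum_coeff, coeff_C_mul]
  have h1 : ∀ y : Fin n → Bool, (if Impr.wt y = k then
      Impr.cv (fun y : Fin n → Bool => F (Impr.wt y)) (fun y => G (Impr.wt y)) y else 0)
      = if Impr.wt y = k then Impr.conv n k F G else 0 := by
    intro y
    split_ifs with h
    · rw [Impr.cv_radial, h]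
    · rfl
  simp only [h1]
  have h2 := Impr.sum_wt (α := Fin n) (fun j => if j = k then Impr.conv n k F G else 0)
  rw [Fintype.card_fin] at h2
  have h3 : (∑ y : Fin n → Bool, if Impr.wt y = k then Impr.conv n k F G else 0)
      = ∑ i ∈ range (n + 1), ((n.choose i : ℕ) : ℝ) * (if i = k then Impr.conv n k F G else 0) :=
    h2
  rw [h3]
  by_cases hk : k ≤ n
  · rw [Finset.sum_eq_single k]
    · rw [if_pos rfl, pair_conv_res hk,
        Impr.conv_eq_pk hk (pair_res_supp n F) (pair_res_supp n G), Finset.mul_sum]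
      apply Finset.sum_congr rfl
      intro a ha
      rw [Finset.mul_sum]
      apply Finset.sum_congr rfl
      intro b hb
      rw [Finset.mem_range] at ha hb
      rw [← pair_pk hk]
      unfold pair_res
      rw [if_pos (by omega), if_pos (by omega)]
      ring
    · intro i _ hi
      rw [if_neg hi, mul_zero]
    · intro h
      exact absurd (Finset.mem_range.2 (Nat.lt_succ_of_le hk)) h
  · rw [Finset.sum_eq_zero, eq_comm, Finset.sum_eq_zero]
    · intro a ha
      apply Finset.sum_eq_zero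
      intro b hb
      rw [Finset.mem_range] at ha hb
      rw [pp_coeff_big (by omega) (by omega) (by omega), mul_zero]
    · intro i hi
      rw [Finset.mem_range] at hi
      rw [if_neg (by omega), mul_zero]

end Pool.Agent.Lib.MP_0430e4_lc.All
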