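import Pool.Agent.Lib.MP_0430e4_lc.All.BASE
import Pool.Agent.Lib.MP_0430e4_lc.All.MODE
import Pool.Agent.Lib.MP_0430e4_lc.All.MOM
import Pool.Agent.Lib.MP_0430e4_lc.All.PAIR
import Pool.Agent.Lib.MP_0430e4_lc.All.WIN

set_option autoImplicit false

namespace Pool.Agent.Lib.MP_0430e4_lc.All

open Finset Polynomial Filter Topology

namespace CoverAux

/-- the summand of `base` -/
theorem base_term_le {n t' J : ℕ} {a b : ℕ} (ha : a ≤ n) (hb : b ≤ n) (k : ℕ)
    (hpp : ∀ a b k : ℕ, 0 ≤ (pp n a b).coeff k) :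
    wv n t' J a * wv n t' J b * (pp n a b).coeff k ≤ (base n t' J).coeff k := by
  rw [base_eq]
  simp only [finsetSum_coeff, coeff_C_mul]
  have h1 : ∀ x ∈ range (n + 1), 0 ≤ ∑ y ∈ range (n + 1),
      wv n t' J x * wv n t' J y * (pp n x y).coeff k := fun x _ =>
    Finset.sum_nonneg fun y _ =>
      mul_nonneg (mul_nonneg (wv_nonneg n t' J x) (wv_nonneg n t' J y)) (hpp x y k)
  refine le_trans ?_ (Finset.single_le_sum h1 (Finset.mem_range.2 (Nat.lt_succ_of_le ha)))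
  exact Finset.single_le_sum (f := fun y : ℕ => wv n t' J a * wv n t' J y * (pp n a y).coeff k)
    (fun y _ => mul_nonneg (mul_nonneg (wv_nonneg n t' J a) (wv_nonneg n t' J y)) (hpp a y k))
    (Finset.mem_range.2 (Nat.lt_succ_of_le hb))

theorem pp_coeff_nonneg (n a b k : ℕ) : 0 ≤ (pp n a b).coeff k := by
  have h := pp_nb_coeff n a b 0 0 k
  simp only [pow_zero, mul_one] at h
  rw [h]
  split_ifs
  · refine mul_nonneg (Nat.cast_nonneg _) ?_
    unfold gp
    simp only [finsetSum_coeff, coeff_C_mul, coeff_X_pow]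
    refine Finset.sum_nonneg fun i _ => ?_
    split_ifs
    · positivity
    · simp
  · exact le_refl _

theorem pp_coeff_eq {n a D i : ℕ} :
    (pp n a (a + D)).coeff (2 * i + D) = ((n.choose a : ℕ) : ℝ) * (gp n a D).coeff i := by
  have h := pp_nb_coeff n a (a + D) 0 0 (2 * i + D)
  simp only [pow_zero, mul_one] at h
  rw [h]
  have e1 : max a (a + D) = a + D := by omega
  have e2 : min a (a + D) = a := by omega
  rw [e1, e2]
  have e3 : a + D - a = D := by omega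
  rw [e3, if_pos]
  · congr 2
    omega
  · omega

theorem choose_mono {n a b : ℕ} (hab : a ≤ b) (hb : 2 * b ≤ n) :
    n.choose a ≤ n.choose b := by
  induction b, hab using Nat.le_induction with
  | base => exact le_rfl
  | succ b hab ih =>
    exact (ih (by omega)).trans (Nat.choose_le_succ_of_lt_half_left (by omega))

theorem wv_mul_choose_le {n t' J : ℕ} (ht : 2 * t' ≤ n) {a : ℕ} (h2 : a ≤ t') :
    wv n t' J a * ((n.choose a : ℕ) : ℝ) ≤ Real.sqrt ((n.choose t' : ℕ) : ℝ) := by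
  unfold wv
  split_ifs with h
  · have hpos : (0 : ℝ) < ((n.choose a : ℕ) : ℝ) := by
      have : 0 < n.choose a := Nat.choose_pos (by omega)
      exact_mod_cast this
    have hs : (0 : ℝ) < Real.sqrt ((n.choose a : ℕ) : ℝ) := Real.sqrt_pos.2 hpos
    rw [Int.toNat_natCast]
    have e : Real.sin (Real.pi / ((J : ℝ) + 2) * (((a : ℤ) : ℝ) - (t' : ℝ) + (J : ℝ) + 1))
        / Real.sqrt ((n.choose a : ℕ) : ℝ) * ((n.choose a : ℕ) : ℝ)
        = Real.sin (Real.pi / ((J : ℝ) + 2) * (((a : ℤ) : ℝ) - (t' : ℝ) + (J : ℝ) + 1))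
          * Real.sqrt ((n.choose a : ℕ) : ℝ) := by
      have h3 := Real.mul_self_sqrt hpos.le
      field_simp
      rw [sq, h3]
    rw [e]
    have h1 := Real.sin_le_one
      (Real.pi / ((J : ℝ) + 2) * (((a : ℤ) : ℝ) - (t' : ℝ) + (J : ℝ) + 1))
    have h4 : Real.sqrt ((n.choose a : ℕ) : ℝ) ≤ Real.sqrt ((n.choose t' : ℕ) : ℝ) := by
      apply Real.sqrt_le_sqrt
      exact_mod_cast choose_mono h2 ht
    nlinarith
  · rw [zero_mul]
    exact Real.sqrt_nonneg _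

theorem base_eval_le {n t' J : ℕ} (hJ : J + 1 ≤ t') (ht : 2 * t' ≤ n) :
    (base n t' J).eval 1 ≤ (((J : ℝ) + 1)) ^ 2 * ((n.choose t' : ℕ) : ℝ) := by
  have h1 : (base n t' J).eval 1
      = (∑ a ∈ range (n + 1), wv n t' J a * ((n.choose a : ℕ) : ℝ)) ^ 2 := by
    rw [base_eq, sq, Finset.sum_mul_sum]
    simp only [eval_finsetSum, eval_mul, eval_C]
    refine Finset.sum_congr rfl fun a ha => Finset.sum_congr rfl fun b hb => ?_
    rw [pp_eval_one (Nat.lt_succ_iff.1 (Finset.mem_range.1 ha))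
      (Nat.lt_succ_iff.1 (Finset.mem_range.1 hb))]
    ring
  have h2 : ∑ a ∈ range (n + 1), wv n t' J a * ((n.choose a : ℕ) : ℝ)
      ≤ ((J : ℝ) + 1) * Real.sqrt ((n.choose t' : ℕ) : ℝ) := by
    have h3 : ∑ a ∈ Finset.Icc (t' - J) t', wv n t' J a * ((n.choose a : ℕ) : ℝ)
        = ∑ a ∈ range (n + 1), wv n t' J a * ((n.choose a : ℕ) : ℝ) := by
      apply Finset.sum_subset
      · intro a ha
        rw [Finset.mem_Icc] at ha
        rw [Finset.mem_range]
        omega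
      · intro a _ ha
        have : wv n t' J a = 0 := by
          by_contra hne
          have := wv_supp hne
          apply ha
          rw [Finset.mem_Icc]
          omega
        rw [this, zero_mul]
    rw [← h3]
    refine (Finset.sum_le_card_nsmul _ _ (Real.sqrt ((n.choose t' : ℕ) : ℝ)) ?_).trans ?_
    · intro a ha
      rw [Finset.mem_Icc] at ha
      exact wv_mul_choose_le ht ha.2
    · rw [Nat.card_Icc, nsmul_eq_mul]
      have : t' + 1 - (t' - J) = J + 1 := by omega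
      rw [this]
      push_cast
      exact le_refl _
  have h4 : 0 ≤ ∑ a ∈ range (n + 1), wv n t' J a * ((n.choose a : ℕ) : ℝ) :=
    Finset.sum_nonneg fun a _ => mul_nonneg (wv_nonneg n t' J a) (Nat.cast_nonneg _)
  rw [h1]
  calc _ ≤ (((J : ℝ) + 1) * Real.sqrt ((n.choose t' : ℕ) : ℝ)) ^ 2 :=
        pow_le_pow_left₀ h4 h2 2
    _ = _ := by
      rw [mul_pow, Real.sq_sqrt (Nat.cast_nonneg _)]

theorem wv_eq {n t' J : ℕ} {a : ℕ} (h1 : (t' : ℤ) - J ≤ a) (h2 : a ≤ t') :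
    wv n t' J a = Real.sin (Real.pi / ((J : ℝ) + 2) * ((a : ℝ) - (t' : ℝ) + (J : ℝ) + 1))
      / Real.sqrt ((n.choose a : ℕ) : ℝ) := by
  unfold wv
  rw [if_pos ⟨h1, by exact_mod_cast h2⟩, Int.toNat_natCast]
  norm_cast

/-- positivity constant of the window -/
theorem sin_pos' {J : ℕ} (hJ : 1 ≤ J) :
    0 < Real.sin (Real.pi / ((J : ℝ) + 2)) := by
  apply Real.sin_pos_of_pos_of_lt_pi
  · positivity
  · have : (1 : ℝ) ≤ J := by exact_mod_cast hJ
    rw [div_lt_iff₀ (by positivity)]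
    nlinarith [Real.pi_pos]

theorem wv_top {n t' J : ℕ} :
    wv n t' J t' = Real.sin (Real.pi / ((J : ℝ) + 2)) / Real.sqrt ((n.choose t' : ℕ) : ℝ) := by
  rw [wv_eq (by omega) le_rfl]
  congr 1
  have e : Real.pi / ((J : ℝ) + 2) * ((t' : ℝ) - (t' : ℝ) + (J : ℝ) + 1)
      = Real.pi - Real.pi / ((J : ℝ) + 2) := by
    field_simp
    ring
  rw [e, Real.sin_pi_sub]

theorem wv_top' {n a D J : ℕ} (hJ : 1 ≤ J) (hD : D ≤ 1) :
    Real.sin (Real.pi / ((J : ℝ) + 2)) / Real.sqrt ((n.choose a : ℕ) : ℝ)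
      ≤ wv n (a + D) J a := by
  rcases (by omega : D = 0 ∨ D = 1) with rfl | rfl
  · rw [Nat.add_zero, wv_top]
  · rw [wv_eq (by omega) (by omega)]
    apply div_le_div_of_nonneg_right _ (Real.sqrt_nonneg _)
    have hJr : (1 : ℝ) ≤ J := by exact_mod_cast hJ
    have e : Real.pi / ((J : ℝ) + 2) * ((a : ℝ) - ((a + 1 : ℕ) : ℝ) + (J : ℝ) + 1)
        = Real.pi - 2 * (Real.pi / ((J : ℝ) + 2)) := by
      push_cast
      field_simp
      ring
    rw [e, Real.sin_pi_sub, Real.sin_two_mul]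
    have h1 := sin_pos' hJ
    have h2 : 1 / 2 ≤ Real.cos (Real.pi / ((J : ℝ) + 2)) := by
      rw [← Real.cos_pi_div_three]
      apply Real.cos_le_cos_of_nonneg_of_le_pi
      · positivity
      · nlinarith [Real.pi_pos]
      · apply div_le_div_of_nonneg_left Real.pi_pos.le (by norm_num) (by linarith)
    nlinarith

/-- lower bound for the coefficient -/
theorem coeff_ge {n a D i J : ℕ} (hJ : 1 ≤ J) (hD : D ≤ 1) (ht : 2 * (a + D) ≤ n)
    (hg : (gp n a D).eval 1 ≤ (n + 1) * (gp n a D).coeff i)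
    (hi : 1 ≤ i) (hia : i ≤ a) :
    Real.sin (Real.pi / ((J : ℝ) + 2)) ^ 2 / (n + 1) * ((i : ℝ) / n)
      * ((n.choose (a + D) : ℕ) : ℝ) ≤ (base n (a + D) J).coeff (2 * i + D) := by
  refine le_trans ?_ (base_term_le (n := n) (t' := a + D) (J := J) (a := a) (b := a + D)
    (by omega) (by omega) (2 * i + D) (pp_coeff_nonneg n))
  rw [pp_coeff_eq]
  rw [gp_eval_one (by omega)] at hg
  have hn : (0 : ℝ) < n := by
    have : 0 < n := by omega
    exact_mod_cast this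
  set Ca : ℝ := ((n.choose a : ℕ) : ℝ) with hCa
  set Ct : ℝ := ((n.choose (a + D) : ℕ) : ℝ) with hCt
  set g : ℝ := (gp n a D).coeff i with hgd
  set sn : ℝ := Real.sin (Real.pi / ((J : ℝ) + 2)) with hsn
  have hs0 : 0 < sn := sin_pos' hJ
  have hCa0 : 0 < Ca := by
    have : 0 < n.choose a := Nat.choose_pos (by omega)
    rw [hCa]; exact_mod_cast this
  have hCt0 : 0 < Ct := by
    have : 0 < n.choose (a + D) := Nat.choose_pos (by omega)
    rw [hCt]; exact_mod_cast this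
  have hir : (1 : ℝ) ≤ i := by exact_mod_cast hi
  have hin : (i : ℝ) / n ≤ 1 := by
    rw [div_le_one hn]
    have : i ≤ n := by omega
    exact_mod_cast this
  have hin0 : 0 < (i : ℝ) / n := by positivity
  have hCC : (i : ℝ) / n * Ct ≤ Ca := by
    rw [div_mul_eq_mul_div, div_le_iff₀ hn]
    rcases (by omega : D = 0 ∨ D = 1) with rfl | rfl
    · have : Ct = Ca := by rw [hCt, hCa, Nat.add_zero]
      rw [this, mul_comm]
      apply mul_le_mul_of_nonneg_left _ hCa0.le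
      have : i ≤ n := by omega
      exact_mod_cast this
    · have h1 : n.choose (a + 1) * (a + 1) = n.choose a * (n - a) := Nat.choose_succ_right_eq n a
      have h2 : i * n.choose (a + 1) ≤ n.choose a * n := by
        calc i * n.choose (a + 1) ≤ (a + 1) * n.choose (a + 1) :=
              Nat.mul_le_mul_right _ (by omega)
          _ = n.choose a * (n - a) := by rw [← h1, mul_comm]
          _ ≤ n.choose a * n := Nat.mul_le_mul_left _ (by omega)
      rw [hCt, hCa]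
      exact_mod_cast h2
  have hsq : (i : ℝ) / n * Real.sqrt Ct ≤ Real.sqrt Ca := by
    have h1 : (i : ℝ) / n * Real.sqrt Ct = Real.sqrt (((i : ℝ) / n) ^ 2 * Ct) := by
      rw [Real.sqrt_mul (by positivity), Real.sqrt_sq hin0.le]
    rw [h1]
    apply Real.sqrt_le_sqrt
    nlinarith
  have hsa : 0 < Real.sqrt Ca := Real.sqrt_pos.2 hCa0
  have hst : 0 < Real.sqrt Ct := Real.sqrt_pos.2 hCt0
  have hg' : Ct / (n + 1) ≤ g := by
    rw [div_le_iff₀ (by positivity)]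
    linarith
  have hw1 : sn / Real.sqrt Ca ≤ wv n (a + D) J a := wv_top' hJ hD
  have hw2 : wv n (a + D) J ((a + D : ℕ) : ℤ) = sn / Real.sqrt Ct := wv_top
  have hg0 : 0 ≤ g := le_trans (by positivity) hg'
  have step1 : sn / Real.sqrt Ca * (sn / Real.sqrt Ct) * (Ca * g)
      ≤ wv n (a + D) J a * wv n (a + D) J ((a + D : ℕ) : ℤ) * (Ca * g) := by
    rw [hw2]
    apply mul_le_mul_of_nonneg_right _ (by positivity)
    exact mul_le_mul_of_nonneg_right hw1 (by positivity)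
  refine le_trans ?_ step1
  have e1 : sn / Real.sqrt Ca * (sn / Real.sqrt Ct) * (Ca * g)
      = sn ^ 2 * (Real.sqrt Ca / Real.sqrt Ct) * g := by
    have h3 := Real.mul_self_sqrt hCa0.le
    field_simp
    nlinarith
  rw [e1]
  have h4 : (i : ℝ) / n ≤ Real.sqrt Ca / Real.sqrt Ct := by
    rw [le_div_iff₀ hst]
    exact hsq
  calc sn ^ 2 / (n + 1) * ((i : ℝ) / n) * Ct
      = sn ^ 2 * ((i : ℝ) / n) * (Ct / (n + 1)) := by ring
    _ ≤ sn ^ 2 * (Real.sqrt Ca / Real.sqrt Ct) * g := by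
        apply mul_le_mul _ hg' (by positivity) (by positivity)
        exact mul_le_mul_of_nonneg_left h4 (by positivity)

/-- level comparison -/
theorem lv_ge {τ : ℝ} (hτ0 : 0 < τ) (hτ : τ ≤ 1 / 5) {J : ℕ} (hJ : 1 ≤ J) :
    ∀ᶠ n : ℕ in atTop, ∀ i t' : ℕ,
      2 * (τ * (1 - τ) + (τ * (1 - τ)) ^ 2 / 6) * n ≤ 2 * i + 1 → 2 * t' ≤ n → J + 1 ≤ t' →
      ((i : ℝ) - 1) * n ≤ (t' : ℝ) * (n - t') →
      lv n ⌊τ * n⌋₊ J + 1 ≤ lv n t' J := by
  set w : ℝ := τ * (1 - τ) with hw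
  have hw0 : 0 < w := by rw [hw]; nlinarith
  have hw1 : w ≤ 1 := by rw [hw]; nlinarith
  have e1 : ∀ᶠ n : ℕ in atTop, (3 * (J : ℝ) + 6) / (w ^ 2 / 6) ≤ (n : ℝ) :=
    tendsto_natCast_atTop_atTop.eventually_ge_atTop _
  have e2 : ∀ᶠ n : ℕ in atTop, ((J : ℝ) + 2) / τ ≤ (n : ℝ) :=
    tendsto_natCast_atTop_atTop.eventually_ge_atTop _
  filter_upwards [e1, e2, eventually_ge_atTop 1] with n h1 h2 h3 i t' hi ht' hJt hit
  have hn : (1 : ℝ) ≤ n := by exact_mod_cast h3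
  have hJr : (1 : ℝ) ≤ J := by exact_mod_cast hJ
  rw [div_le_iff₀ (by positivity)] at h1
  rw [div_le_iff₀ hτ0] at h2
  set t : ℕ := ⌊τ * n⌋₊ with ht
  have ht1 : (t : ℝ) ≤ τ * n := Nat.floor_le (by positivity)
  have ht2 : τ * n < t + 1 := Nat.lt_floor_add_one _
  have ht'r : 2 * (t' : ℝ) ≤ n := by exact_mod_cast ht'
  have hJtr : (J : ℝ) + 1 ≤ t' := by exact_mod_cast hJt
  have htJ : (J : ℝ) ≤ t := by nlinarith
  set A : ℝ := ((t : ℝ) - J) * ((n : ℝ) - t + J + 1) with hA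
  set A' : ℝ := ((t' : ℝ) - J) * ((n : ℝ) - t' + J + 1) with hA'
  have hτn : τ * n ≤ n / 5 := by nlinarith
  have hA0 : 0 ≤ A := by
    rw [hA]
    apply mul_nonneg (by linarith)
    nlinarith
  have hAle : A ≤ w * n ^ 2 + (2 * J + 1) * n := by
    have : 0 ≤ (τ * n - t) * (n - τ * n - t) := by
      apply mul_nonneg (by linarith)
      nlinarith
    have e : w * (n : ℝ) ^ 2 = τ * n * (n - τ * n) := by rw [hw]; ring
    rw [e, hA]
    nlinarith
  have hA'ge : (w + w ^ 2 / 6) * n ^ 2 - (J + 3 / 2) * n ≤ A' := by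
    have h5 : (w + w ^ 2 / 6) * (n : ℝ) - 1 / 2 ≤ i := by linarith
    have h6 : ((w + w ^ 2 / 6) * (n : ℝ) - 1 / 2 - 1) * n ≤ (t' : ℝ) * (n - t') := by
      refine le_trans ?_ hit
      apply mul_le_mul_of_nonneg_right _ (by linarith)
      linarith
    rw [hA']
    nlinarith
  have hAn : A ≤ (n : ℝ) ^ 2 := by
    have h6 : A ≤ ((n : ℝ) + 1) ^ 2 / 4 := by
      rw [hA]
      nlinarith [sq_nonneg (((t : ℝ) - J) - ((n : ℝ) - t + J + 1))]
    nlinarith
  have hsA : Real.sqrt A ≤ n := by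
    rw [show (n : ℝ) = Real.sqrt ((n : ℝ) ^ 2) by rw [Real.sqrt_sq (by linarith)]]
    exact Real.sqrt_le_sqrt hAn
  have hmain : Real.sqrt A + 1 ≤ Real.sqrt A' := by
    apply Real.le_sqrt_of_sq_le
    have h7 := Real.sq_sqrt hA0
    have h9 : (3 * (J : ℝ) + 6) * n ≤ (n : ℝ) * (w ^ 2 / 6) * n :=
      mul_le_mul_of_nonneg_right h1 (by linarith)
    have h10 : (w + w ^ 2 / 6) * (n : ℝ) ^ 2 = w * (n : ℝ) ^ 2 + (n : ℝ) * (w ^ 2 / 6) * n := by
      ring
    have h8 : 2 * (n : ℝ) + 1 ≤ A' - A := by linarith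
    have h11 : (Real.sqrt A + 1) ^ 2 = Real.sqrt A ^ 2 + 2 * Real.sqrt A + 1 := by ring
    rw [h11, h7]
    linarith
  have hcos : 1 / 2 ≤ Real.cos (Real.pi / ((J : ℝ) + 2)) := by
    rw [← Real.cos_pi_div_three]
    apply Real.cos_le_cos_of_nonneg_of_le_pi
    · positivity
    · nlinarith [Real.pi_pos]
    · apply div_le_div_of_nonneg_left Real.pi_pos.le (by norm_num) (by linarith)
  unfold lv
  rw [← hA, ← hA']
  nlinarith

end CoverAux

open CoverAux in
theorem cover {τ : ℝ} (hτ0 : 0 < τ) (hτ : τ ≤ 1 / 5) {J : ℕ} (hJ : 1 ≤ J) :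
    ∃ c : ℝ, 0 < c ∧ ∀ᶠ n : ℕ in atTop, ∀ k : ℕ,
      2 * (τ * (1 - τ) + (τ * (1 - τ)) ^ 2 / 6) * n ≤ k → (k : ℝ) ≤ 9 / 20 * n →
      ∃ t' : ℕ, J + 1 ≤ t' ∧ 2 * t' ≤ n ∧ lv n ⌊τ * n⌋₊ J + 1 ≤ lv n t' J ∧
        0 < (base n t' J).eval 1 ∧
        c / n * (base n t' J).eval 1 ≤ (base n t' J).coeff k := by
  set w : ℝ := τ * (1 - τ) with hw
  have hw0 : 0 < w := by rw [hw]; nlinarith
  set sn : ℝ := Real.sin (Real.pi / ((J : ℝ) + 2)) with hsn
  have hs0 : 0 < sn := sin_pos' hJ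
  refine ⟨sn ^ 2 / 2 * (w / 2) / ((J : ℝ) + 1) ^ 2, by positivity, ?_⟩
  have e1 : ∀ᶠ n : ℕ in atTop, ((J : ℝ) + 3) / w ≤ (n : ℝ) :=
    tendsto_natCast_atTop_atTop.eventually_ge_atTop _
  filter_upwards [lv_ge hτ0 hτ hJ, e1, eventually_ge_atTop 1000] with n hlv h1 h3 k hk1 hk2
  have hn : (1000 : ℝ) ≤ n := by exact_mod_cast h3
  rw [div_le_iff₀ hw0] at h1
  obtain ⟨i, D, hD, rfl⟩ : ∃ i D : ℕ, D ≤ 1 ∧ k = 2 * i + D :=
    ⟨k / 2, k % 2, by omega, by omega⟩
  have hDr : (D : ℝ) ≤ 1 := by exact_mod_cast hD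
  push_cast at hk1 hk2
  have hD0 : (0 : ℝ) ≤ D := Nat.cast_nonneg D
  have hw2 : 0 ≤ w ^ 2 / 6 * n := by positivity
  have hi1 : w * n - 1 / 2 ≤ (i : ℝ) := by nlinarith
  have hir : (J : ℝ) + 2 < i := by linarith
  have hiJ : J + 2 < i := by exact_mod_cast hir
  have hin : 4 * i + 8 ≤ n := by
    have : 4 * (i : ℝ) + 8 ≤ n := by linarith
    exact_mod_cast this
  obtain ⟨a, ha1, ha2, ha3, ha4⟩ := exists_mode hD (by omega : 1 ≤ i) hin
  refine ⟨a + D, by omega, ha1, ?_, ?_, ?_⟩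
  · apply hlv i (a + D) _ ha1 (by omega)
    · push_cast
      linarith
    · linarith
  · have h5 := (base_val (n := n) (t := a + D) (J := J) (by omega) ha1).1
    have h6 : (base n (a + D) J).eval 1 = ∑ j ∈ range (2 * (a + D) + 1),
        (base n (a + D) J).coeff j := by
      rw [eval_eq_sum_range' (Nat.lt_succ_of_le (base_natDegree (n := n) (t := a + D) (J := J)))]
      simp
    rw [h6]
    exact Finset.sum_pos' (fun j _ => base_coeff_nonneg n (a + D) J j)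
      ⟨0, Finset.mem_range.2 (by omega), h5⟩
  · have h5 := base_eval_le (n := n) (t' := a + D) (J := J) (by omega) ha1
    have h6 := coeff_ge (n := n) (a := a) (D := D) (i := i) (J := J) hJ hD ha1 ha3
      (by omega) ha2
    refine le_trans ?_ h6
    set Ct : ℝ := ((n.choose (a + D) : ℕ) : ℝ) with hCt
    have hCt0 : 0 ≤ Ct := Nat.cast_nonneg _
    have hJ2 : (0 : ℝ) < ((J : ℝ) + 1) ^ 2 := by positivity
    have h7 : sn ^ 2 / 2 * (w / 2) / ((J : ℝ) + 1) ^ 2 / n * (base n (a + D) J).eval 1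
        ≤ sn ^ 2 / 2 * (w / 2) / ((J : ℝ) + 1) ^ 2 / n * (((J : ℝ) + 1) ^ 2 * Ct) :=
      mul_le_mul_of_nonneg_left h5 (by positivity)
    refine h7.trans ?_
    have h8 : sn ^ 2 / 2 * (w / 2) / ((J : ℝ) + 1) ^ 2 / n * (((J : ℝ) + 1) ^ 2 * Ct)
        = sn ^ 2 / (2 * n) * (w / 2) * Ct := by
      field_simp
    rw [h8]
    apply mul_le_mul_of_nonneg_right _ hCt0
    have h9 : w / 2 ≤ (i : ℝ) / n := by
      rw [le_div_iff₀ (by linarith)]
      nlinarith
    have h10 : sn ^ 2 / (2 * n) ≤ sn ^ 2 / (n + 1) := by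
      apply div_le_div_of_nonneg_left (by positivity) (by positivity) (by linarith)
    exact mul_le_mul h10 h9 (by positivity) (by positivity)

end Pool.Agent.Lib.MP_0430e4_lc.All
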