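import Pool.Agent.Lib.MP_0430e4_lc.All.Defs

/-!
# Module LOP: the operator `A - l` on mass polynomials
-/

set_option autoImplicit false

namespace Pool.Agent.Lib.MP_0430e4_lc.All

open Finset Polynomial

theorem lop_add (N : ℕ) (l : ℝ) (P Q : ℝ[X]) : lop N l (P + Q) = lop N l P + lop N l Q := by
  unfold lop
  rw [derivative_add]
  ring

theorem lop_C_mul (N : ℕ) (l c : ℝ) (P : ℝ[X]) : lop N l (C c * P) = C c * lop N l P := by
  unfold lop
  rw [derivative_C_mul]
  ring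

theorem lop_mul (N₁ N₂ : ℕ) (l₁ l₂ : ℝ) (P Q : ℝ[X]) :
    lop (N₁ + N₂) (l₁ + l₂) (P * Q) = lop N₁ l₁ P * Q + P * lop N₂ l₂ Q := by
  unfold lop
  rw [derivative_mul, Nat.cast_add, C_add, C_add]
  ring

theorem lop_one (N : ℕ) : lop N 0 1 = C (N : ℝ) * X := by
  unfold lop
  rw [derivative_one, C_0]
  ring

theorem lop_nb_pow (q : ℝ) (M : ℕ) :
    lop (2 * M) 0 (nb q ^ M) = C (2 * M * (1 - q)) * X * nb q ^ (M - 1) := by
  rcases M with _ | m
  · unfold lop
    simp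
  · have hd : derivative (nb q) = C (-(2 * q)) * X := by
      unfold nb
      rw [derivative_sub, derivative_one, derivative_C_mul, derivative_X_pow]
      have e : C (-(2 * q)) = - (C (2 : ℝ) * C q) := by
        rw [← C_mul, ← C_neg]
      rw [e]
      push_cast
      have e2 : (C (2 : ℝ) : ℝ[X]) = 2 := rfl
      rw [e2]
      ring
    unfold lop
    rw [derivative_pow, hd, Nat.add_sub_cancel, C_0]
    have e1 : (C ((2 * (m + 1) : ℕ) : ℝ) : ℝ[X]) = 2 * C ((m + 1 : ℕ) : ℝ) := by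
      rw [Nat.cast_mul, C_mul]
      rfl
    have e2 : (C (2 * ((m + 1 : ℕ) : ℝ) * (1 - q)) : ℝ[X]) = 2 * C ((m + 1 : ℕ) : ℝ) * (1 - C q) := by
      rw [C_mul, C_mul, C_sub, C_1]
      rfl
    have e3 : (C (-(2 * q)) : ℝ[X]) = - (2 * C q) := by
      rw [C_neg, C_mul]
      rfl
    rw [e1, e2, e3]
    have e4 : nb q ^ (m + 1) = (1 - C q * X ^ 2) * nb q ^ m := by
      rw [pow_succ']
      rfl
    rw [e4]
    ring

theorem lop_level (N : ℕ) (l l' : ℝ) (P : ℝ[X]) :
    lop N l P = lop N l' P + C (l' - l) * P := by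
  unfold lop
  rw [C_sub]
  ring

theorem lop_eval_one (N : ℕ) (l : ℝ) (P : ℝ[X]) :
    (lop N l P).eval 1 = (N - l) * P.eval 1 := by
  unfold lop
  simp only [eval_add, eval_mul, eval_sub, eval_pow, eval_X, eval_C, eval_one]
  ring

end Pool.Agent.Lib.MP_0430e4_lc.All
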