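import Pool.Agent.Lib.MP_0430e4_lc.All.Defs

/-!
# Module MAC: the MacWilliams transform on mass polynomials
-/

set_option autoImplicit false

namespace Pool.Agent.Lib.MP_0430e4_lc.All

open Finset Polynomial

theorem mac_add (N : ℕ) (P Q : ℝ[X]) : mac N (P + Q) = mac N P + mac N Q := by
  unfold mac
  rw [← sum_add_distrib]
  apply sum_congr rfl
  intro k _
  rw [coeff_add, C_add]
  ring

theorem mac_C_mul (N : ℕ) (c : ℝ) (P : ℝ[X]) : mac N (C c * P) = C c * mac N P := by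
  unfold mac
  rw [mul_sum]
  apply sum_congr rfl
  intro k _
  rw [coeff_C_mul, C_mul]
  ring

/-- `mac` as a linear map -/
noncomputable def macL (N : ℕ) : ℝ[X] →ₗ[ℝ] ℝ[X] where
  toFun := mac N
  map_add' := mac_add N
  map_smul' := by
    intro c P
    rw [smul_eq_C_mul, mac_C_mul, RingHom.id_apply, smul_eq_C_mul]

theorem mac_sum {ι : Type*} (s : Finset ι) (N : ℕ) (f : ι → ℝ[X]) :
    mac N (∑ i ∈ s, f i) = ∑ i ∈ s, mac N (f i) :=
  map_sum (macL N) f s

theorem mac_X_pow {N k : ℕ} (hk : k ≤ N) : mac N (X ^ k) = (1 - X) ^ k * (1 + X) ^ (N - k) := by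
  unfold mac
  rw [sum_eq_single k]
  · rw [coeff_X_pow_self, C_1, one_mul]
  · intro j _ hj
    rw [coeff_X_pow, if_neg hj, C_0, zero_mul, zero_mul]
  · intro h
    exact absurd (mem_range.2 (by omega)) h

theorem mac_mul {N₁ N₂ : ℕ} {P Q : ℝ[X]} (hP : P.natDegree ≤ N₁) (hQ : Q.natDegree ≤ N₂) :
    mac (N₁ + N₂) (P * Q) = mac N₁ P * mac N₂ Q := by
  have eP : P = ∑ i ∈ range (N₁ + 1), C (P.coeff i) * X ^ i :=
    P.as_sum_range_C_mul_X_pow' (by omega)
  have eQ : Q = ∑ j ∈ range (N₂ + 1), C (Q.coeff j) * X ^ j :=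
    Q.as_sum_range_C_mul_X_pow' (by omega)
  have e : P * Q = ∑ i ∈ range (N₁ + 1), ∑ j ∈ range (N₂ + 1),
      C (P.coeff i * Q.coeff j) * X ^ (i + j) := by
    conv_lhs => rw [eP, eQ]
    rw [sum_mul_sum]
    apply sum_congr rfl
    intro i _
    apply sum_congr rfl
    intro j _
    rw [C_mul, pow_add]
    ring
  rw [e, mac_sum]
  unfold mac
  rw [sum_mul_sum]
  apply sum_congr rfl
  intro i hi
  rw [mem_range] at hi
  change mac (N₁ + N₂) _ = _
  rw [mac_sum]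
  apply sum_congr rfl
  intro j hj
  rw [mem_range] at hj
  rw [mac_C_mul, mac_X_pow (by omega), C_mul]
  have e1 : N₁ + N₂ - (i + j) = (N₁ - i) + (N₂ - j) := by omega
  rw [e1, pow_add, pow_add]
  ring

theorem mac_one (N : ℕ) : mac N 1 = (1 + X) ^ N := by
  have h := mac_X_pow (N := N) (k := 0) (Nat.zero_le N)
  rw [pow_zero, pow_zero, one_mul, Nat.sub_zero] at h
  exact h

theorem coeff_mul_nonneg {P Q : ℝ[X]} (hP : ∀ k, 0 ≤ P.coeff k) (hQ : ∀ k, 0 ≤ Q.coeff k) :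
    ∀ k, 0 ≤ (P * Q).coeff k := by
  intro k
  rw [coeff_mul]
  exact sum_nonneg fun x _ => mul_nonneg (hP _) (hQ _)

theorem nb_natDegree (q : ℝ) : (nb q).natDegree ≤ 2 := by
  unfold nb
  compute_degree

theorem nb_pow_natDegree (q : ℝ) (M : ℕ) : (nb q ^ M).natDegree ≤ 2 * M := by
  have := natDegree_pow_le (p := nb q) (n := M)
  have h2 := nb_natDegree q
  nlinarith

theorem mac_nb (q : ℝ) : mac 2 (nb q) = C (1 - q) + C (2 * (1 + q)) * X + C (1 - q) * X ^ 2 := by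
  have e : nb q = 1 + C (-q) * X ^ 2 := by
    unfold nb
    rw [C_neg]
    ring
  rw [e, mac_add, mac_C_mul, mac_one, mac_X_pow le_rfl, C_neg, C_sub, C_mul, C_add, C_1]
  have e2 : (C (2 : ℝ) : ℝ[X]) = 2 := rfl
  rw [e2]
  ring

theorem mac_nb_coeff_nonneg {q : ℝ} (hq0 : 0 ≤ q) (hq1 : q ≤ 1) (j : ℕ) :
    0 ≤ (mac 2 (nb q)).coeff j := by
  rw [mac_nb, coeff_add, coeff_add, coeff_C_mul, coeff_C_mul, coeff_C, coeff_X, coeff_X_pow]
  have h1 : 0 ≤ 1 - q := by linarith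
  have h2 : 0 ≤ 2 * (1 + q) := by linarith
  apply add_nonneg
  · apply add_nonneg
    · split_ifs <;> linarith
    · apply mul_nonneg h2
      split_ifs <;> norm_num
  · apply mul_nonneg h1
    split_ifs <;> norm_num

theorem mac_nb_pow_nonneg {q : ℝ} (hq0 : 0 ≤ q) (hq1 : q ≤ 1) (M : ℕ) (j : ℕ) :
    0 ≤ (mac (2 * M) (nb q ^ M)).coeff j := by
  induction M generalizing j with
  | zero =>
    rw [pow_zero, mac_one, Nat.mul_zero, pow_zero, coeff_one]
    split_ifs <;> norm_num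
  | succ m ih =>
    rw [pow_succ, Nat.mul_succ, mac_mul (nb_pow_natDegree q m) (nb_natDegree q)]
    exact coeff_mul_nonneg ih (mac_nb_coeff_nonneg hq0 hq1) j

end Pool.Agent.Lib.MP_0430e4_lc.All
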