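import Pool.Agent.Lib.MP_0430e4_lc.All.Defs

/-!
# Monotonicity of the mean and variance of the tilted Bernoulli sum
-/

set_option autoImplicit false

namespace Pool.Agent.Lib.MP_0430e4_lc.All

open Finset Polynomial

theorem S2_anti {a : ℕ} {y : Fin a → ℝ} (hy : ∀ j, 0 < y j) {v v' : ℝ} (hv : 0 < v)
    (h : v ≤ v') : S2 y v' ≤ S2 y v := by
  unfold S2
  refine Finset.sum_le_sum fun j _ => ?_
  have hyj := hy j
  have h1 : 0 < 1 + v * y j := by positivity
  have h2 : 1 + v * y j ≤ 1 + v' * y j := by nlinarith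
  exact div_le_div_of_nonneg_left hyj.le (by positivity) (pow_le_pow_left₀ h1.le h2 2)

theorem S2_ge {a : ℕ} {y : Fin a → ℝ} (hy : ∀ j, 0 < y j) {v : ℝ} (hv : 1 ≤ v) :
    S2 y 1 / v ^ 2 ≤ S2 y v := by
  unfold S2
  rw [Finset.sum_div]
  refine Finset.sum_le_sum fun j _ => ?_
  have hyj := hy j
  have hv0 : 0 < v := by linarith
  have h1 : 0 < 1 + v * y j := by positivity
  rw [div_div, one_mul, ← mul_pow]
  refine div_le_div_of_nonneg_left hyj.le (by positivity) (pow_le_pow_left₀ h1.le ?_ 2)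
  nlinarith

theorem S1_ge {a : ℕ} {y : Fin a → ℝ} (hy : ∀ j, 0 < y j) {v : ℝ} (hv : 1 ≤ v) :
    S1 y 1 + S2 y 1 * (1 - 1 / v) ≤ S1 y v := by
  unfold S1 S2
  rw [Finset.sum_mul, ← Finset.sum_add_distrib]
  refine Finset.sum_le_sum fun j _ => ?_
  have hyj := hy j
  have hv0 : 0 < v := by linarith
  have h1 : 0 < 1 + v * y j := by positivity
  have h2 : 0 < 1 + y j := by positivity
  simp only [one_mul]
  have key : v * y j / (1 + v * y j) - (y j / (1 + y j) + y j / (1 + y j) ^ 2 * (1 - 1 / v))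
      = y j * (v - 1) ^ 2 / (v * (1 + v * y j) * (1 + y j) ^ 2) := by
    field_simp
    ring
  have : 0 ≤ y j * (v - 1) ^ 2 / (v * (1 + v * y j) * (1 + y j) ^ 2) := by positivity
  linarith

theorem S1_le {a : ℕ} {y : Fin a → ℝ} (hy : ∀ j, 0 < y j) {v : ℝ} (hv : 1 ≤ v) :
    S1 y v ≤ S1 y 1 + (v - 1) * S2 y 1 := by
  unfold S1 S2
  rw [Finset.mul_sum, ← Finset.sum_add_distrib]
  refine Finset.sum_le_sum fun j _ => ?_
  have hyj := hy j
  have hv0 : 0 < v := by linarith
  have h1 : 0 < 1 + v * y j := by positivity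
  have h2 : 0 < 1 + y j := by positivity
  simp only [one_mul]
  have key : (y j / (1 + y j) + (v - 1) * (y j / (1 + y j) ^ 2)) - v * y j / (1 + v * y j)
      = y j ^ 2 * (v - 1) ^ 2 / ((1 + v * y j) * (1 + y j) ^ 2) := by
    field_simp
    ring
  have : 0 ≤ y j ^ 2 * (v - 1) ^ 2 / ((1 + v * y j) * (1 + y j) ^ 2) := by positivity
  linarith

theorem prod_le_rpow {a : ℕ} {y : Fin a → ℝ} (hy : ∀ j, 0 < y j) {v : ℝ} (hv : 1 ≤ v) :
    (rp y).eval v ≤ (rp y).eval 1 * v ^ (S1 y v) := by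
  have hv0 : 0 < v := by linarith
  unfold rp S1
  rw [Polynomial.eval_prod, Polynomial.eval_prod, Real.rpow_sum_of_pos hv0,
    ← Finset.prod_mul_distrib]
  refine Finset.prod_le_prod (fun j _ => ?_) (fun j _ => ?_)
  · have hyj := hy j
    simp only [eval_add, eval_one, eval_mul, eval_C, eval_X]
    positivity
  · have hyj := hy j
    simp only [eval_add, eval_one, eval_mul, eval_C, eval_X, mul_one]
    have h1 : 0 < 1 + v * y j := by positivity
    have h2 : 0 < 1 + y j := by positivity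
    set p := v * y j / (1 + v * y j) with hp
    have hp0 : 0 ≤ p := by positivity
    have hp1 : p ≤ 1 := by
      rw [hp, div_le_one h1]
      linarith
    have hb := _root_.rpow_one_add_le_one_add_mul_self (s := 1 / v - 1)
      (by
        have : 0 < 1 / v := by positivity
        linarith) hp0 hp1
    have e1 : (1 + (1 / v - 1)) = v⁻¹ := by
      rw [one_div]
      ring
    rw [e1, Real.inv_rpow hv0.le] at hb
    have hvp : 0 < v ^ p := Real.rpow_pos_of_pos hv0 _
    have e2 : 1 + p * (1 / v - 1) = (1 + y j) / (1 + v * y j) := by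
      rw [hp]
      field_simp
      ring
    rw [e2, inv_le_iff_one_le_mul₀ hvp] at hb
    rw [div_mul_eq_mul_div, le_div_iff₀ h1] at hb
    calc 1 + y j * v = 1 * (1 + v * y j) := by ring
      _ ≤ _ := hb
end Pool.Agent.Lib.MP_0430e4_lc.All
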