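import Pool.Agent.Lib.MP_0430e4_lc.All.LLT

/-!
# Positivity of coefficients by scaling
-/

set_option autoImplicit false

namespace Pool.Agent.Lib.MP_0430e4_lc.All

open Finset Polynomial

theorem coeff_pos {a : ℕ} (y : Fin a → ℝ) (hy : ∀ j, 0 < y j) {q v : ℝ} (hq0 : 0 < q)
    (hq : q ≤ 1 / 2) (hv0 : 0 < v) (hv : v ≤ 3 / 2) (M i : ℕ)
    (hm : S1 y v - M * (q * v / (1 - q * v)) = i) (hV : 800 ≤ v * S2 y v)
    (hr : 100 * (M * (q * v / (1 - q * v) ^ 2)) ≤ v * S2 y v) :
    0 < (rp y * (1 - C q * X) ^ M).coeff i := by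
  have hqv0 : 0 < q * v := mul_pos hq0 hv0
  have hqv : q * v ≤ 3 / 4 := by nlinarith
  have h1qv : 0 < 1 - q * v := by linarith
  have h1y : ∀ j, 0 < 1 + v * y j := fun j => by
    have := mul_pos hv0 (hy j)
    linarith
  set p : Fin a → ℝ := fun j => v * y j / (1 + v * y j) with hp
  set r : ℝ := q * v / (1 - q * v) with hrdef
  have hp0 : ∀ j, 0 ≤ p j := fun j => by
    have := mul_pos hv0 (hy j)
    exact div_nonneg this.le (h1y j).le
  have hp1 : ∀ j, p j ≤ 1 := fun j => by
    rw [hp]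
    dsimp only
    rw [div_le_one (h1y j)]
    linarith
  have hr0 : 0 ≤ r := div_nonneg hqv0.le h1qv.le
  have hr3 : r ≤ 3 := by
    rw [hrdef, div_le_iff₀ h1qv]
    linarith
  have hpp : ∀ j, p j * (1 - p j) = v * (y j / (1 + v * y j) ^ 2) := by
    intro j
    have := (h1y j).ne'
    rw [hp]
    field_simp
    ring
  have hsum : ∑ j, p j * (1 - p j) = v * S2 y v := by
    rw [S2, Finset.mul_sum]
    exact Finset.sum_congr rfl fun j _ => hpp j
  have hrr : r * (1 + r) = q * v / (1 - q * v) ^ 2 := by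
    have := h1qv.ne'
    rw [hrdef]
    field_simp
    ring
  have hllt := llt p hp0 hp1 hr0 hr3 M i hm (by rw [hsum]; exact hV)
    (by rw [hsum, hrr]; exact hr)
  set G : ℝ[X] := rp y * (1 - C q * X) ^ M with hG
  set K : ℝ := (∏ j, (1 + v * y j)) * (1 - q * v) ^ M with hK
  have hKpos : 0 < K := mul_pos (Finset.prod_pos fun j _ => h1y j) (pow_pos h1qv M)
  have hcomp : G.comp (C v * X) =
      C K * ((∏ j, (1 + C (p j) * (X - 1))) * (1 - C r * (X - 1)) ^ M) := by
    have e1 : ∀ j, (1 + C (y j) * X : ℝ[X]).comp (C v * X) =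
        C (1 + v * y j) * (1 + C (p j) * (X - 1)) := by
      intro j
      have h2 : (1 + v * y j) * p j = v * y j := by
        rw [hp]
        dsimp only
        rw [mul_div_cancel₀ _ (h1y j).ne']
      have h3 : C (1 + v * y j) * (1 + C (p j) * (X - 1)) =
          C (1 + v * y j) + C ((1 + v * y j) * p j) * (X - 1 : ℝ[X]) := by
        rw [C_mul]
        ring
      rw [h3, h2]
      simp only [add_comp, one_comp, mul_comp, C_comp, X_comp, C_add, C_mul, C_1]
      ring
    have e2 : (1 - C q * X : ℝ[X]).comp (C v * X) = C (1 - q * v) * (1 - C r * (X - 1)) := by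
      have h2 : (1 - q * v) * r = q * v := by
        rw [hrdef, mul_div_cancel₀ _ h1qv.ne']
      have h3 : C (1 - q * v) * (1 - C r * (X - 1)) =
          C (1 - q * v) - C ((1 - q * v) * r) * (X - 1 : ℝ[X]) := by
        rw [C_mul]
        ring
      rw [h3, h2]
      simp only [sub_comp, one_comp, mul_comp, C_comp, X_comp, C_sub, C_mul, C_1]
      ring
    rw [hG, mul_comp, pow_comp, e2, rp, Polynomial.prod_comp, Finset.prod_congr rfl fun j _ => e1 j,
      Finset.prod_mul_distrib, mul_pow, hK, C_mul, map_prod, C_pow]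
    ring
  have h4 : G.coeff i * v ^ i = K * ((∏ j, (1 + C (p j) * (X - 1))) *
      (1 - C r * (X - 1)) ^ M : ℝ[X]).coeff i := by
    rw [← comp_C_mul_X_coeff, hcomp, coeff_C_mul]
  have h5 : 0 < G.coeff i * v ^ i := by
    rw [h4]
    exact mul_pos hKpos hllt
  exact (mul_pos_iff_of_pos_right (pow_pos hv0 i)).1 h5

end Pool.Agent.Lib.MP_0430e4_lc.All
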