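import Pool.Agent.Lib.MP_0430e4_lc.All.Defs

/-!
# Positivity of the coefficients of small index
-/

set_option autoImplicit false

namespace Pool.Agent.Lib.MP_0430e4_lc.All

open Finset Polynomial

theorem SMALL_gp_coeff (n a D i : ℕ) :
    (gp n a D).coeff i = ((a.choose i : ℕ) : ℝ) * (((n - a).choose (D + i) : ℕ) : ℝ) := by
  unfold gp
  simp only [finsetSum_coeff, coeff_C_mul_X_pow]
  rw [Finset.sum_ite_eq (range (a + 1)) i]
  split_ifs with h
  · rfl
  · have : a < i := by simpa [Nat.lt_succ_iff] using h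
    rw [Nat.choose_eq_zero_of_lt this]
    simp

theorem SMALL_pow_coeff (q : ℝ) (M j : ℕ) :
    ((1 - C q * X : ℝ[X]) ^ M).coeff j = (-q) ^ j * ((M.choose j : ℕ) : ℝ) := by
  have h1 : (1 - C q * X : ℝ[X]) = C (-q) * X + C 1 := by
    simp only [C_neg, C_1]
    ring
  rw [h1, add_pow]
  simp only [finsetSum_coeff]
  have h2 : ∀ m : ℕ, ((C (-q) * X : ℝ[X]) ^ m * C 1 ^ (M - m) * ((M.choose m : ℕ) : ℝ[X])).coeff j
      = if j = m then (-q) ^ m * ((M.choose m : ℕ) : ℝ) else 0 := by
    intro m
    rw [C_1, one_pow, mul_one, mul_pow, ← C_pow]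
    rw [show ((M.choose m : ℕ) : ℝ[X]) = C ((M.choose m : ℕ) : ℝ) by simp]
    rw [mul_right_comm, ← C_mul, coeff_C_mul_X_pow]
  simp only [h2]
  rw [Finset.sum_ite_eq (range (M + 1)) j]
  split_ifs with h
  · rfl
  · have : M < j := by simpa [Nat.lt_succ_iff] using h
    rw [Nat.choose_eq_zero_of_lt this]
    simp

theorem small_pos {n a D M i : ℕ} {q : ℝ} (hq0 : 0 ≤ q) (hi : i ≤ a) (hin : a + D + i ≤ n)
    (h : 2 * q * M * (i * (i + D)) ≤ ((a : ℝ) - i + 1) * (n - a - D - i + 1)) :
    0 < (gp n a D * (1 - C q * X) ^ M).coeff i := by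
  -- the terms
  set T : ℕ → ℝ := fun j => q ^ j * ((M.choose j : ℕ) : ℝ) *
    (((a.choose (i - j) : ℕ) : ℝ) * (((n - a).choose (D + (i - j)) : ℕ) : ℝ)) with hT
  have hcoef : (gp n a D * (1 - C q * X) ^ M).coeff i
      = ∑ j ∈ range (i + 1), (-1) ^ j * T j := by
    rw [mul_comm, coeff_mul, Finset.Nat.sum_antidiagonal_eq_sum_range_succ_mk]
    refine Finset.sum_congr rfl fun j _ => ?_
    rw [SMALL_pow_coeff, SMALL_gp_coeff, hT]
    simp only
    rw [neg_pow]
    ring
  have hT0 : 0 < T 0 := by
    simp only [hT, pow_zero, Nat.choose_zero_right, Nat.cast_one, one_mul, Nat.sub_zero]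
    have h1 : 0 < a.choose i := Nat.choose_pos hi
    have h2 : 0 < (n - a).choose (D + i) := Nat.choose_pos (by omega)
    positivity
  have hTn : ∀ j, 0 ≤ T j := fun j => by
    simp only [hT]
    positivity
  have hstep : ∀ j, j < i → T (j + 1) ≤ 1 / 2 * T j := by
    intro j hj
    obtain ⟨m, hm⟩ : ∃ m, i - j = m + 1 := ⟨i - j - 1, by omega⟩
    have hm' : i - (j + 1) = m := by omega
    have e1 : (a.choose (m + 1) : ℝ) * (m + 1) = a.choose m * (a - m) := by
      have := Nat.choose_succ_right_eq a m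
      have h2 : m ≤ a := by omega
      have h3 : ((a.choose (m + 1) * (m + 1) : ℕ) : ℝ) = ((a.choose m * (a - m) : ℕ) : ℝ) := by
        exact_mod_cast this
      push_cast [Nat.cast_sub h2] at h3
      exact h3
    have e2 : ((n - a).choose (D + (m + 1)) : ℝ) * (D + m + 1)
        = (n - a).choose (D + m) * (n - a - (D + m)) := by
      have := Nat.choose_succ_right_eq (n - a) (D + m)
      have h2 : D + m ≤ n - a := by omega
      have h4 : a ≤ n := by omega
      have h3 : (((n - a).choose (D + m + 1) * (D + m + 1) : ℕ) : ℝ)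
          = (((n - a).choose (D + m) * (n - a - (D + m)) : ℕ) : ℝ) := by
        exact_mod_cast this
      push_cast [Nat.cast_sub h2, Nat.cast_sub h4] at h3
      rw [show D + (m + 1) = D + m + 1 by ring]
      exact h3
    have e3 : (M.choose (j + 1) : ℝ) * (j + 1) ≤ M.choose j * M := by
      have := Nat.choose_succ_right_eq M j
      have h3 : ((M.choose (j + 1) * (j + 1) : ℕ) : ℝ) = ((M.choose j * (M - j) : ℕ) : ℝ) := by
        exact_mod_cast this
      push_cast at h3
      rw [h3]
      have : ((M - j : ℕ) : ℝ) ≤ M := by exact_mod_cast Nat.sub_le M j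
      exact mul_le_mul_of_nonneg_left this (by positivity)
    have e3' : (M.choose (j + 1) : ℝ) ≤ M.choose j * M := by
      have : (M.choose (j + 1) : ℝ) * 1 ≤ (M.choose (j + 1) : ℝ) * (j + 1) :=
        mul_le_mul_of_nonneg_left (by linarith [(Nat.cast_nonneg j : (0:ℝ) ≤ j)]) (by positivity)
      linarith
    simp only [hT, hm, hm']
    set A := (a.choose m : ℝ)
    set A' := (a.choose (m + 1) : ℝ)
    set B := ((n - a).choose (D + m) : ℝ)
    set B' := ((n - a).choose (D + (m + 1)) : ℝ)
    set G := (M.choose j : ℝ)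
    set G' := (M.choose (j + 1) : ℝ)
    have hmi : (m : ℝ) + 1 ≤ i := by
      have : m + 1 ≤ i := by omega
      exact_mod_cast this
    have hia : (i : ℝ) ≤ a := by exact_mod_cast hi
    have hinr : (a : ℝ) + D + i ≤ n := by exact_mod_cast hin
    have hm0 : (0 : ℝ) ≤ m := Nat.cast_nonneg m
    have hD0 : (0 : ℝ) ≤ D := Nat.cast_nonneg D
    have hA : 0 ≤ A := by positivity
    have hB : 0 ≤ B := by positivity
    have hA' : 0 ≤ A' := by positivity
    have hB' : 0 ≤ B' := by positivity
    have hG : 0 ≤ G := by positivity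
    have hM0 : (0 : ℝ) ≤ M := Nat.cast_nonneg M
    have hX : 0 < (a : ℝ) - m := by linarith
    have hY : 0 < (n : ℝ) - a - (D + m) := by linarith
    -- 2 q M (m+1)(D+m+1) ≤ (a-m)(n-a-D-m)
    have hk : 2 * q * M * ((m + 1) * (D + m + 1)) ≤ ((a : ℝ) - m) * (n - a - (D + m)) := by
      have s1 : ((m : ℝ) + 1) * (D + m + 1) ≤ i * (i + D) := by
        apply mul_le_mul hmi (by linarith) (by linarith) (by linarith)
      have s2 : 2 * q * M * ((m + 1) * (D + m + 1)) ≤ 2 * q * M * (i * (i + D)) :=
        mul_le_mul_of_nonneg_left s1 (by positivity)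
      have s3 : ((a : ℝ) - i + 1) * (n - a - D - i + 1) ≤ ((a : ℝ) - m) * (n - a - (D + m)) := by
        apply mul_le_mul <;> linarith
      linarith
    have hAB : 2 * q * M * (A * B) ≤ A' * B' := by
      have s1 : A' * B' * ((m + 1) * (D + m + 1)) = A * B * (((a : ℝ) - m) * (n - a - (D + m))) := by
        calc A' * B' * ((m + 1) * (D + m + 1)) = (A' * (m + 1)) * (B' * (D + m + 1)) := by ring
          _ = (A * (a - m)) * (B * (n - a - (D + m))) := by rw [e1, e2]
          _ = _ := by ring
      have s2 : A * B * (2 * q * M * ((m + 1) * (D + m + 1)))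
          ≤ A * B * (((a : ℝ) - m) * (n - a - (D + m))) :=
        mul_le_mul_of_nonneg_left hk (by positivity)
      have s3 : 0 < ((m : ℝ) + 1) * (D + m + 1) := by positivity
      have s4 : 2 * q * M * (A * B) * ((m + 1) * (D + m + 1)) ≤ A' * B' * ((m + 1) * (D + m + 1)) := by
        rw [s1]
        calc _ = A * B * (2 * q * M * ((m + 1) * (D + m + 1))) := by ring
          _ ≤ _ := s2
      exact le_of_mul_le_mul_right s4 s3
    have hqj : 0 ≤ q ^ j := by positivity
    calc q ^ (j + 1) * G' * (A * B) = q ^ j * (q * (G' * (A * B))) := by ring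
      _ ≤ q ^ j * (q * (G * M * (A * B))) := by
          apply mul_le_mul_of_nonneg_left _ hqj
          apply mul_le_mul_of_nonneg_left _ hq0
          exact mul_le_mul_of_nonneg_right e3' (by positivity)
      _ = q ^ j * G * (1 / 2 * (2 * q * M * (A * B))) := by ring
      _ ≤ q ^ j * G * (1 / 2 * (A' * B')) := by
          apply mul_le_mul_of_nonneg_left _ (by positivity)
          linarith
      _ = _ := by ring
  have hpow : ∀ j, j ≤ i → T j ≤ (1 / 2) ^ j * T 0 := by
    intro j
    induction j with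
    | zero => intro _; simp
    | succ j ih =>
      intro hj
      have h1 := hstep j (by omega)
      have h2 := ih (by omega)
      calc T (j + 1) ≤ 1 / 2 * T j := h1
        _ ≤ 1 / 2 * ((1 / 2) ^ j * T 0) := by linarith
        _ = _ := by ring
  -- lower bound for the partial sums
  have hlow : ∀ m, m ≤ i → (1 / 2) ^ m * T 0 ≤ ∑ j ∈ range (m + 1), (-1) ^ j * T j := by
    intro m
    induction m with
    | zero => intro _; simp
    | succ m ih =>
      intro hm
      rw [Finset.sum_range_succ]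
      have h1 := ih (by omega)
      have h2 := hpow (m + 1) hm
      have h3 : -T (m + 1) ≤ (-1) ^ (m + 1) * T (m + 1) := by
        have h4 : |(-1 : ℝ) ^ (m + 1) * T (m + 1)| = T (m + 1) := by
          rw [abs_mul, abs_pow, abs_neg, abs_one, one_pow, one_mul, abs_of_nonneg (hTn _)]
        have := neg_abs_le ((-1 : ℝ) ^ (m + 1) * T (m + 1))
        rw [h4] at this
        exact this
      have h5 : (1 / 2 : ℝ) ^ (m + 1) * T 0 + (1 / 2 : ℝ) ^ (m + 1) * T 0 = (1 / 2) ^ m * T 0 := by
        rw [pow_succ]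
        ring
      linarith
  rw [hcoef]
  have := hlow i le_rfl
  have h6 : 0 < (1 / 2 : ℝ) ^ i * T 0 := by positivity
  linarith
end Pool.Agent.Lib.MP_0430e4_lc.All
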