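import Pool.Agent.Lib.MP_0430e4_lc.All.Defs

/-!
MODULE SQ: the mean of the tilted Bernoulli sum is at most `sqrt (v a b)`.
-/

set_option autoImplicit false

namespace Pool.Agent.Lib.MP_0430e4_lc.All

open Finset Polynomial

namespace Sq

/-- `v g'(v) = S1(v) g(v)` for `g = ∏ (1 + y_j X)`. -/
theorem rp_deriv {a : ℕ} {y : Fin a → ℝ} (hy : ∀ j, 0 < y j) {v : ℝ} (hv : 0 < v) :
    v * (derivative (rp y)).eval v = S1 y v * (rp y).eval v := by
  unfold rp S1
  rw [derivative_prod_finset, eval_finsetSum, eval_prod, Finset.mul_sum, Finset.sum_mul]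
  apply Finset.sum_congr rfl
  intro j _
  rw [eval_mul, eval_prod, ← Finset.mul_prod_erase univ _ (mem_univ j)]
  have h1 : (1 + C (y j) * X : ℝ[X]).eval v = 1 + v * y j := by
    simp only [eval_add, eval_one, eval_mul, eval_C, eval_X]
    ring
  have h2 : (derivative (1 + C (y j) * X : ℝ[X])).eval v = y j := by
    simp
  rw [h1, h2]
  have h3 : 0 < 1 + v * y j := by
    have := hy j
    positivity
  field_simp

theorem rp_eval_pos {a : ℕ} {y : Fin a → ℝ} (hy : ∀ j, 0 < y j) {v : ℝ} (hv : 0 < v) :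
    0 < (rp y).eval v := by
  unfold rp
  rw [eval_prod]
  apply Finset.prod_pos
  intro j _
  have := hy j
  simp only [eval_add, eval_one, eval_mul, eval_C, eval_X]
  positivity

theorem cc_step {n a D i : ℕ} (h : 2 * a + D ≤ n) :
    (((a.choose (i + 1) : ℕ) : ℝ) * (((n - a).choose (D + (i + 1)) : ℕ) : ℝ)) *
        (((i : ℝ) + 1) * ((i : ℝ) + 1 + D)) ≤
      (a * ((n : ℝ) - a - D)) *
        (((a.choose i : ℕ) : ℝ) * (((n - a).choose (D + i) : ℕ) : ℝ)) := by
  have h1 := Nat.choose_succ_right_eq a i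
  have h2 := Nat.choose_succ_right_eq (n - a) (D + i)
  have h1' : ((a.choose (i + 1) : ℕ) : ℝ) * ((i : ℝ) + 1) =
      ((a.choose i : ℕ) : ℝ) * ((a - i : ℕ) : ℝ) := by exact_mod_cast h1
  have h2' : (((n - a).choose (D + (i + 1)) : ℕ) : ℝ) * ((i : ℝ) + 1 + D) =
      (((n - a).choose (D + i) : ℕ) : ℝ) * ((n - a - (D + i) : ℕ) : ℝ) := by
    have e : D + (i + 1) = D + i + 1 := by omega
    rw [e]
    have h3 : (((n - a).choose (D + i + 1) : ℕ) : ℝ) * ((D : ℝ) + i + 1) =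
      (((n - a).choose (D + i) : ℕ) : ℝ) * ((n - a - (D + i) : ℕ) : ℝ) := by exact_mod_cast h2
    rw [← h3]
    ring
  have h3 : ((a - i : ℕ) : ℝ) ≤ a := by exact_mod_cast Nat.sub_le a i
  have h4 : ((n - a - (D + i) : ℕ) : ℝ) ≤ (n : ℝ) - a - D := by
    have e : n - a - (D + i) ≤ n - a - D := by omega
    have e2 : ((n - a - D : ℕ) : ℝ) = (n : ℝ) - a - D := by
      rw [Nat.cast_sub (by omega), Nat.cast_sub (by omega)]
    rw [← e2]
    exact_mod_cast e
  calc (((a.choose (i + 1) : ℕ) : ℝ) * (((n - a).choose (D + (i + 1)) : ℕ) : ℝ)) *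
        (((i : ℝ) + 1) * ((i : ℝ) + 1 + D))
      = (((a.choose (i + 1) : ℕ) : ℝ) * ((i : ℝ) + 1)) *
          ((((n - a).choose (D + (i + 1)) : ℕ) : ℝ) * ((i : ℝ) + 1 + D)) := by ring
    _ = (((a.choose i : ℕ) : ℝ) * ((a - i : ℕ) : ℝ)) *
          ((((n - a).choose (D + i) : ℕ) : ℝ) * ((n - a - (D + i) : ℕ) : ℝ)) := by
        rw [h1', h2']
    _ ≤ (((a.choose i : ℕ) : ℝ) * (a : ℝ)) *
          ((((n - a).choose (D + i) : ℕ) : ℝ) * ((n : ℝ) - a - D)) := by
        gcongr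
    _ = _ := by ring

end Sq

open Sq

theorem gp_S1_sq {n a D : ℕ} (h : 2 * a + D ≤ n) {y : Fin a → ℝ} (hy : ∀ j, 0 < y j)
    (hg : gp n a D = C ((((n - a).choose D : ℕ) : ℝ)) * rp y) {v : ℝ} (hv : 0 < v) :
    S1 y v ^ 2 ≤ v * (a * ((n : ℝ) - a - D)) := by
  set c : ℕ → ℝ := fun i => ((a.choose i : ℕ) : ℝ) * (((n - a).choose (D + i) : ℕ) : ℝ)
    with hc
  have hc0 : ∀ i, 0 ≤ c i := fun i => by positivity
  have hb0 : 0 ≤ (a : ℝ) * ((n : ℝ) - a - D) := by
    have e2 : ((n - a - D : ℕ) : ℝ) = (n : ℝ) - a - D := by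
      rw [Nat.cast_sub (by omega), Nat.cast_sub (by omega)]
    rw [← e2]
    positivity
  have hgv : (gp n a D).eval v = ∑ i ∈ range (a + 1), c i * v ^ i := by
    unfold gp
    rw [eval_finsetSum]
    apply Finset.sum_congr rfl
    intro i _
    simp [hc]
  have hgd : v * (derivative (gp n a D)).eval v = ∑ i ∈ range (a + 1), (i : ℝ) * (c i * v ^ i) := by
    unfold gp
    rw [derivative_sum, eval_finsetSum, Finset.mul_sum]
    apply Finset.sum_congr rfl
    intro i _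
    rw [derivative_C_mul_X_pow]
    simp only [eval_mul, eval_C, eval_pow, eval_X, hc]
    cases i with
    | zero => simp
    | succ i =>
      rw [Nat.add_sub_cancel, pow_succ]
      push_cast
      ring
  have hrp : v * (derivative (gp n a D)).eval v = S1 y v * (gp n a D).eval v := by
    rw [hg, derivative_C_mul, eval_mul, eval_mul, eval_C]
    have := rp_deriv hy hv
    calc v * ((((n - a).choose D : ℕ) : ℝ) * (derivative (rp y)).eval v)
        = (((n - a).choose D : ℕ) : ℝ) * (v * (derivative (rp y)).eval v) := by ring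
      _ = (((n - a).choose D : ℕ) : ℝ) * (S1 y v * (rp y).eval v) := by rw [this]
      _ = _ := by ring
  have hgpos : 0 < (gp n a D).eval v := by
    rw [hg, eval_mul, eval_C]
    have h1 : 0 < (((n - a).choose D : ℕ) : ℝ) := by
      exact_mod_cast Nat.choose_pos (by omega)
    exact mul_pos h1 (rp_eval_pos hy hv)
  -- second moment
  have hmom : ∑ i ∈ range (a + 1), (i : ℝ) ^ 2 * (c i * v ^ i) ≤
      v * (a * ((n : ℝ) - a - D)) * (gp n a D).eval v := by
    rw [hgv, Finset.sum_range_succ' (fun i : ℕ => (i : ℝ) ^ 2 * (c i * v ^ i)), Finset.mul_sum,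
      Finset.sum_range_succ (fun i : ℕ => v * (a * ((n : ℝ) - a - D)) * (c i * v ^ i))]
    have hlast : 0 ≤ v * (a * ((n : ℝ) - a - D)) * (c a * v ^ a) := by
      have := hc0 a
      positivity
    have hz : ((0 : ℕ) : ℝ) ^ 2 * (c 0 * v ^ 0) = 0 := by simp
    rw [hz, add_zero]
    refine le_trans ?_ (le_add_of_nonneg_right hlast)
    apply Finset.sum_le_sum
    intro i _
    have h1 := cc_step (i := i) h
    have h2 : c (i + 1) * ((i : ℝ) + 1) ^ 2 ≤ c (i + 1) * (((i : ℝ) + 1) * ((i : ℝ) + 1 + D)) := by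
      apply mul_le_mul_of_nonneg_left _ (hc0 _)
      have hD : (0 : ℝ) ≤ D := Nat.cast_nonneg D
      have hi : (0 : ℝ) ≤ i := Nat.cast_nonneg i
      nlinarith
    have h3 : c (i + 1) * ((i : ℝ) + 1) ^ 2 ≤ (a * ((n : ℝ) - a - D)) * c i := h2.trans h1
    have h4 : 0 ≤ v ^ (i + 1) := by positivity
    calc ((i + 1 : ℕ) : ℝ) ^ 2 * (c (i + 1) * v ^ (i + 1))
        = (c (i + 1) * ((i : ℝ) + 1) ^ 2) * v ^ (i + 1) := by push_cast; ring
      _ ≤ ((a * ((n : ℝ) - a - D)) * c i) * v ^ (i + 1) := mul_le_mul_of_nonneg_right h3 h4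
      _ = v * (a * ((n : ℝ) - a - D)) * (c i * v ^ i) := by rw [pow_succ]; ring
  -- Cauchy-Schwarz
  have hcs : (∑ i ∈ range (a + 1), (i : ℝ) * (c i * v ^ i)) ^ 2 ≤
      (∑ i ∈ range (a + 1), c i * v ^ i) *
        ∑ i ∈ range (a + 1), (i : ℝ) ^ 2 * (c i * v ^ i) := by
    have h1 := Finset.sum_mul_sq_le_sq_mul_sq (range (a + 1))
      (fun i => Real.sqrt (c i * v ^ i)) (fun i => (i : ℝ) * Real.sqrt (c i * v ^ i))
    have e1 : ∀ i : ℕ, Real.sqrt (c i * v ^ i) ^ 2 = c i * v ^ i := by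
      intro i
      have := hc0 i
      exact Real.sq_sqrt (by positivity)
    have e2 : ∀ i : ℕ, Real.sqrt (c i * v ^ i) * ((i : ℝ) * Real.sqrt (c i * v ^ i)) =
        (i : ℝ) * (c i * v ^ i) := by
      intro i
      have := e1 i
      rw [sq] at this
      rw [← mul_assoc, mul_comm (Real.sqrt (c i * v ^ i)) (i : ℝ), mul_assoc, this]
    have e3 : ∀ i : ℕ, ((i : ℝ) * Real.sqrt (c i * v ^ i)) ^ 2 = (i : ℝ) ^ 2 * (c i * v ^ i) := by
      intro i
      rw [mul_pow, e1]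
    simp only [e1, e2, e3] at h1
    exact h1
  rw [← hgd, ← hgv, hrp] at hcs
  have h5 : (S1 y v * (gp n a D).eval v) ^ 2 ≤
      (gp n a D).eval v * (v * (a * ((n : ℝ) - a - D)) * (gp n a D).eval v) :=
    hcs.trans (mul_le_mul_of_nonneg_left hmom hgpos.le)
  have h6 : S1 y v ^ 2 * (gp n a D).eval v ^ 2 ≤
      (v * (a * ((n : ℝ) - a - D))) * (gp n a D).eval v ^ 2 := by
    calc S1 y v ^ 2 * (gp n a D).eval v ^ 2 = (S1 y v * (gp n a D).eval v) ^ 2 := by ring
      _ ≤ _ := h5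
      _ = _ := by ring
  exact le_of_mul_le_mul_right h6 (by positivity)

end Pool.Agent.Lib.MP_0430e4_lc.All
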