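import Pool.Agent.Lib.MP_0430e4_lc.All.ROOT
import Pool.Agent.Lib.MP_0430e4_lc.All.MOM
import Pool.Agent.Lib.MP_0430e4_lc.All.SQ
import Pool.Agent.Lib.MP_0430e4_lc.All.MONO
import Pool.Agent.Lib.MP_0430e4_lc.All.SCALE
import Pool.Agent.Lib.MP_0430e4_lc.All.SMALL

/-!
# Positivity of the coefficients of `gp * (1 - qX)^M` below the tilted mean (module GPOS)
-/

set_option autoImplicit false

namespace Pool.Agent.Lib.MP_0430e4_lc.All

open Finset Polynomial Filter Topology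

/-- Uniform asymptotics of the products that govern the hypergeometric moments. -/
theorem prod_bounds {τ ε : ℝ} (hτ0 : 0 < τ) (hτ : τ ≤ 1 / 5) (hε : 0 < ε) (K : ℕ) :
    ∀ᶠ n : ℕ in atTop, 2 ≤ n ∧ (K : ℝ) + 1 ≤ ε * n ∧ 1 ≤ ε * n ∧
      ∀ a D : ℕ, |(a : ℝ) - τ * n| ≤ K → D ≤ K →
      2 * a + D ≤ n ∧
      (τ - ε) * n ≤ a ∧ (1 - τ - ε) * n ≤ (n : ℝ) - a - D ∧
      (τ * (1 - τ) - ε) * n ^ 2 ≤ (a : ℝ) * (n - a - D) ∧
      (a : ℝ) * (n - a - D) ≤ (τ * (1 - τ) + ε) * n ^ 2 ∧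
      (τ * (1 - τ) - ε) * n ^ 2 ≤ ((a : ℝ) + D) * (n - a) ∧
      ((a : ℝ) + D) * (n - a) ≤ (τ * (1 - τ) + ε) * n ^ 2 := by
  have h1 : ∀ᶠ n : ℕ in atTop, ((K : ℝ) + 1) * (20 / ε) + ((K : ℝ) + 1) * 100 + 2 ≤ n :=
    (tendsto_natCast_atTop_atTop (R := ℝ)).eventually (eventually_ge_atTop _)
  filter_upwards [h1] with n hn
  have hK0 : (0 : ℝ) ≤ K := Nat.cast_nonneg K
  have hKε : 0 ≤ ((K : ℝ) + 1) * (20 / ε) := by positivity
  have hn100 : ((K : ℝ) + 1) * 100 + 2 ≤ n := by linarith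
  have hn2 : (2 : ℝ) ≤ n := by linarith
  have hn0 : (0 : ℝ) < n := by linarith
  have hKn : ((K : ℝ) + 1) * 20 ≤ ε * n := by
    have h2 : ((K : ℝ) + 1) * (20 / ε) ≤ n := by linarith
    have h3 : ε * (((K : ℝ) + 1) * (20 / ε)) ≤ ε * n := mul_le_mul_of_nonneg_left h2 hε.le
    have h4 : ε * (((K : ℝ) + 1) * (20 / ε)) = ((K : ℝ) + 1) * 20 := by
      field_simp
    linarith
  refine ⟨by exact_mod_cast hn2, by linarith, by linarith, ?_⟩
  intro a D ha hD
  have hD' : (D : ℝ) ≤ K := by exact_mod_cast hD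
  have hD0 : (0 : ℝ) ≤ D := Nat.cast_nonneg D
  rw [abs_le] at ha
  obtain ⟨ha1, ha2⟩ := ha
  set A : ℝ := (a : ℝ) with hA
  set d : ℝ := (D : ℝ) with hd
  set k : ℝ := (K : ℝ) with hk
  have hτn : 0 < τ * n := mul_pos hτ0 hn0
  have hKn2 : k * (n : ℝ) ≤ ε / 20 * n ^ 2 := by
    have h5 : (k + 1) * 20 * n ≤ ε * n * n := mul_le_mul_of_nonneg_right hKn hn0.le
    have h6 : (k + 1) * 20 * n = 20 * (k * n) + 20 * n := by ring
    have h7 : ε * n * n = 20 * (ε / 20 * (n : ℝ) ^ 2) := by ring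
    linarith
  have hk2 : k * k ≤ k * n := by
    apply mul_le_mul_of_nonneg_left _ hK0
    linarith
  -- deviations
  obtain ⟨e, he⟩ : ∃ e : ℝ, A = τ * n + e := ⟨A - τ * n, by ring⟩
  have he1 : -k ≤ e := by linarith
  have he2 : e ≤ k := by linarith
  have habs : |e| ≤ k := abs_le.mpr ⟨he1, he2⟩
  have hee : e * e ≤ k * k := by
    have h6 := mul_nonneg (sub_nonneg.mpr he2) (by linarith : 0 ≤ k + e)
    have h7 : (k - e) * (k + e) = k * k - e * e := by ring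
    linarith
  have hed : |e * d| ≤ k * k := by
    rw [abs_mul, abs_of_nonneg hD0]
    exact mul_le_mul habs hD' hD0 hK0
  obtain ⟨hed1, hed2⟩ := abs_le.mp hed
  have hen : |e * n| ≤ k * n := by
    rw [abs_mul, abs_of_pos hn0]
    exact mul_le_mul_of_nonneg_right habs hn0.le
  obtain ⟨hen1, hen2⟩ := abs_le.mp hen
  have hdn2 : d * n ≤ k * n := mul_le_mul_of_nonneg_right hD' hn0.le
  have hdn0 : 0 ≤ d * n := mul_nonneg hD0 hn0.le
  have hτ1 : τ ≤ 1 := by linarith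
  have hτe : |τ * (e * n)| ≤ k * n := by
    rw [abs_mul, abs_of_pos hτ0]
    calc τ * |e * n| ≤ 1 * |e * n| := mul_le_mul_of_nonneg_right hτ1 (abs_nonneg _)
      _ ≤ k * n := by rw [one_mul]; exact hen
  obtain ⟨hτe1, hτe2⟩ := abs_le.mp hτe
  have hτd1 : 0 ≤ τ * (d * n) := mul_nonneg hτ0.le hdn0
  have hτd2 : τ * (d * n) ≤ k * n := by
    calc τ * (d * n) ≤ 1 * (d * n) := mul_le_mul_of_nonneg_right hτ1 hdn0
      _ ≤ k * n := by rw [one_mul]; exact hdn2
  have hee0 : 0 ≤ e * e := mul_self_nonneg e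
  have hq1 : A * (n - A - d) = τ * (1 - τ) * n ^ 2 + e * n - 2 * (τ * (e * n)) - τ * (d * n)
      - e * e - e * d := by
    rw [he]; ring
  have hq2 : (A + d) * (n - A) = τ * (1 - τ) * n ^ 2 + e * n - 2 * (τ * (e * n)) + d * n
      - τ * (d * n) - e * e - e * d := by
    rw [he]; ring
  have hq3 : (τ * (1 - τ) - ε) * (n : ℝ) ^ 2 = τ * (1 - τ) * n ^ 2 - ε * n ^ 2 := by ring
  have hq4 : (τ * (1 - τ) + ε) * (n : ℝ) ^ 2 = τ * (1 - τ) * n ^ 2 + ε * n ^ 2 := by ring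
  have hεn : 0 ≤ ε * (n : ℝ) ^ 2 := by positivity
  have hkn0 : 0 ≤ k * (n : ℝ) := by positivity
  have hτn5 : τ * n ≤ 1 / 5 * n := mul_le_mul_of_nonneg_right hτ hn0.le
  refine ⟨?_, ?_, ?_, ?_, ?_, ?_, ?_⟩
  · have : 2 * A + d ≤ n := by
      linarith
    have h7 : ((2 * a + D : ℕ) : ℝ) ≤ n := by
      push_cast
      exact this
    exact_mod_cast h7
  · rw [sub_mul]
    linarith
  · have h8 : (1 - τ - ε) * n = n - τ * n - ε * n := by ring
    rw [h8]
    linarith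
  · rw [hq1, hq3]
    linarith
  · rw [hq1, hq4]
    linarith
  · rw [hq2, hq3]
    linarith
  · rw [hq2, hq4]
    linarith

/-- Uniform bounds for the first two moments of the factors at `v = 1`. -/
theorem moment_bounds {w ε : ℝ} (hw0 : 0 < w) (hw : w ≤ 1 / 4) (hε : ε = w ^ 2 / 1000)
    {n a D : ℕ} (hn : 2 ≤ n) (h : 2 * a + D ≤ n)
    (h1 : (w - ε) * n ^ 2 ≤ (a : ℝ) * (n - a - D))
    (h2 : (a : ℝ) * (n - a - D) ≤ (w + ε) * n ^ 2)
    (h3 : (w - ε) * n ^ 2 ≤ ((a : ℝ) + D) * (n - a))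
    (h4 : ((a : ℝ) + D) * (n - a) ≤ (w + ε) * n ^ 2)
    {y : Fin a → ℝ} (hy : ∀ j, 0 < y j)
    (hg : gp n a D = C ((((n - a).choose D : ℕ) : ℝ)) * rp y) :
    (w - ε) * n ≤ S1 y 1 ∧ S1 y 1 ≤ (w + ε) * n ∧ 999 / 1000 * w ^ 2 * n ≤ S2 y 1 ∧
      S2 y 1 * (n - 1) ≤ 1001 / 1000 * w ^ 2 * n ^ 2 := by
  have hn2 : (2 : ℝ) ≤ n := by exact_mod_cast hn
  have hn0 : (0 : ℝ) < n := by linarith
  have hn1 : (0 : ℝ) < n - 1 := by linarith
  have hw2 : 0 < w ^ 2 := by positivity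
  have hwε : ε ≤ w / 4000 := by
    rw [hε]
    have : w ^ 2 ≤ w * (1 / 4) := by rw [sq]; exact mul_le_mul_of_nonneg_left hw hw0.le
    linarith
  have hε0 : 0 < ε := by rw [hε]; positivity
  rw [gp_S1 h hn hy hg, gp_S2 h hn hy hg]
  refine ⟨?_, ?_, ?_, ?_⟩
  · rw [le_div_iff₀ hn0]
    calc (w - ε) * n * n = (w - ε) * n ^ 2 := by ring
      _ ≤ _ := h1
  · rw [div_le_iff₀ hn0]
    calc (a : ℝ) * (n - a - D) ≤ (w + ε) * n ^ 2 := h2
      _ = (w + ε) * n * n := by ring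
  · rw [le_div_iff₀ (by positivity)]
    have h5 : ((w - ε) * n ^ 2) * ((w - ε) * n ^ 2) ≤
        ((a : ℝ) * (n - a - D)) * (((a : ℝ) + D) * (n - a)) :=
      mul_le_mul h1 h3 (by
        apply mul_nonneg _ (by positivity)
        linarith) (le_trans (mul_nonneg (by linarith) (by positivity)) h1)
    have h6 : 999 / 1000 * w ^ 2 ≤ (w - ε) ^ 2 := by
      have h7 : (w - ε) ^ 2 = w ^ 2 - 2 * (w * ε) + ε ^ 2 := by ring
      have h8 : w * ε ≤ 1 / 4 * ε := mul_le_mul_of_nonneg_right hw hε0.le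
      have h9 : 0 ≤ ε ^ 2 := by positivity
      rw [h7]
      linarith
    calc 999 / 1000 * w ^ 2 * n * (n ^ 2 * (n - 1)) ≤ (w - ε) ^ 2 * n * (n ^ 2 * (n - 1)) := by
          gcongr
      _ ≤ (w - ε) ^ 2 * n * (n ^ 2 * n) := by
          gcongr
          linarith
      _ = ((w - ε) * n ^ 2) * ((w - ε) * n ^ 2) := by ring
      _ ≤ _ := h5
      _ = _ := by ring
  · have h5 : ((a : ℝ) * (n - a - D)) * (((a : ℝ) + D) * (n - a)) ≤
        ((w + ε) * n ^ 2) * ((w + ε) * n ^ 2) :=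
      mul_le_mul h2 h4 (le_trans (mul_nonneg (by linarith) (by positivity)) h3) (by positivity)
    have h6 : (w + ε) ^ 2 ≤ 1001 / 1000 * w ^ 2 := by
      have h7 : (w + ε) ^ 2 = w ^ 2 + 2 * (w * ε) + ε * ε := by ring
      have h8 : w * ε ≤ 1 / 4 * ε := mul_le_mul_of_nonneg_right hw hε0.le
      have h9 : ε * ε ≤ 1 / 4 * ε := mul_le_mul_of_nonneg_right (by linarith) hε0.le
      rw [h7]
      linarith
    have h10 : (a : ℝ) * (n - a - D) * (a + D) * (n - a) / ((n : ℝ) ^ 2 * (n - 1)) * (n - 1)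
        = ((a : ℝ) * (n - a - D)) * (((a : ℝ) + D) * (n - a)) / n ^ 2 := by
      field_simp
    rw [h10, div_le_iff₀ (by positivity)]
    calc _ ≤ ((w + ε) * n ^ 2) * ((w + ε) * n ^ 2) := h5
      _ = (w + ε) ^ 2 * (n ^ 2 * n ^ 2) := by ring
      _ ≤ 1001 / 1000 * w ^ 2 * (n ^ 2 * n ^ 2) := by gcongr
      _ = _ := by ring

theorem gpos {τ q β : ℝ} (hτ0 : 0 < τ) (hτ : τ ≤ 1 / 5) (hq0 : 0 < q) (hq : q ≤ 1 / 2)
    (hβ : 0 ≤ β) (hc : 5000 * β * q ≤ (τ * (1 - τ)) ^ 2) (K : ℕ) :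
    ∀ᶠ n : ℕ in atTop, ∀ a D M : ℕ, |(a : ℝ) - τ * n| ≤ K → D ≤ K → (M : ℝ) ≤ β * n →
      ∀ i : ℕ, (i : ℝ) ≤ (τ * (1 - τ) + (τ * (1 - τ)) ^ 2 / 4) * n →
        0 ≤ (gp n a D * (1 - C q * X) ^ M).coeff i := by
  set w : ℝ := τ * (1 - τ) with hw
  have hw0 : 0 < w := mul_pos hτ0 (by linarith)
  have hwτ : w ≤ τ := by
    rw [hw]
    calc τ * (1 - τ) ≤ τ * 1 := mul_le_mul_of_nonneg_left (by linarith) hτ0.le
      _ = τ := mul_one _
  have hw4 : w ≤ 1 / 4 := by linarith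
  obtain ⟨ε, hε⟩ : ∃ ε : ℝ, ε = w ^ 2 / 1000 := ⟨_, rfl⟩
  have hε0 : 0 < ε := by rw [hε]; positivity
  have hww : w ^ 2 ≤ w * (1 / 4) := by rw [sq]; exact mul_le_mul_of_nonneg_left hw4 hw0.le
  have hwε : ε ≤ w / 4000 := by
    rw [hε]
    linarith
  obtain ⟨ε₁, hε₁⟩ : ∃ ε₁ : ℝ, ε₁ = ε / (K + 1) := ⟨_, rfl⟩
  have hK0 : (0 : ℝ) ≤ K := Nat.cast_nonneg K
  have hε₁0 : 0 < ε₁ := by rw [hε₁]; positivity
  have hε₁K : ε₁ * (K + 1) = ε := by rw [hε₁]; field_simp
  have hev : ∀ᶠ n : ℕ in atTop, 2000 / (w * ε₁ ^ 2) ≤ n :=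
    (tendsto_natCast_atTop_atTop (R := ℝ)).eventually (eventually_ge_atTop _)
  filter_upwards [prod_bounds hτ0 hτ hε0 K, hev] with n hn hnev a D M ha hD hM i hi
  obtain ⟨hn2, hKn, h1n, hb⟩ := hn
  obtain ⟨h2a, hA1, hA2, h1, h2, h3, h4⟩ := hb a D ha hD
  rw [← hw] at h1 h2 h3 h4
  have hn2' : (2 : ℝ) ≤ n := by exact_mod_cast hn2
  have hn0 : (0 : ℝ) < n := by linarith
  have hD' : (D : ℝ) ≤ K := by exact_mod_cast hD
  have hD0 : (0 : ℝ) ≤ D := Nat.cast_nonneg D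
  have hi0 : (0 : ℝ) ≤ i := Nat.cast_nonneg i
  have hM0 : (0 : ℝ) ≤ M := Nat.cast_nonneg M
  have hqM : q * M ≤ w ^ 2 / 5000 * n := by
    calc q * M ≤ q * (β * n) := mul_le_mul_of_nonneg_left hM hq0.le
      _ = (5000 * β * q) / 5000 * n := by ring
      _ ≤ w ^ 2 / 5000 * n := by gcongr
  have hqM0 : 0 ≤ q * M := mul_nonneg hq0.le hM0
  by_cases hsmall : (i : ℝ) ^ 2 * w ≤ 2000 * n
  · -- small indices
    have hi1 : (i : ℝ) ≤ ε₁ * n := by
      by_contra hlt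
      push Not at hlt
      have h5 : (ε₁ * n) ^ 2 < (i : ℝ) ^ 2 := by
        apply pow_lt_pow_left₀ hlt (by positivity) (by norm_num)
      have h6 : 2000 ≤ n * (w * ε₁ ^ 2) := by
        rwa [div_le_iff₀ (by positivity)] at hnev
      have h7 : 2000 * (n : ℝ) ≤ (ε₁ * n) ^ 2 * w := by
        calc 2000 * (n : ℝ) ≤ n * (w * ε₁ ^ 2) * n := mul_le_mul_of_nonneg_right h6 hn0.le
          _ = (ε₁ * n) ^ 2 * w := by ring
      have h8 : (ε₁ * n) ^ 2 * w < (i : ℝ) ^ 2 * w := mul_lt_mul_of_pos_right h5 hw0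
      linarith
    have hi2 : (i : ℝ) * (K + 1) ≤ ε * n := by
      calc (i : ℝ) * (K + 1) ≤ ε₁ * n * (K + 1) := mul_le_mul_of_nonneg_right hi1 (by positivity)
        _ = ε₁ * (K + 1) * n := by ring
        _ = ε * n := by rw [hε₁K]
    have hiK0 : 0 ≤ (i : ℝ) * K := mul_nonneg hi0 hK0
    have hi3 : (i : ℝ) ≤ ε * n := by
      have : (i : ℝ) * (K + 1) = i * K + i := by ring
      linarith
    have hi4 : (i : ℝ) * K ≤ ε * n := by
      have : (i : ℝ) * (K + 1) = i * K + i := by ring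
      linarith
    have hia : (i : ℝ) ≤ a := by
      have h5 : ε * n ≤ (τ - ε) * n := mul_le_mul_of_nonneg_right (by linarith) hn0.le
      linarith
    have hin : (a : ℝ) + D + i ≤ n := by
      have h5 : ε * n ≤ (1 - τ - ε) * n := mul_le_mul_of_nonneg_right (by linarith) hn0.le
      linarith
    apply le_of_lt
    apply small_pos hq0.le (by exact_mod_cast hia) (by exact_mod_cast hin)
    have h5 : (i : ℝ) * (i + D) ≤ i ^ 2 + ε * n := by
      have h6 : (i : ℝ) * D ≤ i * K := mul_le_mul_of_nonneg_left hD' hi0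
      have h7 : (i : ℝ) * (i + D) = i ^ 2 + i * D := by ring
      linarith
    have h6 : w ^ 2 * ((i : ℝ) * (i + D)) ≤ 2000 * w * n + ε * n := by
      calc w ^ 2 * ((i : ℝ) * (i + D)) ≤ w ^ 2 * (i ^ 2 + ε * n) :=
            mul_le_mul_of_nonneg_left h5 (by positivity)
        _ = w * (i ^ 2 * w) + w ^ 2 * (ε * n) := by ring
        _ ≤ w * (2000 * n) + 1 * (ε * n) := by
            gcongr
            linarith
        _ = _ := by ring
    have h7 : 2 * q * M * (i * (i + D)) ≤ 4 / 5 * w * n ^ 2 + ε * n ^ 2 := by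
      calc 2 * q * M * (i * (i + D)) = 2 * (q * M) * (i * (i + D)) := by ring
        _ ≤ 2 * (w ^ 2 / 5000 * n) * (i * (i + D)) := by gcongr
        _ = 2 / 5000 * n * (w ^ 2 * (i * (i + D))) := by ring
        _ ≤ 2 / 5000 * n * (2000 * w * n + ε * n) := by gcongr
        _ = 4 / 5 * w * n ^ 2 + 2 / 5000 * (ε * n ^ 2) := by ring
        _ ≤ 4 / 5 * w * n ^ 2 + 1 * (ε * n ^ 2) := by
            gcongr
            norm_num
        _ = _ := by ring
    have h8 : (w - 2 * ε) * n ^ 2 ≤ ((a : ℝ) - i + 1) * (n - a - D - i + 1) := by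
      have h9 : (τ - 2 * ε) * n ≤ (a : ℝ) - i + 1 := by
        have : (τ - 2 * ε) * n = (τ - ε) * n - ε * n := by ring
        linarith
      have h10 : (1 - τ - 2 * ε) * n ≤ (n : ℝ) - a - D - i + 1 := by
        have : (1 - τ - 2 * ε) * n = (1 - τ - ε) * n - ε * n := by ring
        linarith
      have h11 : 0 ≤ (τ - 2 * ε) * (n : ℝ) := mul_nonneg (by linarith) hn0.le
      have h12 : 0 ≤ (1 - τ - 2 * ε) * (n : ℝ) := mul_nonneg (by linarith) hn0.le
      calc (w - 2 * ε) * n ^ 2 ≤ (w - 2 * ε + 4 * ε ^ 2) * n ^ 2 := by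
            apply mul_le_mul_of_nonneg_right _ (by positivity)
            have : 0 ≤ 4 * ε ^ 2 := by positivity
            linarith
        _ = ((τ - 2 * ε) * n) * ((1 - τ - 2 * ε) * n) := by rw [hw]; ring
        _ ≤ _ := mul_le_mul h9 h10 h12 (le_trans h11 h9)
    have h13 : 4 / 5 * w * (n : ℝ) ^ 2 + ε * n ^ 2 ≤ (w - 2 * ε) * n ^ 2 := by
      have : 4 / 5 * w * (n : ℝ) ^ 2 + ε * n ^ 2 = (4 / 5 * w + ε) * n ^ 2 := by ring
      rw [this]
      apply mul_le_mul_of_nonneg_right _ (by positivity)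
      linarith
    linarith
  · -- large indices
    push Not at hsmall
    obtain ⟨y, hy, hg⟩ := gp_roots h2a
    obtain ⟨hS1a, hS1b, hS2a, -⟩ := moment_bounds hw0 hw4 hε hn2 h2a h1 h2 h3 h4 hy hg
    have hden : ∀ v : ℝ, v ≤ 3 / 2 → 0 ≤ v → 1 / 4 ≤ 1 - q * v := by
      intro v hv hv0
      have : q * v ≤ 1 / 2 * (3 / 2) := mul_le_mul hq hv hv0 (by norm_num)
      linarith
    let F : ℝ → ℝ := fun v => S1 y v - M * (q * v / (1 - q * v))
    have hcont : ContinuousOn F (Set.Icc 0 (3 / 2)) := by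
      apply ContinuousOn.sub
      · unfold S1
        apply continuousOn_finsetSum
        intro j _
        apply ContinuousOn.div (by fun_prop) (by fun_prop)
        intro v hv
        have := mul_nonneg hv.1 (hy j).le
        linarith
      · apply ContinuousOn.mul continuousOn_const
        apply ContinuousOn.div (by fun_prop) (by fun_prop)
        intro v hv
        have := hden v hv.2 hv.1
        linarith
    have hF0 : F 0 = 0 := by
      simp [F, S1]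
    have hF1 : (i : ℝ) ≤ F (3 / 2) := by
      have h5 := S1_ge hy (v := 3 / 2) (by norm_num)
      have h6 : M * (q * (3 / 2) / (1 - q * (3 / 2))) ≤ 6 * (q * M) := by
        have h7 := hden (3 / 2) le_rfl (by norm_num)
        have h8 : q * (3 / 2) / (1 - q * (3 / 2)) ≤ 6 * q := by
          rw [div_le_iff₀ (by linarith)]
          have : 6 * q * (1 / 4) ≤ 6 * q * (1 - q * (3 / 2)) :=
            mul_le_mul_of_nonneg_left h7 (by positivity)
          linarith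
        calc M * (q * (3 / 2) / (1 - q * (3 / 2))) ≤ M * (6 * q) :=
              mul_le_mul_of_nonneg_left h8 hM0
          _ = _ := by ring
      have h9 : (w + w ^ 2 / 4) * (n : ℝ) = w * n + w ^ 2 * n / 4 := by ring
      have h10 : (w - ε) * (n : ℝ) = w * n - w ^ 2 * n / 1000 := by rw [hε]; ring
      have h11 : w ^ 2 / 5000 * (n : ℝ) = w ^ 2 * n / 5000 := by ring
      have h12 : 0 < w ^ 2 * (n : ℝ) := by positivity
      have h13 : S2 y 1 * (1 - 1 / (3 / 2)) = S2 y 1 / 3 := by ring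
      have h14 : 999 / 1000 * w ^ 2 * (n : ℝ) = 999 / 1000 * (w ^ 2 * n) := by ring
      show (i : ℝ) ≤ S1 y (3 / 2) - M * (q * (3 / 2) / (1 - q * (3 / 2)))
      rw [h9] at hi
      rw [h10] at hS1a
      rw [h11] at hqM
      rw [h13] at h5
      rw [h14] at hS2a
      linarith
    obtain ⟨v, hv, hFv⟩ := intermediate_value_Icc (by norm_num : (0 : ℝ) ≤ 3 / 2) hcont
      ⟨hF0.le.trans hi0, hF1⟩
    have hipos : (0 : ℝ) < i := by
      rcases hi0.lt_or_eq with h | h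
      · exact h
      · rw [← h] at hsmall
        have : 0 < 2000 * (n : ℝ) := by positivity
        simp at hsmall
        linarith
    have hv0 : 0 < v := by
      rcases hv.1.lt_or_eq with h | h
      · exact h
      · rw [← h, hF0] at hFv
        linarith
    have hd := hden v hv.2 hv.1
    have hFv' : S1 y v - M * (q * v / (1 - q * v)) = i := hFv
    have hr0 : 0 ≤ M * (q * v / (1 - q * v)) := by
      apply mul_nonneg hM0
      apply div_nonneg (by positivity)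
      linarith
    have hS1v : (i : ℝ) ≤ S1 y v := by linarith
    have hsq := gp_S1_sq h2a hy hg hv0
    have hisq : (i : ℝ) ^ 2 ≤ v * ((w + ε) * n ^ 2) := by
      calc (i : ℝ) ^ 2 ≤ S1 y v ^ 2 := by gcongr
        _ ≤ v * (a * ((n : ℝ) - a - D)) := hsq
        _ ≤ _ := mul_le_mul_of_nonneg_left h2 hv0.le
    have hvn : 1997 ≤ v * (w ^ 2 * n) := by
      have h5 : 2000 * (n : ℝ) < v * (w ^ 2 * n) * (1001 / 1000) * n := by
        calc 2000 * (n : ℝ) < i ^ 2 * w := hsmall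
          _ ≤ v * ((w + ε) * n ^ 2) * w := mul_le_mul_of_nonneg_right hisq hw0.le
          _ = v * n ^ 2 * ((w + ε) * w) := by ring
          _ ≤ v * n ^ 2 * ((w + w / 4000) * w) := by gcongr
          _ ≤ v * n ^ 2 * (1001 / 1000 * w ^ 2) := by
              apply mul_le_mul_of_nonneg_left _ (by positivity)
              have : (w + w / 4000) * w = (1 + 1 / 4000) * w ^ 2 := by ring
              rw [this]
              gcongr
              norm_num
          _ = _ := by ring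
      have h6 : 2000 < v * (w ^ 2 * n) * (1001 / 1000) := lt_of_mul_lt_mul_right h5 hn0.le
      linarith
    have hS2v : 4 / 9 * (999 / 1000 * (w ^ 2 * n)) ≤ S2 y v := by
      have h5 := S2_anti hy hv0 hv.2
      have h6 := S2_ge hy (v := 3 / 2) (by norm_num)
      have h7 : S2 y 1 / (3 / 2) ^ 2 = 4 / 9 * S2 y 1 := by ring
      have h8 : 999 / 1000 * w ^ 2 * (n : ℝ) = 999 / 1000 * (w ^ 2 * n) := by ring
      rw [h7] at h6
      rw [h8] at hS2a
      linarith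
    have hV : 800 ≤ v * S2 y v := by
      calc (800 : ℝ) ≤ 4 / 9 * (999 / 1000) * (v * (w ^ 2 * n)) := by linarith
        _ = v * (4 / 9 * (999 / 1000 * (w ^ 2 * n))) := by ring
        _ ≤ v * S2 y v := mul_le_mul_of_nonneg_left hS2v hv0.le
    have hr : 100 * (M * (q * v / (1 - q * v) ^ 2)) ≤ v * S2 y v := by
      have h5 : q * v / (1 - q * v) ^ 2 ≤ 16 * (q * v) := by
        rw [div_le_iff₀ (by positivity)]
        have h6 : (1 / 4) ^ 2 ≤ (1 - q * v) ^ 2 := by gcongr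
        have h7 : 16 * (q * v) * (1 / 4) ^ 2 ≤ 16 * (q * v) * (1 - q * v) ^ 2 :=
          mul_le_mul_of_nonneg_left h6 (by positivity)
        linarith
      calc 100 * (M * (q * v / (1 - q * v) ^ 2)) ≤ 100 * (M * (16 * (q * v))) := by gcongr
        _ = v * (1600 * (q * M)) := by ring
        _ ≤ v * (1600 * (w ^ 2 / 5000 * n)) := by gcongr
        _ = v * (8 / 25 * (w ^ 2 * n)) := by ring
        _ ≤ v * (4 / 9 * (999 / 1000 * (w ^ 2 * n))) := by
            apply mul_le_mul_of_nonneg_left _ hv0.le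
            have : 0 < w ^ 2 * (n : ℝ) := by positivity
            linarith
        _ ≤ v * S2 y v := mul_le_mul_of_nonneg_left hS2v hv0.le
    have hpos := coeff_pos y hy hq0 hq hv0 hv.2 M i hFv' hV hr
    rw [hg, mul_assoc, coeff_C_mul]
    exact mul_nonneg (Nat.cast_nonneg _) hpos.le

end Pool.Agent.Lib.MP_0430e4_lc.All
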