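import Pool.Agent.Lib.MP_0430e4_lc.All.Defs

/-!
# Coefficients of real-rooted polynomials times negative blocks: the circle bound
-/

set_option autoImplicit false

namespace Pool.Agent.Lib.MP_0430e4_lc.All

open Finset Polynomial

namespace Circ

theorem iteratedDeriv_poly (P : ℂ[X]) (n : ℕ) :
    iteratedDeriv n (fun z => P.eval z) = fun z => (derivative^[n] P).eval z := by
  induction n with
  | zero => simp
  | succ n ih =>
    rw [iteratedDeriv_succ, ih, Function.iterate_succ_apply']
    funext z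
    exact Polynomial.deriv _

/-- Cauchy's estimate for the coefficients of a polynomial -/
theorem cauchy (P : ℂ[X]) {v B : ℝ} (hv : 0 < v) (hB : ∀ z : ℂ, ‖z‖ = v → ‖P.eval z‖ ≤ B) (i : ℕ) :
    ‖P.coeff i‖ * v ^ i ≤ B := by
  have h1 := Complex.norm_iteratedDeriv_le_of_forall_mem_sphere_norm_le (c := 0) (R := v) (C := B)
    (f := fun z => P.eval z) i hv (P.differentiable.diffContOnCl)
    (fun z hz => hB z (by simpa using hz))
  rw [iteratedDeriv_poly] at h1
  have h2 : (derivative^[i] P).eval 0 = (i.factorial : ℂ) * P.coeff i := by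
    rw [← coeff_zero_eq_eval_zero, coeff_iterate_derivative]
    simp [Nat.descFactorial_self]
  have h1' : ‖(derivative^[i] P).eval 0‖ ≤ i.factorial * B / v ^ i := h1
  clear h1
  have h1 := h1'
  rw [h2, norm_mul, Complex.norm_natCast] at h1
  have hf : (0 : ℝ) < i.factorial := by exact_mod_cast Nat.factorial_pos i
  have hvi : 0 < v ^ i := pow_pos hv i
  rw [mul_div_assoc] at h1
  have h3 := le_of_mul_le_mul_left h1 hf
  rwa [le_div_iff₀ hvi] at h3

theorem norm_le_of_sq {w : ℂ} {A t : ℝ} (hA : 0 < A)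
    (h : Complex.normSq w ≤ A ^ 2 * (1 + 2 * t)) : ‖w‖ ≤ A * Real.exp t := by
  have h1 : (1 : ℝ) + 2 * t ≤ Real.exp t ^ 2 := by
    rw [← Real.exp_nat_mul]
    have := Real.add_one_le_exp (2 * t)
    push_cast
    linarith
  have h2 : ‖w‖ ^ 2 ≤ (A * Real.exp t) ^ 2 := by
    rw [← Complex.normSq_eq_norm_sq, mul_pow]
    exact h.trans (mul_le_mul_of_nonneg_left h1 (sq_nonneg A))
  have h3 : 0 ≤ A * Real.exp t := by positivity
  exact (pow_le_pow_iff_left₀ (norm_nonneg w) h3 two_ne_zero).1 h2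

end Circ

/-- circle bound -/
theorem coeff_le {a : ℕ} (y : Fin a → ℝ) (hy : ∀ j, 0 < y j) {q v : ℝ} (hq0 : 0 < q)
    (hq : q ≤ 1 / 2) (hv0 : 0 < v) (hv : v ≤ 3 / 2) (M i : ℕ)
    (hr : M * (q * v / (1 - q * v) ^ 2) ≤ v * S2 y v) :
    |(rp y * (1 - C q * X) ^ M).coeff i| * v ^ i ≤ (rp y).eval v * (1 - q * v) ^ M := by
  have hqv : q * v ≤ 3 / 4 := by nlinarith
  have h1q : 0 < 1 - q * v := by linarith
  set P : ℝ[X] := rp y * (1 - C q * X) ^ M with hP
  have key := Circ.cauchy (P.map Complex.ofRealHom) (v := v)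
    (B := (rp y).eval v * (1 - q * v) ^ M) hv0 (fun z hz => ?_) i
  · rw [coeff_map] at key
    have h2 : ‖Complex.ofRealHom (P.coeff i)‖ = |P.coeff i| := by
      simp
    rwa [h2] at key
  · have hzz : z.re ^ 2 + z.im ^ 2 = v ^ 2 := by
      rw [← hz, ← Complex.normSq_eq_norm_sq, Complex.normSq_apply]
      ring
    have hre : 0 ≤ v - z.re := by
      have := Complex.re_le_norm z
      rw [hz] at this
      linarith
    obtain ⟨c, hc⟩ : ∃ c, c = v - z.re := ⟨_, rfl⟩
    rw [← hc] at hre
    have hfac : ∀ j, ‖1 + (y j : ℂ) * z‖ ≤ (1 + y j * v) *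
        Real.exp (-(c * (y j / (1 + v * y j) ^ 2))) := by
      intro j
      have hpos : 0 < 1 + y j * v := by have := mul_pos (hy j) hv0; linarith
      have hpos' : 1 + v * y j ≠ 0 := by rw [mul_comm]; exact hpos.ne'
      apply Circ.norm_le_of_sq hpos
      have e : Complex.normSq (1 + (y j : ℂ) * z) = (1 + y j * z.re) ^ 2 + (y j * z.im) ^ 2 := by
        rw [Complex.normSq_apply]
        simp
        ring
      rw [e]
      have e2 : (1 + y j * v) ^ 2 * (1 + 2 * -(c * (y j / (1 + v * y j) ^ 2)))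
          = (1 + y j * v) ^ 2 - 2 * c * y j := by
        rw [mul_comm (y j) v]
        field_simp
        ring
      rw [e2]
      have e3 : (1 + y j * z.re) ^ 2 + (y j * z.im) ^ 2
          = 1 + 2 * y j * z.re + y j ^ 2 * (z.re ^ 2 + z.im ^ 2) := by ring
      rw [e3, hzz, hc]
      nlinarith
    have hblk : ‖1 - (q : ℂ) * z‖ ≤ (1 - q * v) * Real.exp (c * (q / (1 - q * v) ^ 2)) := by
      apply Circ.norm_le_of_sq h1q
      have e : Complex.normSq (1 - (q : ℂ) * z) = (1 - q * z.re) ^ 2 + (q * z.im) ^ 2 := by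
        rw [Complex.normSq_apply]
        simp
        ring
      rw [e]
      have e2 : (1 - q * v) ^ 2 * (1 + 2 * (c * (q / (1 - q * v) ^ 2)))
          = (1 - q * v) ^ 2 + 2 * c * q := by
        field_simp
      rw [e2]
      have e3 : (1 - q * z.re) ^ 2 + (q * z.im) ^ 2
          = 1 - 2 * q * z.re + q ^ 2 * (z.re ^ 2 + z.im ^ 2) := by ring
      rw [e3, hzz, hc]
      nlinarith
    have heval : (P.map Complex.ofRealHom).eval z
        = (∏ j, (1 + (y j : ℂ) * z)) * (1 - (q : ℂ) * z) ^ M := by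
      rw [hP]
      unfold rp
      simp [Polynomial.map_mul, Polynomial.map_pow, Polynomial.map_prod, Polynomial.eval_prod]
    rw [heval, norm_mul, norm_pow, norm_prod]
    have hrp : (rp y).eval v = ∏ j, (1 + y j * v) := by
      unfold rp
      simp [Polynomial.eval_prod]
    have h5 : ∏ j, ‖1 + (y j : ℂ) * z‖ ≤ (rp y).eval v * Real.exp (-(c * S2 y v)) := by
      calc ∏ j, ‖1 + (y j : ℂ) * z‖
          ≤ ∏ j, ((1 + y j * v) * Real.exp (-(c * (y j / (1 + v * y j) ^ 2)))) :=
            Finset.prod_le_prod (fun j _ => norm_nonneg _) (fun j _ => hfac j)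
        _ = (rp y).eval v * Real.exp (-(c * S2 y v)) := by
            rw [Finset.prod_mul_distrib, ← Real.exp_sum, hrp]
            congr 2
            unfold S2
            rw [Finset.sum_neg_distrib, Finset.mul_sum]
    have h6 : ‖1 - (q : ℂ) * z‖ ^ M
        ≤ (1 - q * v) ^ M * Real.exp (c * (M * (q / (1 - q * v) ^ 2))) := by
      calc ‖1 - (q : ℂ) * z‖ ^ M
          ≤ ((1 - q * v) * Real.exp (c * (q / (1 - q * v) ^ 2))) ^ M :=
            pow_le_pow_left₀ (norm_nonneg _) hblk M
        _ = _ := by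
            rw [mul_pow, ← Real.exp_nat_mul]
            congr 2
            ring
    have hrp0 : 0 ≤ (rp y).eval v := by
      rw [hrp]
      exact Finset.prod_nonneg (fun j _ => by have := mul_pos (hy j) hv0; linarith)
    have h7 : M * (q / (1 - q * v) ^ 2) ≤ S2 y v := by
      have e : M * (q * v / (1 - q * v) ^ 2) = v * (M * (q / (1 - q * v) ^ 2)) := by ring
      rw [e] at hr
      exact le_of_mul_le_mul_left hr hv0
    calc (∏ j, ‖1 + (y j : ℂ) * z‖) * ‖1 - (q : ℂ) * z‖ ^ M
        ≤ ((rp y).eval v * Real.exp (-(c * S2 y v)))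
          * ((1 - q * v) ^ M * Real.exp (c * (M * (q / (1 - q * v) ^ 2)))) :=
          mul_le_mul h5 h6 (by positivity) (by positivity)
      _ = ((rp y).eval v * (1 - q * v) ^ M)
          * Real.exp (-(c * S2 y v) + c * (M * (q / (1 - q * v) ^ 2))) := by
          rw [Real.exp_add]
          ring
      _ ≤ ((rp y).eval v * (1 - q * v) ^ M) * 1 := by
          apply mul_le_mul_of_nonneg_left _ (by positivity)
          rw [Real.exp_le_one_iff]
          nlinarith
      _ = _ := mul_one _

end Pool.Agent.Lib.MP_0430e4_lc.All
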