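import Pool.Agent.Lib.MP_0430e4_lc.All.GPOS
import Pool.Agent.Lib.MP_0430e4_lc.All.CIRC

/-!
# Exponential decay of the coefficients of `gp * (1 - qX)^M` above the mean (module GTAIL)
-/

set_option autoImplicit false

namespace Pool.Agent.Lib.MP_0430e4_lc.All

open Finset Polynomial Filter Topology

theorem gtail {τ q β : ℝ} (hτ0 : 0 < τ) (hτ : τ ≤ 1 / 5) (hq0 : 0 < q) (hq : q ≤ 1 / 2)
    (hβ : 0 ≤ β) (hc : 5000 * β * q ≤ (τ * (1 - τ)) ^ 2) (K : ℕ) :
    ∀ᶠ n : ℕ in atTop, ∀ a D M : ℕ, |(a : ℝ) - τ * n| ≤ K → D ≤ K → (M : ℝ) ≤ β * n →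
      ∀ i : ℕ, (τ * (1 - τ) + (τ * (1 - τ)) ^ 2 / 5) * n ≤ i →
        |(gp n a D * (1 - C q * X) ^ M).coeff i|
          ≤ Real.exp (-((τ * (1 - τ)) ^ 2 / 1000) * n) * ((gp n a D).eval 1 * (1 - q) ^ M) := by
  set w : ℝ := τ * (1 - τ) with hw
  have hw0 : 0 < w := mul_pos hτ0 (by linarith)
  have hwτ : w ≤ τ := by
    rw [hw]
    calc τ * (1 - τ) ≤ τ * 1 := mul_le_mul_of_nonneg_left (by linarith) hτ0.le
      _ = τ := mul_one _
  have hw4 : w ≤ 1 / 4 := by linarith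
  obtain ⟨ε, hε⟩ : ∃ ε : ℝ, ε = w ^ 2 / 1000 := ⟨_, rfl⟩
  have hε0 : 0 < ε := by rw [hε]; positivity
  filter_upwards [prod_bounds hτ0 hτ hε0 K] with n hn a D M ha hD hM i hi
  obtain ⟨hn2, hKn, h1n, hb⟩ := hn
  obtain ⟨h2a, hA1, hA2, h1, h2, h3, h4⟩ := hb a D ha hD
  rw [← hw] at h1 h2 h3 h4
  have hn2' : (2 : ℝ) ≤ n := by exact_mod_cast hn2
  have hn0 : (0 : ℝ) < n := by linarith
  have hM0 : (0 : ℝ) ≤ M := Nat.cast_nonneg M
  have hqM : q * M ≤ w ^ 2 / 5000 * n := by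
    calc q * M ≤ q * (β * n) := mul_le_mul_of_nonneg_left hM hq0.le
      _ = (5000 * β * q) / 5000 * n := by ring
      _ ≤ w ^ 2 / 5000 * n := by gcongr
  obtain ⟨y, hy, hg⟩ := gp_roots h2a
  obtain ⟨hS1a, hS1b, hS2a, hS2b⟩ := moment_bounds hw0 hw4 hε hn2 h2a h1 h2 h3 h4 hy hg
  have hwn0 : 0 < w ^ 2 * (n : ℝ) := by positivity
  have hS2c : S2 y 1 ≤ 101 / 100 * (w ^ 2 * n) := by
    have hn1000 : (1000 : ℝ) ≤ n := by
      have h5 : ε * n ≤ 1 / 1000 * n := by
        apply mul_le_mul_of_nonneg_right _ hn0.le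
        have : w ^ 2 ≤ 1 := by nlinarith
        rw [hε]
        linarith
      linarith
    by_contra hlt
    push Not at hlt
    have h6 : 101 / 100 * (w ^ 2 * n) * (n - 1) < S2 y 1 * (n - 1) :=
      mul_lt_mul_of_pos_right hlt (by linarith)
    have h7 : 101 / 100 * (w ^ 2 * n) * (n - 1) < 1001 / 1000 * w ^ 2 * n ^ 2 := lt_of_lt_of_le h6 hS2b
    have h8 : 1001 / 1000 * w ^ 2 * (n : ℝ) ^ 2 = (w ^ 2 * n) * (1001 / 1000 * n) := by ring
    have h9 : 101 / 100 * (w ^ 2 * n) * ((n : ℝ) - 1) = (w ^ 2 * n) * (101 / 100 * (n - 1)) := by ring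
    rw [h8, h9] at h7
    have h10 := lt_of_mul_lt_mul_left h7 hwn0.le
    linarith
  have hv1 : (1 : ℝ) ≤ 11 / 10 := by norm_num
  have hS1v := S1_le hy hv1
  have hS2v := S2_ge hy hv1
  have hqv : 9 / 20 ≤ 1 - q * (11 / 10) := by linarith
  have hr : M * (q * (11 / 10) / (1 - q * (11 / 10)) ^ 2) ≤ (11 / 10) * S2 y (11 / 10) := by
    have h5 : q * (11 / 10) / (1 - q * (11 / 10)) ^ 2 ≤ 6 * q := by
      rw [div_le_iff₀ (by positivity)]
      have h6 : (9 / 20) ^ 2 ≤ (1 - q * (11 / 10)) ^ 2 := by gcongr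
      have h7 : 6 * q * (9 / 20) ^ 2 ≤ 6 * q * (1 - q * (11 / 10)) ^ 2 :=
        mul_le_mul_of_nonneg_left h6 (by positivity)
      linarith
    have h8 : M * (q * (11 / 10) / (1 - q * (11 / 10)) ^ 2) ≤ 6 * (q * M) := by
      calc _ ≤ M * (6 * q) := mul_le_mul_of_nonneg_left h5 hM0
        _ = _ := by ring
    have h9 : S2 y 1 / (11 / 10) ^ 2 = 100 / 121 * S2 y 1 := by ring
    have h10 : 999 / 1000 * w ^ 2 * (n : ℝ) = 999 / 1000 * (w ^ 2 * n) := by ring
    have h11 : w ^ 2 / 5000 * (n : ℝ) = (w ^ 2 * n) / 5000 := by ring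
    rw [h9] at hS2v
    rw [h10] at hS2a
    rw [h11] at hqM
    linarith
  have hcoeff := coeff_le y hy hq0 hq (v := 11 / 10) (by norm_num) (by norm_num) M i hr
  have hprod := prod_le_rpow hy hv1
  have hrp1 : 0 ≤ (rp y).eval 1 := by
    rw [rp, eval_prod]
    apply Finset.prod_nonneg
    intro j _
    have := (hy j).le
    simp only [eval_add, eval_one, eval_mul, eval_C, eval_X]
    linarith
  have hpow : (1 - q * (11 / 10)) ^ M ≤ (1 - q) ^ M := by
    apply pow_le_pow_left₀ (by linarith)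
    linarith
  have hexp : S1 y (11 / 10) ≤ i - 9 / 100 * (w ^ 2 * n) := by
    have h5 : (w + w ^ 2 / 5) * (n : ℝ) = w * n + (w ^ 2 * n) / 5 := by ring
    have h6 : (w + ε) * (n : ℝ) = w * n + (w ^ 2 * n) / 1000 := by rw [hε]; ring
    rw [h5] at hi
    rw [h6] at hS1b
    linarith
  have hvi : (0 : ℝ) < (11 / 10) ^ i := by positivity
  have hmain : |(rp y * (1 - C q * X) ^ M).coeff i|
      ≤ Real.exp (-(w ^ 2 / 1000) * n) * ((rp y).eval 1 * (1 - q) ^ M) := by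
    have h5 : |(rp y * (1 - C q * X) ^ M).coeff i| * (11 / 10) ^ i ≤
        (Real.exp (-(w ^ 2 / 1000) * n) * ((rp y).eval 1 * (1 - q) ^ M)) * (11 / 10) ^ i := by
      refine hcoeff.trans ?_
      have h6 : ((11 / 10 : ℝ)) ^ (S1 y (11 / 10)) ≤
          Real.exp (-(w ^ 2 / 1000) * n) * (11 / 10) ^ i := by
        have h7 : ((11 / 10 : ℝ)) ^ (S1 y (11 / 10)) ≤
            (11 / 10 : ℝ) ^ ((i : ℝ) - 9 / 100 * (w ^ 2 * n)) :=
          Real.rpow_le_rpow_of_exponent_le hv1 hexp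
        have h8 : (11 / 10 : ℝ) ^ ((i : ℝ) - 9 / 100 * (w ^ 2 * n)) =
            Real.exp (-(Real.log (11 / 10) * (9 / 100 * (w ^ 2 * n)))) * (11 / 10) ^ i := by
          rw [Real.rpow_def_of_pos (by norm_num), ← Real.rpow_natCast (11 / 10) i,
            Real.rpow_def_of_pos (by norm_num), ← Real.exp_add]
          congr 1
          ring
        rw [h8] at h7
        refine h7.trans ?_
        apply mul_le_mul_of_nonneg_right _ hvi.le
        apply Real.exp_le_exp.mpr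
        have h9 : (1 : ℝ) / 11 ≤ Real.log (11 / 10) := by
          have := Real.one_sub_inv_le_log_of_pos (x := 11 / 10) (by norm_num)
          norm_num at this ⊢
          linarith
        have h10 : 1 / 11 * (9 / 100 * (w ^ 2 * n)) ≤
            Real.log (11 / 10) * (9 / 100 * (w ^ 2 * n)) :=
          mul_le_mul_of_nonneg_right h9 (by positivity)
        have h11 : -(w ^ 2 / 1000) * (n : ℝ) = -((w ^ 2 * n) / 1000) := by ring
        rw [h11]
        linarith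
      calc (rp y).eval (11 / 10) * (1 - q * (11 / 10)) ^ M
          ≤ ((rp y).eval 1 * (11 / 10) ^ (S1 y (11 / 10))) * (1 - q) ^ M := by
            apply mul_le_mul hprod hpow
            · apply pow_nonneg
              linarith
            · exact mul_nonneg hrp1 (Real.rpow_nonneg (by norm_num) _)
        _ ≤ ((rp y).eval 1 * (Real.exp (-(w ^ 2 / 1000) * n) * (11 / 10) ^ i)) * (1 - q) ^ M := by
            apply mul_le_mul_of_nonneg_right
            · exact mul_le_mul_of_nonneg_left h6 hrp1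
            · apply pow_nonneg
              linarith
        _ = _ := by ring
    exact le_of_mul_le_mul_right h5 hvi
  rw [hg, mul_assoc, coeff_C_mul, eval_mul, eval_C, abs_mul,
    abs_of_nonneg (Nat.cast_nonneg (α := ℝ) ((n - a).choose D))]
  calc _ ≤ (((n - a).choose D : ℕ) : ℝ) *
        (Real.exp (-(w ^ 2 / 1000) * n) * ((rp y).eval 1 * (1 - q) ^ M)) :=
        mul_le_mul_of_nonneg_left hmain (Nat.cast_nonneg _)
    _ = _ := by ring

end Pool.Agent.Lib.MP_0430e4_lc.All
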