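import Pool.Agent.Lib.MP_0430e4_lc.All.BASE
import Pool.Agent.Lib.MP_0430e4_lc.All.PAIR
import Pool.Agent.Lib.MP_0430e4_lc.All.GPOS
import Pool.Agent.Lib.MP_0430e4_lc.All.GTAIL
import Pool.Agent.Lib.MP_0430e4_lc.All.LOP
import Pool.Agent.Lib.MP_0430e4_lc.All.WIN

/-!
# MAIN: the coefficients of the main part of the certificate
-/

set_option autoImplicit false

namespace Pool.Agent.Lib.MP_0430e4_lc.All

open Finset Polynomial Filter Topology

namespace MainAux

/-- coefficient of a double sum of pair polynomials times a power of the negative block -/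
theorem coeff_sum (n M : ℕ) (q : ℝ) (u v : ℕ → ℝ) (k : ℕ) :
    ((∑ a ∈ range (n + 1), ∑ b ∈ range (n + 1), C (u a * v b) * pp n a b) * nb q ^ M).coeff k
      = ∑ a ∈ range (n + 1), ∑ b ∈ range (n + 1), u a * v b * (pp n a b * nb q ^ M).coeff k := by
  rw [Finset.sum_mul, finsetSum_coeff]
  refine Finset.sum_congr rfl fun a _ => ?_
  rw [Finset.sum_mul, finsetSum_coeff]
  refine Finset.sum_congr rfl fun b _ => ?_
  rw [mul_assoc, coeff_C_mul]

theorem eval_sum (n : ℕ) (u v : ℕ → ℝ) :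
    (∑ a ∈ range (n + 1), ∑ b ∈ range (n + 1), C (u a * v b) * pp n a b : ℝ[X]).eval 1
      = ∑ a ∈ range (n + 1), ∑ b ∈ range (n + 1), u a * v b * (pp n a b).eval 1 := by
  rw [eval_finsetSum]
  refine Finset.sum_congr rfl fun a _ => ?_
  rw [eval_finsetSum]
  refine Finset.sum_congr rfl fun b _ => ?_
  rw [eval_mul, eval_C]

/-- positivity of the coefficient of a double sum -/
theorem sum_nonneg {n M K : ℕ} {q τ : ℝ} {u v : ℕ → ℝ} {k : ℕ} {B : ℝ}
    (hG : ∀ a D : ℕ, |(a : ℝ) - τ * n| ≤ K → D ≤ K → ∀ i : ℕ, (i : ℝ) ≤ B →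
      0 ≤ (gp n a D * (1 - C q * X) ^ M).coeff i)
    (hu : ∀ a ≤ n, 0 ≤ u a) (hv : ∀ b ≤ n, 0 ≤ v b)
    (hs : ∀ a b : ℕ, u a ≠ 0 → v b ≠ 0 → |((min a b : ℕ) : ℝ) - τ * n| ≤ K ∧
      max a b - min a b ≤ K) (hk : (k : ℝ) ≤ 2 * B) :
    0 ≤ ((∑ a ∈ range (n + 1), ∑ b ∈ range (n + 1), C (u a * v b) * pp n a b)
      * nb q ^ M).coeff k := by
  rw [coeff_sum]
  refine Finset.sum_nonneg fun a ha => Finset.sum_nonneg fun b hb => ?_
  have ha' : a ≤ n := Nat.lt_succ_iff.mp (Finset.mem_range.mp ha)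
  have hb' : b ≤ n := Nat.lt_succ_iff.mp (Finset.mem_range.mp hb)
  by_cases hua : u a = 0
  · rw [hua, zero_mul, zero_mul]
  by_cases hvb : v b = 0
  · rw [hvb, mul_zero, zero_mul]
  obtain ⟨h1, h2⟩ := hs a b hua hvb
  refine mul_nonneg (mul_nonneg (hu a ha') (hv b hb')) ?_
  rw [pp_nb_coeff]
  split_ifs with h
  · refine mul_nonneg (Nat.cast_nonneg _) (hG _ _ h1 h2 _ ?_)
    have h3 : (((k - (max a b - min a b)) / 2 : ℕ) : ℝ) ≤ (k : ℝ) / 2 := by
      have h4 : ((k - (max a b - min a b)) / 2 : ℕ) * 2 ≤ k := by omega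
      have h5 : ((((k - (max a b - min a b)) / 2 : ℕ) * 2 : ℕ) : ℝ) ≤ (k : ℝ) := by
        exact_mod_cast h4
      push_cast at h5
      linarith
    linarith
  · exact le_rfl

/-- bound for the coefficient of a double sum -/
theorem sum_abs_le {n M K : ℕ} {q τ : ℝ} {u v : ℕ → ℝ} {k : ℕ} {B E : ℝ} (hE : 0 ≤ E)
    (hq1 : q ≤ 1)
    (hG : ∀ a D : ℕ, |(a : ℝ) - τ * n| ≤ K → D ≤ K → ∀ i : ℕ, B ≤ (i : ℝ) →
      |(gp n a D * (1 - C q * X) ^ M).coeff i| ≤ E * ((gp n a D).eval 1 * (1 - q) ^ M))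
    (hu : ∀ a ≤ n, 0 ≤ u a) (hv : ∀ b ≤ n, 0 ≤ v b)
    (hs : ∀ a b : ℕ, u a ≠ 0 → v b ≠ 0 → |((min a b : ℕ) : ℝ) - τ * n| ≤ K ∧
      max a b - min a b ≤ K) (hk : 2 * B + K ≤ k) :
    |((∑ a ∈ range (n + 1), ∑ b ∈ range (n + 1), C (u a * v b) * pp n a b)
      * nb q ^ M).coeff k| ≤ E * ((1 - q) ^ M
        * (∑ a ∈ range (n + 1), ∑ b ∈ range (n + 1), C (u a * v b) * pp n a b : ℝ[X]).eval 1) := by
  rw [coeff_sum, eval_sum, Finset.mul_sum, Finset.mul_sum]
  refine (Finset.abs_sum_le_sum_abs _ _).trans (Finset.sum_le_sum fun a ha => ?_)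
  rw [Finset.mul_sum, Finset.mul_sum]
  refine (Finset.abs_sum_le_sum_abs _ _).trans (Finset.sum_le_sum fun b hb => ?_)
  have ha' : a ≤ n := Nat.lt_succ_iff.mp (Finset.mem_range.mp ha)
  have hb' : b ≤ n := Nat.lt_succ_iff.mp (Finset.mem_range.mp hb)
  by_cases hua : u a = 0
  · simp [hua]
  by_cases hvb : v b = 0
  · simp [hvb]
  obtain ⟨h1, h2⟩ := hs a b hua hvb
  have huv : 0 ≤ u a * v b := mul_nonneg (hu a ha') (hv b hb')
  have hq0 : 0 ≤ (1 - q) ^ M := pow_nonneg (by linarith) M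
  have hgp : 0 ≤ (gp n (min a b) (max a b - min a b)).eval 1 := by
    unfold gp
    rw [eval_finsetSum]
    refine Finset.sum_nonneg fun i _ => ?_
    rw [eval_mul, eval_C, eval_pow, eval_X, one_pow, mul_one]
    positivity
  have hmain : |(pp n a b * nb q ^ M).coeff k| ≤ E * ((1 - q) ^ M * (pp n a b).eval 1) := by
    rw [pp_nb_coeff, pp_eval_one']
    split_ifs with h
    · have h3 : B ≤ (((k - (max a b - min a b)) / 2 : ℕ) : ℝ) := by
        have h4 : k ≤ ((k - (max a b - min a b)) / 2 : ℕ) * 2 + K := by omega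
        have h5 : (k : ℝ) ≤ ((((k - (max a b - min a b)) / 2 : ℕ) * 2 + K : ℕ) : ℝ) := by
          exact_mod_cast h4
        push_cast at h5
        linarith
      rw [abs_mul, abs_of_nonneg (Nat.cast_nonneg _ : (0 : ℝ) ≤ ((n.choose (min a b) : ℕ) : ℝ))]
      calc ((n.choose (min a b) : ℕ) : ℝ) * |(gp n (min a b) (max a b - min a b)
            * (1 - C q * X) ^ M).coeff ((k - (max a b - min a b)) / 2)|
          ≤ ((n.choose (min a b) : ℕ) : ℝ) * (E * ((gp n (min a b)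
            (max a b - min a b)).eval 1 * (1 - q) ^ M)) :=
            mul_le_mul_of_nonneg_left (hG _ _ h1 h2 _ h3) (Nat.cast_nonneg _)
        _ = _ := by ring
    · rw [abs_zero]
      positivity
  calc |u a * v b * (pp n a b * nb q ^ M).coeff k|
      = u a * v b * |(pp n a b * nb q ^ M).coeff k| := by rw [abs_mul, abs_of_nonneg huv]
    _ ≤ u a * v b * (E * ((1 - q) ^ M * (pp n a b).eval 1)) :=
        mul_le_mul_of_nonneg_left hmain huv
    _ = _ := by ring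

theorem lv_nonneg (n t J : ℕ) : 0 ≤ lv n t J := by
  unfold lv
  have h1 : 0 ≤ Real.cos (Real.pi / ((J : ℝ) + 2)) := by
    apply Real.cos_nonneg_of_mem_Icc
    have hJ : (0 : ℝ) ≤ J := Nat.cast_nonneg J
    have hpi := Real.pi_pos
    constructor
    · have : 0 ≤ Real.pi / ((J : ℝ) + 2) := by positivity
      linarith
    · rw [div_le_div_iff₀ (by linarith) (by norm_num)]
      nlinarith
  exact mul_nonneg (mul_nonneg (by norm_num) h1) (Real.sqrt_nonneg _)

theorem base_eval_nonneg (n t J : ℕ) : 0 ≤ (base n t J).eval 1 := by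
  rw [eval_eq_sum_range]
  refine Finset.sum_nonneg fun i _ => ?_
  rw [one_pow, mul_one]
  exact base_coeff_nonneg n t J i

end MainAux

open MainAux

theorem main_coeff {τ q β : ℝ} (hτ0 : 0 < τ) (hτ : τ ≤ 1 / 5) (hq0 : 0 < q) (hq : q ≤ 1 / 2)
    (hβ : 0 ≤ β) (hc : 5000 * β * q ≤ (τ * (1 - τ)) ^ 2) (J : ℕ) :
    ∀ᶠ n : ℕ in atTop, ∀ t M : ℕ, t = ⌊τ * n⌋₊ → M = ⌊β * n⌋₊ → ∀ k : ℕ,
      ((k : ℝ) ≤ 2 * (τ * (1 - τ) + 9 / 40 * (τ * (1 - τ)) ^ 2) * n →
        0 ≤ (base n t J * nb q ^ M).coeff k ∧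
        0 ≤ (lop (n + 2 * M) (lv n t J) (base n t J * nb q ^ M)).coeff k) ∧
      (2 * (τ * (1 - τ) + 9 / 40 * (τ * (1 - τ)) ^ 2) * n ≤ k →
        |(base n t J * nb q ^ M).coeff k|
          ≤ (n + 2 * M) * Real.exp (-((τ * (1 - τ)) ^ 2 / 1000) * n)
            * ((base n t J).eval 1 * (1 - q) ^ M) ∧
        |(lop (n + 2 * M) (lv n t J) (base n t J * nb q ^ M)).coeff k|
          ≤ (n + 2 * M) * Real.exp (-((τ * (1 - τ)) ^ 2 / 1000) * n)
            * ((base n t J).eval 1 * (1 - q) ^ M)) := by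
  have hw : 0 < τ * (1 - τ) := mul_pos hτ0 (by linarith)
  set w := τ * (1 - τ) with hwdef
  have hev1 : ∀ᶠ n : ℕ in atTop, (J : ℝ) + 2 ≤ τ * n := by
    filter_upwards [eventually_ge_atTop (⌈((J : ℝ) + 2) / τ⌉₊)] with n hn
    have h1 : ((J : ℝ) + 2) / τ ≤ n := (Nat.le_ceil _).trans (by exact_mod_cast hn)
    rw [div_le_iff₀ hτ0] at h1
    linarith
  have hev2 : ∀ᶠ n : ℕ in atTop, (J : ℝ) + 3 ≤ w ^ 2 / 20 * n := by
    filter_upwards [eventually_ge_atTop (⌈((J : ℝ) + 3) / (w ^ 2 / 20)⌉₊)] with n hn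
    have h0 : 0 < w ^ 2 / 20 := by positivity
    have h1 : ((J : ℝ) + 3) / (w ^ 2 / 20) ≤ n := (Nat.le_ceil _).trans (by exact_mod_cast hn)
    rw [div_le_iff₀ h0] at h1
    linarith
  filter_upwards [gpos hτ0 hτ hq0 hq hβ hc (J + 2), gtail hτ0 hτ hq0 hq hβ hc (J + 2), hev1, hev2,
    eventually_ge_atTop 1] with n hpos htail hn1 hn2 hn0
  intro t M ht hM
  have hn0' : (1 : ℝ) ≤ n := by exact_mod_cast hn0
  have hτn : 0 ≤ τ * n := by positivity
  have ht1 : (t : ℝ) ≤ τ * n := by rw [ht]; exact Nat.floor_le hτn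
  have ht2 : τ * n < t + 1 := by rw [ht]; exact Nat.lt_floor_add_one _
  have hM1 : (M : ℝ) ≤ β * n := by rw [hM]; exact Nat.floor_le (by positivity)
  have hJt : J + 1 ≤ t := by
    have h1 : (J : ℝ) + 1 < t + 1 := by linarith
    have h2 : J + 1 < t + 1 := by exact_mod_cast h1
    omega
  have h2t : 2 * t ≤ n := by
    have h1 : 2 * (t : ℝ) ≤ n := by nlinarith
    exact_mod_cast h1
  set E := Real.exp (-(w ^ 2 / 1000) * n) with hEdef
  have hE : 0 ≤ E := (Real.exp_pos _).le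
  have hq1 : q ≤ 1 := by linarith
  have hM1' : ((M - 1 : ℕ) : ℝ) ≤ β * n := by
    refine le_trans ?_ hM1
    exact_mod_cast Nat.sub_le M 1
  have hposG : ∀ M' : ℕ, (M' : ℝ) ≤ β * n → ∀ a D : ℕ, |(a : ℝ) - τ * n| ≤ ((J + 2 : ℕ) : ℝ) →
      D ≤ J + 2 → ∀ i : ℕ, (i : ℝ) ≤ (w + 9 / 40 * w ^ 2) * n →
      0 ≤ (gp n a D * (1 - C q * X) ^ M').coeff i := by
    intro M' hM' a D h1 h2 i hi
    refine hpos a D M' h1 h2 hM' i (hi.trans ?_)
    have : 0 ≤ w ^ 2 * n := by positivity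
    nlinarith
  have htailG : ∀ M' : ℕ, (M' : ℝ) ≤ β * n → ∀ a D : ℕ, |(a : ℝ) - τ * n| ≤ ((J + 2 : ℕ) : ℝ) →
      D ≤ J + 2 → ∀ i : ℕ, (w + w ^ 2 / 5) * n ≤ (i : ℝ) →
      |(gp n a D * (1 - C q * X) ^ M').coeff i| ≤ E * ((gp n a D).eval 1 * (1 - q) ^ M') :=
    fun M' hM' a D h1 h2 i hi => htail a D M' h1 h2 hM' i hi
  have hwv : ∀ a : ℕ, a ≤ n → 0 ≤ wv n t J a := fun a _ => wv_nonneg n t J a
  have hwe : ∀ a : ℕ, a ≤ n → 0 ≤ we n t J a := fun a ha =>
    we_nonneg hJt h2t (by positivity) (by exact_mod_cast ha)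
  have hs1 : ∀ a b : ℕ, wv n t J a ≠ 0 → wv n t J b ≠ 0 →
      |((min a b : ℕ) : ℝ) - τ * n| ≤ ((J + 2 : ℕ) : ℝ) ∧ max a b - min a b ≤ J + 2 := by
    intro a b ha hb
    obtain ⟨ha1, ha2⟩ := wv_supp ha
    obtain ⟨hb1, hb2⟩ := wv_supp hb
    have h1 : t ≤ min a b + J := by omega
    have h2 : min a b ≤ t := by omega
    have h1' : (t : ℝ) ≤ ((min a b : ℕ) : ℝ) + J := by exact_mod_cast h1
    have h2' : ((min a b : ℕ) : ℝ) ≤ t := by exact_mod_cast h2
    refine ⟨?_, by omega⟩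
    push_cast at h1' h2' ⊢
    rw [abs_le]
    constructor <;> linarith
  have hs2 : ∀ a b : ℕ, we n t J a ≠ 0 → wv n t J b ≠ 0 →
      |((min a b : ℕ) : ℝ) - τ * n| ≤ ((J + 2 : ℕ) : ℝ) ∧ max a b - min a b ≤ J + 2 := by
    intro a b ha hb
    obtain ⟨ha1, ha2⟩ := we_supp hJt ha
    obtain ⟨hb1, hb2⟩ := wv_supp hb
    have h1 : t ≤ min a b + J + 1 := by omega
    have h2 : min a b ≤ t := by omega
    have h1' : (t : ℝ) ≤ ((min a b : ℕ) : ℝ) + J + 1 := by exact_mod_cast h1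
    have h2' : ((min a b : ℕ) : ℝ) ≤ t := by exact_mod_cast h2
    refine ⟨?_, by omega⟩
    push_cast at h1' h2' ⊢
    rw [abs_le]
    constructor <;> linarith
  have hbe := base_eq n t J
  have hle := lop_base_eq n t J
  have hlop : lop (n + 2 * M) (lv n t J) (base n t J * nb q ^ M)
      = lop n (lv n t J) (base n t J) * nb q ^ M
        + C (2 * M * (1 - q)) * (X * (base n t J * nb q ^ (M - 1))) := by
    have h1 := lop_mul n (2 * M) (lv n t J) 0 (base n t J) (nb q ^ M)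
    rw [add_zero, lop_nb_pow] at h1
    rw [h1]
    ring
  have hbase0 : 0 ≤ (base n t J).eval 1 := base_eval_nonneg n t J
  have hloplv : (lop n (lv n t J) (base n t J)).eval 1 ≤ n * (base n t J).eval 1 := by
    rw [lop_eval_one]
    have := lv_nonneg n t J
    nlinarith
  have hMr : (0 : ℝ) ≤ M := Nat.cast_nonneg M
  have hq2 : 0 ≤ (1 - q) ^ M := pow_nonneg (by linarith) M
  have hq3 : 0 ≤ (1 - q) ^ (M - 1) := pow_nonneg (by linarith) _
  have hcM : 0 ≤ 2 * (M : ℝ) * (1 - q) := by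
    have : 0 ≤ 1 - q := by linarith
    positivity
  intro k
  refine ⟨fun hk => ?_, fun hk => ?_⟩
  · have hk' : (k : ℝ) ≤ 2 * ((w + 9 / 40 * w ^ 2) * n) := by linarith
    refine ⟨?_, ?_⟩
    · rw [hbe]
      exact sum_nonneg (hposG M hM1) hwv hwv hs1 hk'
    · rw [hlop, coeff_add, coeff_C_mul]
      refine add_nonneg ?_ (mul_nonneg hcM ?_)
      · rw [hle]
        exact sum_nonneg (hposG M hM1) hwe hwv hs2 hk'
      · rcases k with _ | k
        · rw [coeff_X_mul_zero]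
        · rw [coeff_X_mul, hbe]
          refine sum_nonneg (hposG (M - 1) hM1') hwv hwv hs1 ?_
          push_cast at hk'
          linarith
  · have hk' : 2 * ((w + w ^ 2 / 5) * n) + ((J + 2 : ℕ) : ℝ) + 1 ≤ k := by
      push_cast
      nlinarith
    have e1 : |(base n t J * nb q ^ M).coeff k| ≤ E * ((1 - q) ^ M * (base n t J).eval 1) := by
      have h1 := sum_abs_le hE hq1 (htailG M hM1) hwv hwv hs1 (k := k) (by linarith)
      rw [← hbe] at h1
      exact h1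
    have e2 : |(lop n (lv n t J) (base n t J) * nb q ^ M).coeff k|
        ≤ E * ((1 - q) ^ M * (lop n (lv n t J) (base n t J)).eval 1) := by
      have h1 := sum_abs_le hE hq1 (htailG M hM1) hwe hwv hs2 (k := k) (by linarith)
      rw [← hle] at h1
      exact h1
    have e3 : |(X * (base n t J * nb q ^ (M - 1))).coeff k|
        ≤ E * ((1 - q) ^ (M - 1) * (base n t J).eval 1) := by
      rcases k with _ | k
      · rw [coeff_X_mul_zero, abs_zero]
        positivity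
      · rw [coeff_X_mul]
        have h1 := sum_abs_le hE hq1 (htailG (M - 1) hM1') hwv hwv hs1 (k := k)
          (by push_cast at hk' ⊢; linarith)
        rw [← hbe] at h1
        exact h1
    refine ⟨e1.trans ?_, ?_⟩
    · have h1 : 0 ≤ E * ((base n t J).eval 1 * (1 - q) ^ M) := by positivity
      calc E * ((1 - q) ^ M * (base n t J).eval 1)
          = 1 * (E * ((base n t J).eval 1 * (1 - q) ^ M)) := by ring
        _ ≤ (n + 2 * M) * (E * ((base n t J).eval 1 * (1 - q) ^ M)) :=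
            mul_le_mul_of_nonneg_right (by linarith) h1
        _ = _ := by ring
    · rw [hlop, coeff_add, coeff_C_mul]
      have e4 : |2 * (M : ℝ) * (1 - q) * (X * (base n t J * nb q ^ (M - 1))).coeff k|
          ≤ 2 * M * (E * ((1 - q) ^ M * (base n t J).eval 1)) := by
        rw [abs_mul, abs_of_nonneg hcM]
        rcases Nat.eq_zero_or_pos M with hM0 | hM0
        · rw [hM0]; simp
        · calc 2 * (M : ℝ) * (1 - q) * |(X * (base n t J * nb q ^ (M - 1))).coeff k|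
              ≤ 2 * (M : ℝ) * (1 - q) * (E * ((1 - q) ^ (M - 1) * (base n t J).eval 1)) :=
                mul_le_mul_of_nonneg_left e3 hcM
            _ = 2 * M * (E * (((1 - q) ^ (M - 1) * (1 - q)) * (base n t J).eval 1)) := by ring
            _ = 2 * M * (E * ((1 - q) ^ M * (base n t J).eval 1)) := by
                rw [← pow_succ, Nat.sub_add_cancel hM0]
      have e5 : E * ((1 - q) ^ M * (lop n (lv n t J) (base n t J)).eval 1)
          ≤ E * ((1 - q) ^ M * (n * (base n t J).eval 1)) :=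
        mul_le_mul_of_nonneg_left (mul_le_mul_of_nonneg_left hloplv hq2) hE
      calc _ ≤ |(lop n (lv n t J) (base n t J) * nb q ^ M).coeff k|
            + |2 * (M : ℝ) * (1 - q) * (X * (base n t J * nb q ^ (M - 1))).coeff k| :=
            abs_add_le _ _
        _ ≤ E * ((1 - q) ^ M * (n * (base n t J).eval 1))
            + 2 * M * (E * ((1 - q) ^ M * (base n t J).eval 1)) :=
            add_le_add (e2.trans e5) e4
        _ = _ := by ring

end Pool.Agent.Lib.MP_0430e4_lc.All
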