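import Pool.Agent.Lib.MP_0430e4_lc.All.CERT
import Pool.Agent.Lib.MP_0430e4_lc.All.MAC
import Pool.Agent.Lib.MP_0430e4_lc.All.LOP
import Pool.Agent.Lib.MP_0430e4_lc.All.BASE
import Pool.Agent.Lib.MP_0430e4_lc.All.MAIN
import Pool.Agent.Lib.MP_0430e4_lc.All.COVER

/-!
MODULE ASM: the certificate (window tensored with negative blocks, plus the repair).
-/

set_option autoImplicit false

namespace Pool.Agent.Lib.MP_0430e4_lc.All

open Finset Polynomial Filter Topology

namespace Asm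

/-- coefficients of `lop` vanish above the degree -/
theorem lop_coeff_zero {N : ℕ} {l : ℝ} {P : ℝ[X]} {k : ℕ} (h : P.natDegree + 1 < k) :
    (lop N l P).coeff k = 0 := by
  apply coeff_eq_zero_of_natDegree_lt
  refine lt_of_le_of_lt ?_ h
  unfold lop
  refine (natDegree_add_le _ _).trans ?_
  refine max_le ?_ ?_
  · by_cases hd : P.natDegree = 0
    · obtain ⟨c, hc⟩ := natDegree_eq_zero.1 hd
      rw [← hc]
      simp
    · refine (natDegree_mul_le).trans ?_
      have h1 : (derivative P).natDegree ≤ P.natDegree - 1 := natDegree_derivative_le P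
      have h2 : (1 - X ^ 2 : ℝ[X]).natDegree ≤ 2 := by
        refine (natDegree_sub_le _ _).trans ?_
        simp
      omega
  · refine (natDegree_mul_le).trans ?_
    have h2 : (C (N : ℝ) * X - C l : ℝ[X]).natDegree ≤ 1 := by
      refine (natDegree_sub_le _ _).trans ?_
      refine max_le ((natDegree_C_mul_le _ _).trans natDegree_X_le) ?_
      simp
    omega

theorem nb_natDegree (q : ℝ) : (nb q).natDegree ≤ 2 := by
  unfold nb
  refine (natDegree_sub_le _ _).trans ?_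
  refine max_le (by simp) ?_
  exact natDegree_C_mul_X_pow_le _ _

theorem nb_pow_natDegree (q : ℝ) (M : ℕ) : (nb q ^ M).natDegree ≤ 2 * M := by
  refine (natDegree_pow_le).trans ?_
  have := nb_natDegree q
  rw [mul_comm 2 M]
  exact Nat.mul_le_mul_left M this

theorem nb_eval_one (q : ℝ) : (nb q).eval 1 = 1 - q := by
  simp [nb]

theorem nb_coeff_zero (q : ℝ) : (nb q).coeff 0 = 1 := by
  simp [nb]

theorem nb_pow_coeff_zero (q : ℝ) (M : ℕ) : (nb q ^ M).coeff 0 = 1 := by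
  rw [coeff_zero_eq_eval_zero, eval_pow, ← coeff_zero_eq_eval_zero, nb_coeff_zero, one_pow]

theorem eval_one_nonneg {P : ℝ[X]} (h : ∀ k, 0 ≤ P.coeff k) : 0 ≤ P.eval 1 := by
  rw [eval_eq_sum_range]
  apply Finset.sum_nonneg
  intro i _
  rw [one_pow, mul_one]
  exact h i

theorem mac_sum (N : ℕ) (T : Finset ℕ) (g : ℕ → ℝ) (f : ℕ → ℝ[X]) :
    mac N (∑ t ∈ T, C (g t) * f t) = ∑ t ∈ T, C (g t) * mac N (f t) := by
  induction T using Finset.induction_on with
  | empty => simp [mac]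
  | insert a s ha ih => rw [sum_insert ha, sum_insert ha, mac_add, mac_C_mul, ih]

theorem lop_sum (N : ℕ) (l : ℝ) (T : Finset ℕ) (g : ℕ → ℝ) (f : ℕ → ℝ[X]) :
    lop N l (∑ t ∈ T, C (g t) * f t) = ∑ t ∈ T, C (g t) * lop N l (f t) := by
  induction T using Finset.induction_on with
  | empty => simp [lop]
  | insert a s ha ih => rw [sum_insert ha, sum_insert ha, lop_add, lop_C_mul, ih]

/-- a window of larger level, seen on more coordinates -/
theorem lop_ext {n t J M : ℕ} {l : ℝ} (hJ : J + 1 ≤ t) (ht : 2 * t ≤ n)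
    (hl : l + 1 ≤ lv n t J) (k : ℕ) :
    (base n t J).coeff k ≤ (lop (n + 2 * M) l (base n t J)).coeff k := by
  have h1 : lop (n + 2 * M) l (base n t J) =
      lop n (lv n t J) (base n t J) + C ((2 * M : ℕ) : ℝ) * (base n t J * X)
        + C (lv n t J - l) * base n t J := by
    rw [lop_level (n + 2 * M) l (lv n t J)]
    have h2 := lop_mul n (2 * M) (lv n t J) 0 (base n t J) 1
    rw [mul_one, mul_one, add_zero, lop_one] at h2
    rw [h2]
    ring
  rw [h1, coeff_add, coeff_add, coeff_C_mul, coeff_C_mul]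
  have h3 := lop_base_coeff_nonneg hJ ht k
  have h4 := base_coeff_nonneg n t J k
  have h5 : 0 ≤ (base n t J * X).coeff k := by
    cases k with
    | zero => rw [coeff_zero_eq_eval_zero]; simp
    | succ k => rw [coeff_mul_X]; exact base_coeff_nonneg n t J k
  have h6 : 0 ≤ ((2 * M : ℕ) : ℝ) * (base n t J * X).coeff k :=
    mul_nonneg (Nat.cast_nonneg _) h5
  nlinarith

theorem mac_ext {n t J M : ℕ} (ht : 2 * t ≤ n) (k : ℕ) :
    0 ≤ (mac (n + 2 * M) (base n t J)).coeff k := by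
  have h2 := mac_mul (N₁ := n) (N₂ := 2 * M) (P := base n t J) (Q := 1)
    (base_natDegree.trans ht) (by simp)
  rw [mul_one, mac_one] at h2
  rw [h2]
  apply coeff_mul_nonneg (mac_base_coeff_nonneg n t J)
  intro k
  rw [coeff_one_add_X_pow]
  positivity

end Asm

open Asm

/-- everything for one value of `n` -/
theorem Asm.one {n t M J : ℕ} {q l Γ κ : ℝ} (hq0 : 0 < q) (hq : q ≤ 1 / 2) (hJ : J + 1 ≤ t)
    (ht : 2 * t ≤ n) (hΓ : 0 ≤ Γ)
    (hmain : ∀ k, (0 ≤ (base n t J * nb q ^ M).coeff k ∧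
        0 ≤ (lop (n + 2 * M) l (base n t J * nb q ^ M)).coeff k) ∨
      (|(base n t J * nb q ^ M).coeff k| ≤ κ ∧
        |(lop (n + 2 * M) l (base n t J * nb q ^ M)).coeff k| ≤ κ ∧
        ∃ t' : ℕ, J + 1 ≤ t' ∧ 2 * t' ≤ n ∧ l + 1 ≤ lv n t' J ∧
          0 < (base n t' J).eval 1 ∧ κ * (base n t' J).eval 1 ≤ Γ * (base n t' J).coeff k))
    (hsmall : (n + 1) * Γ ≤ (base n t J).eval 1 * (1 - q) ^ M) :
    ∃ h : (Fin (n + 2 * M) → Bool) → ℝ,
      Tensor.IsCert l h ∧
      Tensor.val h ≤ 2 * (J + 1) * ((n.choose t : ℕ) : ℝ) * (1 - q) ^ M := by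
  classical
  obtain ⟨hb0, hb1⟩ := base_val hJ ht
  set T : Finset ℕ := (range (n + 1)).filter fun t' =>
    J + 1 ≤ t' ∧ 2 * t' ≤ n ∧ l + 1 ≤ lv n t' J ∧ 0 < (base n t' J).eval 1 with hT
  have hTm : ∀ t' ∈ T, J + 1 ≤ t' ∧ 2 * t' ≤ n ∧ l + 1 ≤ lv n t' J ∧
      0 < (base n t' J).eval 1 := by
    intro t' h
    rw [hT, Finset.mem_filter] at h
    exact h.2
  set Q : ℝ[X] := ∑ t' ∈ T, C (Γ / (base n t' J).eval 1) * base n t' J with hQ
  set Pm : ℝ[X] := base n t J * nb q ^ M with hPm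
  have hg : ∀ t' ∈ T, 0 ≤ Γ / (base n t' J).eval 1 := fun t' h =>
    div_nonneg hΓ (hTm t' h).2.2.2.le
  have hQc : ∀ k, Q.coeff k = ∑ t' ∈ T, Γ / (base n t' J).eval 1 * (base n t' J).coeff k := by
    intro k
    rw [hQ, finsetSum_coeff]
    exact Finset.sum_congr rfl fun t' _ => coeff_C_mul _
  have hQ0 : ∀ k, 0 ≤ Q.coeff k := by
    intro k
    rw [hQc]
    exact Finset.sum_nonneg fun t' h => mul_nonneg (hg t' h) (base_coeff_nonneg n t' J k)
  have hQl : ∀ k, Q.coeff k ≤ (lop (n + 2 * M) l Q).coeff k := by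
    intro k
    rw [hQc, hQ, lop_sum, finsetSum_coeff]
    apply Finset.sum_le_sum
    intro t' h
    rw [coeff_C_mul]
    obtain ⟨h1, h2, h3, h4⟩ := hTm t' h
    exact mul_le_mul_of_nonneg_left (lop_ext h1 h2 h3 k) (hg t' h)
  have hQbig : ∀ k, (∃ t' : ℕ, J + 1 ≤ t' ∧ 2 * t' ≤ n ∧ l + 1 ≤ lv n t' J ∧
          0 < (base n t' J).eval 1 ∧ κ * (base n t' J).eval 1 ≤ Γ * (base n t' J).coeff k) →
      κ ≤ Q.coeff k := by
    rintro k ⟨t', h1, h2, h3, h4, h5⟩
    have hmem : t' ∈ T := by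
      rw [hT, Finset.mem_filter, Finset.mem_range]
      exact ⟨by omega, h1, h2, h3, h4⟩
    rw [hQc]
    have h6 := Finset.single_le_sum
      (f := fun t' => Γ / (base n t' J).eval 1 * (base n t' J).coeff k)
      (fun t' h => mul_nonneg (hg t' h) (base_coeff_nonneg n t' J k)) hmem
    refine le_trans ?_ h6
    rw [div_mul_eq_mul_div, le_div_iff₀ h4]
    exact h5
  have hdeg1 : Pm.natDegree ≤ n + 2 * M := by
    refine (natDegree_mul_le).trans ?_
    have h1 : (base n t J).natDegree ≤ 2 * t := base_natDegree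
    have h2 := nb_pow_natDegree q M
    omega
  have hdeg2 : Q.natDegree ≤ n + 2 * M := by
    rw [hQ]
    apply natDegree_sum_le_of_forall_le
    intro t' h
    refine (natDegree_C_mul_le _ _).trans ?_
    have h1 : (base n t' J).natDegree ≤ 2 * t' := base_natDegree
    have h2 := (hTm t' h).2.1
    omega
  have hdeg : (Pm + Q).natDegree ≤ n + 2 * M := (natDegree_add_le _ _).trans (max_le hdeg1 hdeg2)
  have hPm0 : Pm.coeff 0 = (base n t J).coeff 0 := by
    rw [hPm, mul_coeff_zero, nb_pow_coeff_zero, mul_one]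
  have hc0 : (base n t J).coeff 0 ≤ (Pm + Q).coeff 0 := by
    rw [coeff_add, hPm0]
    linarith [hQ0 0]
  obtain ⟨h, hcert, hval⟩ := cert_of_poly (N := n + 2 * M) (l := l) (P := Pm + Q) hdeg
    (lt_of_lt_of_le hb0 hc0)
    (by
      intro k
      rw [coeff_add]
      rcases hmain k with ⟨h1, -⟩ | ⟨h1, -, h3⟩
      · linarith [hQ0 k]
      · have := hQbig k h3
        linarith [neg_abs_le (Pm.coeff k)])
    (by
      intro k
      rw [mac_add, coeff_add]
      have h1 : 0 ≤ (mac (n + 2 * M) Pm).coeff k := by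
        rw [hPm, mac_mul (base_natDegree.trans ht) (nb_pow_natDegree q M)]
        exact coeff_mul_nonneg (mac_base_coeff_nonneg n t J)
          (mac_nb_pow_nonneg hq0.le (by linarith) M) k
      have h2 : 0 ≤ (mac (n + 2 * M) Q).coeff k := by
        rw [hQ, mac_sum, finsetSum_coeff]
        apply Finset.sum_nonneg
        intro t' ht'
        rw [coeff_C_mul]
        exact mul_nonneg (hg t' ht') (mac_ext (hTm t' ht').2.1 k)
      linarith)
    (by
      intro k
      rw [lop_add, coeff_add]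
      rcases hmain k with ⟨-, h1⟩ | ⟨-, h2, h3⟩
      · have := hQl k
        have := hQ0 k
        linarith
      · have h4 := hQbig k h3
        have h5 := hQl k
        linarith [neg_abs_le ((lop (n + 2 * M) l Pm).coeff k)])
  refine ⟨h, hcert, ?_⟩
  rw [hval, div_le_iff₀ (lt_of_lt_of_le hb0 hc0)]
  have hev : (Pm + Q).eval 1 ≤ 2 * ((base n t J).eval 1 * (1 - q) ^ M) := by
    rw [eval_add, hPm, eval_mul, eval_pow, nb_eval_one, hQ, eval_finsetSum]
    have h1 : ∑ t' ∈ T, (C (Γ / (base n t' J).eval 1) * base n t' J).eval 1 ≤ (n + 1) * Γ := by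
      have h2 : ∀ t' ∈ T, (C (Γ / (base n t' J).eval 1) * base n t' J).eval 1 = Γ := by
        intro t' h
        rw [eval_mul, eval_C]
        have := (hTm t' h).2.2.2
        field_simp
      rw [Finset.sum_congr rfl h2, Finset.sum_const, nsmul_eq_mul]
      apply mul_le_mul_of_nonneg_right _ hΓ
      have h3 : T.card ≤ n + 1 := by
        have := Finset.card_filter_le (range (n + 1)) fun t' =>
          J + 1 ≤ t' ∧ 2 * t' ≤ n ∧ l + 1 ≤ lv n t' J ∧ 0 < (base n t' J).eval 1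
        rw [Finset.card_range] at this
        exact this
      exact_mod_cast h3
    linarith
  have hqM : 0 ≤ (1 - q) ^ M := pow_nonneg (by linarith) M
  calc (Pm + Q).eval 1 ≤ 2 * ((base n t J).eval 1 * (1 - q) ^ M) := hev
    _ ≤ 2 * (((J + 1) * ((n.choose t : ℕ) : ℝ) * (base n t J).coeff 0) * (1 - q) ^ M) := by
        gcongr
    _ = 2 * (J + 1) * ((n.choose t : ℕ) : ℝ) * (1 - q) ^ M * (base n t J).coeff 0 := by ring
    _ ≤ 2 * (J + 1) * ((n.choose t : ℕ) : ℝ) * (1 - q) ^ M * (Pm + Q).coeff 0 := by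
        gcongr

theorem exists_cert {τ q β : ℝ} (hτ0 : 0 < τ) (hτ : τ ≤ 1 / 5) (hq0 : 0 < q) (hq : q ≤ 1 / 2)
    (hβ : 0 ≤ β) (hβ1 : β ≤ 1 / 1000) (hc : 5000 * β * q ≤ (τ * (1 - τ)) ^ 2) {J : ℕ}
    (hJ : 1 ≤ J) :
    ∀ᶠ n : ℕ in atTop, ∃ h : (Fin (n + 2 * ⌊β * n⌋₊) → Bool) → ℝ,
      Tensor.IsCert (lv n ⌊τ * n⌋₊ J) h ∧
      Tensor.val h ≤ 2 * (J + 1) * ((n.choose ⌊τ * n⌋₊ : ℕ) : ℝ) * (1 - q) ^ ⌊β * n⌋₊ := by
  obtain ⟨c, hc0, hcov⟩ := cover hτ0 hτ hJ
  have hw0 : 0 < τ * (1 - τ) := mul_pos hτ0 (by linarith)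
  set w : ℝ := τ * (1 - τ) with hw
  -- the exponential factor
  have hexp : ∀ᶠ n : ℕ in atTop,
      ((n : ℝ) + 1) * ((n / c) * (3 * n * Real.exp (-(w ^ 2 / 1000) * n))) ≤ 1 := by
    have hk : 0 < w ^ 2 / 1000 := by positivity
    have h1 := (Real.tendsto_pow_mul_exp_neg_atTop_nhds_zero 3).comp
      ((tendsto_natCast_atTop_atTop (R := ℝ)).const_mul_atTop hk)
    have h2 : Tendsto (fun n : ℕ => (6 / (c * (w ^ 2 / 1000) ^ 3)) *
        (((w ^ 2 / 1000 * (n : ℝ)) ^ 3) * Real.exp (-(w ^ 2 / 1000 * (n : ℝ))))) atTop (𝓝 0) := by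
      have := h1.const_mul (6 / (c * (w ^ 2 / 1000) ^ 3))
      rw [mul_zero] at this
      exact this
    have h3 := h2.eventually (gt_mem_nhds (zero_lt_one))
    filter_upwards [h3, eventually_ge_atTop 1] with n hn hn1
    have hn1' : (1 : ℝ) ≤ n := by exact_mod_cast hn1
    refine le_trans ?_ hn.le
    have e1 : 6 / (c * (w ^ 2 / 1000) ^ 3) *
        (((w ^ 2 / 1000 * (n : ℝ)) ^ 3) * Real.exp (-(w ^ 2 / 1000 * (n : ℝ)))) =
        6 * (n : ℝ) ^ 3 / c * Real.exp (-(w ^ 2 / 1000) * n) := by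
      have : -(w ^ 2 / 1000 * (n : ℝ)) = -(w ^ 2 / 1000) * n := by ring
      rw [this]
      field_simp
    rw [e1]
    have e2 : ((n : ℝ) + 1) * ((n / c) * (3 * n * Real.exp (-(w ^ 2 / 1000) * n))) =
        (3 * (n : ℝ) ^ 2 * (n + 1)) / c * Real.exp (-(w ^ 2 / 1000) * n) := by
      field_simp
    rw [e2]
    have e3 : 3 * (n : ℝ) ^ 2 * (n + 1) ≤ 6 * (n : ℝ) ^ 3 := by
      nlinarith [mul_nonneg (sq_nonneg (n : ℝ)) (sub_nonneg.2 hn1')]
    exact mul_le_mul_of_nonneg_right (div_le_div_of_nonneg_right e3 hc0.le) (Real.exp_pos _).le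
  have hbig : ∀ᶠ n : ℕ in atTop, (J : ℝ) + 2 ≤ τ * n := by
    have := (tendsto_natCast_atTop_atTop (R := ℝ)).const_mul_atTop hτ0
    exact this.eventually_ge_atTop _
  filter_upwards [hcov, main_coeff hτ0 hτ hq0 hq hβ hc J, hexp, hbig, eventually_ge_atTop 100]
    with n h1 h2 h3 h4 h5
  set t : ℕ := ⌊τ * n⌋₊ with htdef
  set M : ℕ := ⌊β * n⌋₊ with hMdef
  have hn5 : (100 : ℝ) ≤ n := by exact_mod_cast h5
  have hn0 : (0 : ℝ) < n := by linarith
  have htle : (t : ℝ) ≤ τ * n := Nat.floor_le (by positivity)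
  have hMle : (M : ℝ) ≤ β * n := Nat.floor_le (by positivity)
  have htJ : J + 1 ≤ t := by
    rw [htdef]
    apply Nat.le_floor
    push_cast
    linarith
  have ht2 : 2 * t ≤ n := by
    have : (2 : ℝ) * t ≤ n := by nlinarith
    exact_mod_cast this
  have hM3 : (n : ℝ) + 2 * M ≤ 3 * n := by nlinarith
  have hB0 : 0 ≤ (base n t J).eval 1 := eval_one_nonneg (base_coeff_nonneg n t J)
  have hqM : 0 ≤ (1 - q) ^ M := pow_nonneg (by linarith) M
  set κ : ℝ := (n + 2 * M) * Real.exp (-(w ^ 2 / 1000) * n) * ((base n t J).eval 1 * (1 - q) ^ M)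
    with hκdef
  have hκ : 0 ≤ κ := by positivity
  refine Asm.one (Γ := n / c * κ) (κ := κ) hq0 hq htJ ht2 (by positivity) ?_ ?_
  · intro k
    obtain ⟨ha, hb⟩ := h2 t M rfl rfl k
    rcases le_total (k : ℝ) (2 * (w + 9 / 40 * w ^ 2) * n) with hk | hk
    · exact Or.inl (ha hk)
    · obtain ⟨hb1, hb2⟩ := hb hk
      rcases le_or_gt (k : ℝ) (9 / 20 * n) with hk2 | hk2
      · right
        refine ⟨hb1, hb2, ?_⟩
        obtain ⟨t', e1, e2, e3, e4, e5⟩ := h1 k (by
          refine le_trans ?_ hk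
          have : 2 * (w + w ^ 2 / 6) ≤ 2 * (w + 9 / 40 * w ^ 2) := by nlinarith [sq_nonneg w]
          exact mul_le_mul_of_nonneg_right this hn0.le) hk2
        refine ⟨t', e1, e2, e3, e4, ?_⟩
        calc κ * (base n t' J).eval 1 = n / c * κ * (c / n * (base n t' J).eval 1) := by
              field_simp
          _ ≤ n / c * κ * (base n t' J).coeff k := by gcongr
      · left
        have hd : (base n t J * nb q ^ M).natDegree + 1 < k := by
          have e1 : (base n t J * nb q ^ M).natDegree ≤ 2 * t + 2 * M :=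
            (natDegree_mul_le).trans (add_le_add base_natDegree (nb_pow_natDegree q M))
          have e2 : ((2 * t + 2 * M : ℕ) : ℝ) + 1 < k := by
            push_cast
            nlinarith
          have e3 : 2 * t + 2 * M + 1 < k := by exact_mod_cast e2
          omega
        constructor
        · rw [coeff_eq_zero_of_natDegree_lt (by omega)]
        · rw [lop_coeff_zero hd]
  · calc ((n : ℝ) + 1) * (n / c * κ)
        = (((n : ℝ) + 1) * ((n / c) * ((n + 2 * M) * Real.exp (-(w ^ 2 / 1000) * n)))) *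
          ((base n t J).eval 1 * (1 - q) ^ M) := by rw [hκdef]; ring
      _ ≤ (((n : ℝ) + 1) * ((n / c) * ((3 * n) * Real.exp (-(w ^ 2 / 1000) * n)))) *
          ((base n t J).eval 1 * (1 - q) ^ M) := by gcongr
      _ ≤ 1 * ((base n t J).eval 1 * (1 - q) ^ M) := by
          apply mul_le_mul_of_nonneg_right h3 (by positivity)
      _ = _ := one_mul _

end Pool.Agent.Lib.MP_0430e4_lc.All
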