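import Pool.Agent.Lib.MP_0430e4_lc.Impr.BEQ

/-! MODULE BALL: the minimum in `B(δ)` is attained at `u = 1 - 2δ` for every `δ ≥ 273/1000`. -/

set_option autoImplicit false

namespace Pool.Agent.Lib.MP_0430e4_lc.All

open Finset Filter Topology

namespace Ball

/-- two terms of the series of `log (1+x) - log (1-x)` -/
theorem log_diff_ge2 {x : ℝ} (hx0 : 0 ≤ x) (hx1 : x < 1) :
    2 * (x + x ^ 3 / 3) ≤ Real.log (1 + x) - Real.log (1 - x) := by
  have h := Real.hasSum_log_sub_log_of_abs_lt_one (x := x) (by rw [abs_of_nonneg hx0]; exact hx1)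
  have h1 := h.summable.sum_le_tsum (Finset.range 2) (fun k _ => by positivity)
  rw [h.tsum_eq] at h1
  rw [Finset.sum_range_succ, Finset.sum_range_one] at h1
  norm_num at h1
  linarith

/-- the function `p(u) √(1-u²)/u - (log (1 + √(1-u²)) - log u)` -/
noncomputable def D (p : ℝ → ℝ) (u : ℝ) : ℝ :=
  p u * Real.sqrt (1 - u ^ 2) / u - (Real.log (1 + Real.sqrt (1 - u ^ 2)) - Real.log u)

theorem D_deriv {p : ℝ → ℝ} {p' u : ℝ} (h0 : 0 < u) (h1 : u < 1) (hp : HasDerivAt p p' u) :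
    HasDerivAt (D p) ((p' * (1 - u ^ 2) * u - p u + u) / (Real.sqrt (1 - u ^ 2) * u ^ 2)) u := by
  have hpos : (0 : ℝ) < 1 - u ^ 2 := by nlinarith
  have hs : 0 < Real.sqrt (1 - u ^ 2) := Real.sqrt_pos.2 hpos
  have hs2 : Real.sqrt (1 - u ^ 2) ^ 2 = 1 - u ^ 2 := Real.sq_sqrt hpos.le
  have d0 : HasDerivAt (fun w : ℝ => 1 - w ^ 2) (-(2 * u)) u := by
    have := (hasDerivAt_pow 2 u).const_sub 1
    simpa using this
  have d1 := d0.sqrt hpos.ne'
  have d2 := d1.const_add 1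
  have d3 := d2.log (by positivity)
  have d4 := Real.hasDerivAt_log h0.ne'
  have d5 := ((hp.mul d1).div (hasDerivAt_id u) h0.ne').sub (d3.sub d4)
  refine HasDerivAt.congr_deriv (f := D p) d5 ?_
  simp only [id, Pi.mul_apply]
  set s := Real.sqrt (1 - u ^ 2) with hsdef
  have hu2 : u ^ 2 = 1 - s ^ 2 := by rw [hs2]; ring
  have h1s : (1 + s) ≠ 0 := by positivity
  have hs' : s ≠ 0 := hs.ne'
  have hu' : u ≠ 0 := h0.ne'
  field_simp
  have h3 : u ^ 2 = 1 - s ^ 2 := hu2
  ring_nf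

  have e3 : u ^ 3 = (1 - s ^ 2) * u := by rw [← h3]; ring

  simp only [e3, h3]
  ring

theorem poly_ineq {u w : ℝ} (hu : 0 < u) (huw : u ≤ w) (hw : w ≤ 454 / 1000) :
    0 ≤ (u + (1 - w) / 2) * (1 + (1 + u) * (w - u) / 3) - u -
      u * (1 - u ^ 2) * ((1 + (1 + u) * (w - u) / 3) +
        (u + (1 - w) / 2) * ((w - 1 - 2 * u) / 3)) := by
  obtain ⟨v, hv⟩ : ∃ v, v = w - u := ⟨_, rfl⟩
  have hw' : w = u + v := by rw [hv]; ring
  have hv0 : 0 ≤ v := by rw [hv]; linarith
  have huv : u + v ≤ 454 / 1000 := by linarith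
  subst hw'
  nlinarith [mul_nonneg hu.le hv0, mul_nonneg (mul_nonneg hu.le hv0) hv0,
    mul_nonneg (mul_nonneg hu.le hv0) hu.le, mul_nonneg (sub_nonneg.2 huv) hu.le,
    mul_nonneg (sub_nonneg.2 huv) hv0, mul_nonneg (mul_nonneg (sub_nonneg.2 huv) hv0) hu.le,
    mul_nonneg (mul_nonneg (sub_nonneg.2 huv) hu.le) hu.le, pow_pos hu 3, pow_pos hu 4,
    pow_pos hu 5]

/-- the polynomial `P` -/
noncomputable def P (w u : ℝ) : ℝ := (u + (1 - w) / 2) * (1 + (1 + u) * (w - u) / 3)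

theorem P_deriv (w u : ℝ) : HasDerivAt (P w) ((1 + (1 + u) * (w - u) / 3) +
    (u + (1 - w) / 2) * ((w - 1 - 2 * u) / 3)) u := by
  have d1 : HasDerivAt (fun u : ℝ => u + (1 - w) / 2) 1 u := (hasDerivAt_id u).add_const _
  have d2 : HasDerivAt (fun u : ℝ => 1 + (1 + u) * (w - u) / 3)
      ((1 * (w - u) + (1 + u) * (-1)) / 3) u := by
    have a1 : HasDerivAt (fun u : ℝ => 1 + u) 1 u := (hasDerivAt_id u).const_add 1
    have a2 : HasDerivAt (fun u : ℝ => w - u) (-1) u := (hasDerivAt_id u).const_sub w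
    exact ((a1.mul a2).div_const 3).const_add 1
  refine (d1.mul d2).congr_deriv ?_
  ring

theorem D_anti {w u : ℝ} (hu : 0 < u) (huw : u ≤ w) (hw : w ≤ 454 / 1000) :
    D (P w) w ≤ D (P w) u := by
  have hd : ∀ z ∈ Set.Icc u w, HasDerivAt (D (P w)) ((((1 + (1 + z) * (w - z) / 3) +
      (z + (1 - w) / 2) * ((w - 1 - 2 * z) / 3)) * (1 - z ^ 2) * z - P w z + z) /
        (Real.sqrt (1 - z ^ 2) * z ^ 2)) z := by
    intro z hz
    exact D_deriv (hu.trans_le hz.1) (by linarith [hz.2]) (P_deriv w z)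
  have hanti : AntitoneOn (D (P w)) (Set.Icc u w) := by
    refine antitoneOn_of_deriv_nonpos (convex_Icc _ _)
      (fun z hz => (hd z hz).continuousAt.continuousWithinAt) (fun z hz => ?_) ?_
    · rw [interior_Icc] at hz
      exact (hd z ⟨hz.1.le, hz.2.le⟩).differentiableAt.differentiableWithinAt
    · intro z hz
      rw [interior_Icc] at hz
      rw [(hd z ⟨hz.1.le, hz.2.le⟩).deriv]
      have h0 : 0 < z := hu.trans hz.1
      have h := poly_ineq h0 hz.2.le hw
      refine div_nonpos_of_nonpos_of_nonneg ?_ (by positivity)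
      unfold P
      linarith
  exact hanti (Set.left_mem_Icc.2 huw) (Set.right_mem_Icc.2 huw) huw

theorem E_anti {w : ℝ} (hw0 : 0 < w) (hw : w ≤ 454 / 1000) :
    D (fun w => (1 + w) / 2) (454 / 1000) ≤ D (fun w => (1 + w) / 2) w := by
  have hd : ∀ z ∈ Set.Icc w (454 / 1000), HasDerivAt (D (fun w => (1 + w) / 2))
      ((1 / 2 * (1 - z ^ 2) * z - (1 + z) / 2 + z) / (Real.sqrt (1 - z ^ 2) * z ^ 2)) z := by
    intro z hz
    have d1 : HasDerivAt (fun w : ℝ => (1 + w) / 2) (1 / 2) z := by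
      exact ((hasDerivAt_id z).const_add 1).div_const 2
    exact D_deriv (hw0.trans_le hz.1) (by linarith [hz.2]) d1
  have hanti : AntitoneOn (D (fun w => (1 + w) / 2)) (Set.Icc w (454 / 1000)) := by
    refine antitoneOn_of_deriv_nonpos (convex_Icc _ _)
      (fun z hz => (hd z hz).continuousAt.continuousWithinAt) (fun z hz => ?_) ?_
    · rw [interior_Icc] at hz
      exact (hd z ⟨hz.1.le, hz.2.le⟩).differentiableAt.differentiableWithinAt
    · intro z hz
      rw [interior_Icc] at hz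
      rw [(hd z ⟨hz.1.le, hz.2.le⟩).deriv]
      have h0 : 0 < z := hw0.trans hz.1
      refine div_nonpos_of_nonpos_of_nonneg ?_ (by positivity)
      nlinarith [hz.2, pow_pos h0 3]
  exact hanti (Set.left_mem_Icc.2 hw) (Set.right_mem_Icc.2 hw) hw

theorem E_num : 0 ≤ D (fun w => (1 + w) / 2) (454 / 1000) := by
  unfold D
  obtain ⟨s, hs⟩ : ∃ s : ℝ, s = Real.sqrt (1 - (454 / 1000) ^ 2) := ⟨_, rfl⟩
  rw [← hs]
  have h1 : (8910016 : ℝ) / 10000000 ≤ s := by
    rw [hs]
    apply Real.le_sqrt_of_sq_le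
    norm_num
  have h2 : s ≤ (8910018 : ℝ) / 10000000 := by
    rw [hs, Real.sqrt_le_left (by norm_num)]
    norm_num
  have h3 : Real.log (1 + s) - Real.log (454 / 1000) ≤
      Real.log (41652028 / 10000000) := by
    rw [← Real.log_div (by linarith) (by norm_num)]
    apply Real.log_le_log (by positivity)
    rw [div_le_iff₀ (by norm_num)]
    linarith
  have h4 : Real.log (41652028 / 10000000) = 2 * Real.log 2 + Real.log (41652028 / 40000000) := by
    have : (41652028 : ℝ) / 10000000 = 2 ^ 2 * (41652028 / 40000000) := by norm_num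
    rw [this, Real.log_mul (by norm_num) (by norm_num), Real.log_pow]
    norm_num
  have h5 : Real.log (41652028 / 40000000) ≤ 404708 / 10000000 := by
    have h := Real.abs_log_sub_add_sum_range_le (x := -(1652028 / 40000000 : ℝ))
      (by rw [abs_neg, abs_of_pos (by norm_num)]; norm_num) 4
    rw [abs_neg, abs_of_pos (by norm_num : (0 : ℝ) < 1652028 / 40000000)] at h
    rw [Finset.sum_range_succ, Finset.sum_range_succ, Finset.sum_range_succ,
      Finset.sum_range_succ, Finset.sum_range_zero] at h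
    have h6 := (abs_le.1 h).2
    have e : (1 : ℝ) - -(1652028 / 40000000) = 41652028 / 40000000 := by norm_num
    rw [e] at h6
    norm_num at h6 ⊢
    linarith
  have h6 := Real.log_two_lt_d9
  have h7 : (1 + 454 / 1000) / 2 * s / (454 / 1000) ≥ 1426780 / 1000000 := by
    rw [ge_iff_le, le_div_iff₀ (by norm_num)]
    linarith
  rw [h4] at h3
  dsimp only
  norm_num at h6 h7 h3 ⊢
  linarith

/-- the key inequality -/
theorem key {w u : ℝ} (hu : 0 < u) (huw : u ≤ w) (hw : w ≤ 454 / 1000) :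
    Real.log (1 + Real.sqrt (1 - u ^ 2)) - Real.log u ≤
      P w u * Real.sqrt (1 - u ^ 2) / u := by
  have h1 := D_anti hu huw hw
  have h2 := E_anti (hu.trans_le huw) hw
  have h3 := E_num
  have h4 : D (P w) w = D (fun w => (1 + w) / 2) w := by
    unfold D P
    have : (w + (1 - w) / 2) * (1 + (1 + w) * (w - w) / 3) = (1 + w) / 2 := by ring
    rw [this]
  have h5 : 0 ≤ D (P w) u := by linarith
  unfold D at h5
  linarith

/-- the function of `u` which has to be minimised -/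
noncomputable def phi (w u : ℝ) : ℝ :=
  Real.binEntropy (1 / 2 - 1 / 2 * Real.sqrt (1 - u ^ 2)) -
    Real.binEntropy (1 / 2 - 1 / 2 * Real.sqrt ((1 + u) * (w - u)))

theorem phi_deriv {w u : ℝ} (hu : 0 < u) (huw : u < w) (hw : w ≤ 454 / 1000) :
    ∃ d : ℝ, d ≤ 0 ∧ HasDerivAt (phi w) d u := by
  have hu1 : u < 1 := by linarith
  have hpos : (0 : ℝ) < 1 - u ^ 2 := by nlinarith
  have hs1 : 0 < Real.sqrt (1 - u ^ 2) := Real.sqrt_pos.2 hpos
  have hs12 : Real.sqrt (1 - u ^ 2) ^ 2 = 1 - u ^ 2 := Real.sq_sqrt hpos.le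
  have hs1' : Real.sqrt (1 - u ^ 2) < 1 := by
    rw [Real.sqrt_lt' one_pos]; nlinarith
  have hpos2 : (0 : ℝ) < (1 + u) * (w - u) := mul_pos (by linarith) (by linarith)
  have hs2 : 0 < Real.sqrt ((1 + u) * (w - u)) := Real.sqrt_pos.2 hpos2
  have hs22 : Real.sqrt ((1 + u) * (w - u)) ^ 2 = (1 + u) * (w - u) := Real.sq_sqrt hpos2.le
  have hs2' : Real.sqrt ((1 + u) * (w - u)) < 1 := by
    rw [Real.sqrt_lt' one_pos]; nlinarith
  have d0 : HasDerivAt (fun v : ℝ => 1 - v ^ 2) (-(2 * u)) u := by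
    have := (hasDerivAt_pow 2 u).const_sub 1
    simpa using this
  have d1 := ((d0.sqrt hpos.ne').const_mul (1 / 2)).const_sub (1 / 2)
  have d2 := (Real.hasDerivAt_binEntropy
    (p := 1 / 2 - 1 / 2 * Real.sqrt (1 - u ^ 2)) (by linarith) (by linarith)).comp u d1
  have d3 : HasDerivAt (fun v : ℝ => (1 + v) * (w - v)) (1 * (w - u) + (1 + u) * (-1)) u := by
    have a1 : HasDerivAt (fun u : ℝ => 1 + u) 1 u := (hasDerivAt_id u).const_add 1
    have a2 : HasDerivAt (fun u : ℝ => w - u) (-1) u := (hasDerivAt_id u).const_sub w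
    exact a1.mul a2
  have d4 := ((d3.sqrt hpos2.ne').const_mul (1 / 2)).const_sub (1 / 2)
  have d5 := (Real.hasDerivAt_binEntropy
    (p := 1 / 2 - 1 / 2 * Real.sqrt ((1 + u) * (w - u))) (by linarith) (by linarith)).comp u d4
  refine ⟨_, ?_, d2.sub d5⟩
  have hk := key hu huw.le hw
  have hl2 := log_diff_ge2 hs2.le hs2'
  obtain ⟨s, hs⟩ : ∃ s : ℝ, s = Real.sqrt (1 - u ^ 2) := ⟨_, rfl⟩
  obtain ⟨r, hr⟩ : ∃ r : ℝ, r = Real.sqrt ((1 + u) * (w - u)) := ⟨_, rfl⟩
  rw [← hs] at hk hs1 hs12 hs1' ⊢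
  rw [← hr] at hl2 hs2 hs22 hs2' ⊢
  have e1 : Real.log (1 - (1 / 2 - 1 / 2 * s)) - Real.log (1 / 2 - 1 / 2 * s) =
      2 * (Real.log (1 + s) - Real.log u) := by
    have a1 : 1 - (1 / 2 - 1 / 2 * s) = (1 + s) / 2 := by ring
    have a2 : 1 / 2 - 1 / 2 * s = u ^ 2 / (1 + s) / 2 := by
      have : u ^ 2 = (1 - s) * (1 + s) := by
        have : u ^ 2 = 1 - s ^ 2 := by rw [hs12]; ring
        rw [this]; ring
      rw [this]
      field_simp
    rw [a1, a2, Real.log_div (by positivity) (by norm_num),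
      Real.log_div (by positivity) (by norm_num), Real.log_div (by positivity) (by positivity),
      Real.log_pow]
    push_cast
    ring
  have e2 : Real.log (1 - (1 / 2 - 1 / 2 * r)) - Real.log (1 / 2 - 1 / 2 * r) =
      Real.log (1 + r) - Real.log (1 - r) := by
    have a1 : 1 - (1 / 2 - 1 / 2 * r) = (1 + r) / 2 := by ring
    have a2 : 1 / 2 - 1 / 2 * r = (1 - r) / 2 := by ring
    rw [a1, a2, Real.log_div (by positivity) (by norm_num),
      Real.log_div (by linarith) (by norm_num)]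
    ring
  rw [e1, e2]
  have f1 : 2 * (Real.log (1 + s) - Real.log u) * -(1 / 2 * (-(2 * u) / (2 * s))) ≤ P w u := by
    have : 2 * (Real.log (1 + s) - Real.log u) * -(1 / 2 * (-(2 * u) / (2 * s))) =
        (Real.log (1 + s) - Real.log u) * (u / s) := by
      field_simp
    rw [this]
    calc (Real.log (1 + s) - Real.log u) * (u / s) ≤ P w u * s / u * (u / s) :=
          mul_le_mul_of_nonneg_right hk (by positivity)
      _ = P w u := by field_simp
  have f2 : P w u ≤ (Real.log (1 + r) - Real.log (1 - r)) *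
      -(1 / 2 * ((1 * (w - u) + (1 + u) * (-1)) / (2 * r))) := by
    have g1 : -(1 / 2 * ((1 * (w - u) + (1 + u) * (-1)) / (2 * r))) =
        (u + (1 - w) / 2) / (2 * r) := by
      field_simp
      ring
    rw [g1]
    calc P w u = 2 * (r + r ^ 3 / 3) * ((u + (1 - w) / 2) / (2 * r)) := by
          unfold P
          have : r ^ 3 = r * ((1 + u) * (w - u)) := by rw [← hs22]; ring
          rw [this]
          field_simp
      _ ≤ _ := mul_le_mul_of_nonneg_right hl2 (by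
          have : 0 < u + (1 - w) / 2 := by linarith
          positivity)
  linarith

theorem phi_anti {w u : ℝ} (hu : 0 < u) (huw : u ≤ w) (hw : w ≤ 454 / 1000) :
    phi w w ≤ phi w u := by
  have hcont : ContinuousOn (phi w) (Set.Icc u w) := by
    unfold phi
    have c1 : Continuous fun v : ℝ => 1 / 2 - 1 / 2 * Real.sqrt (1 - v ^ 2) := by fun_prop
    have c2 : Continuous fun v : ℝ => 1 / 2 - 1 / 2 * Real.sqrt ((1 + v) * (w - v)) := by fun_prop
    exact ((Real.binEntropy_continuous.comp c1).sub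
      (Real.binEntropy_continuous.comp c2)).continuousOn
  have hanti : AntitoneOn (phi w) (Set.Icc u w) := by
    refine antitoneOn_of_deriv_nonpos (convex_Icc _ _) hcont (fun z hz => ?_) ?_
    · rw [interior_Icc] at hz
      obtain ⟨d, -, h⟩ := phi_deriv (hu.trans hz.1) hz.2 hw
      exact h.differentiableAt.differentiableWithinAt
    · intro z hz
      rw [interior_Icc] at hz
      obtain ⟨d, h0, h⟩ := phi_deriv (hu.trans hz.1) hz.2 hw
      rw [h.deriv]
      exact h0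
  exact hanti (Set.left_mem_Icc.2 huw) (Set.right_mem_Icc.2 huw) huw

end Ball

/-- The minimum in `B(δ)` is attained at `u = 1 - 2δ` for `δ ≥ 0.273`. -/
theorem B_ge_273 {δ : ℝ} (h1 : 273 / 1000 ≤ δ) (h2 : δ < 1 / 2) {u : ℝ} (hu : 0 < u)
    (hu1 : u ≤ 1 - 2 * δ) :
    Real.binEntropy (1 / 2 - Real.sqrt (δ * (1 - δ))) / Real.log 2
      ≤ 1 + Real.binEntropy (1 / 2 - 1 / 2 * Real.sqrt (1 - u ^ 2)) / Real.log 2
        - Real.binEntropy (1 / 2 - 1 / 2 * Real.sqrt (1 - (u ^ 2 + 2 * δ * u + 2 * δ)))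
          / Real.log 2 := by
  obtain ⟨w, hw⟩ : ∃ w : ℝ, w = 1 - 2 * δ := ⟨_, rfl⟩
  rw [← hw] at hu1
  have hw1 : w ≤ 454 / 1000 := by rw [hw]; linarith
  have hδ : δ = (1 - w) / 2 := by rw [hw]; ring
  have hlog : 0 < Real.log 2 := Real.log_pos (by norm_num)
  have e1 : Real.sqrt (δ * (1 - δ)) = 1 / 2 * Real.sqrt (1 - w ^ 2) := by
    have : δ * (1 - δ) = (1 / 2) ^ 2 * (1 - w ^ 2) := by rw [hδ]; ring
    rw [this, Real.sqrt_mul (by positivity), Real.sqrt_sq (by norm_num)]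
  have e2 : 1 - (u ^ 2 + 2 * δ * u + 2 * δ) = (1 + u) * (w - u) := by rw [hδ]; ring
  have h := Ball.phi_anti hu hu1 hw1
  unfold Ball.phi at h
  have e5 : (1 + w) * (w - w) = 0 := by ring
  rw [e5, Real.sqrt_zero, mul_zero, sub_zero] at h
  have e6 : Real.binEntropy (1 / 2) = Real.log 2 := by
    rw [one_div]; exact Real.binEntropy_two_inv
  rw [e6] at h
  rw [e1, e2, div_le_iff₀ hlog]
  have e4 : (1 + Real.binEntropy (1 / 2 - 1 / 2 * Real.sqrt (1 - u ^ 2)) / Real.log 2 -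
      Real.binEntropy (1 / 2 - 1 / 2 * Real.sqrt ((1 + u) * (w - u))) / Real.log 2) * Real.log 2 =
      Real.log 2 + Real.binEntropy (1 / 2 - 1 / 2 * Real.sqrt (1 - u ^ 2)) -
      Real.binEntropy (1 / 2 - 1 / 2 * Real.sqrt ((1 + u) * (w - u))) := by
    field_simp
  rw [e4]
  linarith

theorem B_ge_all {δ : ℝ} (h1 : 7 / 25 ≤ δ) (h2 : δ < 1 / 2) {u : ℝ} (hu : 0 < u)
    (hu1 : u ≤ 1 - 2 * δ) :
    Real.binEntropy (1 / 2 - Real.sqrt (δ * (1 - δ))) / Real.log 2
      ≤ 1 + Real.binEntropy (1 / 2 - 1 / 2 * Real.sqrt (1 - u ^ 2)) / Real.log 2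
        - Real.binEntropy (1 / 2 - 1 / 2 * Real.sqrt (1 - (u ^ 2 + 2 * δ * u + 2 * δ)))
          / Real.log 2 :=
  B_ge_273 (by linarith) h2 hu hu1

end Pool.Agent.Lib.MP_0430e4_lc.All
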