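import Pool.Agent.Lib.MP_0430e4_lc.All.Defs
import Pool.Agent.Lib.MP_0430e4_lc.TensorRate

/-!
# Radial certificates from mass polynomials
-/

set_option autoImplicit false

namespace Pool.Agent.Lib.MP_0430e4_lc.All

open Finset Polynomial

namespace Cert

theorem lop_coeff (N : ℕ) (l : ℝ) (P : ℝ[X]) (k : ℕ) :
    (lop N l P).coeff k = ((k : ℝ) + 1) * P.coeff (k + 1)
      + (if k = 0 then 0 else ((N : ℝ) - k + 1) * P.coeff (k - 1)) - l * P.coeff k := by
  have e : lop N l P
      = derivative P - X ^ 2 * derivative P + (C (N : ℝ) * (X * P) - C l * P) := by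
    unfold lop
    ring
  rw [e]
  simp only [coeff_sub, coeff_add, coeff_C_mul, coeff_derivative, coeff_X_pow_mul']
  rcases k with _ | _ | k
  · simp
    ring
  · simp [coeff_X_mul]
    ring
  · simp [coeff_X_mul]
    ring

/-- Krawtchouk numbers -/
noncomputable def K (N i j : ℕ) : ℝ := ((1 - X : ℝ[X]) ^ i * (1 + X) ^ (N - i)).coeff j

theorem prod_expand {N : ℕ} (x : Fin N → Bool) :
    ∑ y : Fin N → Bool, C (Tensor.chi x y) * X ^ (Impr.wt y)
      = (1 - X : ℝ[X]) ^ (Impr.wt x) * (1 + X) ^ (N - Impr.wt x) := by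
  have h1 : ∀ y : Fin N → Bool, (C (Tensor.chi x y) * X ^ (Impr.wt y) : ℝ[X])
      = ∏ i, (C (Tensor.sg (x i) (y i)) * (if y i = true then X else 1)) := by
    intro y
    rw [Finset.prod_mul_distrib, Tensor.chi_eq, map_prod, Finset.prod_ite, Finset.prod_const,
      Finset.prod_const_one, mul_one]
    rfl
  simp only [h1]
  have h2 := Finset.prod_univ_sum (fun _ : Fin N => (univ : Finset Bool))
    (fun i b => (C (Tensor.sg (x i) b) * (if b = true then X else 1) : ℝ[X]))
  rw [Fintype.piFinset_univ] at h2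
  rw [← h2]
  have h3 : ∀ i : Fin N, ∑ b : Bool, (C (Tensor.sg (x i) b) * (if b = true then X else 1) : ℝ[X])
      = if x i = true then 1 - X else 1 + X := by
    intro i
    rw [Fintype.sum_bool]
    cases h : x i
    · simp [Tensor.sg]
      ring
    · simp [Tensor.sg]
      ring
  simp only [h3]
  rw [Finset.prod_ite, Finset.prod_const, Finset.prod_const]
  have h4 := Finset.card_filter_add_card_filter_not (s := (univ : Finset (Fin N)))
      (fun i => x i = true)
  rw [Finset.card_univ, Fintype.card_fin] at h4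
  have h5 : (univ.filter fun i => ¬ x i = true).card = N - Impr.wt x := by
    unfold Impr.wt
    omega
  rw [h5]
  rfl

theorem sum_sphere {N : ℕ} (x : Fin N → Bool) (j : ℕ) :
    ∑ y : Fin N → Bool, (if Impr.wt y = j then Tensor.chi x y else 0) = K N (Impr.wt x) j := by
  unfold K
  rw [← prod_expand, finsetSum_coeff]
  refine Finset.sum_congr rfl (fun y _ => ?_)
  rw [coeff_C_mul, coeff_X_pow]
  by_cases h : Impr.wt y = j
  · simp [h]
  · simp [h, Ne.symm h]

theorem sum_group {N : ℕ} (g : (Fin N → Bool) → ℝ) :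
    ∑ y, g y = ∑ k ∈ range (N + 1), ∑ y, (if Impr.wt y = k then g y else 0) := by
  rw [Finset.sum_comm]
  refine Finset.sum_congr rfl (fun y _ => ?_)
  rw [Finset.sum_ite_eq, if_pos]
  rw [Finset.mem_range]
  have := Impr.wt_le y
  omega

theorem card_sphere {N : ℕ} (k : ℕ) (hk : k ≤ N) :
    ∑ y : Fin N → Bool, (if Impr.wt y = k then (1 : ℝ) else 0) = ((N.choose k : ℕ) : ℝ) := by
  have h := Impr.sum_wt (α := Fin N) (fun i => if i = k then (1 : ℝ) else 0)
  rw [Fintype.card_fin] at h
  have h2 : ∑ i ∈ range (N + 1), ((N.choose i : ℕ) : ℝ) * (if i = k then (1 : ℝ) else 0)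
      = ((N.choose k : ℕ) : ℝ) := by
    simp only [mul_ite, mul_one, mul_zero]
    rw [Finset.sum_ite_eq' (range (N + 1)) k, if_pos (by rw [Finset.mem_range]; omega)]
  rw [h2] at h
  exact h

theorem recip {N i j : ℕ} (hi : i ≤ N) (hj : j ≤ N) :
    ((N.choose i : ℕ) : ℝ) * K N i j = ((N.choose j : ℕ) : ℝ) * K N j i := by
  have key : ∀ i j : ℕ, i ≤ N → ∑ x : Fin N → Bool, (if Impr.wt x = i then
      (∑ y : Fin N → Bool, (if Impr.wt y = j then Tensor.chi x y else 0)) else 0)
      = ((N.choose i : ℕ) : ℝ) * K N i j := by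
    intro i j hi
    rw [← card_sphere i hi, Finset.sum_mul]
    refine Finset.sum_congr rfl (fun x _ => ?_)
    split_ifs with h
    · rw [sum_sphere, h, one_mul]
    · rw [zero_mul]
  rw [← key i j hi, ← key j i hj]
  have h1 : ∀ i j : ℕ, ∑ x : Fin N → Bool, (if Impr.wt x = i then
      (∑ y : Fin N → Bool, (if Impr.wt y = j then Tensor.chi x y else 0)) else 0)
      = ∑ x : Fin N → Bool, ∑ y : Fin N → Bool,
        (if Impr.wt x = i ∧ Impr.wt y = j then Tensor.chi x y else 0) := by
    intro i j
    refine Finset.sum_congr rfl (fun x _ => ?_)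
    by_cases h : Impr.wt x = i
    · simp [h]
    · simp [h]
  rw [h1, h1, Finset.sum_comm]
  refine Finset.sum_congr rfl (fun x _ => Finset.sum_congr rfl (fun y _ => ?_))
  rw [Tensor.chi_comm y x]
  congr 1
  exact propext and_comm

end Cert

/-- A polynomial with nonnegative coefficients, nonnegative MacWilliams transform and
`lop ≥ 0` is the mass polynomial of a radial certificate. -/
theorem cert_of_poly {N : ℕ} {l : ℝ} {P : ℝ[X]} (hdeg : P.natDegree ≤ N) (h0 : 0 < P.coeff 0)
    (h1 : ∀ k, 0 ≤ P.coeff k) (h2 : ∀ j, 0 ≤ (mac N P).coeff j)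
    (h3 : ∀ k, 0 ≤ (lop N l P).coeff k) :
    ∃ h : (Fin N → Bool) → ℝ, Tensor.IsCert l h ∧ Tensor.val h = P.eval 1 / P.coeff 0 := by
  set F : ℤ → ℝ := fun a => P.coeff a.toNat / ((N.choose a.toNat : ℕ) : ℝ) with hF
  have hcp : ∀ k ≤ N, (0 : ℝ) < ((N.choose k : ℕ) : ℝ) := fun k hk => by
    exact_mod_cast Nat.choose_pos hk
  have hz : Impr.wt (fun _ : Fin N => false) = 0 := by
    unfold Impr.wt
    simp
  have hF0 : F ((Impr.wt (fun _ : Fin N => false) : ℕ) : ℤ) = P.coeff 0 := by
    rw [hz]
    simp [hF]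
  have hFk : ∀ k : ℕ, F (k : ℤ) = P.coeff k / ((N.choose k : ℕ) : ℝ) := by
    intro k
    simp [hF]
  refine ⟨fun y => F (Impr.wt y), ⟨?_, ?_, ?_, ?_⟩, ?_⟩
  · intro y
    rw [hFk]
    exact div_nonneg (h1 _) (Nat.cast_nonneg _)
  · intro x
    have hx := Impr.wt_le x
    have e : ((N.choose (Impr.wt x) : ℕ) : ℝ) * ∑ y : Fin N → Bool, F (Impr.wt y) * Tensor.chi x y
        = (mac N P).coeff (Impr.wt x) := by
      unfold mac
      rw [finsetSum_coeff, Cert.sum_group, Finset.mul_sum]
      refine Finset.sum_congr rfl (fun k hk => ?_)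
      rw [Finset.mem_range] at hk
      have hkN : k ≤ N := by omega
      have e1 : ∑ y : Fin N → Bool, (if Impr.wt y = k then F (Impr.wt y) * Tensor.chi x y else 0)
          = F k * Cert.K N (Impr.wt x) k := by
        rw [← Cert.sum_sphere, Finset.mul_sum]
        refine Finset.sum_congr rfl (fun y _ => ?_)
        split_ifs with h
        · rw [h]
        · rw [mul_zero]
      rw [e1, hFk, mul_assoc, coeff_C_mul]
      have e2 := Cert.recip hx hkN
      have e3 : ((N.choose (Impr.wt x) : ℕ) : ℝ)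
            * (P.coeff k / ((N.choose k : ℕ) : ℝ) * Cert.K N (Impr.wt x) k)
          = P.coeff k / ((N.choose k : ℕ) : ℝ)
            * (((N.choose (Impr.wt x) : ℕ) : ℝ) * Cert.K N (Impr.wt x) k) := by ring
      rw [e3, e2]
      have hc := (hcp k hkN).ne'
      unfold Cert.K
      field_simp
    have h4 := h2 (Impr.wt x)
    rw [← e] at h4
    exact (mul_nonneg_iff_of_pos_left (hcp _ hx)).1 h4
  · intro y
    rw [Impr.sum_flp_radial]
    have hkN : Impr.wt y ≤ N := Impr.wt_le y
    generalize Impr.wt y = k at hkN ⊢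
    have hck := (hcp k hkN).ne'
    have e : Impr.adjP N F k - l * F k = (lop N l P).coeff k / ((N.choose k : ℕ) : ℝ) := by
      rw [Cert.lop_coeff, hFk]
      unfold Impr.adjP
      have e1 : ((k : ℤ) : ℝ) * F ((k : ℤ) - 1)
          = (if k = 0 then 0 else ((N : ℝ) - k + 1) * P.coeff (k - 1))
            / ((N.choose k : ℕ) : ℝ) := by
        rcases Nat.eq_zero_or_pos k with h | h
        · rw [h]
          simp
        · obtain ⟨m, rfl⟩ : ∃ m, k = m + 1 := ⟨k - 1, by omega⟩
          rw [if_neg (by omega)]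
          have e2 : ((m + 1 : ℕ) : ℤ) - 1 = (m : ℤ) := by push_cast; ring
          rw [e2, hFk]
          have e3 : ((N.choose (m + 1) : ℕ) : ℝ) * ((m : ℝ) + 1)
              = ((N.choose m : ℕ) : ℝ) * ((N : ℝ) - m) := by
            have := Nat.choose_succ_right_eq N m
            have h5 : m ≤ N := by omega
            have h6 : ((N - m : ℕ) : ℝ) = (N : ℝ) - m := by
              rw [Nat.cast_sub h5]
            rw [← h6]
            exact_mod_cast this
          have h7 := (hcp m (by omega)).ne'
          rw [Nat.add_sub_cancel]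
          push_cast
          rw [mul_div_assoc', div_eq_div_iff h7 hck]
          linear_combination (P.coeff m) * e3
      have e1' : ((N : ℝ) - ((k : ℤ) : ℝ)) * F ((k : ℤ) + 1)
          = ((k : ℝ) + 1) * P.coeff (k + 1) / ((N.choose k : ℕ) : ℝ) := by
        have e2 : (k : ℤ) + 1 = ((k + 1 : ℕ) : ℤ) := by push_cast; ring
        rw [e2, hFk]
        rcases Nat.lt_or_ge k N with h | h
        · have e3 : ((N.choose (k + 1) : ℕ) : ℝ) * ((k : ℝ) + 1)
              = ((N.choose k : ℕ) : ℝ) * ((N : ℝ) - k) := by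
            have := Nat.choose_succ_right_eq N k
            have h6 : ((N - k : ℕ) : ℝ) = (N : ℝ) - k := by
              rw [Nat.cast_sub hkN]
            rw [← h6]
            exact_mod_cast this
          have h7 := (hcp (k + 1) (by omega)).ne'
          push_cast
          rw [mul_div_assoc', div_eq_div_iff h7 hck]
          linear_combination (-(P.coeff (k + 1))) * e3
        · have h8 : k = N := by omega
          have h9 : P.coeff (k + 1) = 0 := by
            apply coeff_eq_zero_of_natDegree_lt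
            omega
          rw [h9]
          simp
      rw [e1, e1']
      ring
    have h4 : 0 ≤ (lop N l P).coeff k / ((N.choose k : ℕ) : ℝ) :=
      div_nonneg (h3 k) (Nat.cast_nonneg _)
    rw [← e] at h4
    linarith
  · simp only [hF0]
    exact h0
  · unfold Tensor.val
    simp only [hF0]
    congr 1
    have h5 := Impr.sum_wt (α := Fin N) (fun b => F b)
    rw [Fintype.card_fin] at h5
    have h6 : ∑ y : Fin N → Bool, F (Impr.wt y)
        = ∑ b ∈ range (N + 1), ((N.choose b : ℕ) : ℝ) * F b := h5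
    rw [h6, eval_eq_sum_range' (n := N + 1) (by omega)]
    refine Finset.sum_congr rfl (fun k hk => ?_)
    rw [Finset.mem_range] at hk
    have hc := (hcp k (by omega)).ne'
    rw [hFk, one_pow, mul_one]
    field_simp

end Pool.Agent.Lib.MP_0430e4_lc.All
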