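import Pool.Agent.Lib.MP_0430e4_lc.Impr.CUBE2

/-!
# Improvement of the first MRRW bound for every `δ`: definitions

The certificate is the classical window certificate tensored with many copies of the block
`(1, 0, 0, -q)` on `{0,1}^2`, made radial, plus an exponentially small positive correction.
Radial functions on `{0,1}^N` are encoded by their mass polynomials.
-/

set_option autoImplicit false

namespace Pool.Agent.Lib.MP_0430e4_lc.All

open Finset Polynomial

/-- Mass polynomial of a function on the cube. -/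
noncomputable def mp {n : ℕ} (h : (Fin n → Bool) → ℝ) : ℝ[X] :=
  ∑ y, C (h y) * X ^ (Impr.wt y)

/-- MacWilliams transform of a mass polynomial of degree at most `N`. -/
noncomputable def mac (N : ℕ) (P : ℝ[X]) : ℝ[X] :=
  ∑ k ∈ range (N + 1), C (P.coeff k) * (1 - X) ^ k * (1 + X) ^ (N - k)

/-- The operator `A - l` of the `N`-cube on mass polynomials. -/
noncomputable def lop (N : ℕ) (l : ℝ) (P : ℝ[X]) : ℝ[X] :=
  (1 - X ^ 2) * derivative P + (C (N : ℝ) * X - C l) * P

/-- `∑ i, C(a,i) C(n-a,D+i) X^i`. -/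
noncomputable def gp (n a D : ℕ) : ℝ[X] :=
  ∑ i ∈ range (a + 1),
    C (((a.choose i : ℕ) : ℝ) * (((n - a).choose (D + i) : ℕ) : ℝ)) * X ^ i

/-- Distance enumerator of the pairs of words of weights `a` and `b`. -/
noncomputable def pp (n a b : ℕ) : ℝ[X] :=
  C ((n.choose (min a b) : ℕ) : ℝ) * X ^ (max a b - min a b)
    * (gp n (min a b) (max a b - min a b)).comp (X ^ 2)

/-- Window profile. -/
noncomputable def wv (n t J : ℕ) (a : ℤ) : ℝ :=
  if (t : ℤ) - (J : ℤ) ≤ a ∧ a ≤ (t : ℤ) then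
    Real.sin (Real.pi / ((J : ℝ) + 2) * ((a : ℝ) - (t : ℝ) + (J : ℝ) + 1))
      / Real.sqrt ((n.choose a.toNat : ℕ) : ℝ)
  else 0

/-- Level of the window. -/
noncomputable def lv (n t J : ℕ) : ℝ :=
  2 * Real.cos (Real.pi / ((J : ℝ) + 2))
    * Real.sqrt (((t : ℝ) - (J : ℝ)) * ((n : ℝ) - (t : ℝ) + (J : ℝ) + 1))

/-- `(A - l) v` for the window. -/
noncomputable def we (n t J : ℕ) (a : ℤ) : ℝ :=
  Impr.adjP n (wv n t J) a - lv n t J * wv n t J a

/-- The window function on the cube. -/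
noncomputable def wf (n t J : ℕ) (y : Fin n → Bool) : ℝ := wv n t J (Impr.wt y)

/-- Mass polynomial of the window certificate. -/
noncomputable def base (n t J : ℕ) : ℝ[X] := mp (Impr.cv (wf n t J) (wf n t J))

/-- The negative block `1 - q X^2`. -/
noncomputable def nb (q : ℝ) : ℝ[X] := 1 - C q * X ^ 2

/-- Mean of the tilted Bernoulli sum. -/
noncomputable def S1 {a : ℕ} (y : Fin a → ℝ) (v : ℝ) : ℝ := ∑ j, v * y j / (1 + v * y j)

/-- Variance of the tilted Bernoulli sum, divided by `v`. -/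
noncomputable def S2 {a : ℕ} (y : Fin a → ℝ) (v : ℝ) : ℝ := ∑ j, y j / (1 + v * y j) ^ 2

/-- `∏ (1 + y_j X)`. -/
noncomputable def rp {a : ℕ} (y : Fin a → ℝ) : ℝ[X] := ∏ j, (1 + C (y j) * X)

end Pool.Agent.Lib.MP_0430e4_lc.All
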