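import Pool.Agent.Lib.MP_0430e4_lc.All.LIM

/-!
# The first MRRW bound is not attained for any `δ` in `(1/10, 1/2)`
-/

set_option autoImplicit false

namespace Pool.Agent.Lib.MP_0430e4_lc.All

open Finset Polynomial Filter Topology

/-- `artanh c + c log (1 - c^2) / 2 < c` -/
theorem FIN_artanh {c : ℝ} (h0 : 0 < c) (h1 : c < 1) :
    (Real.log (1 + c) - Real.log (1 - c)) / 2 + c / 2 * Real.log (1 - c ^ 2) < c := by
  let G : ℝ → ℝ := fun x => (Real.log (1 + x) - Real.log (1 - x)) / 2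
    + x / 2 * Real.log (1 - x ^ 2) - x
  have hd : ∀ x ∈ Set.Ico (0 : ℝ) 1, HasDerivAt G (Real.log (1 - x ^ 2) / 2) x := by
    intro x hx
    have h2 : 0 < 1 + x := by linarith [hx.1]
    have h3 : 0 < 1 - x := by linarith [hx.2]
    have h4 : 0 < 1 - x ^ 2 := by nlinarith [hx.1, hx.2]
    have d1 : HasDerivAt (fun x : ℝ => Real.log (1 + x)) (1 / (1 + x)) x := by
      have := ((hasDerivAt_id x).const_add 1).log h2.ne'
      simpa using this
    have d2 : HasDerivAt (fun x : ℝ => Real.log (1 - x)) (-1 / (1 - x)) x := by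
      have := ((hasDerivAt_id x).const_sub 1).log h3.ne'
      simpa using this
    have d3 : HasDerivAt (fun x : ℝ => Real.log (1 - x ^ 2)) (-(2 * x) / (1 - x ^ 2)) x := by
      have := ((hasDerivAt_pow 2 x).const_sub 1).log h4.ne'
      simpa using this
    have d4 : HasDerivAt (fun x : ℝ => x / 2) (1 / 2) x := (hasDerivAt_id x).div_const 2
    have := (((d1.sub d2).div_const 2).add (d4.mul d3)).sub (hasDerivAt_id x)
    refine this.congr_deriv ?_
    field_simp
    ring
  have hcont : ContinuousOn G (Set.Icc 0 c) := fun x hx =>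
    (hd x ⟨hx.1, lt_of_le_of_lt hx.2 h1⟩).continuousAt.continuousWithinAt
  have hanti : StrictAntiOn G (Set.Icc 0 c) := by
    apply strictAntiOn_of_deriv_neg (convex_Icc 0 c) hcont
    intro x hx
    rw [interior_Icc] at hx
    rw [(hd x ⟨hx.1.le, hx.2.trans h1⟩).deriv]
    have : Real.log (1 - x ^ 2) < 0 := by
      apply Real.log_neg
      · nlinarith [hx.1, hx.2]
      · nlinarith [hx.1, hx.2]
    linarith
  have h := hanti (Set.left_mem_Icc.2 h0.le) (Set.right_mem_Icc.2 h0.le) h0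
  simp only [G] at h
  norm_num at h
  linarith

theorem ell_lt {δ : ℝ} (h1 : 1 / 10 < δ) (h2 : δ < 1 / 2) :
    Tensor.ell δ < Real.binEntropy (1 / 2 - Real.sqrt (δ * (1 - δ))) / Real.log 2 := by
  set s : ℝ := 1 - 2 * δ with hs
  have hs0 : 0 < s := by rw [hs]; linarith
  have hs1 : s < 4 / 5 := by rw [hs]; linarith
  set c : ℝ := Real.sqrt (1 - s ^ 2) with hc
  have hu0 : 0 < 1 - s ^ 2 := by nlinarith
  have hc0 : 0 < c := Real.sqrt_pos.2 hu0
  have hc2 : c ^ 2 = 1 - s ^ 2 := Real.sq_sqrt hu0.le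
  have hc1 : c < 1 := by nlinarith
  have hl2 : 0 < Real.log 2 := Real.log_pos (by norm_num)
  have hτ0 : 1 / 2 - Real.sqrt (δ * (1 - δ)) = 1 / 2 - c / 2 := by
    have : δ * (1 - δ) = (1 - s ^ 2) / 2 ^ 2 := by rw [hs]; ring
    rw [this, Real.sqrt_div hu0.le, Real.sqrt_sq (by norm_num : (0:ℝ) ≤ 2)]
  rw [hτ0]
  -- the function of `β`
  let u : ℝ → ℝ := fun b => 1 - s ^ 2 * (1 + 2 * b) ^ 2
  let T : ℝ → ℝ := fun b => 1 / 2 - Real.sqrt (u b) / 2
  let F : ℝ → ℝ := fun b => (Real.binEntropy (T b) / Real.log 2 - b) / (1 + 2 * b)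
  have hu0' : u 0 = 1 - s ^ 2 := by simp [u]
  have hT0 : T 0 = 1 / 2 - c / 2 := by simp only [T]; rw [hu0']
  have hF0 : F 0 = Real.binEntropy (1 / 2 - c / 2) / Real.log 2 := by
    simp only [F]; rw [hT0]; simp
  have du : HasDerivAt u (-(4 * s ^ 2)) 0 := by
    have e1 : HasDerivAt (fun b : ℝ => 1 + 2 * b) 2 0 := by
      simpa using ((hasDerivAt_id (0 : ℝ)).const_mul 2).const_add 1
    have := ((e1.pow 2).const_mul (s ^ 2)).const_sub 1
    refine this.congr_deriv ?_
    simp
    ring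
  have dT : HasDerivAt T (s ^ 2 / c) 0 := by
    have e1 := du.sqrt (by rw [hu0']; exact hu0.ne')
    rw [hu0', ← hc] at e1
    have := (e1.div_const 2).const_sub (1 / 2)
    refine this.congr_deriv ?_
    field_simp
    ring
  have dH : HasDerivAt (fun b => Real.binEntropy (T b))
      ((Real.log (1 - T 0) - Real.log (T 0)) * (s ^ 2 / c)) 0 := by
    have e1 := Real.hasDerivAt_binEntropy (p := T 0) (by rw [hT0]; linarith)
      (by rw [hT0]; linarith)
    exact e1.comp 0 dT
  have dF : HasDerivAt F (((Real.log (1 - T 0) - Real.log (T 0)) * (s ^ 2 / c) / Real.log 2 - 1)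
      - 2 * (Real.binEntropy (T 0) / Real.log 2)) 0 := by
    have e1 : HasDerivAt (fun b : ℝ => 1 + 2 * b) 2 0 := by
      simpa using ((hasDerivAt_id (0 : ℝ)).const_mul 2).const_add 1
    have := ((dH.div_const (Real.log 2)).sub (hasDerivAt_id 0)).div e1 (by norm_num)
    refine this.congr_deriv ?_
    simp
    ring
  have hneg : ((Real.log (1 - T 0) - Real.log (T 0)) * (s ^ 2 / c) / Real.log 2 - 1)
      - 2 * (Real.binEntropy (T 0) / Real.log 2) < 0 := by
    rw [hT0]
    have l1 : Real.log (1 - (1 / 2 - c / 2)) = Real.log (1 + c) - Real.log 2 := by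
      rw [← Real.log_div (by linarith) (by norm_num)]
      congr 1; ring
    have l2 : Real.log (1 / 2 - c / 2) = Real.log (1 - c) - Real.log 2 := by
      rw [← Real.log_div (by linarith) (by norm_num)]
      congr 1; ring
    have l3 : Real.log (1 - c ^ 2) = Real.log (1 + c) + Real.log (1 - c) := by
      rw [← Real.log_mul (by linarith) (by linarith)]
      congr 1; ring
    have hH : Real.binEntropy (1 / 2 - c / 2) = Real.log 2
        - (1 / 2) * (Real.log (1 + c) + Real.log (1 - c))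
        - c * ((Real.log (1 + c) - Real.log (1 - c)) / 2) := by
      rw [Real.binEntropy, Real.log_inv, Real.log_inv, l1, l2]
      ring
    have hA := FIN_artanh hc0 hc1
    rw [l3] at hA
    rw [l1, l2, hH]
    set a : ℝ := Real.log (1 + c) with ha
    set b : ℝ := Real.log (1 - c) with hb
    have hA' : ((a - b) / 2) / c + (a + b) / 2 < 1 := by
      rw [div_add' _ _ _ hc0.ne', div_lt_one hc0]
      linarith
    have hs2 : s ^ 2 = 1 - c ^ 2 := by linarith
    have hlog : 0.6931471803 < Real.log 2 := Real.log_two_gt_d9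
    have key : (a - Real.log 2 - (b - Real.log 2)) * (s ^ 2 / c) - Real.log 2
        - 2 * (Real.log 2 - 1 / 2 * (a + b) - c * ((a - b) / 2)) < 0 := by
      have e : (a - Real.log 2 - (b - Real.log 2)) * (s ^ 2 / c) - Real.log 2
        - 2 * (Real.log 2 - 1 / 2 * (a + b) - c * ((a - b) / 2))
        = 2 * (((a - b) / 2) / c + (a + b) / 2) - 3 * Real.log 2 := by
        rw [hs2]
        field_simp
        ring
      rw [e]
      linarith
    have e2 : (a - Real.log 2 - (b - Real.log 2)) * (s ^ 2 / c) / Real.log 2 - 1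
        - 2 * ((Real.log 2 - 1 / 2 * (a + b) - c * ((a - b) / 2)) / Real.log 2)
        = ((a - Real.log 2 - (b - Real.log 2)) * (s ^ 2 / c) - Real.log 2
        - 2 * (Real.log 2 - 1 / 2 * (a + b) - c * ((a - b) / 2))) / Real.log 2 := by
      field_simp
    rw [e2]
    exact div_neg_of_neg_of_pos key hl2
  -- some small `β` with `F β < F 0`
  have hsl := (hasDerivAt_iff_tendsto_slope.1 dF)
  have hev : ∀ᶠ b in 𝓝[≠] (0 : ℝ), slope F 0 b < 0 := hsl.eventually (gt_mem_nhds hneg)
  have hev' : ∀ᶠ b in 𝓝[>] (0 : ℝ), slope F 0 b < 0 :=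
    hev.filter_mono (nhdsWithin_mono 0 (fun x hx => ne_of_gt hx))
  have e1 : ∀ᶠ b in 𝓝[>] (0 : ℝ), b < 1 / 1000 :=
    nhdsWithin_le_nhds (gt_mem_nhds (by norm_num))
  have e2 : ∀ᶠ b in 𝓝[>] (0 : ℝ), b < (4 / 5 - s) / 2 :=
    nhdsWithin_le_nhds (gt_mem_nhds (by linarith))
  have e3 : ∀ᶠ b in 𝓝[>] (0 : ℝ), b < (s / 2) ^ 4 / 2500 :=
    nhdsWithin_le_nhds (gt_mem_nhds (by positivity))
  have e4 : ∀ᶠ b in 𝓝[>] (0 : ℝ), 0 < b := self_mem_nhdsWithin
  obtain ⟨b, hb1, hb2, hb3, hb4, hb5⟩ := (hev'.and (e1.and (e2.and (e3.and e4)))).exists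
  have hFb : F b < F 0 := by
    rw [slope_def_field, sub_zero] at hb1
    have := (div_neg_iff.1 hb1)
    rcases this with h | h
    · linarith [h.2]
    · linarith [h.1]
  rw [← hF0]
  refine lt_of_le_of_lt ?_ hFb
  -- parameters
  have hsb : s * (1 + 2 * b) < 4 / 5 := by nlinarith
  have hsb0 : 0 < s * (1 + 2 * b) := by positivity
  have hub : 9 / 25 < u b := by
    simp only [u]
    nlinarith
  have hub1 : u b < 1 := by
    simp only [u]
    nlinarith
  have hsq : 3 / 5 < Real.sqrt (u b) := by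
    rw [show (3 / 5 : ℝ) = Real.sqrt (9 / 25) by
      rw [show (9 / 25 : ℝ) = (3 / 5) ^ 2 by norm_num, Real.sqrt_sq (by norm_num)]]
    exact Real.sqrt_lt_sqrt (by norm_num) hub
  have hsq1 : Real.sqrt (u b) < 1 := by
    rw [show (1 : ℝ) = Real.sqrt 1 by simp]
    exact Real.sqrt_lt_sqrt (by linarith) hub1
  have hT1 : 0 < T b := by simp only [T]; linarith
  have hT2 : T b ≤ 1 / 5 := by simp only [T]; linarith
  have hw : T b * (1 - T b) = (s / 2 * (1 + 2 * b)) ^ 2 := by
    have : Real.sqrt (u b) ^ 2 = u b := Real.sq_sqrt (by linarith)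
    have e : T b * (1 - T b) = (1 - Real.sqrt (u b) ^ 2) / 4 := by simp only [T]; ring
    rw [e, this]
    simp only [u]
    ring
  have hcond : 5000 * b * (1 / 2) ≤ (T b * (1 - T b)) ^ 2 := by
    rw [hw]
    have h3 : (s / 2) ^ 4 ≤ ((s / 2 * (1 + 2 * b)) ^ 2) ^ 2 := by
      have h4 : s / 2 ≤ s / 2 * (1 + 2 * b) := by nlinarith
      calc (s / 2) ^ 4 ≤ (s / 2 * (1 + 2 * b)) ^ 4 := by
            apply pow_le_pow_left₀ (by positivity) h4
        _ = _ := by ring
    have h5 : b * 2500 < (s / 2) ^ 4 := by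
      rw [lt_div_iff₀ (by norm_num)] at hb4
      exact hb4
    linarith
  have hmain := ell_le_param (q := 1 / 2) (β := b) hT1 hT2 (by norm_num) le_rfl hb5.le hb2.le hcond
  have hδ : 1 / 2 - Real.sqrt (T b * (1 - T b)) / (1 + 2 * b) = δ := by
    rw [hw, Real.sqrt_sq (by positivity)]
    have : (1 + 2 * b) ≠ 0 := by positivity
    field_simp
    rw [hs]; ring
  rw [hδ] at hmain
  refine hmain.trans (le_of_eq ?_)
  have : Real.logb 2 (1 - 1 / 2) = -1 := by
    rw [show (1 - 1 / 2 : ℝ) = 2⁻¹ by norm_num, Real.logb_inv, Real.logb_self_eq_one (by norm_num)]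
  rw [this]
  simp only [F]
  ring

end Pool.Agent.Lib.MP_0430e4_lc.All
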