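import Pool.Agent.Lib.MP_0430e4_lc.All.POS2

/-!
# Positivity of the coefficients of `gp n a D * (1 - q X)^M` up to the saddle
-/

set_option autoImplicit false

namespace Pool.Agent.Lib.MP_0430e4_lc.All

open Finset Polynomial Filter Topology

theorem gp_coeff (n a D j : ℕ) :
    (gp n a D).coeff j = ((a.choose j : ℕ) : ℝ) * (((n - a).choose (D + j) : ℕ) : ℝ) := by
  unfold gp
  rw [Polynomial.finsetSum_coeff]
  simp only [Polynomial.coeff_C_mul, Polynomial.coeff_X_pow, mul_ite, mul_one, mul_zero]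
  rw [Finset.sum_ite_eq]
  split_ifs with h
  · rfl
  · have : a.choose j = 0 := Nat.choose_eq_zero_of_lt (by
      rw [Finset.mem_range] at h
      omega)
    rw [this]
    simp

theorem blk_coeff (P : ℝ[X]) (q : ℝ) (M i : ℕ) :
    (P * (1 - C q * X) ^ M).coeff i = ∑ s ∈ range (M + 1),
      (-q) ^ s * ((M.choose s : ℕ) : ℝ) * (if s ≤ i then P.coeff (i - s) else 0) := by
  have h1 : (1 - C q * X : ℝ[X]) = C (-q) * X + 1 := by
    rw [C_neg]
    ring
  rw [h1, add_pow, Finset.mul_sum, Polynomial.finsetSum_coeff]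
  refine Finset.sum_congr rfl fun s _ => ?_
  have h2 : P * ((C (-q) * X) ^ s * 1 ^ (M - s) * ((M.choose s : ℕ) : ℝ[X]))
      = C ((-q) ^ s * ((M.choose s : ℕ) : ℝ)) * (P * X ^ s) := by
    rw [one_pow, mul_one, mul_pow, ← C_pow, C_mul]
    simp only [map_natCast]
    ring
  rw [h2, Polynomial.coeff_C_mul, Polynomial.coeff_mul_X_pow']

theorem gp_blk_coeff {n a D i : ℕ} (q : ℝ) (M : ℕ) (hi : i ≤ a) (hn : a + D + i ≤ n) :
    (gp n a D * (1 - C q * X) ^ M).coeff i
      = ((a.factorial : ℕ) : ℝ) * (((n - a).factorial : ℕ) : ℝ)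
        * TT q M i (i + D) (a - i) (n - a - D - i) := by
  rw [blk_coeff]
  unfold TT
  rw [Finset.mul_sum]
  refine Finset.sum_congr rfl fun s _ => ?_
  unfold tm
  by_cases h : s ≤ i
  · rw [if_pos h, if_pos ⟨h, by omega⟩, gp_coeff,
      Nat.cast_choose ℝ (by omega : i - s ≤ a), Nat.cast_choose ℝ (by omega : D + (i - s) ≤ n - a)]
    have e1 : a - (i - s) = a - i + s := by omega
    have e2 : n - a - (D + (i - s)) = n - a - D - i + s := by omega
    have e3 : D + (i - s) = i + D - s := by omega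
    rw [e1, e2, e3]
    have f1 : (((i - s).factorial : ℕ) : ℝ) ≠ 0 := by positivity
    have f2 : (((i + D - s).factorial : ℕ) : ℝ) ≠ 0 := by positivity
    have f3 : (((a - i + s).factorial : ℕ) : ℝ) ≠ 0 := by positivity
    have f4 : (((n - a - D - i + s).factorial : ℕ) : ℝ) ≠ 0 := by positivity
    field_simp
  · rw [if_neg h, if_neg (fun h2 => h h2.1)]
    ring

theorem TT_zero_nonneg (q : ℝ) (p p' L N : ℕ) : 0 ≤ TT q 0 p p' L N := by
  unfold TT tm
  simp only [zero_add, Finset.range_one, Finset.sum_singleton, pow_zero, Nat.choose_zero_right,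
    Nat.cast_one, mul_one, one_mul]
  split_ifs
  · positivity
  · exact le_rfl

/-- Positivity of the coefficients up to the saddle. -/
theorem gpos {τ q β : ℝ} (hτ0 : 0 < τ) (hτ : τ ≤ 1 / 5) (hq0 : 0 < q) (hq : q ≤ 1 / 2)
    (hβ : 0 ≤ β) (hc : 5000 * β * q ≤ (τ * (1 - τ)) ^ 2) (K : ℕ) :
    ∀ᶠ n : ℕ in atTop, ∀ a D M : ℕ, |(a : ℝ) - τ * n| ≤ K → D ≤ K → (M : ℝ) ≤ β * n →
      ∀ i : ℕ, (i : ℝ) ≤ (τ * (1 - τ) + (τ * (1 - τ)) ^ 2 / 4) * n →
        0 ≤ (gp n a D * (1 - C q * X) ^ M).coeff i := by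
  have hev : ∀ᶠ n : ℕ in atTop, 400 * ((K : ℝ) + 1) / τ ^ 2 ≤ n :=
    tendsto_natCast_atTop_atTop.eventually_ge_atTop _
  filter_upwards [hev] with n hn
  intro a D M ha hD hM i hi
  have hτ2 : 0 < τ ^ 2 := by positivity
  rw [div_le_iff₀ hτ2] at hn
  set x : ℝ := (n : ℝ) with hx
  have hx0 : 0 ≤ x := Nat.cast_nonneg n
  set w : ℝ := τ * (1 - τ) with hw
  have hw0 : 0 < w := by
    rw [hw]
    apply mul_pos hτ0
    linarith
  have hw1 : w ≤ 4 / 25 := by
    rw [hw]
    nlinarith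
  have hwτ : w ≤ τ := by
    rw [hw]
    nlinarith
  have hw2 : w ^ 2 ≤ τ ^ 2 := pow_le_pow_left₀ hw0.le hwτ 2
  have hw3 : w ^ 2 ≤ 4 / 25 * w := by nlinarith
  obtain ⟨ha1, ha2⟩ := abs_le.1 ha
  have hK0 : (0 : ℝ) ≤ K := Nat.cast_nonneg K
  have hDr : (D : ℝ) ≤ K := by exact_mod_cast hD
  have hK : (K : ℝ) + 1 ≤ τ ^ 2 * x / 400 := by linarith
  have hi0 : (0 : ℝ) ≤ i := Nat.cast_nonneg i
  have hD0 : (0 : ℝ) ≤ D := Nat.cast_nonneg D
  have hτw : τ = w + τ ^ 2 := by
    rw [hw]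
    ring
  have hu : (1 - τ) ^ 2 = 1 - τ - w := by
    rw [hw]
    ring
  have hu16 : 16 * τ ^ 2 ≤ (1 - τ) ^ 2 := by nlinarith
  have hwu : w ^ 2 = τ ^ 2 * (1 - τ) ^ 2 := by
    rw [hw]
    ring
  have hwx : 0 ≤ w * x := by positivity
  have hw2x : 0 ≤ w ^ 2 * x := by positivity
  have hτ2x : 0 ≤ τ ^ 2 * x := by positivity
  have hux : 0 ≤ (1 - τ) ^ 2 * x := by positivity
  have e1 : w ^ 2 * x ≤ τ ^ 2 * x := mul_le_mul_of_nonneg_right hw2 hx0
  have e2 : w ^ 2 * x ≤ 4 / 25 * w * x := by nlinarith [mul_le_mul_of_nonneg_right hw3 hx0]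
  have e3 : τ * x = w * x + τ ^ 2 * x := by
    rw [← add_mul, ← hτw]
  have e4 : (1 - τ) ^ 2 * x = x - τ * x - w * x := by
    rw [hu]
    ring
  have e5 : 16 * (τ ^ 2 * x) ≤ (1 - τ) ^ 2 * x := by
    have := mul_le_mul_of_nonneg_right hu16 hx0
    linarith
  have e6 : w ^ 2 * x ≤ 1 / 25 * ((1 - τ) ^ 2 * x) := by
    have h1 : τ ^ 2 ≤ 1 / 25 := by nlinarith
    have h2 : w ^ 2 ≤ 1 / 25 * (1 - τ) ^ 2 := by
      rw [hwu]
      exact mul_le_mul_of_nonneg_right h1 (sq_nonneg _)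
    have := mul_le_mul_of_nonneg_right h2 hx0
    linarith
  have hi' : (i : ℝ) ≤ w * x + w ^ 2 * x / 4 := by
    have : (w + w ^ 2 / 4) * x = w * x + w ^ 2 * x / 4 := by ring
    linarith
  -- the two big quantities
  have hA : 299 / 400 * (τ ^ 2 * x) ≤ (a : ℝ) - i + 1 := by linarith
  have hB : 197 / 200 * ((1 - τ) ^ 2 * x) ≤ x - a - D - i + 1 := by linarith
  have hxτ : 0 < τ ^ 2 * x := by linarith
  have hxpos : 0 < x := by
    rcases hx0.eq_or_lt with h | h
    · rw [← h] at hxτ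
      simp at hxτ
    · exact h
  have hia : i ≤ a := by
    have h1 : (i : ℝ) < a + 1 := by linarith
    have h2 : i < a + 1 := by exact_mod_cast h1
    omega
  have hin : a + D + i ≤ n := by
    have h0 : 0 < (1 - τ) ^ 2 * x := by
      have : 0 < 1 - τ := by linarith
      positivity
    have h1 : (a : ℝ) + D + i < (n : ℝ) + 1 := by
      rw [← hx]
      linarith
    have h2 : a + D + i < n + 1 := by exact_mod_cast h1
    omega
  rw [gp_blk_coeff q M hia hin]
  have hTT : 0 ≤ TT q M i (i + D) (a - i) (n - a - D - i) := by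
    rcases Nat.eq_zero_or_pos M with h0 | hM1
    · rw [h0]
      exact TT_zero_nonneg _ _ _ _ _
    · have cL : (((a - i : ℕ) : ℝ)) + 1 = (a : ℝ) - i + 1 := by
        rw [Nat.cast_sub hia]
      have cN : (((n - a - D - i : ℕ) : ℝ)) + 1 = x - a - D - i + 1 := by
        rw [Nat.cast_sub (by omega), Nat.cast_sub (by omega), Nat.cast_sub (by omega)]
      have hAB : 18 / 25 * (w ^ 2 * x ^ 2)
          ≤ ((((a - i : ℕ) : ℝ)) + 1) * ((((n - a - D - i : ℕ) : ℝ)) + 1) := by
        rw [cL, cN]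
        have h1 : 299 / 400 * (τ ^ 2 * x) * (197 / 200 * ((1 - τ) ^ 2 * x))
            ≤ ((a : ℝ) - i + 1) * (x - a - D - i + 1) :=
          mul_le_mul hA hB (by positivity) (by linarith)
        have h2 : 299 / 400 * (τ ^ 2 * x) * (197 / 200 * ((1 - τ) ^ 2 * x))
            = 58903 / 80000 * (w ^ 2 * x ^ 2) := by
          rw [hwu]
          ring
        have h3 : 0 ≤ w ^ 2 * x ^ 2 := by positivity
        linarith
      have hAB2 : 147 / 200 * (w ^ 2 * x ^ 2)
          ≤ ((((a - i : ℕ) : ℝ)) + 1) * ((((n - a - D - i : ℕ) : ℝ)) + 1) := by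
        rw [cL, cN]
        have h1 : 299 / 400 * (τ ^ 2 * x) * (197 / 200 * ((1 - τ) ^ 2 * x))
            ≤ ((a : ℝ) - i + 1) * (x - a - D - i + 1) :=
          mul_le_mul hA hB (by positivity) (by linarith)
        have h2 : 299 / 400 * (τ ^ 2 * x) * (197 / 200 * ((1 - τ) ^ 2 * x))
            = 58903 / 80000 * (w ^ 2 * x ^ 2) := by
          rw [hwu]
          ring
        have h3 : 0 ≤ w ^ 2 * x ^ 2 := by positivity
        linarith
      have hτw4 : τ ^ 2 ≤ w / 4 := by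
        rw [hw]
        nlinarith
      have e7 : τ ^ 2 * x ≤ w * x / 4 := by
        have := mul_le_mul_of_nonneg_right hτw4 hx0
        linarith
      have hp : (i : ℝ) ≤ 261 / 250 * (w * x) := by linarith
      have hp' : (i : ℝ) + D ≤ 261 / 250 * (w * x) := by linarith
      have hqM : q * (M : ℝ) ≤ w ^ 2 * x / 5000 := by
        have h1 : q * (M : ℝ) ≤ q * (β * x) := mul_le_mul_of_nonneg_left hM hq0.le
        have h2 : q * (β * x) = (5000 * β * q) * x / 5000 := by ring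
        have h3 := mul_le_mul_of_nonneg_right hc hx0
        linarith
      have hqM0 : 0 ≤ q * (M : ℝ) := by positivity
      have hwx2 : 0 ≤ w ^ 2 * x ^ 2 := by positivity
      have key : ∀ r : ℝ, 0 ≤ r → r ≤ 261 / 250 * (w * x) →
          1000 * (q * (M : ℝ)) * r ≤ 18 / 25 * (w ^ 2 * x ^ 2) := by
        intro r hr0 hr
        have h1 : q * (M : ℝ) * r ≤ w ^ 2 * x / 5000 * (261 / 250 * (w * x)) :=
          mul_le_mul hqM hr hr0 (by positivity)
        have h2 : w ^ 2 * x / 5000 * (261 / 250 * (w * x))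
            = 261 / 1250000 * (w * (w ^ 2 * x ^ 2)) := by ring
        have h3 : w * (w ^ 2 * x ^ 2) ≤ 4 / 25 * (w ^ 2 * x ^ 2) :=
          mul_le_mul_of_nonneg_right hw1 hwx2
        have h4 : 1000 * (q * (M : ℝ)) * r = 1000 * (q * (M : ℝ) * r) := by ring
        rw [h4]
        linarith
      refine (pos_main hq0 hq hM1 i (i + D) (a - i) (n - a - D - i) ?_ ?_ ?_ ?_ ?_).1.le
      · push_cast
        have h1 : (i : ℝ) * ((i : ℝ) + D) ≤ 261 / 250 * (w * x) * (261 / 250 * (w * x)) :=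
          mul_le_mul hp hp' (by positivity) (by positivity)
        have h2 : 261 / 250 * (w * x) * (261 / 250 * (w * x))
            = 68121 / 62500 * (w ^ 2 * x ^ 2) := by ring
        linarith
      · exact (key _ hi0 hp).trans hAB
      · push_cast
        exact (key _ (by positivity) hp').trans hAB
      · rw [cL]
        linarith
      · rw [cN]
        linarith
  positivity

end Pool.Agent.Lib.MP_0430e4_lc.All
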