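import Pool.Agent.Lib.MP_0430e4_lc.All.GPOS2

/-!
# The tail of the coefficients of `gp n a D * (1 - q X)^M` beyond the saddle
-/

set_option autoImplicit false

namespace Pool.Agent.Lib.MP_0430e4_lc.All

open Finset Polynomial Filter Topology

theorem gp_coeff_nonneg (n a D j : ℕ) : 0 ≤ (gp n a D).coeff j := by
  rw [gp_coeff]
  positivity

theorem gp_coeff_step (n a D j : ℕ) :
    (gp n a D).coeff (j + 1) * (((j : ℝ) + 1) * ((D : ℝ) + j + 1))
      = (gp n a D).coeff j * (((a - j : ℕ) : ℝ) * ((n - a - (D + j) : ℕ) : ℝ)) := by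
  rw [gp_coeff, gp_coeff]
  have h1 := Nat.choose_succ_right_eq a j
  have h2 := Nat.choose_succ_right_eq (n - a) (D + j)
  have h1' : ((a.choose (j + 1) : ℕ) : ℝ) * ((j : ℝ) + 1)
      = ((a.choose j : ℕ) : ℝ) * ((a - j : ℕ) : ℝ) := by exact_mod_cast h1
  have h2' : (((n - a).choose (D + j + 1) : ℕ) : ℝ) * ((D : ℝ) + j + 1)
      = (((n - a).choose (D + j) : ℕ) : ℝ) * ((n - a - (D + j) : ℕ) : ℝ) := by exact_mod_cast h2
  have e : D + (j + 1) = D + j + 1 := by ring
  rw [e]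
  calc ((a.choose (j + 1) : ℕ) : ℝ) * (((n - a).choose (D + j + 1) : ℕ) : ℝ)
        * (((j : ℝ) + 1) * ((D : ℝ) + j + 1))
      = (((a.choose (j + 1) : ℕ) : ℝ) * ((j : ℝ) + 1))
        * ((((n - a).choose (D + j + 1) : ℕ) : ℝ) * ((D : ℝ) + j + 1)) := by ring
    _ = _ := by
      rw [h1', h2']
      ring

theorem gp_coeff_le_eval (n a D j : ℕ) : (gp n a D).coeff j ≤ (gp n a D).eval 1 := by
  rw [Polynomial.eval_eq_sum_range]
  simp only [one_pow, mul_one]
  by_cases h : j ∈ range ((gp n a D).natDegree + 1)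
  · exact Finset.single_le_sum (f := fun k => (gp n a D).coeff k)
      (fun k _ => gp_coeff_nonneg _ _ _ _) h
  · have : (gp n a D).coeff j = 0 := Polynomial.coeff_eq_zero_of_natDegree_lt (by
      rw [Finset.mem_range] at h
      omega)
    rw [this]
    exact Finset.sum_nonneg fun k _ => gp_coeff_nonneg _ _ _ _

/-- Geometric decay beyond `j0`. -/
theorem gp_geom {n a D j0 : ℕ} {r : ℝ} (hr0 : 0 < r) (hr1 : r ≤ 1)
    (h : ∀ j, j0 ≤ j → ((a - j : ℕ) : ℝ) * ((n - a - (D + j) : ℕ) : ℝ)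
      ≤ r * (((j : ℝ) + 1) * ((D : ℝ) + j + 1))) (j : ℕ) :
    (gp n a D).coeff j * r ^ j0 ≤ (gp n a D).eval 1 * r ^ j := by
  have h1 : ∀ m : ℕ, (gp n a D).coeff (j0 + m) ≤ (gp n a D).eval 1 * r ^ m := by
    intro m
    induction m with
    | zero =>
      rw [pow_zero, mul_one]
      exact gp_coeff_le_eval _ _ _ _
    | succ m ih =>
      have h2 := gp_coeff_step n a D (j0 + m)
      have h3 := h (j0 + m) (by omega)
      have h4 := gp_coeff_nonneg n a D (j0 + m)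
      set Z : ℝ := (((j0 + m : ℕ) : ℝ) + 1) * ((D : ℝ) + ((j0 + m : ℕ) : ℝ) + 1) with hZ
      have hZ0 : 0 < Z := by positivity
      have h5 : (gp n a D).coeff (j0 + m + 1) * Z ≤ (gp n a D).eval 1 * r ^ (m + 1) * Z := by
        rw [h2]
        calc (gp n a D).coeff (j0 + m) * (((a - (j0 + m) : ℕ) : ℝ)
              * ((n - a - (D + (j0 + m)) : ℕ) : ℝ))
            ≤ (gp n a D).coeff (j0 + m) * (r * Z) := mul_le_mul_of_nonneg_left h3 h4
          _ ≤ (gp n a D).eval 1 * r ^ m * (r * Z) :=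
            mul_le_mul_of_nonneg_right ih (by positivity)
          _ = _ := by ring
      exact le_of_mul_le_mul_right h5 hZ0
  have h0 : 0 ≤ (gp n a D).eval 1 :=
    (gp_coeff_nonneg n a D 0).trans (gp_coeff_le_eval n a D 0)
  rcases le_total j0 j with hj | hj
  · obtain ⟨m, rfl⟩ := Nat.exists_eq_add_of_le hj
    calc (gp n a D).coeff (j0 + m) * r ^ j0 ≤ (gp n a D).eval 1 * r ^ m * r ^ j0 :=
          mul_le_mul_of_nonneg_right (h1 m) (by positivity)
      _ = _ := by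
        rw [pow_add]
        ring
  · have h2 : r ^ j0 ≤ r ^ j := pow_le_pow_of_le_one hr0.le hr1 hj
    exact mul_le_mul (gp_coeff_le_eval _ _ _ _) h2 (by positivity) h0

theorem blk_tail {n a D j0 : ℕ} {r q : ℝ} (hr0 : 0 < r) (hr1 : r ≤ 1) (hq0 : 0 ≤ q)
    (h : ∀ j, j0 ≤ j → ((a - j : ℕ) : ℝ) * ((n - a - (D + j) : ℕ) : ℝ)
      ≤ r * (((j : ℝ) + 1) * ((D : ℝ) + j + 1))) (M i : ℕ) :
    |(gp n a D * (1 - C q * X) ^ M).coeff i| * r ^ j0
      ≤ (gp n a D).eval 1 * r ^ i * (1 + q / r) ^ M := by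
  have h0 : 0 ≤ (gp n a D).eval 1 :=
    (gp_coeff_nonneg n a D 0).trans (gp_coeff_le_eval n a D 0)
  rw [blk_coeff]
  calc |∑ s ∈ range (M + 1),
        (-q) ^ s * ((M.choose s : ℕ) : ℝ) * (if s ≤ i then (gp n a D).coeff (i - s) else 0)|
        * r ^ j0
      ≤ (∑ s ∈ range (M + 1), |(-q) ^ s * ((M.choose s : ℕ) : ℝ)
        * (if s ≤ i then (gp n a D).coeff (i - s) else 0)|) * r ^ j0 :=
        mul_le_mul_of_nonneg_right (Finset.abs_sum_le_sum_abs _ _) (by positivity)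
    _ ≤ ∑ s ∈ range (M + 1), (gp n a D).eval 1 * r ^ i
          * ((q / r) ^ s * 1 ^ (M - s) * ((M.choose s : ℕ) : ℝ)) := by
        rw [Finset.sum_mul]
        apply Finset.sum_le_sum
        intro s _
        rw [abs_mul, abs_mul, abs_pow, abs_neg, abs_of_nonneg hq0,
          abs_of_nonneg (Nat.cast_nonneg (M.choose s))]
        split_ifs with hs
        · rw [abs_of_nonneg (gp_coeff_nonneg _ _ _ _)]
          have h1 := gp_geom hr0 hr1 h (i - s)
          have h2 : r ^ i = r ^ (i - s) * r ^ s := by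
            rw [← pow_add]
            congr 1
            omega
          have h3 : (gp n a D).eval 1 * r ^ i
              * ((q / r) ^ s * 1 ^ (M - s) * ((M.choose s : ℕ) : ℝ))
              = q ^ s * ((M.choose s : ℕ) : ℝ) * ((gp n a D).eval 1 * r ^ (i - s)) := by
            rw [h2, div_pow, one_pow]
            field_simp
          rw [h3, mul_assoc]
          exact mul_le_mul_of_nonneg_left h1 (by positivity)
        · simp only [abs_zero, mul_zero, zero_mul]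
          positivity
    _ = (gp n a D).eval 1 * r ^ i * (1 + q / r) ^ M := by
        rw [← Finset.mul_sum, ← add_pow, add_comm (q / r) 1]

theorem one_sub_ge {q : ℝ} (hq0 : 0 ≤ q) (hq : q ≤ 1 / 2) : Real.exp (-(2 * q)) ≤ 1 - q := by
  rw [Real.exp_neg]
  have h1 : 1 + 2 * q ≤ Real.exp (2 * q) := by
    have := Real.add_one_le_exp (2 * q)
    linarith
  have h2 : 0 < 1 + 2 * q := by linarith
  rw [inv_le_comm₀ (Real.exp_pos _) (by linarith)]
  refine le_trans ?_ h1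
  rw [inv_le_comm₀ (by linarith) h2, inv_eq_one_div, div_le_iff₀ h2]
  nlinarith

/-- The tail bound. -/
theorem gtail {τ q β : ℝ} (hτ0 : 0 < τ) (hτ : τ ≤ 1 / 5) (hq0 : 0 < q) (hq : q ≤ 1 / 2)
    (hβ : 0 ≤ β) (hc : 5000 * β * q ≤ (τ * (1 - τ)) ^ 2) (K : ℕ) :
    ∀ᶠ n : ℕ in atTop, ∀ a D M : ℕ, |(a : ℝ) - τ * n| ≤ K → D ≤ K → (M : ℝ) ≤ β * n →
      ∀ i : ℕ, (τ * (1 - τ) + (τ * (1 - τ)) ^ 2 / 5) * n ≤ i →
        |(gp n a D * (1 - C q * X) ^ M).coeff i|
          ≤ Real.exp (-((τ * (1 - τ)) ^ 2 / 1000) * n) * ((gp n a D).eval 1 * (1 - q) ^ M) := by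
  have hev : ∀ᶠ n : ℕ in atTop, 400 * ((K : ℝ) + 1) / τ ^ 2 ≤ n :=
    tendsto_natCast_atTop_atTop.eventually_ge_atTop _
  have hev2 : ∀ᶠ n : ℕ in atTop, 60 / (τ * (1 - τ)) ^ 2 ≤ (n : ℝ) :=
    tendsto_natCast_atTop_atTop.eventually_ge_atTop _
  filter_upwards [hev, hev2] with n hn hn2
  intro a D M ha hD hM i hi
  have hτ2 : 0 < τ ^ 2 := by positivity
  rw [div_le_iff₀ hτ2] at hn
  set x : ℝ := (n : ℝ) with hx
  have hx0 : 0 ≤ x := Nat.cast_nonneg n
  set w : ℝ := τ * (1 - τ) with hw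
  have hw0 : 0 < w := by
    rw [hw]
    apply mul_pos hτ0
    linarith
  rw [div_le_iff₀ (by positivity)] at hn2
  have hw1 : w ≤ 4 / 25 := by
    rw [hw]
    nlinarith
  obtain ⟨ha1, ha2⟩ := abs_le.1 ha
  have hK0 : (0 : ℝ) ≤ K := Nat.cast_nonneg K
  have hDr : (D : ℝ) ≤ K := by exact_mod_cast hD
  have hK : (K : ℝ) + 1 ≤ τ ^ 2 * x / 400 := by linarith
  have hD0 : (0 : ℝ) ≤ D := Nat.cast_nonneg D
  have hτw : τ = w + τ ^ 2 := by
    rw [hw]
    ring
  have hu : (1 - τ) ^ 2 = 1 - τ - w := by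
    rw [hw]
    ring
  have hu16 : 16 * τ ^ 2 ≤ (1 - τ) ^ 2 := by nlinarith
  have hwu : w ^ 2 = τ ^ 2 * (1 - τ) ^ 2 := by
    rw [hw]
    ring
  have hw2x : 0 ≤ w ^ 2 * x := by positivity
  have hτ2x : 0 ≤ τ ^ 2 * x := by positivity
  have hux : 0 ≤ (1 - τ) ^ 2 * x := by positivity
  have e3 : τ * x = w * x + τ ^ 2 * x := by
    rw [← add_mul, ← hτw]
  have e4 : (1 - τ) ^ 2 * x = x - τ * x - w * x := by
    rw [hu]
    ring
  have e5 : 16 * (τ ^ 2 * x) ≤ (1 - τ) ^ 2 * x := by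
    have := mul_le_mul_of_nonneg_right hu16 hx0
    linarith
  have e6 : 16 / 25 * (τ ^ 2 * x) ≤ w ^ 2 * x := by
    have h1 : 16 / 25 ≤ (1 - τ) ^ 2 := by nlinarith
    have h2 : 16 / 25 * τ ^ 2 ≤ w ^ 2 := by
      rw [hwu]
      nlinarith [mul_le_mul_of_nonneg_left h1 hτ2.le]
    have := mul_le_mul_of_nonneg_right h2 hx0
    linarith
  -- the threshold
  set j0 : ℕ := ⌈(w + w ^ 2 / 10) * x⌉₊ with hj0
  have hj1 : (w + w ^ 2 / 10) * x ≤ j0 := Nat.le_ceil _
  have hj2 : (j0 : ℝ) < (w + w ^ 2 / 10) * x + 1 := Nat.ceil_lt_add_one (by positivity)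
  have hj3 : (w + w ^ 2 / 10) * x = w * x + w ^ 2 * x / 10 := by ring
  have hi3 : (w + w ^ 2 / 5) * x = w * x + w ^ 2 * x / 5 := by ring
  have hstep : ∀ j, j0 ≤ j → ((a - j : ℕ) : ℝ) * ((n - a - (D + j) : ℕ) : ℝ)
      ≤ 49 / 50 * (((j : ℝ) + 1) * ((D : ℝ) + j + 1)) := by
    intro j hj
    have hjr : (j0 : ℝ) ≤ j := by exact_mod_cast hj
    have hjx : w * x + w ^ 2 * x / 10 ≤ j := by linarith
    have hZ : 0 ≤ 49 / 50 * (((j : ℝ) + 1) * ((D : ℝ) + j + 1)) := by positivity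
    by_cases h1 : j ≤ a
    · by_cases h2 : D + j ≤ n - a ∧ a ≤ n
      · rw [Nat.cast_sub h1, Nat.cast_sub h2.1, Nat.cast_sub h2.2]
        push_cast
        have g1 : (a : ℝ) - j ≤ 47 / 50 * (τ ^ 2 * x) := by linarith
        have g2 : (n : ℝ) - a - (D + j) ≤ 1001 / 1000 * ((1 - τ) ^ 2 * x) := by
          rw [← hx]
          linarith
        have g1' : 0 ≤ (a : ℝ) - j := by
          have : (j : ℝ) ≤ a := by exact_mod_cast h1
          linarith
        have g2' : 0 ≤ (n : ℝ) - a - (D + j) := by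
          have h3 : ((D + j : ℕ) : ℝ) ≤ ((n - a : ℕ) : ℝ) := by exact_mod_cast h2.1
          rw [Nat.cast_sub h2.2] at h3
          push_cast at h3
          linarith
        have g3 : ((a : ℝ) - j) * ((n : ℝ) - a - (D + j))
            ≤ 47 / 50 * (τ ^ 2 * x) * (1001 / 1000 * ((1 - τ) ^ 2 * x)) :=
          mul_le_mul g1 g2 g2' (by positivity)
        have g4 : 47 / 50 * (τ ^ 2 * x) * (1001 / 1000 * ((1 - τ) ^ 2 * x))
            = 47047 / 50000 * (w * x * (w * x)) := by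
          have : w * x * (w * x) = w ^ 2 * x ^ 2 := by ring
          rw [this, hwu]
          ring
        have g5 : w * x * (w * x) ≤ ((j : ℝ) + 1) * ((D : ℝ) + j + 1) := by
          apply mul_le_mul _ _ (by positivity) (by positivity)
          · linarith
          · linarith
        have g6 : 0 ≤ w * x * (w * x) := by positivity
        linarith
      · have h3 : n - a - (D + j) = 0 := by omega
        rw [h3]
        simpa using hZ
    · have h3 : a - j = 0 := by omega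
      rw [h3]
      simpa using hZ
  have hT := blk_tail (r := 49 / 50) (by norm_num) (by norm_num) hq0.le hstep M i
  have hij : j0 ≤ i := by
    have : (j0 : ℝ) < i + 1 := by linarith
    have h2 : j0 < i + 1 := by exact_mod_cast this
    omega
  obtain ⟨m, rfl⟩ := Nat.exists_eq_add_of_le hij
  have hm : w ^ 2 * x / 10 - 1 ≤ m := by
    push_cast at hi
    linarith
  set g1 : ℝ := (gp n a D).eval 1 with hg1
  have hg0 : 0 ≤ g1 := (gp_coeff_nonneg n a D 0).trans (gp_coeff_le_eval n a D 0)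
  have hT2 : |(gp n a D * (1 - C q * X) ^ M).coeff (j0 + m)|
      ≤ g1 * ((49 / 50) ^ m * (1 + q / (49 / 50)) ^ M) := by
    have h1 : (0 : ℝ) < (49 / 50) ^ j0 := by positivity
    apply le_of_mul_le_mul_right _ h1
    refine hT.trans (le_of_eq ?_)
    rw [pow_add]
    ring
  have hqM : q * (M : ℝ) ≤ w ^ 2 * x / 5000 := by
    have h1 : q * (M : ℝ) ≤ q * (β * x) := mul_le_mul_of_nonneg_left hM hq0.le
    have h2 : q * (β * x) = (5000 * β * q) * x / 5000 := by ring
    have h3 := mul_le_mul_of_nonneg_right hc hx0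
    linarith
  have a1 : ((49 : ℝ) / 50) ^ m ≤ Real.exp (-(m : ℝ) / 50) := by
    have h1 : (49 / 50 : ℝ) ≤ Real.exp (-(1 / 50)) := by
      have := Real.add_one_le_exp (-(1 / 50) : ℝ)
      linarith
    calc ((49 : ℝ) / 50) ^ m ≤ (Real.exp (-(1 / 50))) ^ m :=
          pow_le_pow_left₀ (by norm_num) h1 m
      _ = _ := by
        rw [← Real.exp_nat_mul]
        congr 1
        ring
  have a2 : (1 + q / (49 / 50)) ^ M ≤ Real.exp (50 / 49 * (q * M)) := by
    have h1 : 1 + q / (49 / 50) ≤ Real.exp (q / (49 / 50)) := by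
      have := Real.add_one_le_exp (q / (49 / 50))
      linarith
    calc (1 + q / (49 / 50)) ^ M ≤ (Real.exp (q / (49 / 50))) ^ M :=
          pow_le_pow_left₀ (by positivity) h1 M
      _ = _ := by
        rw [← Real.exp_nat_mul]
        congr 1
        ring
  have a3 : Real.exp (-(2 * (q * M))) ≤ (1 - q) ^ M := by
    calc Real.exp (-(2 * (q * M))) = (Real.exp (-(2 * q))) ^ M := by
          rw [← Real.exp_nat_mul]
          congr 1
          ring
      _ ≤ _ := pow_le_pow_left₀ (Real.exp_pos _).le (one_sub_ge hq0.le hq) M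
  refine hT2.trans ?_
  have h5 : (49 / 50 : ℝ) ^ m * (1 + q / (49 / 50)) ^ M
      ≤ Real.exp (-(w ^ 2 / 1000) * x) * (1 - q) ^ M := by
    calc (49 / 50 : ℝ) ^ m * (1 + q / (49 / 50)) ^ M
        ≤ Real.exp (-(m : ℝ) / 50) * Real.exp (50 / 49 * (q * M)) :=
          mul_le_mul a1 a2 (by positivity) (Real.exp_pos _).le
      _ = Real.exp (-(m : ℝ) / 50 + 50 / 49 * (q * M)) := by rw [Real.exp_add]
      _ ≤ Real.exp (-(w ^ 2 / 1000) * x + -(2 * (q * M))) := by
          apply Real.exp_le_exp.2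
          have : -(w ^ 2 / 1000) * x = -(w ^ 2 * x / 1000) := by ring
          rw [this]
          linarith
      _ = Real.exp (-(w ^ 2 / 1000) * x) * Real.exp (-(2 * (q * M))) := by rw [Real.exp_add]
      _ ≤ _ := mul_le_mul_of_nonneg_left a3 (Real.exp_pos _).le
  calc g1 * ((49 / 50) ^ m * (1 + q / (49 / 50)) ^ M)
      ≤ g1 * (Real.exp (-(w ^ 2 / 1000) * x) * (1 - q) ^ M) :=
        mul_le_mul_of_nonneg_left h5 hg0
    _ = _ := by ring

end Pool.Agent.Lib.MP_0430e4_lc.All
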