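import Pool.Agent.Lib.MP_0430e4_lc.All.Defs

/-!
# Differences and continuity of the kernel
-/

set_option autoImplicit false
set_option linter.unusedVariables false

namespace Pool.Agent.Lib.MP_0430e4_lc.All

open Finset Impr

namespace KDF

theorem norm_exp_sub (θ : ℝ) : ‖Complex.exp (-((θ : ℂ) * Complex.I)) - 1‖ ≤ |θ| := by
  have h := Real.norm_exp_I_mul_ofReal_sub_one_le (x := -θ)
  rw [Real.norm_eq_abs, abs_neg] at h
  refine le_trans (le_of_eq ?_) h
  congr 3
  push_cast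
  ring

theorem U_sub_w {a : ℝ} (ha0 : 0 ≤ a) (ha1 : a ≤ 1) (u v : ℝ) :
    ‖(Complex.exp (-(u : ℂ) * Complex.I) + Complex.exp (-(v : ℂ) * Complex.I)) / 2
      - (1 - (a : ℂ) + (a : ℂ) * Complex.exp (-((u : ℂ) + (v : ℂ)) * Complex.I))‖
      ≤ 2 * |u + v| + (u - v) ^ 2 := by
  set α := (u + v) / 2 with hα
  set β := (u - v) / 2 with hβ
  have e1 : u = α + β := by rw [hα, hβ]; ring
  have e2 : v = α - β := by rw [hα, hβ]; ring
  have hc : ((Real.cos β : ℝ) : ℂ) = (Complex.exp ((β : ℂ) * Complex.I)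
      + Complex.exp (-(β : ℂ) * Complex.I)) / 2 := by
    rw [Complex.ofReal_cos, Complex.cos]
  have h1 : (Complex.exp (-(u : ℂ) * Complex.I) + Complex.exp (-(v : ℂ) * Complex.I)) / 2
      = Complex.exp (-((α : ℂ) * Complex.I)) * ((Real.cos β : ℝ) : ℂ) := by
    rw [hc, mul_div_assoc', mul_add, ← Complex.exp_add, ← Complex.exp_add]
    congr 1
    rw [add_comm]
    congr 2
    · rw [e2]
      push_cast
      ring
    · rw [e1]
      push_cast
      ring
  have h2 : Complex.exp (-((u : ℂ) + (v : ℂ)) * Complex.I)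
      = Complex.exp (-(((2 * α : ℝ) : ℂ) * Complex.I)) := by
    congr 1
    rw [e1, e2]
    push_cast
    ring
  rw [h1, h2]
  have h3 : Complex.exp (-((α : ℂ) * Complex.I)) * ((Real.cos β : ℝ) : ℂ)
      - (1 - (a : ℂ) + (a : ℂ) * Complex.exp (-(((2 * α : ℝ) : ℂ) * Complex.I)))
      = (Complex.exp (-((α : ℂ) * Complex.I)) - 1) * ((Real.cos β : ℝ) : ℂ)
        + (((Real.cos β - 1 : ℝ) : ℂ)
        - (a : ℂ) * (Complex.exp (-(((2 * α : ℝ) : ℂ) * Complex.I)) - 1)) := by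
    push_cast
    ring
  rw [h3]
  refine le_trans (norm_add_le _ _) ?_
  refine le_trans (add_le_add_right (norm_sub_le _ _) _) ?_
  rw [norm_mul, norm_mul, Complex.norm_real, Complex.norm_real, Complex.norm_real,
    Real.norm_eq_abs, Real.norm_eq_abs, Real.norm_eq_abs]
  have g1 := norm_exp_sub α
  have g2 := norm_exp_sub (2 * α)
  have g3 : |Real.cos β| ≤ 1 := Real.abs_cos_le_one β
  have g4 : |Real.cos β - 1| ≤ β ^ 2 / 2 := by
    rw [abs_sub_comm, abs_of_nonneg (by linarith [Real.cos_le_one β])]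
    linarith [Real.one_sub_sq_div_two_le_cos (x := β)]
  have g5 : |a| ≤ 1 := by
    rw [abs_of_nonneg ha0]
    exact ha1
  have g6 : ‖Complex.exp (-((α : ℂ) * Complex.I)) - 1‖ * |Real.cos β| ≤ |α| * 1 :=
    mul_le_mul g1 g3 (abs_nonneg _) (abs_nonneg _)
  have g7 : |a| * ‖Complex.exp (-(((2 * α : ℝ) : ℂ) * Complex.I)) - 1‖ ≤ 1 * |2 * α| :=
    mul_le_mul g5 g2 (norm_nonneg _) zero_le_one
  have g8 : |2 * α| = 2 * |α| := by
    rw [abs_mul, abs_of_nonneg (by norm_num : (0 : ℝ) ≤ 2)]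
  have g9 : |u + v| = 2 * |α| := by
    rw [← g8, hα]
    congr 1
    ring
  have g10 : (u - v) ^ 2 = 4 * β ^ 2 := by
    rw [hβ]
    ring
  rw [g9, g10]
  rw [g8] at g7
  have := abs_nonneg α
  nlinarith [sq_nonneg β]

end KDF

theorem Kr_succ_sub {g y a s : ℝ} (ha0 : 0 ≤ a) (ha1 : a ≤ 1) {n k t : ℕ} (hk : k + 1 ≤ n)
    (u v : ℝ) :
    ‖Kr g y a s n (k + 1) t u v - Kr g y a s n k t u v‖
      ≤ ‖Kr g y a s (n - 1) k t u v‖ * (2 * |u + v| + (u - v) ^ 2) := by
  have h1 : Kr g y a s n (k + 1) t u v - Kr g y a s n k t u v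
      = Kr g y a s (n - 1) k t u v *
        ((Complex.exp (-(u : ℂ) * Complex.I) + Complex.exp (-(v : ℂ) * Complex.I)) / 2
      - (1 - (a : ℂ) + (a : ℂ) * Complex.exp (-((u : ℂ) + (v : ℂ)) * Complex.I))) := by
    unfold Kr
    have e1 : n - k = (n - 1 - k) + 1 := by omega
    have e2 : n - (k + 1) = n - 1 - k := by omega
    rw [e1, e2, pow_succ, pow_succ]
    ring
  rw [h1, norm_mul]
  exact mul_le_mul_of_nonneg_left (KDF.U_sub_w ha0 ha1 u v) (norm_nonneg _)

theorem Kr_continuous {g y a s : ℝ} (hs : 0 < s) (n k t : ℕ) :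
    Continuous fun p : ℝ × ℝ => Kr g y a s n k t p.1 p.2 := by
  have hs' : (s : ℂ) ≠ 0 := by exact_mod_cast hs.ne'
  have h1 : Continuous fun p : ℝ × ℝ => (s : ℂ) * Complex.exp ((p.1 : ℂ) * Complex.I) := by
    fun_prop
  have h2 : Continuous fun p : ℝ × ℝ => (s : ℂ) * Complex.exp ((p.2 : ℂ) * Complex.I) := by
    fun_prop
  have h3 := h1.inv₀ fun p => mul_ne_zero hs' (Complex.exp_ne_zero _)
  have h4 := h2.inv₀ fun p => mul_ne_zero hs' (Complex.exp_ne_zero _)
  have h5 : Continuous fun p : ℝ × ℝ => PC g ((s : ℂ) * Complex.exp ((p.1 : ℂ) * Complex.I)) := by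
    unfold PC
    exact (((h1.add h3).sub continuous_const).pow 2).sub
      (continuous_const.mul ((h1.add h3).sub continuous_const))
  have h6 : Continuous fun p : ℝ × ℝ => PC g ((s : ℂ) * Complex.exp ((p.2 : ℂ) * Complex.I)) := by
    unfold PC
    exact (((h2.add h4).sub continuous_const).pow 2).sub
      (continuous_const.mul ((h2.add h4).sub continuous_const))
  unfold Kr
  refine Continuous.mul (Continuous.mul (Continuous.mul ?_ ?_) ?_) ?_
  · exact Complex.continuous_exp.comp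
      (continuous_const.mul ((h5.add h6).sub continuous_const)).neg
  · fun_prop
  · fun_prop
  · fun_prop

end Pool.Agent.Lib.MP_0430e4_lc.All
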