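import Pool.Agent.Lib.MP_0430e4_lc.All.Defs

/-!
# The modulus of the kernel
-/

set_option autoImplicit false
set_option linter.unusedVariables false

namespace Pool.Agent.Lib.MP_0430e4_lc.All

open Finset Impr

namespace KMD

/-- real part of `P` on the circle of radius `s` -/
theorem PC_re (g θ : ℝ) {s : ℝ} (hs : 0 < s) :
    (PC g ((s : ℂ) * Complex.exp ((θ : ℂ) * Complex.I))).re
      = ((s + s⁻¹) * Real.cos θ - 2) ^ 2 - ((s - s⁻¹) * Real.sin θ) ^ 2
        - g * ((s + s⁻¹) * Real.cos θ - 2) := by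
  have h1 : ((s : ℂ) * Complex.exp ((θ : ℂ) * Complex.I))⁻¹
      = ((s⁻¹ : ℝ) : ℂ) * Complex.exp (((-θ : ℝ) : ℂ) * Complex.I) := by
    rw [mul_inv, ← Complex.exp_neg]
    push_cast
    congr 2
    ring
  have h2 : (s : ℂ) * Complex.exp ((θ : ℂ) * Complex.I)
      + ((s : ℂ) * Complex.exp ((θ : ℂ) * Complex.I))⁻¹ - 2
      = (((s + s⁻¹) * Real.cos θ - 2 : ℝ) : ℂ) + (((s - s⁻¹) * Real.sin θ : ℝ) : ℂ) * Complex.I := by
    rw [h1, Complex.exp_mul_I, Complex.exp_mul_I]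
    simp only [← Complex.ofReal_cos, ← Complex.ofReal_sin, Real.cos_neg, Real.sin_neg]
    push_cast
    ring
  unfold PC
  rw [h2]
  simp only [Complex.sub_re, Complex.mul_re, Complex.add_re, Complex.ofReal_re,
    Complex.ofReal_im, Complex.I_re, Complex.I_im, pow_two, Complex.add_im, Complex.mul_im]
  ring

/-- the key identity -/
theorem PC_diff (g θ : ℝ) {s : ℝ} (hs : 0 < s) :
    PR g s - (PC g ((s : ℂ) * Complex.exp ((θ : ℂ) * Complex.I))).re
      = (2 * (s + s⁻¹) ^ 2 - 4) * Real.sin θ ^ 2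
        - (4 + g) * (s + s⁻¹) * (1 - Real.cos θ) := by
  rw [PC_re g θ hs]
  unfold PR
  have h1 : (s - s⁻¹) ^ 2 = (s + s⁻¹) ^ 2 - 4 := by
    have : s * s⁻¹ = 1 := mul_inv_cancel₀ hs.ne'
    nlinarith
  have h2 : Real.cos θ ^ 2 = 1 - Real.sin θ ^ 2 := by
    have := Real.sin_sq_add_cos_sq θ
    linarith
  rw [mul_pow, h1]
  nlinarith [h2]

theorem two_le (s : ℝ) (hs : 0 < s) : 2 ≤ s + s⁻¹ := by
  have h : s + s⁻¹ - 2 = (s - 1) ^ 2 / s := by
    field_simp
    ring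
  have : 0 ≤ (s - 1) ^ 2 / s := by positivity
  linarith

theorem norm_half (u v : ℝ) :
    ‖(Complex.exp (-(u : ℂ) * Complex.I) + Complex.exp (-(v : ℂ) * Complex.I)) / 2‖
      = |Real.cos ((u - v) / 2)| := by
  have h1 : (Complex.exp (-(u : ℂ) * Complex.I) + Complex.exp (-(v : ℂ) * Complex.I)) / 2
      = Complex.exp (((-((u + v) / 2) : ℝ) : ℂ) * Complex.I)
        * ((Real.cos ((u - v) / 2) : ℝ) : ℂ) := by
    have h2 : ((Real.cos ((u - v) / 2) : ℝ) : ℂ)
        = (Complex.exp (((((u - v) / 2) : ℝ) : ℂ) * Complex.I)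
          + Complex.exp (-((((u - v) / 2) : ℝ) : ℂ) * Complex.I)) / 2 := by
      rw [Complex.ofReal_cos, Complex.cos]
    rw [h2, mul_div_assoc', mul_add, ← Complex.exp_add, ← Complex.exp_add]
    congr 1
    rw [add_comm]
    congr 2
    · push_cast
      ring
    · push_cast
      ring
  rw [h1, norm_mul, Complex.norm_exp_ofReal_mul_I, one_mul, Complex.norm_real, Real.norm_eq_abs]

theorem norm_w {a : ℝ} (u v : ℝ) :
    ‖1 - (a : ℂ) + (a : ℂ) * Complex.exp (-((u : ℂ) + (v : ℂ)) * Complex.I)‖ ^ 2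
      = 1 - 4 * (a * (1 - a)) * Real.sin ((u + v) / 2) ^ 2 := by
  have h1 : 1 - (a : ℂ) + (a : ℂ) * Complex.exp (-((u : ℂ) + (v : ℂ)) * Complex.I)
      = ((1 - a + a * Real.cos (u + v) : ℝ) : ℂ) + ((-(a * Real.sin (u + v)) : ℝ) : ℂ) * Complex.I := by
    have : -((u : ℂ) + (v : ℂ)) * Complex.I = ((-(u + v) : ℝ) : ℂ) * Complex.I := by
      push_cast
      ring
    rw [this, Complex.exp_mul_I, ← Complex.ofReal_cos, ← Complex.ofReal_sin, Real.cos_neg,
      Real.sin_neg]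
    push_cast
    ring
  rw [h1, ← Complex.normSq_eq_norm_sq, Complex.normSq_add_mul_I]
  have h2 : Real.cos (u + v) = 1 - 2 * Real.sin ((u + v) / 2) ^ 2 := by
    have : u + v = 2 * ((u + v) / 2) := by ring
    nth_rewrite 1 [this]
    rw [Real.cos_two_mul, Real.cos_sq']
    ring
  have h3 : Real.sin (u + v) ^ 2 = 1 - Real.cos (u + v) ^ 2 := by
    have := Real.sin_sq_add_cos_sq (u + v)
    linarith
  have h4 : (-(a * Real.sin (u + v))) ^ 2 = a ^ 2 * Real.sin (u + v) ^ 2 := by ring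
  rw [h4, h3, h2]
  ring

/-- the modulus of the kernel -/
theorem norm_Kr {g y a s u v : ℝ} {n k t : ℕ} (hs : 0 < s) :
    ‖Kr g y a s n k t u v‖ =
      Real.exp (y * ((2 * (s + s⁻¹) ^ 2 - 4) * (Real.sin u ^ 2 + Real.sin v ^ 2)
        - (4 + g) * (s + s⁻¹) * ((1 - Real.cos u) + (1 - Real.cos v)))) *
      |Real.cos ((u - v) / 2)| ^ k *
      ‖1 - (a : ℂ) + (a : ℂ) * Complex.exp (-((u : ℂ) + (v : ℂ)) * Complex.I)‖ ^ (n - k) := by
  unfold Kr
  rw [norm_mul, norm_mul, norm_mul, norm_pow, norm_pow, norm_half, Complex.norm_exp,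
    Complex.norm_exp]
  have h1 : ((t : ℂ) * ((u : ℂ) + (v : ℂ)) * Complex.I).re = 0 := by
    simp [Complex.mul_re, Complex.mul_im]
  rw [h1, Real.exp_zero, mul_one]
  congr 3
  have h2 := PC_diff g u hs
  have h3 := PC_diff g v hs
  have h4 : (-((y : ℂ) * (PC g ((s : ℂ) * Complex.exp ((u : ℂ) * Complex.I))
      + PC g ((s : ℂ) * Complex.exp ((v : ℂ) * Complex.I)) - 2 * (PR g s : ℂ)))).re
      = y * ((PR g s - (PC g ((s : ℂ) * Complex.exp ((u : ℂ) * Complex.I))).re)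
        + (PR g s - (PC g ((s : ℂ) * Complex.exp ((v : ℂ) * Complex.I))).re)) := by
    simp only [Complex.neg_re, Complex.mul_re, Complex.sub_re, Complex.add_re, Complex.ofReal_re,
      Complex.ofReal_im, Complex.re_ofNat, Complex.im_ofNat]
    ring
  rw [h4, h2, h3]
  ring

/-- the sum of the squares of the sines -/
theorem sum_sin (u v : ℝ) : Real.sin u ^ 2 + Real.sin v ^ 2
    ≤ 2 * Real.sin ((u + v) / 2) ^ 2 + 2 * Real.sin ((u - v) / 2) ^ 2 := by
  have e1 : u = (u + v) / 2 + (u - v) / 2 := by ring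
  have e2 : v = (u + v) / 2 - (u - v) / 2 := by ring
  set α := (u + v) / 2 with hα
  set β := (u - v) / 2 with hβ
  rw [e1, e2, Real.sin_add, Real.sin_sub]
  have h1 := Real.sin_sq_add_cos_sq α
  have h2 := Real.sin_sq_add_cos_sq β
  have h3 : Real.cos α ^ 2 = 1 - Real.sin α ^ 2 := by linarith
  have h4 : Real.cos β ^ 2 = 1 - Real.sin β ^ 2 := by linarith
  have h5 : (Real.sin α * Real.cos β + Real.cos α * Real.sin β) ^ 2
      + (Real.sin α * Real.cos β - Real.cos α * Real.sin β) ^ 2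
      = 2 * Real.sin α ^ 2 * Real.cos β ^ 2 + 2 * Real.cos α ^ 2 * Real.sin β ^ 2 := by ring
  rw [h5, h3, h4]
  nlinarith [mul_nonneg (sq_nonneg (Real.sin α)) (sq_nonneg (Real.sin β))]

/-- the sum of the `1 - cos` -/
theorem sum_cos (u v : ℝ) : (1 - Real.cos u) + (1 - Real.cos v)
    = 2 - 2 * (Real.cos ((u + v) / 2) * Real.cos ((u - v) / 2)) := by
  have e1 : u = (u + v) / 2 + (u - v) / 2 := by ring
  have e2 : v = (u + v) / 2 - (u - v) / 2 := by ring
  set α := (u + v) / 2 with hα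
  set β := (u - v) / 2 with hβ
  rw [e1, e2, Real.cos_add, Real.cos_sub]
  ring

theorem abs_cos_pow (β : ℝ) (k : ℕ) :
    |Real.cos β| ^ k ≤ Real.exp (-((k : ℝ) / 2 * Real.sin β ^ 2)) := by
  have h1 : |Real.cos β| ≤ Real.exp (-(Real.sin β ^ 2 / 2)) := by
    refine abs_le_of_sq_le_sq ?_ (Real.exp_pos _).le
    rw [← Real.exp_nat_mul]
    have h2 := Real.sin_sq_add_cos_sq β
    have h3 := Real.add_one_le_exp (-(Real.sin β ^ 2))
    have h4 : ((2 : ℕ) : ℝ) * -(Real.sin β ^ 2 / 2) = -(Real.sin β ^ 2) := by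
      push_cast
      ring
    rw [h4]
    linarith
  calc |Real.cos β| ^ k ≤ (Real.exp (-(Real.sin β ^ 2 / 2))) ^ k :=
        pow_le_pow_left₀ (abs_nonneg _) h1 k
    _ = Real.exp (-((k : ℝ) / 2 * Real.sin β ^ 2)) := by
        rw [← Real.exp_nat_mul]
        congr 1
        ring

theorem w_pow {a : ℝ} (u v : ℝ) (m : ℕ) :
    ‖1 - (a : ℂ) + (a : ℂ) * Complex.exp (-((u : ℂ) + (v : ℂ)) * Complex.I)‖ ^ m
      ≤ Real.exp (-(2 * (m : ℝ) * (a * (1 - a)) * Real.sin ((u + v) / 2) ^ 2)) := by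
  have h0 := norm_w (a := a) u v
  set W := ‖1 - (a : ℂ) + (a : ℂ) * Complex.exp (-((u : ℂ) + (v : ℂ)) * Complex.I)‖ with hW
  have h1 : W ≤ Real.exp (-(2 * (a * (1 - a)) * Real.sin ((u + v) / 2) ^ 2)) := by
    refine le_of_sq_le_sq ?_ (Real.exp_pos _).le
    rw [h0, ← Real.exp_nat_mul]
    have h3 := Real.add_one_le_exp (-(4 * (a * (1 - a)) * Real.sin ((u + v) / 2) ^ 2))
    have h4 : ((2 : ℕ) : ℝ) * -(2 * (a * (1 - a)) * Real.sin ((u + v) / 2) ^ 2)
        = -(4 * (a * (1 - a)) * Real.sin ((u + v) / 2) ^ 2) := by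
      push_cast
      ring
    rw [h4]
    linarith
  calc W ^ m ≤ (Real.exp (-(2 * (a * (1 - a)) * Real.sin ((u + v) / 2) ^ 2))) ^ m :=
        pow_le_pow_left₀ (norm_nonneg _) h1 m
    _ = _ := by
        rw [← Real.exp_nat_mul]
        congr 1
        ring

end KMD

open KMD in
theorem norm_Kr_main {g y a s u v : ℝ} {n k t : ℕ} (hg : 0 ≤ g) (hy : 0 ≤ y) (hs : 0 < s)
    (ha0 : 0 ≤ a) (ha1 : a ≤ 1) (hk : k ≤ n)
    (hc : 0 ≤ Real.cos ((u + v) / 2) * Real.cos ((u - v) / 2)) :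
    ‖Kr g y a s n k t u v‖
      ≤ Real.exp (-(((k : ℝ) / 2 - y * EE g s) * Real.sin ((u - v) / 2) ^ 2)
          - (2 * ((n : ℝ) - (k : ℝ)) * (a * (1 - a)) - y * EE g s)
            * Real.sin ((u + v) / 2) ^ 2) := by
  rw [norm_Kr hs]
  have h1 := abs_cos_pow ((u - v) / 2) k
  have h2 := w_pow (a := a) u v (n - k)
  have h3 := sum_sin u v
  have h4 := sum_cos u v
  have hS := two_le s hs
  set S := s + s⁻¹ with hSdef
  set A := Real.sin ((u + v) / 2) ^ 2 with hA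
  set B := Real.sin ((u - v) / 2) ^ 2 with hB
  have h5 : A + B ≤ (1 - Real.cos u) + (1 - Real.cos v) := by
    rw [h4]
    have q1 := Real.sin_sq_add_cos_sq ((u + v) / 2)
    have q2 := Real.sin_sq_add_cos_sq ((u - v) / 2)
    nlinarith [sq_nonneg (Real.cos ((u + v) / 2) - Real.cos ((u - v) / 2))]
  have h6 : (2 * S ^ 2 - 4) * (Real.sin u ^ 2 + Real.sin v ^ 2)
        - (4 + g) * S * ((1 - Real.cos u) + (1 - Real.cos v)) ≤ EE g s * (A + B) := by
    have e1 : EE g s = 2 * (2 * S ^ 2 - 4) - (4 + g) * S := by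
      unfold EE
      rw [← hSdef]
      ring
    rw [e1]
    have e2 : 0 ≤ 2 * S ^ 2 - 4 := by nlinarith
    have e3 : 0 ≤ (4 + g) * S := by positivity
    have e4 := mul_le_mul_of_nonneg_left h3 e2
    have e5 := mul_le_mul_of_nonneg_left h5 e3
    nlinarith
  have h7 := mul_le_mul_of_nonneg_left h6 hy
  have h8 : Real.exp (y * ((2 * S ^ 2 - 4) * (Real.sin u ^ 2 + Real.sin v ^ 2)
        - (4 + g) * S * ((1 - Real.cos u) + (1 - Real.cos v)))) ≤
      Real.exp (y * (EE g s * (A + B))) := Real.exp_le_exp.2 h7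
  have hcast : ((n - k : ℕ) : ℝ) = (n : ℝ) - k := by
    rw [Nat.cast_sub hk]
  rw [hcast] at h2
  calc _ ≤ Real.exp (y * (EE g s * (A + B))) * Real.exp (-((k : ℝ) / 2 * B)) *
        Real.exp (-(2 * ((n : ℝ) - k) * (a * (1 - a)) * A)) := by
        refine mul_le_mul (mul_le_mul h8 h1 (by positivity) (Real.exp_pos _).le) h2
          (by positivity) (by positivity)
    _ = _ := by
        rw [← Real.exp_add, ← Real.exp_add]
        congr 1
        ring

open KMD in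
theorem norm_Kr_other {g y a s u v : ℝ} {n k t : ℕ} (hg : 0 ≤ g) (hy : 0 ≤ y) (hs : 0 < s)
    (ha0 : 0 ≤ a) (ha1 : a ≤ 1) (hk : k ≤ n)
    (hc : Real.cos ((u + v) / 2) * Real.cos ((u - v) / 2) ≤ 0)
    (h1 : g * y ≤ (k : ℝ) / 2 - y * EE g s)
    (h2 : 4 * y * ((s + s⁻¹) ^ 2 - 2) ≤ 2 * ((n : ℝ) - (k : ℝ)) * (a * (1 - a))) :
    ‖Kr g y a s n k t u v‖ ≤ Real.exp (-(8 * y)) := by
  rw [norm_Kr hs]
  have g1 := abs_cos_pow ((u - v) / 2) k
  have g2 := w_pow (a := a) u v (n - k)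
  have g3 := sum_sin u v
  have g4 := sum_cos u v
  have hS := two_le s hs
  have e1 : EE g s = 4 * ((s + s⁻¹) ^ 2 - 2) - (4 + g) * (s + s⁻¹) := by
    unfold EE
    ring
  rw [e1] at h1
  set S := s + s⁻¹ with hSdef
  set A := Real.sin ((u + v) / 2) ^ 2 with hA
  set B := Real.sin ((u - v) / 2) ^ 2 with hB
  have hA0 : 0 ≤ A := sq_nonneg _
  have hB0 : 0 ≤ B := sq_nonneg _
  have hB1 : B ≤ 1 := by
    have := Real.sin_sq_add_cos_sq ((u - v) / 2)
    nlinarith [sq_nonneg (Real.cos ((u - v) / 2))]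
  have h5 : 2 ≤ (1 - Real.cos u) + (1 - Real.cos v) := by
    rw [g4]
    linarith
  have hcast : ((n - k : ℕ) : ℝ) = (n : ℝ) - k := by
    rw [Nat.cast_sub hk]
  rw [hcast] at g2
  have h6 : (2 * S ^ 2 - 4) * (Real.sin u ^ 2 + Real.sin v ^ 2)
        - (4 + g) * S * ((1 - Real.cos u) + (1 - Real.cos v))
      ≤ 4 * (S ^ 2 - 2) * (A + B) - (4 + g) * S * 2 := by
    have e2 : 0 ≤ 2 * S ^ 2 - 4 := by nlinarith
    have e3 : 0 ≤ (4 + g) * S := by positivity
    have e4 := mul_le_mul_of_nonneg_left g3 e2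
    have e5 := mul_le_mul_of_nonneg_left h5 e3
    nlinarith
  have h7 := mul_le_mul_of_nonneg_left h6 hy
  calc _ ≤ Real.exp (y * (4 * (S ^ 2 - 2) * (A + B) - (4 + g) * S * 2)) *
        Real.exp (-((k : ℝ) / 2 * B)) *
        Real.exp (-(2 * ((n : ℝ) - k) * (a * (1 - a)) * A)) := by
        refine mul_le_mul (mul_le_mul (Real.exp_le_exp.2 h7) g1 (by positivity)
          (Real.exp_pos _).le) g2 (by positivity) (by positivity)
    _ = Real.exp (B * (4 * y * (S ^ 2 - 2) - k / 2) +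
          A * (4 * y * (S ^ 2 - 2) - 2 * ((n : ℝ) - k) * (a * (1 - a)))
          - 2 * (4 + g) * S * y) := by
        rw [← Real.exp_add, ← Real.exp_add]
        congr 1
        ring
    _ ≤ Real.exp (-(8 * y)) := by
        refine Real.exp_le_exp.2 ?_
        have f1 : A * (4 * y * (S ^ 2 - 2) - 2 * ((n : ℝ) - k) * (a * (1 - a))) ≤ 0 :=
          mul_nonpos_of_nonneg_of_nonpos hA0 (by linarith)
        have f2 : 4 * y * (S ^ 2 - 2) - k / 2 ≤ y * ((4 + g) * S - g) := by nlinarith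
        have f3 : 0 ≤ y * ((4 + g) * S - g) := by
          refine mul_nonneg hy ?_
          nlinarith
        have f4 : B * (4 * y * (S ^ 2 - 2) - k / 2) ≤ y * ((4 + g) * S - g) := by
          calc B * (4 * y * (S ^ 2 - 2) - k / 2) ≤ B * (y * ((4 + g) * S - g)) :=
                mul_le_mul_of_nonneg_left f2 hB0
            _ ≤ 1 * (y * ((4 + g) * S - g)) := mul_le_mul_of_nonneg_right hB1 f3
            _ = _ := one_mul _
        have f5 : 8 ≤ (4 + g) * S + g := by nlinarith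
        have f6 := mul_le_mul_of_nonneg_left f5 hy
        nlinarith

end Pool.Agent.Lib.MP_0430e4_lc.All
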