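import Pool.Agent.Lib.MP_0430e4_lc.All.ASM
import Pool.Agent.Lib.MP_0430e4_lc.TensorRate
import Pool.Agent.Lib.MP_0430e4_lc.TensorEntropy

/-!
# The limit: the certificates bound the exponent
-/

set_option autoImplicit false

namespace Pool.Agent.Lib.MP_0430e4_lc.All

open Finset Polynomial Filter Topology

theorem lim_choose {n t : ℕ} {p : ℝ} (hp0 : 0 < p) (hp : p ≤ 1 / 2) (ht : (t : ℝ) ≤ p * n)
    (htn : t ≤ n) : ((n.choose t : ℕ) : ℝ) ≤ Real.exp (n * Real.binEntropy p) := by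
  have hp1 : 0 < 1 - p := by linarith
  have h1 := add_pow p (1 - p) n
  rw [add_sub_cancel, one_pow] at h1
  have h2 : p ^ t * (1 - p) ^ (n - t) * (n.choose t : ℝ) ≤ 1 := by
    refine le_trans ?_ h1.symm.le
    exact Finset.single_le_sum (f := fun m => p ^ m * (1 - p) ^ (n - m) * (n.choose m : ℝ))
      (fun m _ => by positivity) (Finset.mem_range.2 (Nat.lt_succ_of_le htn))
  have h3 : Real.exp (-(n * Real.binEntropy p)) ≤ p ^ t * (1 - p) ^ (n - t) := by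
    rw [Tensor.pow_eq_exp hp0, Tensor.pow_eq_exp hp1, ← Real.exp_add, Nat.cast_sub htn]
    apply Real.exp_le_exp.2
    have hlog : Real.log p ≤ Real.log (1 - p) := Real.log_le_log hp0 (by linarith)
    unfold Real.binEntropy
    rw [Real.log_inv, Real.log_inv]
    nlinarith [mul_nonneg (sub_nonneg.2 ht) (sub_nonneg.2 hlog)]
  have h4 : Real.exp (-(n * Real.binEntropy p)) * (n.choose t : ℝ) ≤ 1 :=
    le_trans (mul_le_mul_of_nonneg_right h3 (Nat.cast_nonneg _)) h2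
  rw [Real.exp_neg] at h4
  have h5 := Real.exp_pos (n * Real.binEntropy p)
  rwa [inv_mul_le_iff₀ h5, mul_one] at h4

theorem lim_floor {σ : ℝ} (hσ : 0 ≤ σ) :
    Tendsto (fun n : ℕ => ((⌊σ * n⌋₊ : ℕ) : ℝ) / n) atTop (𝓝 σ) :=
  (tendsto_nat_floor_mul_div_atTop hσ).comp tendsto_natCast_atTop_atTop

theorem lim_level {τ β : ℝ} (hτ0 : 0 ≤ τ) (hβ : 0 ≤ β) (J : ℕ) :
    Tendsto (fun n : ℕ => lv n ⌊τ * n⌋₊ J / ((n : ℝ) + 2 * (⌊β * n⌋₊ : ℕ))) atTop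
      (𝓝 (2 * Real.cos (Real.pi / ((J : ℝ) + 2)) * Real.sqrt (τ * (1 - τ)) / (1 + 2 * β))) := by
  have h1 := lim_floor hτ0
  have h2 := lim_floor hβ
  have hJ := tendsto_const_div_atTop_nhds_zero_nat (J : ℝ)
  have hJ1 := tendsto_const_div_atTop_nhds_zero_nat ((J : ℝ) + 1)
  have h3 : Tendsto (fun n : ℕ => 2 * Real.cos (Real.pi / ((J : ℝ) + 2))
      * Real.sqrt ((((⌊τ * n⌋₊ : ℕ) : ℝ) / n - (J : ℝ) / n)
        * (1 - ((⌊τ * n⌋₊ : ℕ) : ℝ) / n + ((J : ℝ) + 1) / n))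
      / (1 + 2 * (((⌊β * n⌋₊ : ℕ) : ℝ) / n))) atTop
      (𝓝 (2 * Real.cos (Real.pi / ((J : ℝ) + 2)) * Real.sqrt ((τ - 0) * (1 - τ + 0))
        / (1 + 2 * β))) := by
    apply Tendsto.div
    · apply Tendsto.const_mul
      apply (Real.continuous_sqrt.tendsto _).comp
      exact (h1.sub hJ).mul ((h1.const_sub 1).add hJ1)
    · exact (h2.const_mul 2).const_add 1
    · have : 0 < 1 + 2 * β := by linarith
      exact this.ne'
  rw [sub_zero, add_zero] at h3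
  apply h3.congr'
  filter_upwards [eventually_ge_atTop 1] with n hn
  have hn0 : (0 : ℝ) < n := by exact_mod_cast hn
  unfold lv
  have e1 : (((⌊τ * n⌋₊ : ℕ) : ℝ) / n - (J : ℝ) / n)
        * (1 - ((⌊τ * n⌋₊ : ℕ) : ℝ) / n + ((J : ℝ) + 1) / n)
      = ((((⌊τ * n⌋₊ : ℕ) : ℝ) - J) * ((n : ℝ) - (⌊τ * n⌋₊ : ℕ) + J + 1)) / (n : ℝ) ^ 2 := by
    field_simp
    ring
  rw [e1, Real.sqrt_div' _ (by positivity), Real.sqrt_sq hn0.le]
  have h5 : (0 : ℝ) ≤ ((⌊β * n⌋₊ : ℕ) : ℝ) := Nat.cast_nonneg _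
  have h6 : (0 : ℝ) < (n : ℝ) + 2 * ((⌊β * n⌋₊ : ℕ) : ℝ) := by linarith
  have h7 : (0 : ℝ) < 1 + 2 * (((⌊β * n⌋₊ : ℕ) : ℝ) / n) := by positivity
  field_simp

theorem lim_value {β : ℝ} (hβ : 0 ≤ β) (H c Q : ℝ) :
    Tendsto (fun n : ℕ => (c + n * H + (⌊β * n⌋₊ : ℕ) * Q)
      / (((n : ℝ) + 2 * (⌊β * n⌋₊ : ℕ)) * Real.log 2)) atTop
      (𝓝 ((H + β * Q) / ((1 + 2 * β) * Real.log 2))) := by
  have hlog2 : 0 < Real.log 2 := Real.log_pos (by norm_num)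
  have h2 := lim_floor hβ
  have hc := tendsto_const_div_atTop_nhds_zero_nat c
  have h3 : Tendsto (fun n : ℕ => (c / n + H + (((⌊β * n⌋₊ : ℕ) : ℝ) / n) * Q)
      / ((1 + 2 * (((⌊β * n⌋₊ : ℕ) : ℝ) / n)) * Real.log 2)) atTop
      (𝓝 ((0 + H + β * Q) / ((1 + 2 * β) * Real.log 2))) := by
    apply Tendsto.div
    · exact (hc.add_const H).add (h2.mul_const Q)
    · exact ((h2.const_mul 2).const_add 1).mul_const _
    · have : 0 < (1 + 2 * β) * Real.log 2 := by positivity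
      exact this.ne'
  rw [zero_add] at h3
  apply h3.congr'
  filter_upwards [eventually_ge_atTop 1] with n hn
  have hn0 : (0 : ℝ) < n := by exact_mod_cast hn
  have h5 : (0 : ℝ) ≤ ((⌊β * n⌋₊ : ℕ) : ℝ) := Nat.cast_nonneg _
  have h6 : (0 : ℝ) < (n : ℝ) + 2 * ((⌊β * n⌋₊ : ℕ) : ℝ) := by linarith
  have h7 : (0 : ℝ) < 1 + 2 * (((⌊β * n⌋₊ : ℕ) : ℝ) / n) := by positivity
  field_simp

theorem lim_aux {τ q β : ℝ} (hτ0 : 0 < τ) (hτ : τ ≤ 1 / 5) (hq0 : 0 < q) (hq : q ≤ 1 / 2)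
    (hβ : 0 ≤ β) (hβ1 : β ≤ 1 / 1000) (hc : 5000 * β * q ≤ (τ * (1 - τ)) ^ 2) {J : ℕ}
    (hJ : 1 ≤ J) {δ : ℝ} (hδ : 0 ≤ δ)
    (hlt : 1 - 2 * δ
      < 2 * Real.cos (Real.pi / ((J : ℝ) + 2)) * Real.sqrt (τ * (1 - τ)) / (1 + 2 * β)) :
    Tensor.ell δ
      ≤ (Real.binEntropy τ / Real.log 2 + β * Real.logb 2 (1 - q)) / (1 + 2 * β) := by
  have hlog2 : 0 < Real.log 2 := Real.log_pos (by norm_num)
  have hlim := lim_value hβ (Real.binEntropy τ) (Real.log (2 * (J + 1))) (Real.log (1 - q))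
  have e0 : (Real.binEntropy τ + β * Real.log (1 - q)) / ((1 + 2 * β) * Real.log 2)
      = (Real.binEntropy τ / Real.log 2 + β * Real.logb 2 (1 - q)) / (1 + 2 * β) := by
    rw [Real.logb]
    have : 0 < 1 + 2 * β := by linarith
    field_simp
  rw [e0] at hlim
  apply ge_of_tendsto hlim
  filter_upwards [exists_cert hτ0 hτ hq0 hq hβ hβ1 hc hJ,
    (lim_level hτ0.le hβ J).eventually_const_lt hlt, eventually_ge_atTop 1] with n hcert hl hn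
  obtain ⟨h, hh1, hh2⟩ := hcert
  have hn0 : (0 : ℝ) < n := by exact_mod_cast hn
  have h5 : (0 : ℝ) ≤ ((⌊β * n⌋₊ : ℕ) : ℝ) := Nat.cast_nonneg _
  have h6 : (0 : ℝ) < (n : ℝ) + 2 * ((⌊β * n⌋₊ : ℕ) : ℝ) := by linarith
  have hcast : ((n + 2 * ⌊β * n⌋₊ : ℕ) : ℝ) = (n : ℝ) + 2 * ((⌊β * n⌋₊ : ℕ) : ℝ) := by
    push_cast; ring
  have hh3 : Tensor.IsCert ((1 - 2 * δ) * ((n + 2 * ⌊β * n⌋₊ : ℕ) : ℝ)) h := by
    apply hh1.mono
    rw [hcast]
    rw [lt_div_iff₀ h6] at hl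
    exact hl.le
  refine (Tensor.ell_le_of_cert hδ (by omega) hh3).trans ?_
  have htn : ⌊τ * n⌋₊ ≤ n := by
    apply Nat.floor_le_of_le
    nlinarith
  have hch := lim_choose hτ0 (by linarith) (Nat.floor_le (by positivity : 0 ≤ τ * (n : ℝ))) htn
  have hchp : (0 : ℝ) < n.choose ⌊τ * n⌋₊ := by exact_mod_cast Nat.choose_pos htn
  have hv1 : 0 < Tensor.val h := lt_of_lt_of_le one_pos (Tensor.one_le_val hh1)
  have hq1 : 0 < 1 - q := by linarith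
  have hlog := Real.log_le_log hv1 hh2
  rw [Real.log_mul (by positivity) (by positivity), Real.log_mul (by positivity) hchp.ne',
    Real.log_pow] at hlog
  have hlc := Real.log_le_log hchp hch
  rw [Real.log_exp] at hlc
  rw [Real.logb, div_div, hcast, mul_comm (Real.log 2)]
  gcongr
  linarith

theorem ell_le_param {τ q β : ℝ} (hτ0 : 0 < τ) (hτ : τ ≤ 1 / 5) (hq0 : 0 < q) (hq : q ≤ 1 / 2)
    (hβ : 0 ≤ β) (hβ1 : β ≤ 1 / 1000) (hc : 5000 * β * q ≤ (τ * (1 - τ)) ^ 2) :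
    Tensor.ell (1 / 2 - Real.sqrt (τ * (1 - τ)) / (1 + 2 * β))
      ≤ (Real.binEntropy τ / Real.log 2 + β * Real.logb 2 (1 - q)) / (1 + 2 * β) := by
  set s := Real.sqrt (τ * (1 - τ)) with hs
  have hw0 : 0 < τ * (1 - τ) := mul_pos hτ0 (by linarith)
  have hs0 : 0 < s := Real.sqrt_pos.2 hw0
  have hssq : s ^ 2 = τ * (1 - τ) := Real.sq_sqrt hw0.le
  have hs1 : s < 1 / 2 := by
    apply lt_of_pow_lt_pow_left₀ 2 (by norm_num)
    rw [hssq]
    nlinarith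
  have hb : 1 ≤ 1 + 2 * β := by linarith
  have hb0 : 0 < 1 + 2 * β := by linarith
  have hsb : s / (1 + 2 * β) ≤ s := div_le_self hs0.le hb
  set δ0 := 1 / 2 - s / (1 + 2 * β) with hδ0
  have hδpos : 0 < δ0 := by rw [hδ0]; linarith
  have hcont : ContinuousAt Tensor.ell δ0 :=
    Tensor.ell_continuousOn.continuousAt (Ioi_mem_nhds hδpos)
  have ht : Tendsto Tensor.ell (𝓝[>] δ0) (𝓝 (Tensor.ell δ0)) :=
    hcont.tendsto.mono_left nhdsWithin_le_nhds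
  apply le_of_tendsto ht
  filter_upwards [self_mem_nhdsWithin] with δ hδ
  have hδ' : δ0 < δ := hδ
  have hlimJ : Tendsto (fun J : ℕ => 2 * Real.cos (Real.pi / ((J : ℝ) + 2)) * s / (1 + 2 * β))
      atTop (𝓝 (2 * Real.cos 0 * s / (1 + 2 * β))) := by
    apply Tendsto.div_const
    apply Tendsto.mul_const
    apply Tendsto.const_mul
    apply (Real.continuous_cos.tendsto 0).comp
    apply Tendsto.div_atTop tendsto_const_nhds
    exact tendsto_atTop_add_const_right _ _ (tendsto_natCast_atTop_atTop (R := ℝ))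
  have hlt : 1 - 2 * δ < 2 * Real.cos 0 * s / (1 + 2 * β) := by
    rw [Real.cos_zero, mul_one]
    have : 2 * s / (1 + 2 * β) = 1 - 2 * δ0 := by rw [hδ0]; ring
    rw [this]
    linarith
  obtain ⟨J, hJ, hJ1⟩ := ((hlimJ.eventually_const_lt hlt).and (eventually_ge_atTop 1)).exists
  exact lim_aux hτ0 hτ hq0 hq hβ hβ1 hc hJ1 (hδpos.le.trans hδ'.le) hJ

end Pool.Agent.Lib.MP_0430e4_lc.All
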