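import Pool.Agent.Lib.MP_0430e4_lc.All.Defs

/-!
# Local limit theorem with a negative binomial correction
-/

set_option autoImplicit false

namespace Pool.Agent.Lib.MP_0430e4_lc.All

open Finset Polynomial

/-- the factor `1 + p (e^{iθ} - 1)` -/
noncomputable def LLTq (p θ : ℝ) : ℂ := 1 + p * (Complex.exp (θ * Complex.I) - 1)

lemma LLTq_re (p θ : ℝ) : (LLTq p θ).re = 1 + p * (Real.cos θ - 1) := by
  simp [LLTq, Complex.exp_ofReal_mul_I_re, Complex.exp_ofReal_mul_I_im]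

lemma LLTq_im (p θ : ℝ) : (LLTq p θ).im = p * Real.sin θ := by
  simp [LLTq, Complex.exp_ofReal_mul_I_re, Complex.exp_ofReal_mul_I_im]

lemma LLTq_norm_sq (p θ : ℝ) :
    ‖LLTq p θ‖ ^ 2 = 1 - 2 * (p * (1 - p)) * (1 - Real.cos θ) := by
  rw [← Complex.normSq_eq_norm_sq, Complex.normSq_apply, LLTq_re, LLTq_im]
  have := Real.sin_sq_add_cos_sq θ
  have h2 : Real.sin θ ^ 2 = 1 - Real.cos θ ^ 2 := by linarith
  calc (1 + p * (Real.cos θ - 1)) * (1 + p * (Real.cos θ - 1)) + p * Real.sin θ * (p * Real.sin θ)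
      = (1 + p * (Real.cos θ - 1)) ^ 2 + p ^ 2 * Real.sin θ ^ 2 := by ring
    _ = _ := by rw [h2]; ring

lemma LLTq_norm_le (p θ : ℝ) :
    ‖LLTq p θ‖ ≤ Real.exp (-(p * (1 - p)) * (1 - Real.cos θ)) := by
  refine (sq_le_sq₀ (norm_nonneg _) (Real.exp_pos _).le).1 ?_
  rw [LLTq_norm_sq, ← Real.exp_nat_mul]
  have h := Real.add_one_le_exp (-(2 * (p * (1 - p)) * (1 - Real.cos θ)))
  refine le_trans (le_of_eq ?_) (h.trans (le_of_eq ?_))
  · ring
  · congr 1
    push_cast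
    ring

/-- the rotated factor -/
noncomputable def LLTr (p θ : ℝ) : ℂ := Complex.exp (((-(p * θ) : ℝ) : ℂ) * Complex.I) * LLTq p θ

lemma LLTr_norm (p θ : ℝ) : ‖LLTr p θ‖ = ‖LLTq p θ‖ := by
  rw [LLTr, norm_mul, Complex.norm_exp_ofReal_mul_I, one_mul]

lemma LLTr_re (p θ : ℝ) : (LLTr p θ).re =
    (1 - p) * Real.cos (p * θ) + p * Real.cos ((1 - p) * θ) := by
  rw [LLTr, Complex.mul_re, Complex.exp_ofReal_mul_I_re, Complex.exp_ofReal_mul_I_im, LLTq_re,
    LLTq_im, Real.cos_neg, Real.sin_neg, show (1 - p) * θ = θ - p * θ by ring, Real.cos_sub]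
  ring

lemma LLTr_im (p θ : ℝ) : (LLTr p θ).im =
    p * Real.sin ((1 - p) * θ) - (1 - p) * Real.sin (p * θ) := by
  rw [LLTr, Complex.mul_im, Complex.exp_ofReal_mul_I_re, Complex.exp_ofReal_mul_I_im, LLTq_re,
    LLTq_im, Real.cos_neg, Real.sin_neg, show (1 - p) * θ = θ - p * θ by ring, Real.sin_sub]
  ring

lemma LLTr_im_le (p θ : ℝ) : |(LLTr p θ).im| ≤
    |p| * |1 - p| * (p ^ 2 + (1 - p) ^ 2) * (|θ| ^ 3 / 6) := by
  have h1 : (LLTr p θ).im = (1 - p) * (p * θ - Real.sin (p * θ)) -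
      p * ((1 - p) * θ - Real.sin ((1 - p) * θ)) := by
    rw [LLTr_im]
    ring
  have h2 := Real.abs_sub_sin_le (p * θ)
  have h3 := Real.abs_sub_sin_le ((1 - p) * θ)
  rw [h1]
  refine (abs_sub _ _).trans ?_
  rw [abs_mul, abs_mul]
  have h4 := mul_le_mul_of_nonneg_left h2 (abs_nonneg (1 - p))
  have h5 := mul_le_mul_of_nonneg_left h3 (abs_nonneg p)
  refine (add_le_add h4 h5).trans (le_of_eq ?_)
  rw [abs_mul, abs_mul]
  have e1 : |p| ^ 2 = p ^ 2 := sq_abs p
  have e2 : |1 - p| ^ 2 = (1 - p) ^ 2 := sq_abs (1 - p)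
  rw [← e1, ← e2]
  ring

lemma LLT_arg_le {z : ℂ} (hz : 0 < z.re) : |Complex.arg z| ≤ |z.im| / z.re := by
  have h1 : |Complex.arg z| < Real.pi / 2 := Complex.abs_arg_lt_pi_div_two_iff.2 (Or.inl hz)
  have h2 : |z.im| / z.re = |Real.tan (Complex.arg z)| := by
    rw [Complex.tan_arg, abs_div, abs_of_pos hz]
  rw [h2]
  rcases le_total 0 (Complex.arg z) with h | h
  · rw [abs_of_nonneg h] at h1 ⊢
    exact (Real.le_tan h h1).trans (le_abs_self _)
  · rw [abs_of_nonpos h] at h1 ⊢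
    have h3 := Real.le_tan (neg_nonneg.2 h) h1
    rw [Real.tan_neg] at h3
    exact h3.trans (neg_le_abs _)

/-- the argument of a Bernoulli factor -/
lemma LLT_arg_p {p θ : ℝ} (hp0 : 0 ≤ p) (hp1 : p ≤ 1) (hθ : θ ^ 2 ≤ 1 / 36) :
    |Complex.arg (LLTr p θ)| ≤ 168 / 1000 * (p * (1 - p)) * |θ| ^ 3 := by
  have hb : 0 ≤ p * (1 - p) := mul_nonneg hp0 (by linarith)
  have hb4 : p * (1 - p) ≤ 1 / 4 := by nlinarith [sq_nonneg (p - 1 / 2)]
  have hre : 287 / 288 ≤ (LLTr p θ).re := by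
    rw [LLTr_re]
    have h1 := @Real.one_sub_sq_div_two_le_cos (p * θ)
    have h2 := @Real.one_sub_sq_div_two_le_cos ((1 - p) * θ)
    have h3 := mul_le_mul_of_nonneg_left h1 (show 0 ≤ 1 - p by linarith)
    have h4 := mul_le_mul_of_nonneg_left h2 hp0
    have h5 : (1 - p) * (1 - (p * θ) ^ 2 / 2) + p * (1 - ((1 - p) * θ) ^ 2 / 2) =
        1 - p * (1 - p) * θ ^ 2 / 2 := by ring
    have h6 : p * (1 - p) * θ ^ 2 ≤ 1 / 4 * (1 / 36) := mul_le_mul hb4 hθ (sq_nonneg _) (by norm_num)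
    linarith
  have hpos : 0 < (LLTr p θ).re := by linarith
  refine (LLT_arg_le hpos).trans ?_
  rw [div_le_iff₀ hpos]
  have him := LLTr_im_le p θ
  rw [abs_of_nonneg hp0, abs_of_nonneg (show 0 ≤ 1 - p by linarith)] at him
  have h7 : p ^ 2 + (1 - p) ^ 2 ≤ 1 := by nlinarith
  have h8 : 0 ≤ |θ| ^ 3 := by positivity
  have h9 : p * (1 - p) * (p ^ 2 + (1 - p) ^ 2) * (|θ| ^ 3 / 6) ≤
      p * (1 - p) * 1 * (|θ| ^ 3 / 6) := by
    apply mul_le_mul_of_nonneg_right _ (by positivity)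
    exact mul_le_mul_of_nonneg_left h7 hb
  have h10 : 168 / 1000 * (p * (1 - p)) * |θ| ^ 3 * (287 / 288) ≤
      168 / 1000 * (p * (1 - p)) * |θ| ^ 3 * (LLTr p θ).re :=
    mul_le_mul_of_nonneg_left hre (by positivity)
  have h11 : 0 ≤ p * (1 - p) * |θ| ^ 3 := by positivity
  nlinarith

/-- the argument of a factor of negative weight -/
lemma LLT_arg_r {r θ : ℝ} (hr0 : 0 ≤ r) (hr3 : r ≤ 3) (hθ : θ ^ 2 ≤ 1 / 36) :
    |Complex.arg (LLTr (-r) θ)| ≤ 25 / 3 * (r * (1 + r)) * |θ| ^ 3 := by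
  have hre : 1 / 2 ≤ (LLTr (-r) θ).re := by
    rw [LLTr_re]
    have h1 := @Real.one_sub_sq_div_two_le_cos (-r * θ)
    have h2 := Real.cos_le_one ((1 - -r) * θ)
    have h3 := mul_le_mul_of_nonneg_left h1 (show 0 ≤ 1 - -r by linarith)
    have h4 := mul_le_mul_of_nonneg_left h2 hr0
    have h5 : (1 - -r) * (1 - (-r * θ) ^ 2 / 2) - r * 1 = 1 - (1 + r) * r ^ 2 * θ ^ 2 / 2 := by ring
    have h6 : (1 + r) * r ^ 2 ≤ 4 * 9 := mul_le_mul (by linarith) (by nlinarith) (sq_nonneg _)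
      (by norm_num)
    have h7 : (1 + r) * r ^ 2 * θ ^ 2 ≤ 4 * 9 * (1 / 36) := mul_le_mul h6 hθ (sq_nonneg _)
      (by norm_num)
    linarith
  have hpos : 0 < (LLTr (-r) θ).re := by linarith
  refine (LLT_arg_le hpos).trans ?_
  rw [div_le_iff₀ hpos]
  have him := LLTr_im_le (-r) θ
  rw [abs_neg, abs_of_nonneg hr0, abs_of_nonneg (show 0 ≤ 1 - -r by linarith)] at him
  have h7 : (-r) ^ 2 + (1 - -r) ^ 2 ≤ 25 := by nlinarith
  have h8 : 0 ≤ |θ| ^ 3 := by positivity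
  have hb : 0 ≤ r * (1 - -r) := mul_nonneg hr0 (by linarith)
  have h9 : r * (1 - -r) * ((-r) ^ 2 + (1 - -r) ^ 2) * (|θ| ^ 3 / 6) ≤
      r * (1 - -r) * 25 * (|θ| ^ 3 / 6) := by
    apply mul_le_mul_of_nonneg_right _ (by positivity)
    exact mul_le_mul_of_nonneg_left h7 hb
  have h10 : 25 / 3 * (r * (1 + r)) * |θ| ^ 3 * (1 / 2) ≤
      25 / 3 * (r * (1 + r)) * |θ| ^ 3 * (LLTr (-r) θ).re :=
    mul_le_mul_of_nonneg_left hre (by positivity)
  have h11 : r * (1 - -r) * 25 * (|θ| ^ 3 / 6) = 25 / 3 * (r * (1 + r)) * |θ| ^ 3 * (1 / 2) := by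
    ring
  linarith

/-- lower bound for the modulus -/
lemma LLT_norm_ge_p {p θ : ℝ} (hp0 : 0 ≤ p) (hp1 : p ≤ 1) :
    1 - p * (1 - p) * (θ ^ 2 / 2) ≤ ‖LLTq p θ‖ := by
  rw [← LLTr_norm]
  refine le_trans ?_ (Complex.re_le_norm _)
  rw [LLTr_re]
  have h1 := @Real.one_sub_sq_div_two_le_cos (p * θ)
  have h2 := @Real.one_sub_sq_div_two_le_cos ((1 - p) * θ)
  have h3 := mul_le_mul_of_nonneg_left h1 (show 0 ≤ 1 - p by linarith)
  have h4 := mul_le_mul_of_nonneg_left h2 hp0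
  have h5 : (1 - p) * (1 - (p * θ) ^ 2 / 2) + p * (1 - ((1 - p) * θ) ^ 2 / 2) =
      1 - p * (1 - p) * (θ ^ 2 / 2) := by ring
  linarith

lemma LLT_norm_ge_r {r θ : ℝ} (hr0 : 0 ≤ r) : 1 ≤ ‖LLTq (-r) θ‖ := by
  have h := LLTq_norm_sq (-r) θ
  have h1 := Real.cos_le_one θ
  have h2 : 0 ≤ r * (1 + r) * (1 - Real.cos θ) :=
    mul_nonneg (mul_nonneg hr0 (by linarith)) (by linarith)
  nlinarith [norm_nonneg (LLTq (-r) θ)]

/-- Weierstrass -/
lemma LLT_prod_ge {ι : Type*} (s : Finset ι) (x : ι → ℝ) (h0 : ∀ j ∈ s, 0 ≤ x j)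
    (h1 : ∀ j ∈ s, x j ≤ 1) : 1 - ∑ j ∈ s, x j ≤ ∏ j ∈ s, (1 - x j) := by
  classical
  induction s using Finset.induction_on with
  | empty => simp
  | insert j s hj ih =>
    rw [Finset.sum_insert hj, Finset.prod_insert hj]
    have h2 := ih (fun i hi => h0 i (Finset.mem_insert_of_mem hi))
      (fun i hi => h1 i (Finset.mem_insert_of_mem hi))
    have h3 : 0 ≤ ∑ i ∈ s, x i := Finset.sum_nonneg fun i hi => h0 i (Finset.mem_insert_of_mem hi)
    have h4 := h0 j (Finset.mem_insert_self j s)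
    have h5 := h1 j (Finset.mem_insert_self j s)
    nlinarith [mul_le_mul_of_nonneg_left h2 (show 0 ≤ 1 - x j by linarith)]

/-- products of complex numbers of small total argument -/
lemma LLT_re_ge {a : ℕ} (z : Fin a → ℂ) (w : ℂ) (M : ℕ)
    (h : ∑ j, |Complex.arg (z j)| + M * |Complex.arg w| ≤ Real.pi / 3) :
    1 / 2 * ‖(∏ j, z j) * w ^ M‖ ≤ ((∏ j, z j) * w ^ M).re := by
  have h1 : (∏ j, z j) * w ^ M = ((‖(∏ j, z j) * w ^ M‖ : ℝ) : ℂ) *
      Complex.exp (((∑ j, Complex.arg (z j) + M * Complex.arg w : ℝ) : ℂ) * Complex.I) := by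
    have h2 : ∀ j, z j = (‖z j‖ : ℂ) * Complex.exp ((Complex.arg (z j) : ℂ) * Complex.I) :=
      fun j => (Complex.norm_mul_exp_arg_mul_I (z j)).symm
    have h3 : w = (‖w‖ : ℂ) * Complex.exp ((Complex.arg w : ℂ) * Complex.I) :=
      (Complex.norm_mul_exp_arg_mul_I w).symm
    have h4 : ∏ j, z j = (∏ j, (‖z j‖ : ℂ)) *
        Complex.exp (∑ j, (Complex.arg (z j) : ℂ) * Complex.I) := by
      rw [Complex.exp_sum, ← Finset.prod_mul_distrib]
      exact Finset.prod_congr rfl fun j _ => h2 j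
    have h5 : w ^ M = (‖w‖ : ℂ) ^ M * Complex.exp (M * ((Complex.arg w : ℂ) * Complex.I)) := by
      conv_lhs => rw [h3]
      rw [mul_pow, ← Complex.exp_nat_mul]
    conv_lhs => rw [h4, h5]
    rw [norm_mul, norm_prod, norm_pow]
    push_cast
    rw [mul_mul_mul_comm, ← Complex.exp_add]
    congr 2
    rw [← Finset.sum_mul]
    ring
  set A : ℝ := ∑ j, Complex.arg (z j) + M * Complex.arg w with hA
  have hA1 : |A| ≤ Real.pi / 3 := by
    rw [hA]
    refine (abs_add_le _ _).trans ?_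
    rw [abs_mul, Nat.abs_cast]
    exact (add_le_add (Finset.abs_sum_le_sum_abs _ _) le_rfl).trans h
  have hcos : 1 / 2 ≤ Real.cos A := by
    rw [← Real.cos_abs, ← Real.cos_pi_div_three]
    exact Real.cos_le_cos_of_nonneg_of_le_pi (abs_nonneg _)
      (by linarith [Real.pi_pos]) hA1
  have hre : ((∏ j, z j) * w ^ M).re = ‖(∏ j, z j) * w ^ M‖ * Real.cos A := by
    conv_lhs => rw [h1]
    rw [Complex.re_ofReal_mul, Complex.exp_ofReal_mul_I_re]
  rw [hre]
  nlinarith [norm_nonneg ((∏ j, z j) * w ^ M)]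

/-- the integral of a trigonometric polynomial -/
lemma LLT_integral (F : ℝ[X]) (i : ℕ) :
    ∫ θ in (-Real.pi)..Real.pi,
      ∑ k ∈ range (F.natDegree + 1), F.coeff k * Real.cos ((((k : ℤ) - (i : ℤ) : ℤ) : ℝ) * θ)
      = 2 * Real.pi * F.coeff i := by
  rw [intervalIntegral.integral_finsetSum]
  · have h1 : ∀ k ∈ range (F.natDegree + 1), ∫ θ in (-Real.pi)..Real.pi,
        F.coeff k * Real.cos ((((k : ℤ) - (i : ℤ) : ℤ) : ℝ) * θ) =
        if k = i then 2 * Real.pi * F.coeff i else 0 := by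
      intro k _
      rw [intervalIntegral.integral_const_mul]
      split_ifs with hk
      · subst hk
        simp
        ring
      · have hm : ((((k : ℤ) - (i : ℤ) : ℤ) : ℝ)) ≠ 0 := by
          have : ((k : ℤ) - (i : ℤ) : ℤ) ≠ 0 := by omega
          exact_mod_cast this
        rw [intervalIntegral.integral_comp_mul_left _ hm, integral_cos, mul_neg, Real.sin_neg,
          Real.sin_int_mul_pi]
        simp
    rw [Finset.sum_congr rfl h1, Finset.sum_ite_eq']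
    split_ifs with hi
    · rfl
    · have h2 : F.coeff i = 0 := by
        apply Polynomial.coeff_eq_zero_of_natDegree_lt
        rw [Finset.mem_range] at hi
        omega
      rw [h2, mul_zero]
  · intro k _
    apply Continuous.intervalIntegrable
    fun_prop

/-- the polynomial on the unit circle -/
lemma LLT_eval (F : ℝ[X]) (i : ℕ) (θ : ℝ) :
    (Complex.exp (((-(i * θ) : ℝ) : ℂ) * Complex.I) *
      aeval (Complex.exp (θ * Complex.I)) F).re =
    ∑ k ∈ range (F.natDegree + 1), F.coeff k * Real.cos ((((k : ℤ) - (i : ℤ) : ℤ) : ℝ) * θ) := by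
  rw [Polynomial.aeval_eq_sum_range, Finset.mul_sum, Complex.re_sum]
  refine Finset.sum_congr rfl fun k _ => ?_
  have h1 : Complex.exp (((-(i * θ) : ℝ) : ℂ) * Complex.I) *
      (F.coeff k • Complex.exp (θ * Complex.I) ^ k) =
      (F.coeff k : ℂ) * Complex.exp (((((((k : ℤ) - (i : ℤ) : ℤ) : ℝ) * θ : ℝ)) : ℂ) *
        Complex.I) := by
    rw [Complex.real_smul, ← Complex.exp_nat_mul, mul_left_comm, ← Complex.exp_add]
    congr 2
    push_cast
    ring
  rw [h1, Complex.re_ofReal_mul, Complex.exp_ofReal_mul_I_re]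

theorem llt {a : ℕ} (p : Fin a → ℝ) (hp0 : ∀ j, 0 ≤ p j) (hp1 : ∀ j, p j ≤ 1) {r : ℝ}
    (hr0 : 0 ≤ r) (hr3 : r ≤ 3) (M i : ℕ) (hm : ∑ j, p j - M * r = i)
    (hV : 800 ≤ ∑ j, p j * (1 - p j))
    (hr : 100 * (M * (r * (1 + r))) ≤ ∑ j, p j * (1 - p j)) :
    0 < ((∏ j, (1 + C (p j) * (X - 1))) * (1 - C r * (X - 1)) ^ M : ℝ[X]).coeff i := by
  set F : ℝ[X] := (∏ j, (1 + C (p j) * (X - 1))) * (1 - C r * (X - 1)) ^ M with hF
  set V : ℝ := ∑ j, p j * (1 - p j) with hVdef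
  have hpq : ∀ j, 0 ≤ p j * (1 - p j) := fun j => mul_nonneg (hp0 j) (by linarith [hp1 j])
  have hV0 : 0 < V := by linarith
  obtain ⟨s, hs0, hs3⟩ : ∃ s : ℝ, 0 < s ∧ s ^ 3 = V := by
    refine ⟨V ^ ((1 : ℝ) / 3), Real.rpow_pos_of_pos hV0 _, ?_⟩
    rw [← Real.rpow_natCast, ← Real.rpow_mul hV0.le]
    norm_num
  have hs9 : 9 ≤ s := by
    by_contra hcon
    push Not at hcon
    have : s ^ 3 < 9 ^ 3 := pow_lt_pow_left₀ hcon hs0.le (by norm_num)
    norm_num at this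
    linarith
  -- the function on the circle
  set Φ : ℝ → ℂ := fun θ => (∏ j, LLTr (p j) θ) * LLTr (-r) θ ^ M with hΦ
  have hΦF : ∀ θ : ℝ, Φ θ = Complex.exp (((-(i * θ) : ℝ) : ℂ) * Complex.I) *
      aeval (Complex.exp (θ * Complex.I)) F := by
    intro θ
    have e1 : aeval (Complex.exp (θ * Complex.I)) F = (∏ j, LLTq (p j) θ) * LLTq (-r) θ ^ M := by
      rw [hF, map_mul, map_prod, map_pow]
      congr 1
      · refine Finset.prod_congr rfl fun j _ => ?_
        simp [LLTq]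
      · congr 1
        simp [LLTq]
        ring
    have e2 : Complex.exp (((-(i * θ) : ℝ) : ℂ) * Complex.I) =
        (∏ j, Complex.exp (((-(p j * θ) : ℝ) : ℂ) * Complex.I)) *
          Complex.exp (((-(-r * θ) : ℝ) : ℂ) * Complex.I) ^ M := by
      rw [← Complex.exp_sum, ← Complex.exp_nat_mul, ← Complex.exp_add]
      congr 1
      rw [← Finset.sum_mul, ← hm]
      push_cast
      rw [Finset.sum_neg_distrib, ← Finset.sum_mul]
      ring
    rw [e1, e2, hΦ]
    simp only [LLTr]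
    rw [Finset.prod_mul_distrib, mul_pow]
    ring
  have hΦnorm : ∀ θ, ‖Φ θ‖ = (∏ j, ‖LLTq (p j) θ‖) * ‖LLTq (-r) θ‖ ^ M := by
    intro θ
    rw [hΦ]
    simp only [norm_mul, norm_prod, norm_pow, LLTr_norm]
  have key1 : ∀ θ : ℝ, |θ| ≤ 3 / (2 * s) → 1 / 2 * ‖Φ θ‖ ≤ (Φ θ).re := by
    intro θ hθ
    apply LLT_re_ge
    have h6 : |θ| ≤ 1 / 6 := by
      refine hθ.trans ?_
      rw [div_le_div_iff₀ (by positivity) (by norm_num)]
      linarith
    have h36 : θ ^ 2 ≤ 1 / 36 := by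
      rw [← sq_abs]
      nlinarith [abs_nonneg θ]
    have hV3 : V * |θ| ^ 3 ≤ 27 / 8 := by
      have h7 : |θ| ^ 3 ≤ (3 / (2 * s)) ^ 3 := pow_le_pow_left₀ (abs_nonneg _) hθ 3
      calc V * |θ| ^ 3 ≤ s ^ 3 * (3 / (2 * s)) ^ 3 := by
            rw [hs3]
            exact mul_le_mul_of_nonneg_left h7 hV0.le
        _ = 27 / 8 := by
            field_simp
            norm_num
    have hA : ∑ j, |Complex.arg (LLTr (p j) θ)| ≤ 168 / 1000 * V * |θ| ^ 3 := by
      calc ∑ j, |Complex.arg (LLTr (p j) θ)| ≤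
          ∑ j, 168 / 1000 * (p j * (1 - p j)) * |θ| ^ 3 :=
            Finset.sum_le_sum fun j _ => LLT_arg_p (hp0 j) (hp1 j) h36
        _ = 168 / 1000 * V * |θ| ^ 3 := by
            rw [← Finset.sum_mul, ← Finset.mul_sum]
    have hB : M * |Complex.arg (LLTr (-r) θ)| ≤ 1 / 12 * V * |θ| ^ 3 := by
      have h8 := mul_le_mul_of_nonneg_left (LLT_arg_r (θ := θ) hr0 hr3 h36) (Nat.cast_nonneg M)
      refine h8.trans ?_
      have h9 : (M : ℝ) * (25 / 3 * (r * (1 + r)) * |θ| ^ 3) =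
          1 / 12 * (100 * (M * (r * (1 + r)))) * |θ| ^ 3 := by ring
      rw [h9]
      have h10 : (0 : ℝ) ≤ |θ| ^ 3 := by positivity
      nlinarith
    have hpi := Real.pi_gt_three
    linarith
  have key2 : ∀ θ : ℝ, ‖Φ θ‖ ≤ Real.exp (-(99 / 100 * V * (1 - Real.cos θ))) := by
    intro θ
    rw [hΦnorm]
    have h1 : ∏ j, ‖LLTq (p j) θ‖ ≤ Real.exp (∑ j, -(p j * (1 - p j)) * (1 - Real.cos θ)) := by
      rw [Real.exp_sum]
      exact Finset.prod_le_prod (fun j _ => norm_nonneg _) fun j _ => LLTq_norm_le _ _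
    have h2 : ‖LLTq (-r) θ‖ ^ M ≤ Real.exp (M * (-(-r * (1 - -r)) * (1 - Real.cos θ))) := by
      rw [Real.exp_nat_mul]
      exact pow_le_pow_left₀ (norm_nonneg _) (LLTq_norm_le _ _) M
    refine (mul_le_mul h1 h2 (by positivity) (Real.exp_pos _).le).trans ?_
    rw [← Real.exp_add]
    apply Real.exp_le_exp.2
    rw [← Finset.sum_mul, Finset.sum_neg_distrib, ← hVdef]
    have h3 : 0 ≤ 1 - Real.cos θ := by linarith [Real.cos_le_one θ]
    have h4 : (M : ℝ) * (-(-r * (1 - -r)) * (1 - Real.cos θ)) =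
        (M * (r * (1 + r))) * (1 - Real.cos θ) := by ring
    rw [h4]
    nlinarith
  have key3 : ∀ θ : ℝ, |θ| ≤ 1 / s ^ 2 → 17 / 18 ≤ ‖Φ θ‖ := by
    intro θ hθ
    rw [hΦnorm]
    have hθ4 : θ ^ 2 ≤ 1 / s ^ 4 := by
      rw [← sq_abs]
      calc |θ| ^ 2 ≤ (1 / s ^ 2) ^ 2 := pow_le_pow_left₀ (abs_nonneg _) hθ 2
        _ = 1 / s ^ 4 := by
            field_simp
    have hθ1 : θ ^ 2 ≤ 1 := by
      refine hθ4.trans ?_
      rw [div_le_one (by positivity)]
      exact one_le_pow₀ (by linarith)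
    have h1 : 1 - ∑ j, p j * (1 - p j) * (θ ^ 2 / 2) ≤ ∏ j, ‖LLTq (p j) θ‖ := by
      have hx0 : ∀ j ∈ (Finset.univ : Finset (Fin a)), 0 ≤ p j * (1 - p j) * (θ ^ 2 / 2) :=
        fun j _ => mul_nonneg (hpq j) (by positivity)
      have hx1 : ∀ j ∈ (Finset.univ : Finset (Fin a)), p j * (1 - p j) * (θ ^ 2 / 2) ≤ 1 := by
        intro j _
        have hb4 : p j * (1 - p j) ≤ 1 := by nlinarith [sq_nonneg (p j - 1 / 2)]
        nlinarith [hpq j, sq_nonneg θ]
      refine (LLT_prod_ge _ _ hx0 hx1).trans ?_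
      exact Finset.prod_le_prod (fun j hj => by linarith [hx1 j hj])
        fun j _ => LLT_norm_ge_p (hp0 j) (hp1 j)
    have h2 : (1 : ℝ) ≤ ‖LLTq (-r) θ‖ ^ M := one_le_pow₀ (LLT_norm_ge_r hr0)
    have h3 : ∑ j, p j * (1 - p j) * (θ ^ 2 / 2) ≤ 1 / 18 := by
      rw [← Finset.sum_mul, ← hVdef, ← hs3]
      calc s ^ 3 * (θ ^ 2 / 2) ≤ s ^ 3 * ((1 / s ^ 4) / 2) := by
            apply mul_le_mul_of_nonneg_left _ (by positivity)
            linarith
        _ = 1 / (2 * s) := by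
            field_simp
        _ ≤ 1 / 18 := by
            apply one_div_le_one_div_of_le (by norm_num)
            linarith
    have h4 : 17 / 18 ≤ ∏ j, ‖LLTq (p j) θ‖ := by linarith
    calc (17 / 18 : ℝ) = 17 / 18 * 1 := by ring
      _ ≤ _ := mul_le_mul h4 h2 zero_le_one (by linarith)
  -- the real function
  set f : ℝ → ℝ := fun θ => ∑ k ∈ range (F.natDegree + 1),
    F.coeff k * Real.cos ((((k : ℤ) - (i : ℤ) : ℤ) : ℝ) * θ) with hf
  have hfΦ : ∀ θ, f θ = (Φ θ).re := by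
    intro θ
    rw [hΦF θ, LLT_eval]
  have hint : ∫ θ in (-Real.pi)..Real.pi, f θ = 2 * Real.pi * F.coeff i := LLT_integral F i
  have hcont : Continuous f := by
    rw [hf]
    fun_prop
  -- lower bounds
  set B : ℝ := Real.exp (-(111 / 100 * s)) with hB
  have hθ0 : 3 / (2 * s) ≤ 1 / 6 := by
    rw [div_le_div_iff₀ (by positivity) (by norm_num)]
    linarith
  have hlow : ∀ θ : ℝ, |θ| ≤ Real.pi → -B ≤ f θ := by
    intro θ hθ
    rw [hfΦ]
    rcases le_total |θ| (3 / (2 * s)) with h | h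
    · have h1 := key1 θ h
      have h2 := norm_nonneg (Φ θ)
      have h3 := (Real.exp_pos (-(111 / 100 * s))).le
      linarith
    · have h1 : -‖Φ θ‖ ≤ (Φ θ).re := by
        have := Complex.abs_re_le_norm (Φ θ)
        exact (abs_le.1 this).1
      refine le_trans ?_ h1
      apply neg_le_neg
      refine (key2 θ).trans ?_
      apply Real.exp_le_exp.2
      apply neg_le_neg
      have hcos : Real.cos θ ≤ Real.cos (3 / (2 * s)) := by
        rw [← Real.cos_abs θ]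
        exact Real.cos_le_cos_of_nonneg_of_le_pi (by positivity) hθ h
      have hc0 : Real.cos (3 / (2 * s)) ≤ 1 - 4985 / 10000 * (3 / (2 * s)) ^ 2 := by
        set x : ℝ := 3 / (2 * s) with hx
        have hx0 : 0 ≤ x := by positivity
        have h3 := Real.cos_bound (x := x) (by rw [abs_of_nonneg hx0]; linarith)
        have h4 := (abs_le.1 h3).2
        rw [abs_of_nonneg hx0] at h4
        have h5 : x ^ 4 ≤ 1 / 36 * x ^ 2 := by
          have h6 : x ^ 2 ≤ 1 / 36 := by nlinarith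
          nlinarith [sq_nonneg x]
        nlinarith [sq_nonneg x]
      have h7 : 4985 / 10000 * (3 / (2 * s)) ^ 2 ≤ 1 - Real.cos θ := by linarith
      calc 111 / 100 * s ≤ 99 / 100 * s ^ 3 * (4985 / 10000 * (3 / (2 * s)) ^ 2) := by
            have h8 : 99 / 100 * s ^ 3 * (4985 / 10000 * (3 / (2 * s)) ^ 2) =
                99 / 100 * (4985 / 10000) * (9 / 4) * s := by
              field_simp
              ring
            rw [h8]
            nlinarith
        _ ≤ 99 / 100 * V * (1 - Real.cos θ) := by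
            rw [hs3]
            exact mul_le_mul_of_nonneg_left h7 (by positivity)
  have hmid : ∀ θ : ℝ, |θ| ≤ 1 / s ^ 2 → 17 / 36 ≤ f θ := by
    intro θ hθ
    rw [hfΦ]
    have h0 : |θ| ≤ 3 / (2 * s) := by
      refine hθ.trans ?_
      rw [div_le_div_iff₀ (by positivity) (by positivity)]
      nlinarith
    have h1 := key1 θ h0
    have h2 := key3 θ hθ
    linarith
  set t : ℝ := 1 / s ^ 2 with ht
  have ht0 : 0 < t := by positivity
  have htpi : t ≤ Real.pi := by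
    have h1 : t ≤ 1 := by
      rw [ht, div_le_one (by positivity)]
      exact one_le_pow₀ (by linarith)
    linarith [Real.pi_gt_three]
  have hsplit : ∫ θ in (-Real.pi)..Real.pi, f θ =
      (∫ θ in (-Real.pi)..(-t), f θ) + (∫ θ in (-t)..t, f θ) + ∫ θ in t..Real.pi, f θ := by
    rw [intervalIntegral.integral_add_adjacent_intervals (hcont.intervalIntegrable _ _)
      (hcont.intervalIntegrable _ _), intervalIntegral.integral_add_adjacent_intervals
      (hcont.intervalIntegrable _ _) (hcont.intervalIntegrable _ _)]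
  have hi1 : (-t - -Real.pi) * (-B) ≤ ∫ θ in (-Real.pi)..(-t), f θ := by
    have h1 : ∫ θ in (-Real.pi)..(-t), (-B : ℝ) ≤ ∫ θ in (-Real.pi)..(-t), f θ := by
      apply intervalIntegral.integral_mono_on (by linarith) intervalIntegrable_const
        (hcont.intervalIntegrable _ _)
      intro θ hθ
      apply hlow
      rw [abs_le]
      exact ⟨hθ.1, by linarith [hθ.2, Real.pi_pos]⟩
    rwa [intervalIntegral.integral_const, smul_eq_mul] at h1
  have hi2 : (t - -t) * (17 / 36) ≤ ∫ θ in (-t)..t, f θ := by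
    have h1 : ∫ θ in (-t)..t, (17 / 36 : ℝ) ≤ ∫ θ in (-t)..t, f θ := by
      apply intervalIntegral.integral_mono_on (by linarith) intervalIntegrable_const
        (hcont.intervalIntegrable _ _)
      intro θ hθ
      apply hmid
      rw [abs_le]
      exact ⟨hθ.1, hθ.2⟩
    rwa [intervalIntegral.integral_const, smul_eq_mul] at h1
  have hi3 : (Real.pi - t) * (-B) ≤ ∫ θ in t..Real.pi, f θ := by
    have h1 : ∫ θ in t..Real.pi, (-B : ℝ) ≤ ∫ θ in t..Real.pi, f θ := by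
      apply intervalIntegral.integral_mono_on htpi intervalIntegrable_const
        (hcont.intervalIntegrable _ _)
      intro θ hθ
      apply hlow
      rw [abs_le]
      exact ⟨by linarith [hθ.1, Real.pi_pos], hθ.2⟩
    rwa [intervalIntegral.integral_const, smul_eq_mul] at h1
  have hBpos : 0 < B := Real.exp_pos _
  have htot : 17 / 18 * t - 2 * Real.pi * B ≤ 2 * Real.pi * F.coeff i := by
    rw [← hint, hsplit]
    nlinarith
  -- the numbers
  have hBle : B * (111 / 100 * s) ^ 5 ≤ 120 := by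
    have h1 := Real.pow_div_factorial_le_exp (111 / 100 * s) (by positivity) 5
    have h2 : B * Real.exp (111 / 100 * s) = 1 := by
      rw [hB, ← Real.exp_add]
      simp
    have h3 : ((Nat.factorial 5 : ℕ) : ℝ) = 120 := by norm_num [Nat.factorial]
    rw [h3, div_le_iff₀ (by norm_num)] at h1
    calc B * (111 / 100 * s) ^ 5 ≤ B * (Real.exp (111 / 100 * s) * 120) :=
          mul_le_mul_of_nonneg_left h1 hBpos.le
      _ = 120 := by rw [← mul_assoc, h2, one_mul]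
  have hfinal : 2 * Real.pi * B < 17 / 18 * t := by
    rw [ht]
    have hpi := Real.pi_lt_d2
    have h1 : B * s ^ 5 ≤ 72 := by
      have h2 : B * (111 / 100 * s) ^ 5 = (111 / 100) ^ 5 * (B * s ^ 5) := by ring
      rw [h2] at hBle
      have h3 : (0 : ℝ) ≤ B * s ^ 5 := by positivity
      norm_num at hBle ⊢
      nlinarith
    have h4 : B * s ^ 2 * s ^ 3 = B * s ^ 5 := by ring
    have h5 : B * s ^ 2 * 800 ≤ 72 := by
      rw [hs3] at h4
      have h6 : 0 ≤ B * s ^ 2 := by positivity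
      nlinarith
    have h7 : 2 * Real.pi * (B * s ^ 2) < 17 / 18 := by
      have h8 : 0 ≤ B * s ^ 2 := by positivity
      nlinarith [Real.pi_pos]
    rw [mul_one_div, lt_div_iff₀ (by positivity)]
    linarith
  have hpos : 0 < 2 * Real.pi * F.coeff i := by linarith
  have h2pi : 0 < 2 * Real.pi := by positivity
  exact (mul_pos_iff_of_pos_left h2pi).1 hpos

end Pool.Agent.Lib.MP_0430e4_lc.All
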