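import Pool.Agent.Lib.MP_0430e4_lc.All.Defs

/-!
# Mass polynomials of functions on the cube
-/

set_option autoImplicit false

namespace Pool.Agent.Lib.MP_0430e4_lc.All

open Finset Polynomial

theorem mp_natDegree {n : ℕ} (h : (Fin n → Bool) → ℝ) : (mp h).natDegree ≤ n := by
  unfold mp
  refine natDegree_sum_le_of_forall_le _ _ (fun y _ => ?_)
  exact (natDegree_C_mul_X_pow_le _ _).trans (Impr.wt_le y)

theorem mp_coeff {n : ℕ} (h : (Fin n → Bool) → ℝ) (k : ℕ) :
    (mp h).coeff k = ∑ y, if Impr.wt y = k then h y else 0 := by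
  unfold mp
  rw [finsetSum_coeff]
  apply sum_congr rfl
  intro y _
  rw [coeff_C_mul_X_pow]
  simp only [eq_comm]

theorem mp_eval_one {n : ℕ} (h : (Fin n → Bool) → ℝ) : (mp h).eval 1 = ∑ y, h y := by
  unfold mp
  rw [eval_finsetSum]
  simp

theorem mp_wt_eq_zero {n : ℕ} (y : Fin n → Bool) : Impr.wt y = 0 ↔ y = fun _ => false := by
  unfold Impr.wt
  rw [Finset.card_eq_zero, Finset.filter_eq_empty_iff]
  constructor
  · intro h
    funext i
    have := h (mem_univ i)
    simpa using this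
  · rintro rfl i _
    simp

theorem mp_coeff_zero {n : ℕ} (h : (Fin n → Bool) → ℝ) :
    (mp h).coeff 0 = h (fun _ => false) := by
  rw [mp_coeff]
  simp only [mp_wt_eq_zero]
  simp

/-- weights of words as products -/
theorem mp_pow_wt {n : ℕ} (y : Fin n → Bool) (P : ℝ[X]) :
    P ^ Impr.wt y = ∏ i, if y i = true then P else 1 := by
  unfold Impr.wt
  rw [Finset.prod_ite, Finset.prod_const, Finset.prod_const, one_pow, mul_one]

theorem mp_pow_wt' {n : ℕ} (y : Fin n → Bool) (P : ℝ[X]) :
    P ^ (n - Impr.wt y) = ∏ i, if y i = true then 1 else P := by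
  unfold Impr.wt
  rw [Finset.prod_ite, Finset.prod_const, Finset.prod_const, one_pow, one_mul]
  congr 1
  have := Finset.card_filter_add_card_filter_not (s := (univ : Finset (Fin n)))
    (fun i => y i = true)
  rw [Finset.card_univ, Fintype.card_fin] at this
  omega

/-- generating function of the characters -/
theorem mp_chi {n : ℕ} (y : Fin n → Bool) :
    ∑ x : Fin n → Bool, C (Tensor.chi x y) * X ^ Impr.wt x
      = (1 - X) ^ Impr.wt y * (1 + X) ^ (n - Impr.wt y) := by
  have h1 : ∀ x : Fin n → Bool, C (Tensor.chi x y) * X ^ Impr.wt x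
      = ∏ i, (C (Tensor.sg (x i) (y i)) * (if x i = true then (X : ℝ[X]) else 1)) := by
    intro x
    rw [Tensor.chi_eq, mp_pow_wt, Finset.prod_mul_distrib]
    congr 1
    exact map_prod C _ _
  simp only [h1]
  have h2 := (Finset.prod_univ_sum (fun _ : Fin n => (univ : Finset Bool))
    (fun i b => C (Tensor.sg b (y i)) * (if b = true then (X : ℝ[X]) else 1))).symm
  rw [Fintype.piFinset_univ] at h2
  rw [h2, mp_pow_wt, mp_pow_wt', ← Finset.prod_mul_distrib]
  apply Finset.prod_congr rfl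
  intro i _
  cases y i
  · simp [Tensor.sg, add_comm]
  · simp [Tensor.sg, sub_eq_neg_add]

theorem mac_mp {n : ℕ} (h : (Fin n → Bool) → ℝ) :
    mac n (mp h) = ∑ y, C (h y) * ((1 - X) ^ Impr.wt y * (1 + X) ^ (n - Impr.wt y)) := by
  unfold mac
  simp only [mp_coeff, map_sum, Finset.sum_mul]
  rw [Finset.sum_comm]
  apply Finset.sum_congr rfl
  intro y _
  rw [Finset.sum_eq_single (Impr.wt y)]
  · rw [if_pos rfl]
    ring
  · intro k _ hk
    rw [if_neg (Ne.symm hk)]
    simp
  · intro hk
    exact absurd (Finset.mem_range.2 (Nat.lt_succ_of_le (Impr.wt_le y))) hk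

theorem mac_mp_coeff {n : ℕ} (h : (Fin n → Bool) → ℝ) (j : ℕ) :
    (mac n (mp h)).coeff j
      = ∑ x, if Impr.wt x = j then ∑ y, h y * Tensor.chi x y else 0 := by
  rw [mac_mp]
  simp only [← mp_chi, Finset.mul_sum, finsetSum_coeff]
  rw [Finset.sum_comm]
  apply Finset.sum_congr rfl
  intro x _
  have h1 : ∀ y : Fin n → Bool, (C (h y) * (C (Tensor.chi x y) * X ^ Impr.wt x)).coeff j
      = if Impr.wt x = j then h y * Tensor.chi x y else 0 := by
    intro y
    rw [← mul_assoc, ← C_mul, coeff_C_mul_X_pow]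
    simp only [eq_comm]
  simp only [h1]
  split_ifs with hx
  · rfl
  · simp

/-- the adjacency operator on monomials -/
theorem mp_sum_flp {n : ℕ} (y : Fin n → Bool) :
    ∑ i, (X : ℝ[X]) ^ Impr.wt (Tensor.flp y i)
      = (Impr.wt y : ℝ[X]) * X ^ (Impr.wt y - 1)
        + ((n : ℝ[X]) - (Impr.wt y : ℝ[X])) * X ^ (Impr.wt y + 1) := by
  have h1 : ∀ i, (X : ℝ[X]) ^ Impr.wt (Tensor.flp y i)
      = if y i = true then X ^ (Impr.wt y - 1) else X ^ (Impr.wt y + 1) := by
    intro i
    have h := Impr.wt_flp y i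
    split_ifs with hi
    · rw [if_pos hi] at h
      congr 1
      omega
    · rw [if_neg hi] at h
      congr 1
      omega
  simp only [h1]
  rw [Finset.sum_ite, Finset.sum_const, Finset.sum_const]
  have h2 : (((univ.filter fun i => ¬ y i = true).card : ℕ) : ℝ[X])
      = (n : ℝ[X]) - (Impr.wt y : ℝ[X]) := by
    have := Finset.card_filter_add_card_filter_not (s := (univ : Finset (Fin n)))
      (fun i => y i = true)
    rw [Finset.card_univ, Fintype.card_fin] at this
    have h3 : (((univ.filter fun i => y i = true).card : ℕ) : ℝ[X])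
      + (((univ.filter fun i => ¬ y i = true).card : ℕ) : ℝ[X]) = n := by exact_mod_cast this
    unfold Impr.wt
    rw [← h3]
    ring
  rw [nsmul_eq_mul, nsmul_eq_mul, h2]
  rfl

theorem lop_mp {n : ℕ} (l : ℝ) (h : (Fin n → Bool) → ℝ) :
    lop n l (mp h) = mp (fun y => (∑ i, h (Tensor.flp y i)) - l * h y) := by
  have h1 : mp (fun y => (∑ i, h (Tensor.flp y i)) - l * h y)
      = (∑ y, C (h y) * ∑ i, (X : ℝ[X]) ^ Impr.wt (Tensor.flp y i)) - C l * mp h := by
    unfold mp
    simp only [C_sub, C_mul, map_sum, sub_mul, Finset.sum_mul, Finset.sum_sub_distrib,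
      Finset.mul_sum]
    congr 1
    · rw [Finset.sum_comm]
      conv_rhs => rw [Finset.sum_comm]
      apply Finset.sum_congr rfl
      intro i _
      have h2 := Fintype.sum_equiv (Tensor.flpPerm i)
        (fun y : Fin n → Bool => C (h (Tensor.flp y i)) * (X : ℝ[X]) ^ Impr.wt y)
        (fun y : Fin n → Bool => C (h y) * (X : ℝ[X]) ^ Impr.wt (Tensor.flp y i)) ?_
      · exact h2
      · intro y
        show _ = C (h (Tensor.flp y i)) * (X : ℝ[X]) ^ Impr.wt (Tensor.flp (Tensor.flp y i) i)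
        rw [Tensor.flp_flp]
    · apply Finset.sum_congr rfl
      intro y _
      ring
  rw [h1]
  unfold lop
  have h3 : derivative (mp h) = ∑ y, C (h y) * ((Impr.wt y : ℝ[X]) * X ^ (Impr.wt y - 1)) := by
    unfold mp
    rw [derivative_sum]
    apply Finset.sum_congr rfl
    intro y _
    rw [derivative_C_mul, derivative_X_pow]
    simp
  rw [h3]
  have h4 : (1 - X ^ 2) * (∑ y, C (h y) * ((Impr.wt y : ℝ[X]) * X ^ (Impr.wt y - 1)))
      + C (n : ℝ) * X * mp h
      = ∑ y, C (h y) * ∑ i, (X : ℝ[X]) ^ Impr.wt (Tensor.flp y i) := by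
    unfold mp
    rw [Finset.mul_sum, Finset.mul_sum, ← Finset.sum_add_distrib]
    apply Finset.sum_congr rfl
    intro y _
    rw [mp_sum_flp]
    have h5 : C (n : ℝ) = (n : ℝ[X]) := by simp
    rw [h5]
    rcases Nat.eq_zero_or_pos (Impr.wt y) with h6 | h6
    · rw [h6]
      simp
      ring
    · obtain ⟨m, hm⟩ : ∃ m, Impr.wt y = m + 1 := ⟨Impr.wt y - 1, by omega⟩
      rw [hm]
      have h7 : m + 1 - 1 = m := by omega
      rw [h7]
      push_cast
      ring
  rw [← h4]
  ring

end Pool.Agent.Lib.MP_0430e4_lc.All
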