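import Pool.Agent.Lib.MP_0430e4_lc.All.Defs

/-!
# Positivity of the block-deformed multinomial coefficients

`TT q M p p' L N = ∑ s, (-q)^s C(M,s) / ((p-s)! (p'-s)! (L+s)! (N+s)!)`, `0 < q ≤ 1/2`, is positive
in an explicit region; the proof is a monotone recursion for the ratio `q M UU / TT`.
-/

set_option autoImplicit false

namespace Pool.Agent.Lib.MP_0430e4_lc.All

open Finset

/-- The term of `TT`. -/
noncomputable def tm (p p' L N s : ℕ) : ℝ :=
  if s ≤ p ∧ s ≤ p' then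
    1 / (((p - s).factorial : ℝ) * ((p' - s).factorial : ℝ) * ((L + s).factorial : ℝ)
      * ((N + s).factorial : ℝ))
  else 0

/-- The block-deformed multinomial coefficient. -/
noncomputable def TT (q : ℝ) (M p p' L N : ℕ) : ℝ :=
  ∑ s ∈ range (M + 1), (-q) ^ s * ((M.choose s : ℕ) : ℝ) * tm p p' L N s

/-- The shifted coefficient. -/
noncomputable def UU (q : ℝ) (M p p' L N : ℕ) : ℝ :=
  if 1 ≤ p ∧ 1 ≤ p' then TT q (M - 1) (p - 1) (p' - 1) (L + 1) (N + 1) else 0

theorem tm_shift (p p' L N s : ℕ) :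
    tm (p + 1) (p' + 1) L N (s + 1) = tm p p' (L + 1) (N + 1) s := by
  unfold tm
  have h : (s + 1 ≤ p + 1 ∧ s + 1 ≤ p' + 1) ↔ (s ≤ p ∧ s ≤ p') := by omega
  by_cases h1 : s ≤ p ∧ s ≤ p'
  · rw [if_pos (h.2 h1), if_pos h1]
    have e1 : p + 1 - (s + 1) = p - s := by omega
    have e2 : p' + 1 - (s + 1) = p' - s := by omega
    have e3 : L + (s + 1) = L + 1 + s := by omega
    have e4 : N + (s + 1) = N + 1 + s := by omega
    rw [e1, e2, e3, e4]
  · rw [if_neg (fun h2 => h1 (h.1 h2)), if_neg h1]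

theorem tm_p (p p' L N s : ℕ) :
    tm p p' L N s = (((p : ℝ) + 1) - s) * tm (p + 1) p' L N s := by
  unfold tm
  by_cases h1 : s ≤ p ∧ s ≤ p'
  · have h2 : s ≤ p + 1 ∧ s ≤ p' := ⟨by omega, h1.2⟩
    rw [if_pos h1, if_pos h2]
    have e1 : p + 1 - s = (p - s) + 1 := by omega
    have e2 : ((p : ℝ) + 1) - s = ((p - s : ℕ) : ℝ) + 1 := by
      rw [Nat.cast_sub h1.1]
      ring
    rw [e1, e2, Nat.factorial_succ]
    have h3 : (((p - s : ℕ) : ℝ) + 1) ≠ 0 := by positivity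
    have h4 : (((p - s).factorial : ℕ) : ℝ) ≠ 0 := by positivity
    push_cast
    field_simp
  · rw [if_neg h1]
    by_cases h2 : s ≤ p + 1 ∧ s ≤ p'
    · have h3 : s = p + 1 := by omega
      rw [h3]
      push_cast
      ring
    · rw [if_neg h2, mul_zero]

theorem tm_comm (p p' L N s : ℕ) : tm p p' L N s = tm p' p L N s := by
  unfold tm
  by_cases h1 : s ≤ p ∧ s ≤ p'
  · rw [if_pos h1, if_pos ⟨h1.2, h1.1⟩]
    congr 1
    ring
  · rw [if_neg h1, if_neg (fun h2 => h1 ⟨h2.2, h2.1⟩)]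

theorem tm_comm2 (p p' L N s : ℕ) : tm p p' L N s = tm p p' N L s := by
  unfold tm
  split_ifs
  · congr 1
    ring
  · rfl

theorem tm_L (p p' L N s : ℕ) :
    tm p p' L N s = (((L : ℝ) + 1) + s) * tm p p' (L + 1) N s := by
  unfold tm
  split_ifs
  · have e1 : L + 1 + s = (L + s) + 1 := by omega
    rw [e1, Nat.factorial_succ]
    have h3 : ((L : ℝ) + 1 + s) ≠ 0 := by positivity
    have h4 : (((L + s).factorial : ℕ) : ℝ) ≠ 0 := by positivity
    push_cast
    have e2 : (L : ℝ) + s + 1 = L + 1 + s := by ring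
    rw [e2]
    field_simp
  · rw [mul_zero]

/-- Absorption: `∑ s (-q)^s C(M,s) s x_s = - q M ∑ (-q)^s C(M-1,s) x_{s+1}`. -/
theorem absorb (q : ℝ) (M : ℕ) (x : ℕ → ℝ) :
    ∑ s ∈ range (M + 1), (-q) ^ s * ((M.choose s : ℕ) : ℝ) * ((s : ℝ) * x s)
      = -(q * M * ∑ s ∈ range (M - 1 + 1), (-q) ^ s * (((M - 1).choose s : ℕ) : ℝ)
        * x (s + 1)) := by
  rcases M with _ | M
  · simp
  · rw [Finset.sum_range_succ']
    simp only [Nat.add_sub_cancel, Nat.cast_zero, zero_mul, mul_zero, add_zero]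
    rw [← neg_mul, Finset.mul_sum]
    refine Finset.sum_congr rfl fun s _ => ?_
    have h1 : ((M : ℝ) + 1) * ((M.choose s : ℕ) : ℝ)
        = (((M + 1).choose (s + 1) : ℕ) : ℝ) * ((s : ℝ) + 1) := by
      have := Nat.add_one_mul_choose_eq M s
      exact_mod_cast this
    push_cast
    rw [pow_succ]
    have : (-q) ^ s * -q * (((M + 1).choose (s + 1) : ℕ) : ℝ)
        * (((s : ℝ) + 1) * x (s + 1))
        = (-q) ^ s * -q * ((((M + 1).choose (s + 1) : ℕ) : ℝ) * ((s : ℝ) + 1))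
          * x (s + 1) := by ring
    rw [this, ← h1]
    ring

theorem UU_succ (q : ℝ) (M p p' L N : ℕ) :
    UU q M (p + 1) (p' + 1) L N = ∑ s ∈ range (M - 1 + 1), (-q) ^ s
      * (((M - 1).choose s : ℕ) : ℝ) * tm (p + 1) (p' + 1) L N (s + 1) := by
  unfold UU TT
  rw [if_pos ⟨by omega, by omega⟩]
  simp only [Nat.add_sub_cancel]
  refine Finset.sum_congr rfl fun s _ => ?_
  rw [tm_shift]

theorem UU_eq (q : ℝ) (M p p' L N : ℕ) :
    UU q M p p' L N = ∑ s ∈ range (M - 1 + 1), (-q) ^ s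
      * (((M - 1).choose s : ℕ) : ℝ) * tm p p' L N (s + 1) := by
  rcases p with _ | p
  · unfold UU tm
    simp
  · rcases p' with _ | p'
    · unfold UU tm
      simp
    · exact UU_succ q M p p' L N

/-- (R1) -/
theorem TT_p (q : ℝ) (M p p' L N : ℕ) :
    TT q M p p' L N
      = ((p : ℝ) + 1) * TT q M (p + 1) p' L N + q * M * UU q M (p + 1) p' L N := by
  have h := absorb q M (fun s => tm (p + 1) p' L N s)
  rw [← UU_eq] at h
  have h2 : TT q M p p' L N = ((p : ℝ) + 1) * TT q M (p + 1) p' L N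
      - ∑ s ∈ range (M + 1), (-q) ^ s * ((M.choose s : ℕ) : ℝ)
        * ((s : ℝ) * tm (p + 1) p' L N s) := by
    unfold TT
    rw [Finset.mul_sum, ← Finset.sum_sub_distrib]
    refine Finset.sum_congr rfl fun s _ => ?_
    rw [tm_p]
    ring
  rw [h2, h]
  ring

/-- (R3) -/
theorem TT_L (q : ℝ) (M p p' L N : ℕ) :
    TT q M p p' L N
      = ((L : ℝ) + 1) * TT q M p p' (L + 1) N - q * M * UU q M p p' (L + 1) N := by
  have h := absorb q M (fun s => tm p p' (L + 1) N s)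
  rw [← UU_eq] at h
  have h2 : TT q M p p' L N = ((L : ℝ) + 1) * TT q M p p' (L + 1) N
      + ∑ s ∈ range (M + 1), (-q) ^ s * ((M.choose s : ℕ) : ℝ)
        * ((s : ℝ) * tm p p' (L + 1) N s) := by
    unfold TT
    rw [Finset.mul_sum, ← Finset.sum_add_distrib]
    refine Finset.sum_congr rfl fun s _ => ?_
    rw [tm_L]
    ring
  rw [h2, h]
  ring

theorem TT_comm (q : ℝ) (M p p' L N : ℕ) : TT q M p p' L N = TT q M p' p L N := by
  unfold TT
  refine Finset.sum_congr rfl fun s _ => ?_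
  rw [tm_comm]

theorem TT_comm2 (q : ℝ) (M p p' L N : ℕ) : TT q M p p' L N = TT q M p p' N L := by
  unfold TT
  refine Finset.sum_congr rfl fun s _ => ?_
  rw [tm_comm2]

theorem UU_comm (q : ℝ) (M p p' L N : ℕ) : UU q M p p' L N = UU q M p' p L N := by
  unfold UU
  by_cases h : 1 ≤ p ∧ 1 ≤ p'
  · rw [if_pos h, if_pos ⟨h.2, h.1⟩, TT_comm]
  · rw [if_neg h, if_neg (fun h2 => h ⟨h2.2, h2.1⟩)]

theorem UU_comm2 (q : ℝ) (M p p' L N : ℕ) : UU q M p p' L N = UU q M p p' N L := by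
  unfold UU
  split_ifs
  · rw [TT_comm2]
  · rfl

/-- (R2) -/
theorem TT_p' (q : ℝ) (M p p' L N : ℕ) :
    TT q M p p' L N
      = ((p' : ℝ) + 1) * TT q M p (p' + 1) L N + q * M * UU q M p (p' + 1) L N := by
  rw [TT_comm, TT_p, TT_comm q M (p' + 1) p, UU_comm]

/-- (R4) -/
theorem TT_N (q : ℝ) (M p p' L N : ℕ) :
    TT q M p p' L N
      = ((N : ℝ) + 1) * TT q M p p' L (N + 1) - q * M * UU q M p p' L (N + 1) := by
  rw [TT_comm2, TT_L, TT_comm2 q M p p' (N + 1) L, UU_comm2]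

/-- (R5) -/
theorem TT_M (q : ℝ) (M p p' L N : ℕ) (hM : 1 ≤ M) :
    TT q (M - 1) p p' L N = TT q M p p' L N + q * UU q M p p' L N := by
  obtain ⟨m, rfl⟩ : ∃ m, M = m + 1 := ⟨M - 1, by omega⟩
  rw [UU_eq]
  simp only [Nat.add_sub_cancel]
  unfold TT
  rw [Finset.sum_range_succ' _ (m + 1)]
  simp only [pow_zero, Nat.choose_zero_right, Nat.cast_one, mul_one, one_mul]
  have h1 : ∑ s ∈ range (m + 1), (-q) ^ (s + 1) * (((m + 1).choose (s + 1) : ℕ) : ℝ)
      * tm p p' L N (s + 1)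
      = ∑ s ∈ range (m + 1), (-q) ^ (s + 1) * ((m.choose (s + 1) : ℕ) : ℝ)
      * tm p p' L N (s + 1)
      - q * ∑ s ∈ range (m + 1), (-q) ^ s * ((m.choose s : ℕ) : ℝ)
      * tm p p' L N (s + 1) := by
    rw [Finset.mul_sum, ← Finset.sum_sub_distrib]
    refine Finset.sum_congr rfl fun s _ => ?_
    rw [Nat.choose_succ_succ]
    push_cast
    ring
  rw [h1]
  have h2 : ∑ s ∈ range (m + 1), (-q) ^ s * ((m.choose s : ℕ) : ℝ) * tm p p' L N s
      = ∑ s ∈ range (m + 1), (-q) ^ (s + 1) * ((m.choose (s + 1) : ℕ) : ℝ)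
      * tm p p' L N (s + 1) + tm p p' L N 0 := by
    have h3 := Finset.sum_range_succ' (fun s => (-q) ^ s * ((m.choose s : ℕ) : ℝ)
      * tm p p' L N s) (m + 1)
    rw [Finset.sum_range_succ] at h3
    simp only [Nat.choose_succ_self, Nat.cast_zero, mul_zero, zero_mul, add_zero, pow_zero,
      Nat.choose_zero_right, Nat.cast_one, mul_one, one_mul] at h3
    exact h3
  rw [h2]
  ring

/-- Monotonicity of the ratio bound. -/
theorem rb_mono {c M T u D1 D2 a1 a2 : ℝ} (hc : 0 ≤ c) (hM : 0 ≤ M) (hT : 0 ≤ T) (hu : 0 ≤ u)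
    (ha : a1 ≤ a2) (hD : D2 ≤ D1)
    (h : u * (D1 - c * a1) ≤ M * c * a1 * T) :
    u * (D2 - c * a2) ≤ M * c * a2 * T := by
  have h0 : c * a1 ≤ c * a2 := mul_le_mul_of_nonneg_left ha hc
  have h1 : D2 - c * a2 ≤ D1 - c * a1 := by linarith
  have hMT : 0 ≤ M * c * T := by positivity
  calc u * (D2 - c * a2) ≤ u * (D1 - c * a1) := mul_le_mul_of_nonneg_left h1 hu
    _ ≤ M * c * a1 * T := h
    _ = M * c * T * a1 := by ring
    _ ≤ M * c * T * a2 := mul_le_mul_of_nonneg_left ha hMT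
    _ = M * c * a2 * T := by ring

/-- The algebraic heart of the induction step. -/
theorem step_alg {q M P P' l1 n1 TA TB TC TE UB UC UE : ℝ} (hq0 : 0 < q) (hq1 : q ≤ 1 / 2)
    (hM : 1 ≤ M) (hP : 1 ≤ P)
    (hP' : 1 ≤ P') (hl : 0 < l1) (hn : 0 < n1)
    (h32 : 2 * (P * P') ≤ 3 * (l1 * n1)) (hMP : 1000 * (q * M) * P ≤ l1 * n1)
    (hMP' : 1000 * (q * M) * P' ≤ l1 * n1) (hMl : 1000 * (q * M) ≤ l1)
    (hMn : 1000 * (q * M) ≤ n1)
    (hTC : 0 < TC) (hTE : 0 < TE) (hTB : 0 < TB)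
    (hUB0 : 0 ≤ UB) (hUC0 : 0 ≤ UC) (hUE0 : 0 ≤ UE)
    (hB : UB * (l1 * n1 - 7 / 6 * q * (P * P')) ≤ M * (7 / 6 * q) * (P * P') * TB)
    (hC : UC * (l1 * n1 - 7 / 6 * q * (P * P')) ≤ M * (7 / 6 * q) * (P * P') * TC)
    (hE : UE * (l1 * n1 - 7 / 6 * q * (P * P')) ≤ M * (7 / 6 * q) * (P * P') * TE)
    (eA : TA = n1 * TB - UB) (eB : TB = l1 * TC - UC) (eE : TE = P' * TC + UC) :
    q * (M * TE + UE) * (l1 * n1 - 7 / 6 * q * (P * P') + M * (7 / 6 * q) * P')
      ≤ M * (7 / 6 * q) * P' * TA := by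
  set D := l1 * n1 with hD
  have hD0 : 0 < D := by positivity
  have hPP : 0 < P * P' := by positivity
  have hqPP : q * (P * P') ≤ 1 / 2 * (P * P') := mul_le_mul_of_nonneg_right hq1 hPP.le
  have hq : D / 8 ≤ D - 7 / 6 * q * (P * P') := by linarith
  have hqM : 0 < q * M := by positivity
  have bound : ∀ {U T : ℝ}, 0 ≤ U → 0 < T →
      U * (D - 7 / 6 * q * (P * P')) ≤ M * (7 / 6 * q) * (P * P') * T →
      U ≤ 14 * (q * M) * T ∧ U ≤ 14 / 1000 * P' * T := by
    intro U T hU hT h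
    have h1 : U * (D / 8) ≤ M * (7 / 6 * q) * (P * P') * T :=
      (mul_le_mul_of_nonneg_left hq hU).trans h
    have hMT : 0 ≤ q * M * T := by positivity
    constructor
    · have h2 : M * (7 / 6 * q) * (P * P') * T ≤ M * (7 / 6 * q) * (3 / 2 * D) * T := by
        have h3 : P * P' ≤ 3 / 2 * D := by linarith
        have h4 := mul_le_mul_of_nonneg_left h3 hMT
        calc M * (7 / 6 * q) * (P * P') * T = 7 / 6 * (q * M * T * (P * P')) := by ring
          _ ≤ 7 / 6 * (q * M * T * (3 / 2 * D)) := by linarith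
          _ = _ := by ring
      have h3 : U * D ≤ 14 * (q * M) * T * D := by
        have h4 : M * (7 / 6 * q) * (3 / 2 * D) * T = 14 / 8 * (q * M * T * D) := by ring
        have h5 : 14 * (q * M) * T * D = 14 * (q * M * T * D) := by ring
        rw [h5]
        linarith
      exact le_of_mul_le_mul_right h3 hD0
    · have h2 : M * (7 / 6 * q) * (P * P') * T ≤ 7 / 6 * (D / 1000) * P' * T := by
        have h3 : q * M * P ≤ D / 1000 := by linarith
        have h4 : 0 ≤ P' * T := by positivity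
        have h5 := mul_le_mul_of_nonneg_right h3 h4
        calc M * (7 / 6 * q) * (P * P') * T = 7 / 6 * (q * M * P * (P' * T)) := by ring
          _ ≤ 7 / 6 * (D / 1000 * (P' * T)) := by linarith
          _ = _ := by ring
      have h3 : U * D ≤ 14 / 1000 * P' * T * D := by
        have h4 : 0 ≤ P' * T * D := by positivity
        have h5 : 7 / 6 * (D / 1000) * P' * T = 7 / 6000 * (P' * T * D) := by ring
        have h6 : 14 / 1000 * P' * T * D = 14 / 1000 * (P' * T * D) := by ring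
        rw [h6]
        linarith
      exact le_of_mul_le_mul_right h3 hD0
  obtain ⟨bB1, -⟩ := bound hUB0 hTB hB
  obtain ⟨bC1, bC2⟩ := bound hUC0 hTC hC
  obtain ⟨bE1, -⟩ := bound hUE0 hTE hE
  -- consequences
  have cB : UB ≤ 14 / 1000 * n1 * TB := by
    have h1 : 14 * (q * M) ≤ 14 / 1000 * n1 := by linarith
    exact bB1.trans (mul_le_mul_of_nonneg_right h1 hTB.le)
  have cC : UC ≤ 14 / 1000 * l1 * TC := by
    have h1 : 14 * (q * M) ≤ 14 / 1000 * l1 := by linarith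
    exact bC1.trans (mul_le_mul_of_nonneg_right h1 hTC.le)
  have hTA : D * (1 - 14 / 1000) ^ 2 * TC ≤ TA := by
    have h1 : (1 - 14 / 1000) * l1 * TC ≤ TB := by linarith
    have h2 : (1 - 14 / 1000) * n1 * TB ≤ TA := by linarith
    have h3 : (1 - 14 / 1000) * n1 * ((1 - 14 / 1000) * l1 * TC) ≤ (1 - 14 / 1000) * n1 * TB :=
      mul_le_mul_of_nonneg_left h1 (by positivity)
    calc D * (1 - 14 / 1000) ^ 2 * TC = (1 - 14 / 1000) * n1 * ((1 - 14 / 1000) * l1 * TC) := by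
          rw [hD]
          ring
      _ ≤ _ := h3.trans h2
  have hTE2 : TE ≤ (1 + 14 / 1000) * P' * TC := by linarith
  -- main
  have m1 : (M * TE + UE) * (D - 7 / 6 * q * (P * P')) ≤ M * D * TE := by
    have : (M * TE + UE) * (D - 7 / 6 * q * (P * P'))
        = M * D * TE - M * (7 / 6 * q) * (P * P') * TE + UE * (D - 7 / 6 * q * (P * P')) := by
      ring
    linarith
  have m2 : (M * TE + UE) * (M * (7 / 6 * q) * P') ≤ 14 / 1000 * (M * D * TE) := by
    have h0 : q * M * TE ≤ 1 / 2 * (M * TE) := by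
      have := mul_le_mul_of_nonneg_right hq1 (by positivity : 0 ≤ M * TE)
      linarith
    have h1 : M * TE + UE ≤ 8 * (M * TE) := by linarith
    have h2 : q * M * P' ≤ D / 1000 := by linarith
    have h3 : 0 ≤ M * (7 / 6 * q) * P' := by positivity
    have h4 : (M * TE + UE) * (M * (7 / 6 * q) * P') ≤ 8 * (M * TE) * (M * (7 / 6 * q) * P') :=
      mul_le_mul_of_nonneg_right h1 h3
    have h5 : 8 * (M * TE) * (M * (7 / 6 * q) * P') = 28 / 3 * (M * TE * (q * M * P')) := by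
      ring
    have h6 : M * TE * (q * M * P') ≤ M * TE * (D / 1000) :=
      mul_le_mul_of_nonneg_left h2 (by positivity)
    have h7 : 0 ≤ M * D * TE := by positivity
    have h8 : M * TE * (D / 1000) = 1 / 1000 * (M * D * TE) := by ring
    linarith
  have m3 : q * (M * TE + UE) * (D - 7 / 6 * q * (P * P') + M * (7 / 6 * q) * P')
      ≤ q * ((1 + 14 / 1000) * (M * D * TE)) := by
    have : q * (M * TE + UE) * (D - 7 / 6 * q * (P * P') + M * (7 / 6 * q) * P')
        = q * ((M * TE + UE) * (D - 7 / 6 * q * (P * P'))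
          + (M * TE + UE) * (M * (7 / 6 * q) * P')) := by ring
    rw [this]
    apply mul_le_mul_of_nonneg_left _ hq0.le
    linarith
  have m4 : q * ((1 + 14 / 1000) * (M * D * TE))
      ≤ q * ((1 + 14 / 1000) ^ 2 * (M * D * P' * TC)) := by
    apply mul_le_mul_of_nonneg_left _ hq0.le
    have h1 : M * D * TE ≤ M * D * ((1 + 14 / 1000) * P' * TC) :=
      mul_le_mul_of_nonneg_left hTE2 (by positivity)
    have h2 : (1 + 14 / 1000 : ℝ) ^ 2 * (M * D * P' * TC)
        = (1 + 14 / 1000) * (M * D * ((1 + 14 / 1000) * P' * TC)) := by ring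
    rw [h2]
    exact mul_le_mul_of_nonneg_left h1 (by norm_num)
  have m5 : M * (7 / 6 * q) * P' * (D * (1 - 14 / 1000) ^ 2 * TC) ≤ M * (7 / 6 * q) * P' * TA :=
    mul_le_mul_of_nonneg_left hTA (by positivity)
  have m6 : q * ((1 + 14 / 1000) ^ 2 * (M * D * P' * TC))
      ≤ M * (7 / 6 * q) * P' * (D * (1 - 14 / 1000) ^ 2 * TC) := by
    have h0 : 0 ≤ q * (M * D * P' * TC) := by positivity
    have e1 : M * (7 / 6 * q) * P' * (D * (1 - 14 / 1000) ^ 2 * TC)
        = (7 / 6) * (1 - 14 / 1000) ^ 2 * (q * (M * D * P' * TC)) := by ring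
    have e2 : q * ((1 + 14 / 1000) ^ 2 * (M * D * P' * TC))
        = (1 + 14 / 1000) ^ 2 * (q * (M * D * P' * TC)) := by ring
    rw [e1, e2]
    apply mul_le_mul_of_nonneg_right _ h0
    norm_num
  linarith

theorem TT_zero_left (q : ℝ) (M p' L N : ℕ) : 0 < TT q M 0 p' L N := by
  unfold TT
  rw [Finset.sum_range_succ']
  have h1 : ∑ s ∈ range M, (-q) ^ (s + 1) * ((M.choose (s + 1) : ℕ) : ℝ)
      * tm 0 p' L N (s + 1) = 0 := by
    apply Finset.sum_eq_zero
    intro s _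
    unfold tm
    rw [if_neg (by omega), mul_zero]
  rw [h1]
  unfold tm
  simp only [pow_zero, Nat.choose_zero_right, Nat.cast_one, zero_le, and_self, if_true]
  positivity

theorem UU_zero_left (q : ℝ) (M p' L N : ℕ) : UU q M 0 p' L N = 0 := by
  unfold UU
  rw [if_neg (by omega)]

/-- Positivity of `TT` and the ratio bound, in the region. -/
theorem pos_main {q : ℝ} (hq0 : 0 < q) (hq1 : q ≤ 1 / 2) {M : ℕ} (hM : 1 ≤ M) :
    ∀ p p' L N : ℕ,
    2 * ((p : ℝ) * p') ≤ 3 * (((L : ℝ) + 1) * ((N : ℝ) + 1)) →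
    1000 * (q * (M : ℝ)) * p ≤ ((L : ℝ) + 1) * ((N : ℝ) + 1) →
    1000 * (q * (M : ℝ)) * p' ≤ ((L : ℝ) + 1) * ((N : ℝ) + 1) →
    1000 * (q * (M : ℝ)) ≤ (L : ℝ) + 1 → 1000 * (q * (M : ℝ)) ≤ (N : ℝ) + 1 →
    0 < TT q M p p' L N ∧ 0 ≤ UU q M p p' L N ∧
      q * M * UU q M p p' L N * (((L : ℝ) + 1) * ((N : ℝ) + 1) - 7 / 6 * q * ((p : ℝ) * p'))
        ≤ M * (7 / 6 * q) * ((p : ℝ) * p') * TT q M p p' L N := by
  intro p
  induction p with
  | zero =>
    intro p' L N _ _ _ _ _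
    rw [UU_zero_left]
    refine ⟨TT_zero_left _ _ _ _ _, le_rfl, ?_⟩
    simp
  | succ p ih =>
    intro p' L N h32 hMP hMP' hMl hMn
    rcases p' with _ | p'
    · rw [TT_comm, UU_comm, UU_zero_left]
      refine ⟨TT_zero_left _ _ _ _ _, le_rfl, ?_⟩
      simp
    · have hM1 : (1 : ℝ) ≤ M := by exact_mod_cast hM
      have hM0 : (0 : ℝ) ≤ M := by linarith
      have hqM : 0 < q * (M : ℝ) := by positivity
      push_cast at h32 hMP hMP'
      have hp : (0 : ℝ) ≤ p := Nat.cast_nonneg p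
      have hp' : (0 : ℝ) ≤ p' := Nat.cast_nonneg p'
      have hL : (0 : ℝ) ≤ L := Nat.cast_nonneg L
      have hN : (0 : ℝ) ≤ N := Nat.cast_nonneg N
      set D : ℝ := ((L : ℝ) + 1) * ((N : ℝ) + 1) with hD
      have hD0 : 0 < D := by positivity
      have hDB : D ≤ ((L : ℝ) + 1) * ((N : ℝ) + 1 + 1) := by nlinarith
      have hDC : D ≤ ((L : ℝ) + 1 + 1) * ((N : ℝ) + 1 + 1) := by nlinarith
      have hPP : 0 < ((p : ℝ) + 1) * ((p' : ℝ) + 1) := by positivity
      have hqPP : q * (((p : ℝ) + 1) * ((p' : ℝ) + 1))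
          ≤ 1 / 2 * (((p : ℝ) + 1) * ((p' : ℝ) + 1)) := mul_le_mul_of_nonneg_right hq1 hPP.le
      have hq : 0 < D - 7 / 6 * q * (((p : ℝ) + 1) * ((p' : ℝ) + 1)) := by linarith
      have hMp : 1000 * (q * (M : ℝ)) * p ≤ D := by linarith
      have hMp' : 1000 * (q * (M : ℝ)) * p' ≤ D := by linarith
      have hpp1 : (p : ℝ) * ((p' : ℝ) + 1) ≤ ((p : ℝ) + 1) * ((p' : ℝ) + 1) := by nlinarith
      have hpp2 : (p : ℝ) * (p' : ℝ) ≤ ((p : ℝ) + 1) * ((p' : ℝ) + 1) := by nlinarith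
      have hc : (0 : ℝ) ≤ 7 / 6 * q := by positivity
      -- the four points
      obtain ⟨hA, -, -⟩ := ih (p' + 1) L N (by push_cast; linarith) (by linarith)
        (by push_cast; linarith) hMl hMn
      obtain ⟨hB, hB0, hB1⟩ := ih (p' + 1) L (N + 1) (by push_cast; linarith)
        (by push_cast; linarith) (by push_cast; linarith) hMl (by push_cast; linarith)
      obtain ⟨hC, hC0, hC1⟩ := ih (p' + 1) (L + 1) (N + 1) (by push_cast; linarith)
        (by push_cast; linarith) (by push_cast; linarith) (by push_cast; linarith)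
        (by push_cast; linarith)
      obtain ⟨hE, hE0, hE1⟩ := ih p' (L + 1) (N + 1) (by push_cast; linarith)
        (by push_cast; linarith) (by push_cast; linarith) (by push_cast; linarith)
        (by push_cast; linarith)
      push_cast at hB1 hC1 hE1
      have uB : 0 ≤ q * (M : ℝ) * UU q M p (p' + 1) L (N + 1) := by positivity
      have uC : 0 ≤ q * (M : ℝ) * UU q M p (p' + 1) (L + 1) (N + 1) := by positivity
      have uE : 0 ≤ q * (M : ℝ) * UU q M p p' (L + 1) (N + 1) := by positivity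
      have kB := rb_mono hc hM0 hB.le uB hpp1 hDB hB1
      have kC := rb_mono hc hM0 hC.le uC hpp1 hDC hC1
      have kE := rb_mono hc hM0 hE.le uE hpp2 hDC hE1
      have eA := TT_N q M p (p' + 1) L N
      have eB := TT_L q M p (p' + 1) L (N + 1)
      have eE := TT_p' q M p p' (L + 1) (N + 1)
      have key := step_alg (q := q) (M := M) (P := (p : ℝ) + 1) (P' := (p' : ℝ) + 1)
        (l1 := (L : ℝ) + 1)
        (n1 := (N : ℝ) + 1) hq0 hq1 hM1 (by linarith) (by linarith) (by linarith) (by linarith)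
        h32 hMP hMP' hMl hMn hC hE hB uB uC uE kB kC kE eA eB eE
      have eU : UU q M (p + 1) (p' + 1) L N = TT q M p p' (L + 1) (N + 1)
          + q * UU q M p p' (L + 1) (N + 1) := by
        rw [← TT_M q M p p' (L + 1) (N + 1) hM]
        unfold UU
        rw [if_pos ⟨by omega, by omega⟩]
        simp only [Nat.add_sub_cancel]
      have eR := TT_p q M p (p' + 1) L N
      have hU0 : 0 ≤ UU q M (p + 1) (p' + 1) L N := by
        rw [eU]
        positivity
      set TP := TT q M (p + 1) (p' + 1) L N with hTP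
      set UP := UU q M (p + 1) (p' + 1) L N with hUP
      set TA := TT q M p (p' + 1) L N with hTA
      have eU2 : q * (M : ℝ) * UP = q * ((M : ℝ) * TT q M p p' (L + 1) (N + 1)
          + q * M * UU q M p p' (L + 1) (N + 1)) := by
        rw [eU]
        ring
      rw [← eU2, ← hD] at key
      have hMP0 : 0 < (M : ℝ) * (7 / 6 * q) * ((p' : ℝ) + 1) := by positivity
      have hlt : q * (M : ℝ) * UP < TA := by
        by_contra hcon
        have h1 : TA ≤ q * (M : ℝ) * UP := not_lt.1 hcon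
        have h2 : TA * (D - 7 / 6 * q * (((p : ℝ) + 1) * ((p' : ℝ) + 1))
            + M * (7 / 6 * q) * ((p' : ℝ) + 1)) ≤ q * (M : ℝ) * UP
            * (D - 7 / 6 * q * (((p : ℝ) + 1) * ((p' : ℝ) + 1))
            + M * (7 / 6 * q) * ((p' : ℝ) + 1)) :=
          mul_le_mul_of_nonneg_right h1 (by linarith)
        have h3 := mul_pos hA hq
        have h4 : TA * (D - 7 / 6 * q * (((p : ℝ) + 1) * ((p' : ℝ) + 1))
            + M * (7 / 6 * q) * ((p' : ℝ) + 1))
            = TA * (D - 7 / 6 * q * (((p : ℝ) + 1) * ((p' : ℝ) + 1)))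
            + M * (7 / 6 * q) * ((p' : ℝ) + 1) * TA := by ring
        linarith
      have hTP0 : 0 < TP := by
        have h1 : 0 < ((p : ℝ) + 1) * TP := by linarith
        exact (pos_iff_pos_of_mul_pos h1).1 (by positivity)
      refine ⟨hTP0, hU0, ?_⟩
      push_cast
      have h3 : (M : ℝ) * (7 / 6 * q) * (((p : ℝ) + 1) * ((p' : ℝ) + 1)) * TP
          = M * (7 / 6 * q) * ((p' : ℝ) + 1) * (TA - q * M * UP) := by
        rw [eR]
        ring
      rw [h3]
      have h5 : q * (M : ℝ) * UP * (D - 7 / 6 * q * (((p : ℝ) + 1) * ((p' : ℝ) + 1))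
          + M * (7 / 6 * q) * ((p' : ℝ) + 1))
          = q * (M : ℝ) * UP * (D - 7 / 6 * q * (((p : ℝ) + 1) * ((p' : ℝ) + 1)))
          + M * (7 / 6 * q) * ((p' : ℝ) + 1) * (q * M * UP) := by ring
      have h6 : M * (7 / 6 * q) * ((p' : ℝ) + 1) * (TA - q * M * UP)
          = M * (7 / 6 * q) * ((p' : ℝ) + 1) * TA
            - M * (7 / 6 * q) * ((p' : ℝ) + 1) * (q * M * UP) := by ring
      rw [h6]
      linarith

end Pool.Agent.Lib.MP_0430e4_lc.All
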