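import Pool.Agent.Lib.MP_0430e4_lc.All.Defs
import Mathlib.Analysis.Calculus.LocalExtr.Polynomial

/-!
# Real-rootedness of the pair polynomials
-/

set_option autoImplicit false

namespace Pool.Agent.Lib.MP_0430e4_lc.All

open Finset Polynomial

/-- Rolle: the derivative of a real-rooted polynomial is real-rooted. -/
theorem root_splits_derivative {p : ℝ[X]} (hp : p.Splits) : (derivative p).Splits := by
  by_cases h0 : p.natDegree = 0
  · rw [Polynomial.eq_C_of_natDegree_eq_zero h0]
    simp [Splits.zero]
  · rw [splits_iff_card_roots]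
    have h1 := card_roots_le_derivative p
    have h2 := hp.natDegree_eq_card_roots
    have h3 : (derivative p).natDegree = p.natDegree - 1 := natDegree_derivative p
    have h4 := (derivative p).card_roots'
    omega

theorem root_splits_iterate {p : ℝ[X]} (hp : p.Splits) (k : ℕ) : (derivative^[k] p).Splits := by
  induction k with
  | zero => simpa using hp
  | succ k ih =>
    rw [Function.iterate_succ_apply']
    exact root_splits_derivative ih

theorem root_leibniz {m a D : ℕ} (h : a + D ≤ m) :
    derivative^[a] ((X - C (1 : ℝ)) ^ (a + D) * (X + C (1 : ℝ)) ^ (m - D))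
      = (X - C (1 : ℝ)) ^ D * (X + C (1 : ℝ)) ^ (m - D - a) *
        (C ((((a + D).factorial * (m - D).factorial : ℕ) : ℝ) / (m.factorial : ℝ)) *
        ∑ k ∈ range (a + 1), C (((a.choose k : ℕ) : ℝ) * ((m.choose (D + k) : ℕ) : ℝ)) *
          ((X - C (1 : ℝ)) ^ k * (X + C (1 : ℝ)) ^ (a - k))) := by
  rw [iterate_derivative_mul, mul_sum, mul_sum]
  refine sum_congr rfl fun k hk => ?_
  have hk : k ≤ a := by simpa [Nat.lt_succ_iff] using hk
  rw [iterate_derivative_X_sub_pow, iterate_derivative_X_add_pow]
  have e1 : a + D - (a - k) = D + k := by omega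
  have e2 : m - D - k = (m - D - a) + (a - k) := by omega
  rw [e1, e2, pow_add, pow_add]
  have key : ((a.choose k : ℕ) : ℝ) * (((a + D).descFactorial (a - k) : ℕ) : ℝ) *
      (((m - D).descFactorial k : ℕ) : ℝ)
      = (((a + D).factorial * (m - D).factorial : ℕ) : ℝ) / (m.factorial : ℝ) *
        (((a.choose k : ℕ) : ℝ) * ((m.choose (D + k) : ℕ) : ℝ)) := by
    have f1 := Nat.factorial_mul_descFactorial (show a - k ≤ a + D by omega)
    have f2 := Nat.factorial_mul_descFactorial (show k ≤ m - D by omega)
    have f3 := Nat.choose_mul_factorial_mul_factorial (show D + k ≤ m by omega)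
    rw [show a + D - (a - k) = D + k by omega] at f1
    rw [show m - (D + k) = m - D - k by omega] at f3
    have g1 : ((D + k).factorial : ℝ) * (((a + D).descFactorial (a - k) : ℕ) : ℝ)
      = ((a + D).factorial : ℝ) := by exact_mod_cast f1
    have g2 : ((m - D - k).factorial : ℝ) * (((m - D).descFactorial k : ℕ) : ℝ)
      = ((m - D).factorial : ℝ) := by exact_mod_cast f2
    have g3 : ((m.choose (D + k) : ℕ) : ℝ) * ((D + k).factorial : ℝ) *
      ((m - D - k).factorial : ℝ) = (m.factorial : ℝ) := by exact_mod_cast f3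
    have hm : (m.factorial : ℝ) ≠ 0 := by exact_mod_cast (Nat.factorial_pos m).ne'
    push_cast
    rw [← g1, ← g2]
    field_simp
    rw [← g3]
    ring
  rw [nsmul_eq_mul, nsmul_eq_mul, nsmul_eq_mul]
  have key' := congrArg (C : ℝ → ℝ[X]) key
  simp only [C_mul, map_natCast] at key'
  have e3 : (X : ℝ[X]) - C 1 = X - C 1 := rfl
  simp only [C_mul, map_natCast]
  linear_combination ((X - C (1 : ℝ)) ^ D * (X - C (1 : ℝ)) ^ k *
    ((X + C (1 : ℝ)) ^ (m - D - a) * (X + C (1 : ℝ)) ^ (a - k))) * key'

/-- Moebius substitution. -/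
theorem root_moebius {a : ℕ} (c : ℕ → ℝ)
    (h : (∑ k ∈ range (a + 1), C (c k) * ((X - C (1 : ℝ)) ^ k *
      (X + C (1 : ℝ)) ^ (a - k))).Splits) :
    (∑ k ∈ range (a + 1), C (c k) * X ^ k : ℝ[X]).Splits := by
  set Q : ℝ[X] := ∑ k ∈ range (a + 1), C (c k) * ((X - C (1 : ℝ)) ^ k *
      (X + C (1 : ℝ)) ^ (a - k)) with hQ
  have hdeg : Q.natDegree ≤ a := by
    rw [hQ]
    refine natDegree_sum_le_of_forall_le _ _ fun k hk => ?_
    have hk : k ≤ a := by simpa [Nat.lt_succ_iff] using hk
    refine (natDegree_C_mul_le _ _).trans ?_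
    refine natDegree_mul_le.trans ?_
    have h1 : ((X - C (1 : ℝ)) ^ k).natDegree ≤ k := by
      refine natDegree_pow_le.trans ?_
      rw [natDegree_X_sub_C]; omega
    have h2 : ((X + C (1 : ℝ)) ^ (a - k)).natDegree ≤ a - k := by
      refine natDegree_pow_le.trans ?_
      rw [natDegree_X_add_C]; omega
    omega
  have hcard : Multiset.card Q.roots ≤ a := (Q.card_roots').trans hdeg
  have key : C ((2 : ℝ) ^ a) * ∑ k ∈ range (a + 1), C (c k) * X ^ k
      = C Q.leadingCoeff * (1 - X) ^ (a - Multiset.card Q.roots) *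
        (Q.roots.map fun r => (1 + X) - C r * (1 - X)).prod := by
    refine Polynomial.eq_of_infinite_eval_eq _ _ ?_
    refine Set.Infinite.mono (s := {v : ℝ | v ≠ 1}) ?_ ?_
    · intro v hv
      simp only [Set.mem_ofPred_eq] at hv ⊢
      have hv1 : (1 - v) ≠ 0 := sub_ne_zero.2 (Ne.symm hv)
      have e1 := h.eval_eq_prod_roots ((1 + v) / (1 - v))
      have e2 : (1 - v) ^ a * Q.eval ((1 + v) / (1 - v)) = 2 ^ a * ∑ k ∈ range (a + 1), c k * v ^ k := by
        rw [hQ, eval_finsetSum, mul_sum, mul_sum]
        refine sum_congr rfl fun k hk => ?_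
        have hk : k ≤ a := by simpa [Nat.lt_succ_iff] using hk
        simp only [eval_mul, eval_C, eval_pow, eval_sub, eval_add, eval_X]
        have a1 : (1 + v) / (1 - v) - 1 = 2 * v / (1 - v) := by field_simp; ring
        have a2 : (1 + v) / (1 - v) + 1 = 2 / (1 - v) := by field_simp; ring
        rw [a1, a2, div_pow, div_pow, mul_pow]
        have a3 : (1 - v) ^ a = (1 - v) ^ k * (1 - v) ^ (a - k) := by
          rw [← pow_add]; congr 1; omega
        have a4 : (2 : ℝ) ^ a = 2 ^ k * 2 ^ (a - k) := by
          rw [← pow_add]; congr 1; omega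
        rw [a3, a4]
        field_simp
      have e3 : (1 - v) ^ (Multiset.card Q.roots) *
          (Q.roots.map fun r => (1 + v) / (1 - v) - r).prod
          = (Q.roots.map fun r => (1 + v) - r * (1 - v)).prod := by
        rw [← Multiset.card_map (fun r => (1 + v) / (1 - v) - r) Q.roots]
        rw [Multiset.card_map]
        rw [← Multiset.prod_replicate, ← Multiset.map_const', ← Multiset.prod_map_mul]
        congr 1
        refine Multiset.map_congr rfl fun r _ => ?_
        field_simp
      have e4 : (1 - v) ^ a = (1 - v) ^ (a - Multiset.card Q.roots) *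
          (1 - v) ^ (Multiset.card Q.roots) := by
        rw [← pow_add]; congr 1; omega
      simp only [eval_mul, eval_C, eval_finsetSum, eval_pow, eval_X, eval_sub, eval_one]
      rw [← e2, e1, eval_multiset_prod, Multiset.map_map, e4]
      have e5 : (Q.roots.map (eval v ∘ fun r => (1 + X) - C r * (1 - X))).prod
          = (Q.roots.map fun r => (1 + v) - r * (1 - v)).prod := by
        congr 1
        refine Multiset.map_congr rfl fun r _ => ?_
        simp
      rw [e5, ← e3]
      ring
    · exact (Set.finite_singleton (1 : ℝ)).infinite_compl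
  have hs : (C ((2 : ℝ) ^ a) * ∑ k ∈ range (a + 1), C (c k) * X ^ k).Splits := by
    rw [key]
    refine Splits.mul (Splits.mul (Splits.C _) (Splits.pow ?_ _)) (Splits.multisetProd ?_)
    · refine Splits.of_natDegree_le_one ?_
      compute_degree
    · intro f hf
      obtain ⟨r, -, rfl⟩ := Multiset.mem_map.1 hf
      refine Splits.of_natDegree_le_one ?_
      compute_degree
  have h2 := hs.C_mul (((2 : ℝ) ^ a)⁻¹)
  rw [← mul_assoc, ← C_mul, inv_mul_cancel₀ (by positivity), C_1, one_mul] at h2
  exact h2

theorem root_gp_splits {n a D : ℕ} (h : 2 * a + D ≤ n) : (gp n a D).Splits := by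
  unfold gp
  refine root_moebius _ ?_
  have h1 := root_leibniz (m := n - a) (a := a) (D := D) (by omega)
  have h2 : (derivative^[a] ((X - C (1 : ℝ)) ^ (a + D) * (X + C (1 : ℝ)) ^ (n - a - D))).Splits :=
    root_splits_iterate (((Splits.X_sub_C 1).pow _).mul ((Splits.X_add_C 1).pow _)) _
  rw [h1] at h2
  set K : ℝ := (((a + D).factorial * (n - a - D).factorial : ℕ) : ℝ) / ((n - a).factorial : ℝ)
  have hK : K ≠ 0 := by
    have : (0 : ℝ) < K := by
      apply div_pos
      · exact_mod_cast Nat.mul_pos (Nat.factorial_pos _) (Nat.factorial_pos _)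
      · exact_mod_cast Nat.factorial_pos _
    exact this.ne'
  have h3 : ((X - C (1 : ℝ)) ^ D * (X + C (1 : ℝ)) ^ (n - a - D - a)) ≠ 0 :=
    mul_ne_zero (pow_ne_zero _ (X_sub_C_ne_zero 1)) (pow_ne_zero _ (X_add_C_ne_zero 1))
  have h4 := (splits_mul'.1 h2).2
  rcases h4 with h4 | h4
  · have h5 := h4.C_mul K⁻¹
    rw [← mul_assoc, ← C_mul, inv_mul_cancel₀ hK, C_1, one_mul] at h5
    exact h5
  · exact absurd h4 h3

theorem gp_roots {n a D : ℕ} (h : 2 * a + D ≤ n) :
    ∃ y : Fin a → ℝ, (∀ j, 0 < y j) ∧
      gp n a D = C ((((n - a).choose D : ℕ) : ℝ)) * rp y := by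
  have hs := root_gp_splits h
  have hcoeff : ∀ i, (gp n a D).coeff i = if i ≤ a then
      ((a.choose i : ℕ) : ℝ) * (((n - a).choose (D + i) : ℕ) : ℝ) else 0 := by
    intro i
    unfold gp
    simp only [finsetSum_coeff, coeff_C_mul, coeff_X_pow]
    rw [Finset.sum_eq_single i]
    · by_cases hi : i ≤ a
      · simp [hi]
      · rw [if_neg hi, Nat.choose_eq_zero_of_lt (by omega)]; simp
    · intro b _ hb
      rw [if_neg (Ne.symm hb), mul_zero]
    · intro hi
      have hi : a < i := by simpa using hi
      rw [Nat.choose_eq_zero_of_lt hi]; simp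
  have hdeg : (gp n a D).natDegree = a := by
    apply natDegree_eq_of_le_of_coeff_ne_zero
    · rw [natDegree_le_iff_coeff_eq_zero]
      intro i hi
      rw [hcoeff, if_neg (by omega)]
    · rw [hcoeff, if_pos le_rfl, Nat.choose_self]
      have := Nat.choose_pos (show D + a ≤ n - a by omega)
      positivity
  have hpos : ∀ v : ℝ, 0 ≤ v → 0 < (gp n a D).eval v := by
    intro v hv
    unfold gp
    rw [eval_finsetSum]
    refine Finset.sum_pos' ?_ ⟨0, by simp, ?_⟩
    · intro i _
      simp only [eval_mul, eval_C, eval_pow, eval_X]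
      positivity
    · have : (0 : ℝ) < (((n - a).choose D : ℕ) : ℝ) := by
        exact_mod_cast Nat.choose_pos (show D ≤ n - a by omega)
      simpa using this
  have hne : gp n a D ≠ 0 := by
    intro h0
    have := hpos 0 le_rfl
    rw [h0] at this
    simp at this
  have hcard : Multiset.card (gp n a D).roots = a := by
    rw [← hs.natDegree_eq_card_roots, hdeg]
  have hneg : ∀ r ∈ (gp n a D).roots, r < 0 := by
    intro r hr
    by_contra hr0
    have h1 := hpos r (not_lt.1 hr0)
    have h2 : (gp n a D).eval r = 0 := (mem_roots hne).1 hr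
    rw [h2] at h1
    exact lt_irrefl _ h1
  set l : List ℝ := (gp n a D).roots.toList with hl
  have hlen : l.length = a := by rw [hl, Multiset.length_toList, hcard]
  refine ⟨fun j => -(l.get (Fin.cast hlen.symm j))⁻¹, ?_, ?_⟩
  · intro j
    have : l.get (Fin.cast hlen.symm j) ∈ (gp n a D).roots := by
      rw [← Multiset.mem_toList]
      exact List.get_mem _ _
    have := hneg _ this
    have h2 := inv_lt_zero.2 this
    linarith
  · have e0 : (gp n a D).coeff 0 = (((n - a).choose D : ℕ) : ℝ) := by
      rw [hcoeff]; simp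
    have e1 := hs.eq_prod_roots
    have e2 : ((gp n a D).roots.map fun r => X - C r).prod
        = ((gp n a D).roots.map fun r => -C r).prod * ((gp n a D).roots.map fun r => 1 + C (-r⁻¹) * X).prod := by
      rw [← Multiset.prod_map_mul]
      congr 1
      refine Multiset.map_congr rfl fun r hr => ?_
      have hr := (hneg r hr).ne
      have : C r * C r⁻¹ = (1 : ℝ[X]) := by rw [← C_mul, mul_inv_cancel₀ hr, C_1]
      rw [C_neg]
      linear_combination (-X) * this
    have e3 : ((gp n a D).roots.map fun r => 1 + C (-r⁻¹) * X).prod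
        = rp (fun j : Fin a => -(l.get (Fin.cast hlen.symm j))⁻¹) := by
      have : (gp n a D).roots = (l : Multiset ℝ) := (Multiset.coe_toList _).symm
      rw [this, Multiset.map_coe, Multiset.prod_coe]
      unfold rp
      rw [← List.prod_ofFn]
      congr 1
      apply List.ext_get
      · simp [hlen]
      · intro k hk1 hk2
        simp
    have e4 : gp n a D = C (gp n a D).leadingCoeff *
        ((gp n a D).roots.map fun r => -C r).prod *
        rp (fun j : Fin a => -(l.get (Fin.cast hlen.symm j))⁻¹) := by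
      rw [← e3]
      conv_lhs => rw [e1, e2]
      ring
    have e5 : ((gp n a D).roots.map fun r => -C r).prod
        = C ((gp n a D).roots.map fun r => -r).prod := by
      rw [map_multiset_prod, Multiset.map_map]
      congr 1
      refine Multiset.map_congr rfl fun r _ => ?_
      simp
    rw [e5, ← C_mul] at e4
    set B := (gp n a D).leadingCoeff * ((gp n a D).roots.map fun r => -r).prod with hB
    have e6 : B = (((n - a).choose D : ℕ) : ℝ) := by
      rw [← e0, e4]
      unfold rp
      rw [coeff_zero_eq_eval_zero, eval_mul, eval_prod]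
      simp
    rw [e6] at e4
    exact e4

end Pool.Agent.Lib.MP_0430e4_lc.All
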